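import Pool.Agent.H945R2.R.Props2
import Pool.Agent.H945R2.E.ARIT

/-! ARIR: local arithmetic of the coefficients, ramified case, adapted from E/ARIT. -/

set_option autoImplicit false

open scoped Pointwise

namespace Pool.Agent.H945R2.R

open Pool.Agent.H918R2.Quad Pool.Agent.H945R2.D Pool.Agent.H945R2.S Pool.Agent.H945R2.E
  MvPolynomial

namespace ARIRaux

theorem exists_inv_pow {O : Type} [CommRing O] [IsDedekindDomain O] (𝔭 : Ideal O) [𝔭.IsPrime]
    (h0 : 𝔭 ≠ ⊥) {s : O} (hs : s ∉ 𝔭) (k : ℕ) : ∃ y i : O, i ∈ 𝔭 ^ k ∧ y * s + i = 1 := by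
  have hmax : 𝔭.IsMaximal := Ideal.IsPrime.isMaximal inferInstance h0
  obtain ⟨y, i, hi, hyi⟩ := hmax.exists_inv hs
  induction k with
  | zero => exact ⟨0, 1, by simp, by ring⟩
  | succ k ih =>
    obtain ⟨y', i', hi', h'⟩ := ih
    refine ⟨y' * (y * s + i) + i' * y, i' * i, ?_, ?_⟩
    · rw [pow_succ]
      exact Ideal.mul_mem_mul hi' hi
    · calc (y' * (y * s + i) + i' * y) * s + i' * i = (y' * s + i') * (y * s + i) := by ring
        _ = 1 := by rw [h', hyi, one_mul]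

theorem mem_pow {O : Type} [CommRing O] [IsDedekindDomain O] (𝔭 : Ideal O) [𝔭.IsPrime]
    (h0 : 𝔭 ≠ ⊥) {x s : O} (hs : s ∉ 𝔭) (k : ℕ) (h : s * x ∈ 𝔭 ^ k) : x ∈ 𝔭 ^ k := by
  obtain ⟨y, i, hi, hyi⟩ := exists_inv_pow 𝔭 h0 hs k
  have h1 : x = y * (s * x) + i * x := by
    calc x = 1 * x := (one_mul x).symm
      _ = (y * s + i) * x := by rw [hyi]
      _ = y * (s * x) + i * x := by ring
  rw [h1]
  exact Ideal.add_mem _ (Ideal.mul_mem_left _ _ h) (Ideal.mul_mem_right _ _ hi)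

theorem of_map {O : Type} [CommRing O] [IsDedekindDomain O] (𝔭 : Ideal O) [𝔭.IsPrime]
    (h0 : 𝔭 ≠ ⊥) {R : Type} [CommRing R] [IsDomain R] [Algebra O R]
    [IsLocalization.AtPrime R 𝔭] {x : O} (k : ℕ)
    (h1 : algebraMap O R x ∈ Ideal.map (algebraMap O R) (𝔭 ^ k)) : x ∈ 𝔭 ^ k := by
  rw [IsLocalization.mem_map_algebraMap_iff 𝔭.primeCompl R] at h1
  obtain ⟨⟨i, s⟩, h2⟩ := h1
  rw [← map_mul, IsLocalization.eq_iff_exists 𝔭.primeCompl R] at h2
  obtain ⟨c, hc⟩ := h2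
  have hcs : (c : O) * (s : O) ∉ 𝔭 := by
    intro h3
    rcases Ideal.IsPrime.mem_or_mem inferInstance h3 with h4 | h4
    · exact c.2 h4
    · exact s.2 h4
  refine mem_pow 𝔭 h0 hcs k ?_
  have h5 : (c : O) * (s : O) * x = c * i := by
    rw [← hc]; ring
  rw [h5]
  exact Ideal.mul_mem_left _ _ i.2

/-- the ramified case -/
theorem ram {O : Type} [CommRing O] [IsDedekindDomain O] (𝔭 : Ideal O) [𝔭.IsPrime]
    (h0 : 𝔭 ≠ ⊥) {R : Type} [CommRing R] [IsDomain R] [Algebra O R]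
    [IsLocalization.AtPrime R 𝔭] {ι : Type} (a : ι → O) (p n : ℕ) (hp : 1 ≤ p) (hn : 2 ≤ n)
    (hnp : n ∣ p - 1) (h1 : (p : O) ∈ 𝔭 ^ n) (h2 : (p : O) ∉ 𝔭 ^ (n + 1))
    (ha : ∀ i, ∃ (z : ℤ) (y : O), a i - z * y ^ p ∈ 𝔭 ^ (2 * n)) :
    ∃ (n m' : ℕ) (π ν : R), Ram p n m' π ν ∧
      ∀ i, ∃ (z : ℤ) (y : R), (p : R) ^ 2 ∣ algebraMap O R (a i) - z * y ^ p := by
  have hnat : ∀ k : ℕ, algebraMap O R (k : O) = (k : R) := fun k => map_natCast _ _
  have hloc : IsLocalRing R := IsLocalization.AtPrime.isLocalRing R 𝔭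
  have hdvr : IsDiscreteValuationRing R :=
    IsLocalization.AtPrime.isDiscreteValuationRing_of_dedekind_domain O h0 R
  obtain ⟨π, hπ⟩ := IsDiscreteValuationRing.exists_irreducible R
  have hmax : Ideal.map (algebraMap O R) 𝔭 = Ideal.span {π} := by
    rw [IsLocalization.AtPrime.map_eq_maximalIdeal 𝔭 R]
    exact hπ.maximalIdeal_eq
  have hk : ∀ k : ℕ, Ideal.map (algebraMap O R) (𝔭 ^ k) = Ideal.span {π ^ k} := by
    intro k
    rw [Ideal.map_pow, hmax, Ideal.span_singleton_pow]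
  have hdvd : ∀ (k : ℕ) (x : O), x ∈ 𝔭 ^ k → π ^ k ∣ algebraMap O R x := by
    intro k x hx
    rw [← Ideal.mem_span_singleton, ← hk k]
    exact Ideal.mem_map_of_mem _ hx
  obtain ⟨w, hw⟩ := hdvd n _ h1
  rw [hnat] at hw
  have hwU : IsUnit w := by
    by_contra hwn
    apply h2
    apply of_map 𝔭 h0 (R := R) (n + 1)
    rw [hk, Ideal.mem_span_singleton, hnat, hw, pow_succ]
    apply mul_dvd_mul_left
    have : w ∈ IsLocalRing.maximalIdeal R := (IsLocalRing.mem_maximalIdeal w).2 hwn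
    rw [hπ.maximalIdeal_eq] at this
    exact Ideal.mem_span_singleton.1 this
  obtain ⟨v, rfl⟩ := hwU
  obtain ⟨m', hm'⟩ := hnp
  refine ⟨n, m', π, ((v⁻¹ : Rˣ) : R), ⟨hπ, hn, by omega, Units.isUnit _, ?_⟩, ?_⟩
  · rw [hw, mul_assoc, Units.mul_inv, mul_one]
  · intro i
    obtain ⟨z, y, hzy⟩ := ha i
    refine ⟨z, algebraMap O R y, ?_⟩
    have h3 := hdvd _ _ hzy
    rw [map_sub, map_mul, map_pow, map_intCast] at h3
    refine dvd_trans ?_ h3
    refine ⟨((v⁻¹ : Rˣ) : R) ^ 2, ?_⟩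
    rw [hw, mul_comm 2 n, pow_mul]
    rw [← mul_pow, mul_assoc, Units.mul_inv, mul_one]

end ARIRaux

theorem ARIR_ok : S_ARIR := by
  classical
  intro O _ _ _ ι _ m hm hsq a ha 𝔭 h𝔭 R _ _ _ _
  obtain ⟨hp1, ha2, hma⟩ := ha
  have hnat : ∀ k : ℕ, algebraMap O R (k : O) = (k : R) := fun k => map_natCast _ _
  refine ⟨?_, ?_⟩
  · intro hmp
    have h0 : 𝔭 ≠ ⊥ := by
      rintro rfl
      have h1 := Ideal.mem_bot.1 hmp
      rw [Nat.cast_eq_zero] at h1
      omega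
    refine ⟨h0, ?_, ?_⟩
    · obtain ⟨p, e, hp, hme, hpmem⟩ := ARIMaux.exists_prime 𝔭 m (by omega) hmp
      have hcop : Nat.Coprime p e := by
        rw [hme] at hsq
        exact Nat.coprime_of_squarefree_mul hsq
      have he : (e : O) ∉ 𝔭 := by
        intro he
        have h1 : IsCoprime (p : ℤ) (e : ℤ) := Nat.isCoprime_iff_coprime.2 hcop
        obtain ⟨s, t, hst⟩ := h1
        have h2 : ((s : O)) * (p : O) + (t : O) * (e : O) = 1 := by
          have := congrArg (fun z : ℤ => (z : O)) hst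
          simpa using this
        apply h𝔭.ne_top
        rw [Ideal.eq_top_iff_one, ← h2]
        exact Ideal.add_mem _ (Ideal.mul_mem_left _ _ hpmem) (Ideal.mul_mem_left _ _ he)
      refine ⟨p, e, hp, hme, ?_, ?_, ?_⟩
      · rw [← hnat]
        exact IsLocalization.map_units R (⟨(e : O), he⟩ : 𝔭.primeCompl)
      · intro hp2
        have hodd : Odd e := by
          rw [hp2] at hcop
          exact (Nat.coprime_two_left.1 hcop)
        refine ⟨?_, hodd⟩
        obtain ⟨r, hr⟩ := hodd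
        rw [hp2] at hme
        omega
      · rcases hp1 𝔭 inferInstance p hp ⟨e, hme⟩ hpmem with h1 | ⟨n, hn, hnp, h1, h2, h3⟩
        · left
          rw [← hnat]
          exact ARIaux.irr 𝔭 h0 hpmem h1
        · right
          refine ⟨?_, ARIRaux.ram 𝔭 h0 a p n hp.one_le hn hnp h1 h2 h3⟩
          rintro rfl
          have := Nat.le_of_dvd (by norm_num) hnp
          omega
    · intro i
      exact IsLocalization.map_units R (⟨a i, hma 𝔭 inferInstance hmp i⟩ : 𝔭.primeCompl)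
  · intro hp
    refine ⟨?_, ?_⟩
    · rw [← hnat]
      exact IsLocalization.map_units R (⟨(m : O), hp⟩ : 𝔭.primeCompl)
    · intro i
      by_cases hi : a i ∈ 𝔭
      · right
        have h0 : 𝔭 ≠ ⊥ := by
          rintro rfl
          apply ha2 ⊥ inferInstance i
          rw [Ideal.mem_bot.1 hi]
          exact Ideal.zero_mem _
        exact ⟨hi, h0, ARIaux.irr 𝔭 h0 hi (ha2 𝔭 inferInstance i)⟩
      · left
        exact IsLocalization.map_units R (⟨a i, hi⟩ : 𝔭.primeCompl)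

end Pool.Agent.H945R2.R
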