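import Pool.Agent.H945R2.R.Props2
import Pool.Agent.H945R2.D.BAD
import Pool.Agent.H945R2.D.GEX

/-! BADR: the local modules at the ramified primes (helper913, adapted from S/BADS.lean by
helper747, E/BADE.lean by helper995 and E/BADT.lean by helper501). -/

set_option autoImplicit false

open scoped Pointwise

namespace Pool.Agent.H945R2.R

open Pool.Agent.H918R2.Quad Pool.Agent.H945R2.D Pool.Agent.H945R2.S Pool.Agent.H945R2.E
  MvPolynomial

namespace BADRaux

/-- The normalization of a coefficient: `α = z y ^ p + p ^ 2 t`. -/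
theorem coef_norm {R : Type} [CommRing R] [IsDomain R] [IsDiscreteValuationRing R] (p : ℕ)
    (hp : p.Prime) (hpU : ¬ IsUnit (p : R)) (α : R) (hα : IsUnit α) (z : ℤ) (y : R)
    (h : (p : R) ^ 2 ∣ α - z * y ^ p) :
    ∃ al be : R, IsUnit al ∧ be * al = 1 ∧ (p : R) ∣ α * be ^ p - 1 ∧
      ∃ w : ℤ, (p : ℤ) ∣ w - 1 ∧ (p : R) ^ 2 ∣ α * be ^ p - w := by
  haveI : Fact p.Prime := ⟨hp⟩
  -- `z y ^ p` is a unit
  have hu : IsUnit ((z : R) * y ^ p) := by
    by_contra hn
    have h1 : (z : R) * y ^ p ∈ nonunits R := hn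
    have h2 : (p : R) ^ 2 ∈ nonunits R := by
      intro h3
      exact hpU (isUnit_of_dvd_unit (dvd_pow_self _ two_ne_zero) h3)
    have h3 : α - z * y ^ p ∈ nonunits R := by
      obtain ⟨t, ht⟩ := h
      rw [ht]
      intro h4
      exact h2 (isUnit_of_mul_isUnit_left h4)
    have h4 := IsLocalRing.nonunits_add h3 h1
    rw [sub_add_cancel] at h4
    exact h4 hα
  have hz : IsUnit (z : R) := isUnit_of_mul_isUnit_left hu
  have hy : IsUnit y := by
    have := isUnit_of_mul_isUnit_right hu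
    exact (isUnit_pow_iff hp.ne_zero).1 this
  have hal : IsUnit ((z : R) * y) := hz.mul hy
  obtain ⟨be, hbe⟩ := hal.exists_left_inv
  have hbp : be ^ p * ((z : R) * y) ^ p = 1 := by rw [← mul_pow, hbe, one_pow]
  have hbpU : IsUnit (be ^ p) := IsUnit.of_mul_eq_one _ hbp
  -- `p` does not divide `z`
  have hpz : ¬ (p : ℤ) ∣ z := by
    rintro ⟨t, ht⟩
    apply hpU
    rw [ht] at hz
    push_cast at hz
    exact isUnit_of_mul_isUnit_left hz
  have hcop : IsCoprime z (p : ℤ) := by
    rw [isCoprime_comm]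
    exact (Nat.prime_iff_prime_int.1 hp).coprime_iff_not_dvd.2 hpz
  have hcop2 : IsCoprime z ((p : ℤ) ^ 2) := hcop.pow_right
  obtain ⟨z', t', hzz⟩ := hcop2
  -- `z' z + t' p ^ 2 = 1`
  have hpz' : IsCoprime z' (p : ℤ) := by
    refine ⟨z, t' * p, ?_⟩
    linear_combination hzz
  have hfer : ∀ n : ℤ, IsCoprime n (p : ℤ) → (p : ℤ) ∣ n ^ (p - 1) - 1 := by
    intro n hn
    exact (Int.ModEq.pow_card_sub_one_eq_one hp hn).symm.dvd
  have hferz : (p : ℤ) ∣ 1 - z ^ (p - 1) := by
    have := hfer z hcop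
    rw [← dvd_neg]
    simpa using this
  refine ⟨(z : R) * y, be, hal, hbe, ?_, z' ^ (p - 1), hfer z' hpz', ?_⟩
  · have e1 : α * be ^ p - 1 = (α - z * y ^ p + y ^ p * (z * ((1 - z ^ (p - 1) : ℤ) : R))) * be ^ p := by
      have e2 : (z : R) ^ p = z * z ^ (p - 1) := by
        rw [← pow_succ', Nat.sub_add_cancel hp.one_le]
      have e3 : be ^ p * ((z : R) ^ p * y ^ p) = 1 := by rw [← mul_pow]; exact hbp
      rw [e2] at e3
      push_cast
      linear_combination e3
    rw [e1]
    refine Dvd.dvd.mul_right (dvd_add ?_ ?_) _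
    · exact (dvd_pow_self _ two_ne_zero).trans h
    · refine Dvd.dvd.mul_left (Dvd.dvd.mul_left ?_ _) _
      have := (Int.cast_dvd_cast (α := R) _ _ hferz)
      simpa using this
  · have h5 : (p : ℤ) ^ 2 ∣ 1 - (z' * z) ^ (p - 1) := by
      have h6 : z' * z - 1 ∣ (z' * z) ^ (p - 1) - 1 ^ (p - 1) := sub_dvd_pow_sub_pow _ _ _
      rw [one_pow] at h6
      have h7 : (p : ℤ) ^ 2 ∣ z' * z - 1 := ⟨-t', by linear_combination hzz⟩
      have h8 := h7.trans h6
      rw [← dvd_neg]
      simpa using h8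
    have e1 : α * be ^ p - ((z' ^ (p - 1) : ℤ) : R) =
        (α - z * y ^ p + y ^ p * (z * ((1 - (z' * z) ^ (p - 1) : ℤ) : R))) * be ^ p := by
      have e2 : (z : R) ^ p = z * z ^ (p - 1) := by
        rw [← pow_succ', Nat.sub_add_cancel hp.one_le]
      have e3 : be ^ p * ((z : R) ^ p * y ^ p) = 1 := by rw [← mul_pow]; exact hbp
      rw [e2] at e3
      push_cast
      rw [mul_pow]
      linear_combination ((z' : R) ^ (p - 1)) * e3
    rw [e1]
    refine Dvd.dvd.mul_right (dvd_add h ?_) _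
    refine Dvd.dvd.mul_left (Dvd.dvd.mul_left ?_ _) _
    have := (Int.cast_dvd_cast (α := R) _ _ h5)
    simpa using this

end BADRaux

open BADRaux

theorem BADR_ok (hL : S_LOCR) (hD : S_DEGR) (hFam : S_FAMW) (hF : S_FINR) (hH : S_HGR) :
    S_BADR := by
  intro O R K F _ _ _ _ _ _ _ _ _ _ _ _ _ 𝔭 _ _ _ _ _ _ N p e n m π ν hram hp hp2 he heU a ha haz
    x hx0 hrel hgen hli b htb
  obtain ⟨h, heh⟩ : ∃ h : ℕ, (e = 2 * h ∨ e = 2 * h + 1) := ⟨e / 2, by omega⟩
  haveI : Fact p.Prime := ⟨hp⟩
  have hinj : Function.Injective (algebraMap R K) := IsFractionRing.injective R K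
  have hRKF : ∀ r : R, algebraMap R F r = algebraMap K F (algebraMap R K r) :=
    fun r => IsScalarTower.algebraMap_apply R K F r
  have hOF : ∀ r : O, algebraMap O F r = algebraMap R F (algebraMap O R r) :=
    fun r => IsScalarTower.algebraMap_apply O R F r
  have hirr : Irreducible π := hram.irr
  have hπ0 : π ≠ 0 := hirr.ne_zero
  have hp0 : (p : R) ≠ 0 := by
    intro h0
    have h1 := hram.rel
    rw [h0, zero_mul] at h1
    exact hπ0 (eq_zero_of_pow_eq_zero h1.symm)
  have hπp : π ∣ (p : R) := by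
    have h1 : π ∣ (p : R) * ν := by
      rw [hram.rel]
      exact dvd_pow_self _ (by have := hram.two; omega)
    exact (hram.unit.dvd_mul_right).1 h1
  have hpU : ¬ IsUnit (p : R) := fun h1 => hirr.not_isUnit (isUnit_of_dvd_unit hπp h1)
  have hπF : algebraMap R F π ≠ 0 := by
    rw [hRKF]
    intro h
    apply hπ0
    apply hinj
    rw [map_zero]
    exact (algebraMap K F).injective (by rw [h, map_zero])
  have hco0 : ∀ i, ∃ al be : R, IsUnit al ∧ be * al = 1 ∧
      (p : R) ∣ algebraMap O R (a i) * be ^ p - 1 ∧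
      ∃ w : ℤ, (p : ℤ) ∣ w - 1 ∧ (p : R) ^ 2 ∣ algebraMap O R (a i) * be ^ p - w := by
    intro i
    obtain ⟨z, y, hzy⟩ := haz i
    exact coef_norm p hp hpU (algebraMap O R (a i)) (ha i) z y hzy
  choose al be hal hbe hone hw using hco0
  set co : Fin (N + 2) → R := fun i => algebraMap O R (a i) * be i ^ p with hco
  have hco1 : ∀ i, algebraMap O R (a i) = co i * al i ^ p := by
    intro i
    have h1 : be i ^ p * al i ^ p = 1 := by rw [← mul_pow, hbe i, one_pow]
    rw [hco]
    show _ = algebraMap O R (a i) * be i ^ p * al i ^ p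
    rw [mul_assoc, h1, mul_one]
  obtain ⟨g, hg⟩ := GEX_ok p co hone
  have hcoef : Coef p co g := ⟨hp, hp2, hp0, hone, hg⟩
  have hgv := hH p hp hp0 π hirr hπp co g hg hw
  have hrel' : ∑ i, algebraMap R F (co i) * (algebraMap R F (al i) * x i ^ e) ^ p = 0 := by
    rw [← hrel]
    refine Finset.sum_congr rfl fun i _ => ?_
    have e1 : (algebraMap R F (al i) * x i ^ e) ^ p = algebraMap R F (al i) ^ p * x i ^ (p * e) := by
      rw [mul_pow, ← pow_mul, mul_comm e p]
    have e2 : algebraMap R F (co i * al i ^ p) = algebraMap R F (co i) * algebraMap R F (al i) ^ p := by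
      rw [map_mul (algebraMap R F) (co i) (al i ^ p), map_pow]
    rw [e1, hOF, hco1 i, e2, mul_assoc]
  have hfin := hF (R := R) p e h m π hp0 g x (fun i => algebraMap R F (al i) * x i ^ e)
  obtain ⟨D₀, hD₀⟩ := hFam (R := R) π x
    {S | IsFacR p e h m π g x (fun i => algebraMap R F (al i) * x i ^ e) S} hfin (Or.inl rfl)
    (fun S hS => hD (R := R) p e h n m π ν hram hp.one_le he heh g x al S hS)
  refine ⟨D₀, fun D hDD => ?_⟩
  obtain ⟨κ, _, Φ, hΦ, hH1, k, hH2⟩ := hD₀ D hDD
  have hle : ∀ y ∈ Submodule.span R (∏ k, Φ k), y ∈ Submodule.span R (Set.range x ^ D) := by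
    intro y hy
    have h1 : Submodule.span R (∏ k, Φ k) ≤ Submodule.span R (Set.range x ^ D) := by
      rw [Submodule.span_le]
      exact fun h hh => hH1 h hh
    exact h1 hy
  have hpk : ∀ y ∈ Submodule.span R (Set.range x ^ D),
      algebraMap R F π ^ k * y ∈ Submodule.span R (∏ k, Φ k) := by
    intro y hy
    induction hy using Submodule.span_induction with
    | mem y hy => exact hH2 y hy
    | zero => rw [mul_zero]; exact Submodule.zero_mem _
    | add a b _ _ ha hb => rw [mul_add]; exact Submodule.add_mem _ ha hb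
    | smul r a _ ha =>
      rw [mul_smul_comm]
      exact Submodule.smul_mem _ _ ha
  refine ⟨(Submodule.span R (∏ k, Φ k)).restrictScalars O, ?_, ⟨k, ?_⟩, ?_⟩
  · intro y hy
    exact clear_denom (R := R) 𝔭 (Set.range x ^ D) y (hle y hy)
  · have hmap : 𝔭.map (algebraMap O R) ≤ Ideal.span {π} := by
      rw [Ideal.map_le_iff_le_comap, ← hirr.maximalIdeal_eq]
      intro c hc
      rw [Ideal.mem_comap]
      exact (IsLocalization.AtPrime.to_map_mem_maximal_iff R 𝔭 c).2 hc
    intro c hc y hy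
    have hc1 : ∃ r : R, algebraMap O R c = π ^ k * r := by
      have h1 : algebraMap O R c ∈ Ideal.span {π ^ k} := by
        rw [← Ideal.span_singleton_pow]
        apply Ideal.pow_right_mono hmap
        rw [← Ideal.map_pow]
        exact Ideal.mem_map_of_mem _ hc
      obtain ⟨r, hr⟩ := Ideal.mem_span_singleton.1 h1
      exact ⟨r, hr⟩
    obtain ⟨r, hr⟩ := hc1
    show c • y ∈ Submodule.span R (∏ k, Φ k)
    have hy' : y ∈ Submodule.span R (Set.range x ^ D) := Submodule.span_subset_span O R _ hy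
    have h2 : c • y = r • (algebraMap R F π ^ k * y) := by
      rw [Algebra.smul_def, Algebra.smul_def, hOF, hr, map_mul, map_pow]
      ring
    rw [h2]
    exact Submodule.smul_mem _ _ (hpk y hy')
  · intro M hMP hM2 f hfM hf q hqp hq
    obtain ⟨𝒪, hloc, hR, hRU, hloc2, hG, hreg⟩ := transfer (R := R) 𝔭 M (∏ k, Φ k)
      (fun y hy => hMP hy) (fun y hy => hM2 y hy) f q hq
    apply hreg
    have hLD : LocR 𝒪 p e h n m π ν co al g x := by
      refine ⟨hloc, hR, hcoef, hram, ?_, hπF, he, heh, heU, hal, hrel', ?_, ?_, hgv⟩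
      · intro h
        exact hirr.not_isUnit (hRU _ h)
      · intro h
        have h1 : ∑ i, (algebraMap R K (al i)) • x i ^ e = 0 := by
          rw [← h]
          refine Finset.sum_congr rfl fun i _ => ?_
          rw [Algebra.smul_def, ← hRKF]
        have h2 := Fintype.linearIndependent_iff.1 hli (fun i => algebraMap R K (al i)) h1 0
        have h3 : al 0 = 0 := hinj (by rw [map_zero]; exact h2)
        exact (hal 0).ne_zero h3
      · intro s hs
        obtain ⟨j₀, hj₀⟩ := hind_of (K := K) (ι := Fin (N + 2)) (by simp) x hx0 hgen b htb x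
          (fun i j => if i = j then 1 else 0) (by
            intro i
            rw [Finset.sum_eq_single i]
            · rw [if_pos rfl, map_one, one_mul]
            · intro j _ hj
              rw [if_neg (Ne.symm hj), map_zero, zero_mul]
            · intro h
              exact absurd (Finset.mem_univ _) h) s hs
        exact ⟨j₀, hj₀.restrictScalars hinj⟩
    exact hL 𝒪 p e h n m π ν co al g x hLD Φ hΦ f hf (hMP hfM) hG hloc2

end Pool.Agent.H945R2.R
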