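import Pool.Agent.H945R2.R.Props2
import Pool.Agent.H945R2.D.RA
import Pool.Agent.H945R2.D.FRC

/-! Task CH1R: chart theorem 1. -/

set_option autoImplicit false

open scoped Pointwise

namespace Pool.Agent.H945R2.R

open Pool.Agent.H918R2.Quad Pool.Agent.H945R2.D Pool.Agent.H945R2.S Pool.Agent.H945R2.E
  MvPolynomial

namespace CH1Raux

variable {R F ι : Type} [CommRing R] [Field F] [Algebra R F] [Fintype ι] [DecidableEq ι]

/-- The index type of the coordinates. -/
abbrev KK (Z : Finset ι) (s d : ι) : Type := Option (Option (TT Z s d ⊕ ZT Z))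

/-- Values of the coordinates. -/
def vals {Z : Finset ι} {s d : ι} (a b : F) (y : ι → F) : KK Z s d → F :=
  fun k => k.elim a (fun k' => k'.elim b (fun i => Sum.elim (fun i : TT Z s d => y i)
    (fun i : ZT Z => y i) i))

/-- The sum `L`. -/
noncomputable def Lw (R : Type) [CommRing R] (Z : Finset ι) (s d : ι) (nL : ℕ) :
    MvPolynomial (KK Z s d) R :=
  X none ^ nL * X (some none)

/-- The `t`-coordinates. -/
noncomputable def Tw (Z : Finset ι) (s d : ι) (nL : ℕ) (r : ι → R) (e : ℕ) :
    ι → MvPolynomial (KK Z s d) R :=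
  TcZ Z s d (fun _ => 0) (fun k => X (some (some (Sum.inl k))))
    (fun z => algebraMap R _ (r z) * X (some (some (Sum.inr z))) ^ e) (Lw R Z s d nL)

/-- The mixed coordinates. -/
noncomputable def Yw (Z : Finset ι) (s d : ι) (nL : ℕ) (r : ι → R) (e : ℕ) (i : ι) :
    MvPolynomial (KK Z s d) R :=
  if h : i ∈ Z then X (some (some (Sum.inr ⟨i, h⟩))) else Tw Z s d nL r e i

theorem Yw_z (Z : Finset ι) (s d : ι) (nL : ℕ) (r : ι → R) (e : ℕ) (z : ZT Z) :
    Yw Z s d nL r e z = X (some (some (Sum.inr z))) := by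
  unfold Yw
  rw [dif_pos z.2]

theorem Yw_n (Z : Finset ι) (s d : ι) (nL : ℕ) (r : ι → R) (e : ℕ) (i : ι) (h : i ∉ Z) :
    Yw Z s d nL r e i = Tw Z s d nL r e i := by
  unfold Yw
  rw [dif_neg h]

theorem Tw_z (Z : Finset ι) (s d : ι) (nL : ℕ) (r : ι → R) (e : ℕ) (z : ZT Z) :
    Tw Z s d nL r e z = algebraMap R _ (r z) * X (some (some (Sum.inr z))) ^ e := by
  unfold Tw TcZ
  rw [dif_pos z.2]

theorem Tw_s (Z : Finset ι) (s d : ι) (nL : ℕ) (r : ι → R) (e : ℕ) (hs : s ∉ Z) :
    Tw Z s d nL r e s = 1 := by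
  unfold Tw TcZ
  rw [dif_neg hs, dif_pos rfl]

theorem Tw_d (Z : Finset ι) (s d : ι) (nL : ℕ) (r : ι → R) (e : ℕ) (hd : d ∉ Z) (h : s ≠ d) :
    Tw Z s d nL r e d = Lw R Z s d nL - 1 - ∑ k : TT Z s d, X (some (some (Sum.inl k))) -
      ∑ z : ZT Z, algebraMap R _ (r z) * X (some (some (Sum.inr z))) ^ e := by
  unfold Tw TcZ
  rw [dif_neg hd, dif_neg h.symm, dif_pos rfl]
  congr 2
  refine Finset.sum_congr rfl fun k _ => ?_
  rw [zero_add]

theorem Tw_k (Z : Finset ι) (s d : ι) (nL : ℕ) (r : ι → R) (e : ℕ) (k : TT Z s d) :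
    Tw Z s d nL r e k = X (some (some (Sum.inl k))) := by
  unfold Tw TcZ
  rw [dif_neg k.2.1, dif_neg k.2.2.1, dif_neg k.2.2.2, zero_add]

theorem Tz_Yw (Z : Finset ι) (s d : ι) (nL : ℕ) (r : ι → R) (e : ℕ) :
    Tz Z r e (Yw Z s d nL r e) = Tw Z s d nL r e := by
  funext i
  unfold Tz
  by_cases h : i ∈ Z
  · rw [if_pos h]
    have h1 : Yw Z s d nL r e i = X (some (some (Sum.inr ⟨i, h⟩))) := Yw_z Z s d nL r e ⟨i, h⟩
    have h2 : Tw Z s d nL r e i = algebraMap R _ (r i) * X (some (some (Sum.inr ⟨i, h⟩))) ^ e :=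
      Tw_z Z s d nL r e ⟨i, h⟩
    rw [h1, h2]
  · rw [if_neg h, Yw_n Z s d nL r e i h]

/-- The third relation. -/
noncomputable def EE (Z : Finset ι) (s d : ι) (nL : ℕ) (r : ι → R) (e : ℕ) (ν : R) (nX nY : ℕ)
    (g : MvPolynomial ι R) : MvPolynomial (KK Z s d) R :=
  aeval (Tw Z s d nL r e) g + algebraMap R _ ν * X none ^ nX * X (some none) ^ nY

theorem eLw (Z : Finset ι) (s d : ι) (nL : ℕ) (a b : F) (y : ι → F) :
    aeval (vals a b y) (Lw R Z s d nL) = a ^ nL * b := by
  unfold Lw
  rw [map_mul, map_pow, aeval_X, aeval_X]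
  rfl

theorem heY (hS : S_SUMZ) (Z : Finset ι) (s d : ι) (nL : ℕ) (r : ι → R) (e : ℕ) (hsd : s ≠ d)
    (hsZ : s ∉ Z)
    (hdZ : d ∉ Z) (a b : F) (y : ι → F) (hs : y s = 1)
    (hL : ∑ i, Tz Z r e y i = a ^ nL * b) (i : ι) :
    aeval (vals a b y) (Yw Z s d nL r e i) = y i := by
  have heX : ∀ k : KK Z s d, aeval (R := R) (vals a b y) (X k) = vals a b y k :=
    fun k => aeval_X _ k
  have hsum2 := (hS (ι := ι) (B := F) Z s d hsd hsZ hdZ (fun _ => 0) (fun _ => 0) (fun _ => 0)
    0).2 (Tz Z r e y)
  by_cases hZ : i ∈ Z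
  · have h1 : Yw Z s d nL r e i = X (some (some (Sum.inr ⟨i, hZ⟩))) := Yw_z Z s d nL r e ⟨i, hZ⟩
    rw [h1, heX]
    rfl
  · rw [Yw_n Z s d nL r e i hZ]
    by_cases h : i = s
    · rw [h, Tw_s Z s d nL r e hsZ, map_one, hs]
    · by_cases h' : i = d
      · rw [h', Tw_d Z s d nL r e hdZ hsd, map_sub, map_sub, map_sub, eLw, map_one, map_sum,
          map_sum]
        have e1 : ∀ k : TT Z s d, aeval (R := R) (vals a b y) (X (some (some (Sum.inl k)))) = y k :=
          fun k => heX _
        have e1' : ∀ z : ZT Z, aeval (R := R) (vals a b y)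
            (algebraMap R (MvPolynomial (KK Z s d) R) (r z) * X (some (some (Sum.inr z))) ^ e) =
              algebraMap R F (r z) * y z ^ e := by
          intro z
          rw [map_mul, map_pow, heX, AlgHom.commutes]
          rfl
        simp only [e1, e1']
        have e4 : ∀ k : TT Z s d, Tz Z r e y k = y k := fun k => by
          unfold Tz
          rw [if_neg k.2.1]
        have e5 : ∀ z : ZT Z, Tz Z r e y z = algebraMap R F (r z) * y z ^ e := fun z => by
          unfold Tz
          rw [if_pos z.2]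
        have e6 : Tz Z r e y s = 1 := by
          unfold Tz
          rw [if_neg hsZ, hs]
        have e7 : Tz Z r e y d = y d := by
          unfold Tz
          rw [if_neg hdZ]
        simp only [e4, e5] at hsum2
        rw [← hL, hsum2, e6, e7]
        ring
      · have e4 : Tw Z s d nL r e i = X (some (some (Sum.inl ⟨i, hZ, h, h'⟩))) :=
          Tw_k Z s d nL r e ⟨i, hZ, h, h'⟩
        rw [e4, heX]
        rfl

/-- Presentation of the chart. -/
theorem core [IsDomain R] [IsDiscreteValuationRing R]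
    (hS : S_SUMZ) (hP : S_PRER) (hFAB : S_FABR)
    (𝒪 : Subring F) (p e n m : ℕ) (π ν : R) (nL nA nB nX nY : ℕ) (co r : ι → R)
    (g : MvPolynomial ι R) (Z : Finset ι) (y : ι → F) (s d : ι) (a b : F)
    (D : DataR 𝒪 p e n m π ν nL nA nB nX nY co r g Z y s a b)
    (hsd : s ≠ d) (hdZ : d ∉ Z)
    (hloc2 : IsLocOf 𝒪 (Algebra.adjoin R ({a, b} ∪ Set.range y) : Set F))
    (H : ∀ (A : Type) [CommRing A] [Algebra R A] (pr : MvPolynomial (KK Z s d) R →ₐ[R] A)
      (q : Ideal A) [q.IsPrime], pr (X none) ∈ q → pr (C π) ∈ q →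
      (∀ w, pr w ∈ q ↔ ¬ U 𝒪 (aeval (vals a b y) w)) →
      ∃ i, pr (pderiv (some i) (EE Z s d nL r e ν nX nY g)) ∉ q) : IsRegularLocalRing 𝒪 := by
  let W := MvPolynomial (KK Z s d) R
  let eW : W →ₐ[R] F := aeval (vals a b y)
  have hsZ := D.hsZ
  have hnA := D.kind.a
  have heC : ∀ r, eW (C r) = algebraMap R F r := fun r => aeval_C _ r
  have heX : ∀ k, eW (X k) = vals a b y k := fun k => aeval_X _ k
  have heT : ∀ i, eW (Yw Z s d nL r e i) = y i :=
    heY hS Z s d nL r e hsd hsZ hdZ a b y D.hs D.hL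
  have hTz : ∀ i, eW (Tz Z r e (Yw Z s d nL r e) i) = Tz Z r e y i := by
    intro i
    unfold Tz
    by_cases hi : i ∈ Z
    · rw [if_pos hi, if_pos hi, map_mul, map_pow, heT, AlgHom.commutes]
    · rw [if_neg hi, if_neg hi, heT]
  have hsumT : ∑ i, Tw Z s d nL r e i = X none ^ nL * X (some none) := by
    unfold Tw
    exact (hS Z s d hsd hsZ hdZ (fun _ => 0) _ _ _).1
  have heE : eW (EE Z s d nL r e ν nX nY g) = 0 := by
    unfold EE
    rw [map_add, map_mul, map_mul, map_pow, map_pow, heX, heX, ← D.hG, ← Tz_Yw,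
      AlgHom.commutes]
    have e1 : eW (aeval (Tz Z r e (Yw Z s d nL r e)) g) = aeval (Tz Z r e y) g := by
      rw [comp_aeval_apply]
      congr 2
      funext i
      exact hTz i
    rw [e1]
    rfl
  have hrel : eW (C π - X none * (X none ^ (nL * nB) * X (some none) ^ nB)) = 0 := by
    rw [map_sub, heC, map_mul, map_mul, map_pow, map_pow, heX, heX]
    have e2 : (vals a b y (none : KK Z s d)) = a := rfl
    have e3 : (vals a b y (some none : KK Z s d)) = b := rfl
    rw [e2, e3, D.hπ, hnA]
    ring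
  let I : Ideal W := Ideal.span {C π - X none * (X none ^ (nL * nB) * X (some none) ^ nB),
    EE Z s d nL r e ν nX nY g}
  have hI : ∀ w ∈ I, eW w = 0 := by
    intro w hw
    obtain ⟨x, y, rfl⟩ := Ideal.mem_span_pair.1 hw
    rw [map_add, map_mul, map_mul, hrel, heE, mul_zero, mul_zero, add_zero]
  have heW : ∀ w, eW w ∈ 𝒪 := by
    intro w
    induction w using MvPolynomial.induction_on with
    | C r => rw [heC]; exact D.hR r
    | add p q hp hq => rw [map_add]; exact 𝒪.add_mem hp hq
    | mul_X p k hp =>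
      rw [map_mul, heX]
      refine 𝒪.mul_mem hp ?_
      rcases k with _ | _ | k | k
      · exact D.ha
      · exact D.hb
      · exact D.hy _
      · exact D.hy _
  have hrange : (eW.range : Set F) = (Algebra.adjoin R ({a, b} ∪ Set.range y) : Set F) := by
    apply Set.Subset.antisymm
    · rintro _ ⟨w, rfl⟩
      have e5 : ∀ w : W, eW w ∈ Algebra.adjoin R ({a, b} ∪ Set.range y) := by
        intro w
        induction w using MvPolynomial.induction_on with
        | C r => rw [heC]; exact Subalgebra.algebraMap_mem _ r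
        | add p q hp hq => rw [map_add]; exact Subalgebra.add_mem _ hp hq
        | mul_X p k hp =>
          rw [map_mul, heX]
          refine Subalgebra.mul_mem _ hp ?_
          apply Algebra.subset_adjoin
          rcases k with _ | _ | k | k
          · exact Or.inl (Or.inl rfl)
          · exact Or.inl (Or.inr rfl)
          · exact Or.inr ⟨_, rfl⟩
          · exact Or.inr ⟨_, rfl⟩
      exact e5 w
    · have e6 : Algebra.adjoin R ({a, b} ∪ Set.range y) ≤ eW.range := by
        apply Algebra.adjoin_le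
        rintro x (hx | ⟨i, rfl⟩)
        · rcases hx with rfl | rfl
          · exact ⟨X none, heX _⟩
          · exact ⟨X (some none), heX _⟩
        · exact ⟨Yw Z s d nL r e i, heT i⟩
      exact e6
  obtain ⟨A, _, _, pr, hpr, hprk, hpr0⟩ := exists_quot (R := R) I
  have hker : ∀ w, pr w = 0 → eW w = 0 := fun w hw => hI w ((hpr0 w).1 hw)
  have hprE : pr (EE Z s d nL r e ν nX nY g) = 0 := (hpr0 _).2 (Ideal.subset_span (Or.inr rfl))
  have hprp : pr (C π) = pr (X none * (X none ^ (nL * nB) * X (some none) ^ nB)) := by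
    have h1 : pr (C π - X none * (X none ^ (nL * nB) * X (some none) ^ nB)) = 0 :=
      (hpr0 _).2 (Ideal.subset_span (Or.inl rfl))
    rw [map_sub] at h1
    exact sub_eq_zero.mp h1
  have hprsum : pr (∑ i, Tz Z r e (Yw Z s d nL r e) i) = pr (X none ^ nL * X (some none)) := by
    rw [Tz_Yw, hsumT]
  have hprp' : pr (algebraMap R W π) = pr (X none ^ nA * X (some none) ^ nB) := by
    have h1 : (algebraMap R W π) = C π := rfl
    rw [h1, hprp, hnA]
    congr 1
    ring
  have hYs : Yw Z s d nL r e s = 1 := by rw [Yw_n Z s d nL r e s hsZ, Tw_s Z s d nL r e hsZ]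
  have hfab := hFAB 𝒪 p e n m π ν nL nA nB nX nY co r g Z y s a b D pr eW hker
    (Yw Z s d nL r e) (X none) (X (some none))
    heT (heX _) (heX _) hYs hprsum hprp'
  refine hP 𝒪 p e n m π ν nL nA nB nX nY co r g Z y s a b D pr hpr eW hker heW ?_
    (Yw Z s d nL r e) (X none)
    (X (some none)) heT (heX _) (heX _) hYs hprsum hprp' ?_ ?_ ?_
  · rw [hrange]
    exact hloc2
  · rw [Tz_Yw]
    exact hprE
  · have h7 := (FRC_ok pr eW hker (fun i : {i : ι // i ≠ s} => Yw Z s d nL r e i)).2.2.2.2.2.2
    refine h7 (Set.range X) adjoin_range_X ?_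
    rintro _ ⟨k, rfl⟩
    rcases k with _ | _ | k | k
    · exact hfab.1
    · exact hfab.2.1
    · have := hfab.2.2 k
      rw [Yw_n Z s d nL r e k k.2.1, Tw_k] at this
      exact this
    · have := hfab.2.2 k
      rw [Yw_z] at this
      exact this
  · intro q hq hqm
    have hXn : pr (X none) ∈ q := by
      rw [hqm, heX]
      exact D.haU
    have hpq : pr (C π) ∈ q := by
      rw [hprp, map_mul]
      exact q.mul_mem_right _ hXn
    obtain ⟨i, hi⟩ := H A pr q hXn hpq hqm
    exact RA_ok π D.ram.irr (pr : W →+* A) hpr (X none ^ (nL * nB) * X (some none) ^ nB)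
      (EE Z s d nL r e ν nX nY g) hprk q hXn i hi

/-- The derivative of the third relation. -/
theorem deriv [IsDomain R] (hS : S_SUMZ) (p e : ℕ) (co r : ι → R) (g : MvPolynomial ι R)
    (hc : Coef p co g) (Z : Finset ι) (s d : ι) (nL : ℕ) (hsd : s ≠ d) (hsZ : s ∉ Z) (hdZ : d ∉ Z)
    (δ : Derivation R (MvPolynomial (KK Z s d) R) (MvPolynomial (KK Z s d) R)) :
    δ (aeval (Tw Z s d nL r e) g) =
      ∑ i, C (co i) * (Tw Z s d nL r e i ^ (p - 1) * δ (Tw Z s d nL r e i)) -
      (Lw R Z s d nL) ^ (p - 1) * δ (Lw R Z s d nL) := by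
  have hsumT : ∑ i, Tw Z s d nL r e i = Lw R Z s d nL := by
    unfold Tw
    exact (hS Z s d hsd hsZ hdZ (fun _ => 0) _ _ _).1
  have h1 : C (p : R) * aeval (Tw Z s d nL r e) g =
      ∑ i, C (co i) * Tw Z s d nL r e i ^ p - (Lw R Z s d nL) ^ p := by
    have h2 := congrArg (aeval (Tw Z s d nL r e)) hc.rel
    rw [map_mul, map_sub, map_sum, map_pow, map_sum] at h2
    simp only [map_mul, map_pow, aeval_X, algHom_C, algebraMap_eq] at h2
    rw [hsumT] at h2
    exact h2
  have h3 := congrArg δ h1
  have hC : ∀ r : R, δ (C r) = 0 := fun r => δ.map_algebraMap r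
  rw [Derivation.leibniz, hC, smul_zero, add_zero, map_sub, map_sum, Derivation.leibniz_pow] at h3
  simp only [Derivation.leibniz, hC, smul_zero, add_zero, Derivation.leibniz_pow, smul_eq_mul] at h3
  have hp0 : (C (p : R) : MvPolynomial (KK Z s d) R) ≠ 0 := by
    rw [Ne, C_eq_zero]
    exact hc.ne
  apply mul_left_cancel₀ hp0
  rw [h3, mul_sub, Finset.mul_sum]
  have hCp : (C (p : R) : MvPolynomial (KK Z s d) R) = (p : MvPolynomial (KK Z s d) R) :=
    map_natCast _ p
  congr 1
  · refine Finset.sum_congr rfl fun i _ => ?_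
    rw [hCp, nsmul_eq_mul]
    ring
  · rw [hCp, nsmul_eq_mul]

/-- A derivation killing the last variables kills the coordinates in `Z`. -/
theorem der_z (Z : Finset ι) (s d : ι) (r : ι → R) (e : ℕ)
    (δ : Derivation R (MvPolynomial (KK Z s d) R) (MvPolynomial (KK Z s d) R))
    (z : ZT Z) (hδ : δ (X (some (some (Sum.inr z)))) = 0) :
    δ (algebraMap R (MvPolynomial (KK Z s d) R) (r z) * X (some (some (Sum.inr z))) ^ e) = 0 := by
  rw [Derivation.leibniz, Derivation.leibniz_pow, hδ, smul_zero, smul_zero, smul_zero,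
    δ.map_algebraMap, smul_zero, add_zero]

/-- `nX = 0` only in the last chart. -/
theorem kind_zero {p n m nL nA nB nX nY : ℕ} (hn : 2 ≤ n) (hnm : n * m + 1 = p)
    (hk : KindR p n m nL nA nB nX nY) (h0 : nX = 0) : nY = 1 ∧ nL = n := by
  rcases hk.cases with ⟨h1, h2⟩ | ⟨h1, h2⟩
  · exfalso
    have hx := hk.x
    have ha := hk.a
    rw [h0, h1, one_mul, add_zero] at hx
    have hd1 : n ∣ n * m + 1 := by
      rw [hnm, hx]
      exact dvd_mul_right n nA
    have hd2 : n ∣ 1 := (Nat.dvd_add_right (dvd_mul_right n m)).1 hd1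
    have := Nat.le_of_dvd one_pos hd2
    omega
  · have hy := hk.y
    rw [h2] at hy
    exact ⟨by omega, h1⟩

/-- `nL = 1` if `nX ≠ 0`. -/
theorem kind_one {p n m nL nA nB nX nY : ℕ} (hnm : n * m + 1 = p)
    (hk : KindR p n m nL nA nB nX nY) (h0 : nX ≠ 0) : nL = 1 := by
  rcases hk.cases with ⟨h1, h2⟩ | ⟨h1, h2⟩
  · exact h1
  · exfalso
    have hx := hk.x
    have ha := hk.a
    rw [h1, h2, hnm] at ha
    rw [h1, ha] at hx
    omega

end CH1Raux

open CH1Raux in
theorem CH1R_ok (hS : S_SUMZ) (hP : S_PRER) (hFAB : S_FABR) : S_CH1R := by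
  intro R F ι
  intro _ _ _ _ _ _ _ 𝒪 p e n m π ν nL nA nB nX nY co r g Z y s d a b D hsd hdZ hloc2 hcase
  have hsZ := D.hsZ
  by_cases hj : nX = 0
  · obtain ⟨hY, hLn⟩ := kind_zero D.ram.two D.ram.nm D.kind hj
    have hn2 := D.ram.two
    refine core hS hP hFAB 𝒪 p e n m π ν nL nA nB nX nY co r g Z y s d a b D hsd hdZ hloc2 ?_
    intro A _ _ pr q hq hXn hpq hqm
    refine ⟨none, ?_⟩
    intro hmem
    have hder := deriv hS p e co r g D.coef Z s d nL hsd hsZ hdZ (pderiv (some none))
    have hab : pderiv (some none) (Lw R Z s d nL) = X none ^ nL := by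
      unfold Lw
      rw [Derivation.leibniz, pderiv_X_self, Derivation.leibniz_pow, pderiv_X_of_ne (by simp)]
      simp
    have hTs : pderiv (some none) (Tw Z s d nL r e s) = 0 := by
      rw [Tw_s Z s d nL r e hsZ]
      simp
    have hXk : ∀ k : TT Z s d,
        pderiv (some none) (X (some (some (Sum.inl k))) : MvPolynomial (KK Z s d) R) = 0 :=
      fun k => pderiv_X_of_ne (by simp)
    have hXz : ∀ k : ZT Z,
        pderiv (some none) (X (some (some (Sum.inr k))) : MvPolynomial (KK Z s d) R) = 0 :=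
      fun k => pderiv_X_of_ne (by simp)
    have hTz := fun z => der_z Z s d r e (pderiv (some none)) z (hXz z)
    have hTd : pderiv (some none) (Tw Z s d nL r e d) = X none ^ nL := by
      rw [Tw_d Z s d nL r e hdZ hsd, map_sub, map_sub, map_sub, hab, map_sum, map_sum]
      simp only [hXk, hTz, Finset.sum_const_zero, sub_zero]
      simp
    have hTk : ∀ i, i ≠ d → pderiv (some none) (Tw Z s d nL r e i) = 0 := by
      intro i hi
      by_cases hiZ : i ∈ Z
      · have e4 : Tw Z s d nL r e i =
            algebraMap R _ (r i) * X (some (some (Sum.inr ⟨i, hiZ⟩))) ^ e :=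
          Tw_z Z s d nL r e ⟨i, hiZ⟩
        rw [e4]
        exact hTz ⟨i, hiZ⟩
      · by_cases h : i = s
        · rw [h, hTs]
        · have e4 : Tw Z s d nL r e i = X (some (some (Sum.inl ⟨i, hiZ, h, hi⟩))) :=
            Tw_k Z s d nL r e ⟨i, hiZ, h, hi⟩
          rw [e4, hXk]
    rw [Finset.sum_eq_single d (fun i _ hi => by rw [hTk i hi, mul_zero, mul_zero])
      (fun h => absurd (Finset.mem_univ d) h), hTd, hab] at hder
    have hE : pderiv (some none) (EE Z s d nL r e ν nX nY g) =
        X none * (X none ^ (nL - 1) * (C (co d) * Tw Z s d nL r e d ^ (p - 1) -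
          (Lw R Z s d nL) ^ (p - 1))) + C ν := by
      unfold EE
      rw [map_add, hder, hj, hY, pow_zero, mul_one, pow_one, Derivation.leibniz, pderiv_X_self,
        Derivation.map_algebraMap, smul_zero, add_zero, smul_eq_mul, mul_one]
      have e3 : (X none : MvPolynomial (KK Z s d) R) ^ nL = X none * X none ^ (nL - 1) := by
        rw [← pow_succ']
        congr 1
        omega
      have e4 : (algebraMap R (MvPolynomial (KK Z s d) R) ν) = C ν := rfl
      rw [e3, e4]
      ring
    rw [hE, map_add, map_mul] at hmem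
    have h1 : pr (C ν) ∈ q := by
      have h2 := q.sub_mem hmem (q.mul_mem_right (pr (X none ^ (nL - 1) *
        (C (co d) * Tw Z s d nL r e d ^ (p - 1) - (Lw R Z s d nL) ^ (p - 1)))) hXn)
      rw [add_sub_cancel_left] at h2
      exact h2
    have hu : IsUnit (pr (C ν)) := (D.ram.unit.map C).map pr
    exact hq.ne_top (Ideal.eq_top_of_isUnit_mem q h1 hu)
  · have hL1 : nL = 1 := kind_one D.ram.nm D.kind hj
    obtain ⟨ν', hν'⟩ := D.ram.unit
    have hprel : ∀ {A : Type} [CommRing A] [Algebra R A]
        (pr : MvPolynomial (KK Z s d) R →ₐ[R] A) (q : Ideal A) [q.IsPrime], pr (C π) ∈ q →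
        pr (C (p : R)) ∈ q := by
      intro A _ _ pr q hq hπq
      have h1 : (C (p : R) : MvPolynomial (KK Z s d) R) = C π ^ n * C ((ν'⁻¹ : Rˣ) : R) := by
        rw [← C_pow, ← D.ram.rel, ← C_mul, ← hν', mul_assoc, Units.mul_inv, mul_one]
      rw [h1, map_mul, map_pow]
      refine q.mul_mem_right _ (Ideal.pow_mem_of_mem q hπq n ?_)
      have := D.ram.two
      omega
    have heT := heY (R := R) hS Z s d nL r e hsd hsZ hdZ a b y D.hs D.hL
    have heT1 : ∀ i, i ∉ Z → aeval (vals a b y) (Tw Z s d nL r e i) = y i := by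
      intro i hi
      rw [← Yw_n Z s d nL r e i hi]
      exact heT i
    rcases hcase with h | h | h
    · exact absurd h hj
    · obtain ⟨i, hiZ, his, hid, hU⟩ := h
      refine core hS hP hFAB 𝒪 p e n m π ν nL nA nB nX nY co r g Z y s d a b D hsd hdZ hloc2 ?_
      intro A _ _ pr q hq hXn hπq hqm
      have hpq := hprel pr q hπq
      let k₀ : TT Z s d := ⟨i, hiZ, his, hid⟩
      refine ⟨some (Sum.inl k₀), ?_⟩
      intro hmem
      have hder := deriv hS p e co r g D.coef Z s d nL hsd hsZ hdZ
        (pderiv (some (some (Sum.inl k₀))))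
      have hXn0 : pderiv (some (some (Sum.inl k₀)))
          (X none : MvPolynomial (KK Z s d) R) = 0 :=
        pderiv_X_of_ne (by simp)
      have hXs0 : pderiv (some (some (Sum.inl k₀)))
          (X (some none) : MvPolynomial (KK Z s d) R) = 0 :=
        pderiv_X_of_ne (by simp)
      have hab : pderiv (some (some (Sum.inl k₀))) (Lw R Z s d nL) = 0 := by
        unfold Lw
        rw [Derivation.leibniz, Derivation.leibniz_pow, hXn0, hXs0]
        simp
      have hTs : pderiv (some (some (Sum.inl k₀))) (Tw Z s d nL r e s) = 0 := by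
        rw [Tw_s Z s d nL r e hsZ]
        simp
      have hXk : ∀ k : TT Z s d, k ≠ k₀ → pderiv (some (some (Sum.inl k₀)))
          (X (some (some (Sum.inl k))) : MvPolynomial (KK Z s d) R) = 0 := by
        intro k hk
        apply pderiv_X_of_ne
        intro h
        apply hk
        simpa using h
      have hXz : ∀ k : ZT Z, pderiv (some (some (Sum.inl k₀)))
          (X (some (some (Sum.inr k))) : MvPolynomial (KK Z s d) R) = 0 :=
        fun k => pderiv_X_of_ne (by simp)
      have hTz := fun z => der_z Z s d r e (pderiv (some (some (Sum.inl k₀)))) z (hXz z)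
      have hTi : pderiv (some (some (Sum.inl k₀))) (Tw Z s d nL r e i) = 1 := by
        have e4 : Tw Z s d nL r e i = X (some (some (Sum.inl k₀))) :=
          Tw_k Z s d nL r e k₀
        rw [e4, pderiv_X_self]
      have hTd : pderiv (some (some (Sum.inl k₀))) (Tw Z s d nL r e d) = -1 := by
        rw [Tw_d Z s d nL r e hdZ hsd, map_sub, map_sub, map_sub, hab, map_sum, map_sum,
          Finset.sum_eq_single k₀ (fun k _ hk => hXk k hk)
          (fun h => absurd (Finset.mem_univ _) h), pderiv_X_self]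
        simp only [hTz, Finset.sum_const_zero, sub_zero]
        simp
      have hTk : ∀ i', i' ≠ i → i' ≠ d → pderiv (some (some (Sum.inl k₀)))
          (Tw Z s d nL r e i') = 0 := by
        intro i' hi' hi''
        by_cases hiZ' : i' ∈ Z
        · have e4 : Tw Z s d nL r e i' =
              algebraMap R _ (r i') * X (some (some (Sum.inr ⟨i', hiZ'⟩))) ^ e :=
            Tw_z Z s d nL r e ⟨i', hiZ'⟩
          rw [e4]
          exact hTz ⟨i', hiZ'⟩
        · by_cases h : i' = s
          · rw [h, hTs]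
          · have e4 : Tw Z s d nL r e i' = X (some (some (Sum.inl ⟨i', hiZ', h, hi''⟩))) :=
              Tw_k Z s d nL r e ⟨i', hiZ', h, hi''⟩
            rw [e4]
            apply hXk
            intro h4
            exact hi' (congrArg Subtype.val h4)
      have hsum : ∑ i', C (co i') * (Tw Z s d nL r e i' ^ (p - 1) *
          pderiv (some (some (Sum.inl k₀))) (Tw Z s d nL r e i')) =
          C (co i) * Tw Z s d nL r e i ^ (p - 1) -
            C (co d) * Tw Z s d nL r e d ^ (p - 1) := by
        rw [← Finset.add_sum_erase _ _ (Finset.mem_univ i), hTi,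
          Finset.sum_eq_single d]
        · rw [hTd]
          ring
        · intro k hk hkd
          rw [hTk k (Finset.mem_erase.1 hk).1 hkd, mul_zero, mul_zero]
        · intro h
          exfalso
          apply h
          exact Finset.mem_erase.2 ⟨hid.symm, Finset.mem_univ _⟩
      rw [hsum, hab, mul_zero, sub_zero] at hder
      have hE : pderiv (some (some (Sum.inl k₀))) (EE Z s d nL r e ν nX nY g) =
          C (co i) * Tw Z s d nL r e i ^ (p - 1) -
            C (co d) * Tw Z s d nL r e d ^ (p - 1) := by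
        unfold EE
        rw [map_add, hder, Derivation.leibniz, Derivation.leibniz, Derivation.leibniz_pow,
          Derivation.leibniz_pow, hXn0, hXs0, Derivation.map_algebraMap]
        simp
      obtain ⟨ri, hri⟩ := D.coef.one i
      obtain ⟨rd, hrd⟩ := D.coef.one d
      have hdec : (C (co i) * Tw Z s d nL r e i ^ (p - 1) -
          C (co d) * Tw Z s d nL r e d ^ (p - 1) : MvPolynomial (KK Z s d) R) =
          (Tw Z s d nL r e i ^ (p - 1) - Tw Z s d nL r e d ^ (p - 1)) +
          C (p : R) * (C ri * Tw Z s d nL r e i ^ (p - 1) -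
            C rd * Tw Z s d nL r e d ^ (p - 1)) := by
        have h1 : co i = 1 + p * ri := by rw [← hri]; ring
        have h2 : co d = 1 + p * rd := by rw [← hrd]; ring
        rw [h1, h2, C_add, C_add, C_mul, C_mul, C_1]
        ring
      rw [hE, hdec, map_add, map_mul] at hmem
      have h3 : pr (Tw Z s d nL r e i ^ (p - 1) - Tw Z s d nL r e d ^ (p - 1)) ∈ q := by
        have h4 := q.sub_mem hmem (q.mul_mem_right
          (pr (C ri * Tw Z s d nL r e i ^ (p - 1) -
            C rd * Tw Z s d nL r e d ^ (p - 1))) hpq)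
        rw [add_sub_cancel_right] at h4
        exact h4
      rw [hqm] at h3
      apply h3
      rw [map_sub, map_pow, map_pow, heT1 i hiZ, heT1 d hdZ]
      exact hU
    · obtain ⟨he1, ⟨i, hiZ⟩, hU⟩ := h
      have hid : i ≠ d := fun h => hdZ (h ▸ hiZ)
      have his : i ≠ s := fun h => hsZ (h ▸ hiZ)
      refine core hS hP hFAB 𝒪 p e n m π ν nL nA nB nX nY co r g Z y s d a b D hsd hdZ hloc2 ?_
      intro A _ _ pr q hq hXn hπq hqm
      have hpq := hprel pr q hπq
      let k₀ : ZT Z := ⟨i, hiZ⟩
      refine ⟨some (Sum.inr k₀), ?_⟩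
      intro hmem
      have hder := deriv hS p e co r g D.coef Z s d nL hsd hsZ hdZ
        (pderiv (some (some (Sum.inr k₀))))
      have hXn0 : pderiv (some (some (Sum.inr k₀)))
          (X none : MvPolynomial (KK Z s d) R) = 0 :=
        pderiv_X_of_ne (by simp)
      have hXs0 : pderiv (some (some (Sum.inr k₀)))
          (X (some none) : MvPolynomial (KK Z s d) R) = 0 :=
        pderiv_X_of_ne (by simp)
      have hab : pderiv (some (some (Sum.inr k₀))) (Lw R Z s d nL) = 0 := by
        unfold Lw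
        rw [Derivation.leibniz, Derivation.leibniz_pow, hXn0, hXs0]
        simp
      have hTs : pderiv (some (some (Sum.inr k₀))) (Tw Z s d nL r e s) = 0 := by
        rw [Tw_s Z s d nL r e hsZ]
        simp
      have hXk : ∀ k : TT Z s d, pderiv (some (some (Sum.inr k₀)))
          (X (some (some (Sum.inl k))) : MvPolynomial (KK Z s d) R) = 0 :=
        fun k => pderiv_X_of_ne (by simp)
      have hXz : ∀ k : ZT Z, k ≠ k₀ → pderiv (some (some (Sum.inr k₀)))
          (X (some (some (Sum.inr k))) : MvPolynomial (KK Z s d) R) = 0 := by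
        intro k hk
        apply pderiv_X_of_ne
        intro h
        apply hk
        simpa using h
      have hTz : ∀ z : ZT Z, z ≠ k₀ → pderiv (some (some (Sum.inr k₀)))
          (algebraMap R (MvPolynomial (KK Z s d) R) (r z) * X (some (some (Sum.inr z))) ^ e) = 0 :=
        fun z hz => der_z Z s d r e (pderiv (some (some (Sum.inr k₀)))) z (hXz z hz)
      have hTz0 : pderiv (some (some (Sum.inr k₀)))
          (algebraMap R (MvPolynomial (KK Z s d) R) (r k₀) * X (some (some (Sum.inr k₀))) ^ e) =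
          C (r i) := by
        rw [he1, pow_one, Derivation.leibniz, pderiv_X_self, Derivation.map_algebraMap, smul_zero,
          add_zero, smul_eq_mul, mul_one]
        rfl
      have hTi : pderiv (some (some (Sum.inr k₀))) (Tw Z s d nL r e i) = C (r i) := by
        have e4 : Tw Z s d nL r e i =
            algebraMap R _ (r k₀) * X (some (some (Sum.inr k₀))) ^ e :=
          Tw_z Z s d nL r e k₀
        rw [e4, hTz0]
      have hTd : pderiv (some (some (Sum.inr k₀))) (Tw Z s d nL r e d) = -C (r i) := by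
        rw [Tw_d Z s d nL r e hdZ hsd, map_sub, map_sub, map_sub, hab, map_sum, map_sum,
          Finset.sum_eq_single (s := (Finset.univ : Finset (ZT Z))) k₀ (fun k _ hk => hTz k hk)
          (fun h => absurd (Finset.mem_univ _) h), hTz0]
        simp only [hXk, Finset.sum_const_zero, sub_zero]
        simp
      have hTk : ∀ i', i' ≠ i → i' ≠ d → pderiv (some (some (Sum.inr k₀)))
          (Tw Z s d nL r e i') = 0 := by
        intro i' hi' hi''
        by_cases hiZ' : i' ∈ Z
        · have e4 : Tw Z s d nL r e i' =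
              algebraMap R _ (r i') * X (some (some (Sum.inr ⟨i', hiZ'⟩))) ^ e :=
            Tw_z Z s d nL r e ⟨i', hiZ'⟩
          rw [e4]
          refine hTz ⟨i', hiZ'⟩ ?_
          intro h4
          exact hi' (congrArg Subtype.val h4)
        · by_cases h : i' = s
          · rw [h, hTs]
          · have e4 : Tw Z s d nL r e i' = X (some (some (Sum.inl ⟨i', hiZ', h, hi''⟩))) :=
              Tw_k Z s d nL r e ⟨i', hiZ', h, hi''⟩
            rw [e4]
            apply hXk
      have hsum : ∑ i', C (co i') * (Tw Z s d nL r e i' ^ (p - 1) *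
          pderiv (some (some (Sum.inr k₀))) (Tw Z s d nL r e i')) =
          C (r i) * (C (co i) * Tw Z s d nL r e i ^ (p - 1) -
            C (co d) * Tw Z s d nL r e d ^ (p - 1)) := by
        rw [← Finset.add_sum_erase _ _ (Finset.mem_univ i), hTi,
          Finset.sum_eq_single d]
        · rw [hTd]
          ring
        · intro k hk hkd
          rw [hTk k (Finset.mem_erase.1 hk).1 hkd, mul_zero, mul_zero]
        · intro h
          exfalso
          apply h
          exact Finset.mem_erase.2 ⟨hid.symm, Finset.mem_univ _⟩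
      rw [hsum, hab, mul_zero, sub_zero] at hder
      have hE : pderiv (some (some (Sum.inr k₀))) (EE Z s d nL r e ν nX nY g) =
          C (r i) * (C (co i) * Tw Z s d nL r e i ^ (p - 1) -
            C (co d) * Tw Z s d nL r e d ^ (p - 1)) := by
        unfold EE
        rw [map_add, hder, Derivation.leibniz, Derivation.leibniz, Derivation.leibniz_pow,
          Derivation.leibniz_pow, hXn0, hXs0, Derivation.map_algebraMap]
        simp
      obtain ⟨rd, hrd⟩ := D.coef.one d
      have hp1 : 1 ≤ p - 1 := by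
        have := D.coef.prime.two_le
        omega
      -- the first term is in `q`
      have hTiq : pr (Tw Z s d nL r e i) ∈ q := by
        have e4 : Tw Z s d nL r e i =
            algebraMap R _ (r k₀) * X (some (some (Sum.inr k₀))) ^ e :=
          Tw_z Z s d nL r e k₀
        rw [e4, he1, pow_one, map_mul]
        apply q.mul_mem_left
        rw [hqm, aeval_X]
        exact D.hyZ i hiZ
      have hri : IsUnit (pr (C (r i))) := ((D.hr i).map C).map pr
      rw [hE, map_mul] at hmem
      have h5 : pr (C (co i) * Tw Z s d nL r e i ^ (p - 1) -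
            C (co d) * Tw Z s d nL r e d ^ (p - 1)) ∈ q := by
        rcases hq.mem_or_mem hmem with h6 | h6
        · exact absurd (Ideal.eq_top_of_isUnit_mem q h6 hri) hq.ne_top
        · exact h6
      have hdec : (C (co d) * Tw Z s d nL r e d ^ (p - 1) : MvPolynomial (KK Z s d) R) =
          Tw Z s d nL r e d ^ (p - 1) + C (p : R) * (C rd * Tw Z s d nL r e d ^ (p - 1)) := by
        have h2 : co d = 1 + p * rd := by rw [← hrd]; ring
        rw [h2, C_add, C_mul, C_1]
        ring
      have h7 : pr (C (co i) * Tw Z s d nL r e i ^ (p - 1)) ∈ q := by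
        rw [map_mul, map_pow]
        exact q.mul_mem_left _ (Ideal.pow_mem_of_mem q hTiq _ hp1)
      have h8 : pr (C (co d) * Tw Z s d nL r e d ^ (p - 1)) ∈ q := by
        have h9 := q.sub_mem h7 h5
        rw [← map_sub, sub_sub_cancel] at h9
        exact h9
      have h10 : pr (Tw Z s d nL r e d ^ (p - 1)) ∈ q := by
        rw [hdec, map_add, map_mul] at h8
        have h11 := q.sub_mem h8 (q.mul_mem_right (pr (C rd * Tw Z s d nL r e d ^ (p - 1))) hpq)
        rw [add_sub_cancel_right] at h11
        exact h11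
      rw [map_pow] at h10
      have h12 : pr (Tw Z s d nL r e d) ∈ q := hq.mem_of_pow_mem _ h10
      rw [hqm, heT1 d hdZ] at h12
      exact h12 hU

end Pool.Agent.H945R2.R
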