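import Pool.Agent.H945R2.R.Props2
import Pool.Agent.H945R2.S.QPRE
import Pool.Agent.H945R2.D.RL
import Pool.Agent.H945R2.D.HT

/-! CH2R: regularity at the regular points over a special point. -/

set_option autoImplicit false

open scoped Pointwise

namespace Pool.Agent.H945R2.R

open Pool.Agent.H918R2.Quad Pool.Agent.H945R2.D Pool.Agent.H945R2.S Pool.Agent.H945R2.E
  MvPolynomial

namespace CH2Raux

/-- the leading coefficient -/
def v1 {B : Type} [CommRing B] (nX nY : ℕ) (b ν : B) : B := b + if nX = 1 then ν * b ^ nY else 0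

theorem map_v1 {B B' : Type} [CommRing B] [CommRing B'] (f : B →+* B') (nX nY : ℕ) (b ν : B) :
    f (v1 nX nY b ν) = v1 nX nY (f b) (f ν) := by
  unfold v1
  split_ifs <;> simp

end CH2Raux

open CH2Raux Pool.Agent.H945R2.S.QPREaux

theorem CH2R_ok (hE : S_EXPLR) (hS : S_SUMZ) (hP : S_PRER) (hFAB : S_FABR) : S_CH2R := by
  intro R F ι _ _ _ _ _ _ _ 𝒪 p e n m π ν nA nB nX nY co r g Z y s d a b hD hnX hid hdZ c β hsp
    hZc hlocOf hsing hv0
  have he1 : 1 ≤ e := hD.he
  have hnA : nA = nB + 1 := by have := hD.kind.a; omega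
  have hDL : ∑ i, Tz Z r e y i = a * b := by rw [hD.hL, pow_one]
  -- the polynomial ring
  let zz : Option (Option (TT Z s d ⊕ ZT Z)) → F := fun o => o.elim a (fun o' => o'.elim b
    (fun t => t.elim (fun k : TT Z s d => y k.1 - (c k.1 : F)) (fun z : ZT Z => y z.1)))
  let W : Type := MvPolynomial (Option (Option (TT Z s d ⊕ ZT Z))) R
  let a' : W := X none
  let b' : W := X (some none)
  let u : TT Z s d → W := fun k => X (some (some (Sum.inl k)))
  let yy : ZT Z → W := fun z => X (some (some (Sum.inr z)))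
  let w' : ZT Z → W := fun z => algebraMap R W (r z) * yy z ^ e
  let T : ι → W := TcZ Z s d (fun i => (c i : W)) u w' (a' * b')
  let Y : ι → W := fun i => if h : i ∈ Z then yy ⟨i, h⟩ else T i
  let eW : W →ₐ[R] F := aeval zz
  have hYZ : ∀ z : ZT Z, Y z.1 = yy z := by
    intro z
    show (if h : z.1 ∈ Z then yy ⟨z.1, h⟩ else T z.1) = _
    rw [dif_pos z.2]
  have hYN : ∀ i, i ∉ Z → Y i = T i := by
    intro i hi
    show (if h : i ∈ Z then yy ⟨i, h⟩ else T i) = _
    rw [dif_neg hi]
  have hTz : Tz Z r e Y = T := by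
    funext i
    unfold Tz
    split_ifs with hi
    · have h1 := hYZ ⟨i, hi⟩
      simp only at h1
      rw [h1]
      exact (TcZ_Z Z s d _ _ w' _ ⟨i, hi⟩).symm
    · exact hYN i hi
  have heX : ∀ k, eW (X k) = zz k := fun k => aeval_X _ k
  have hea : eW a' = a := heX none
  have heb : eW b' = b := heX (some none)
  have heu : ∀ k : TT Z s d, eW (u k) = y k.1 - (c k.1 : F) := fun k => heX (some (some (Sum.inl k)))
  have hey : ∀ z : ZT Z, eW (yy z) = y z.1 := fun z => heX (some (some (Sum.inr z)))
  have hTzy : ∀ i, i ∉ Z → Tz Z r e y i = y i := fun i hi => by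
    unfold Tz
    rw [if_neg hi]
  have heT : ∀ i, eW (T i) = Tz Z r e y i := by
    intro i
    have h2 : eW (T i) = TcZ Z s d (fun i => eW (c i : W)) (fun k => eW (u k))
      (fun z => eW (w' z)) (eW (a' * b')) i := map_TcZ (eW : W →+* F) Z s d _ _ _ _ i
    rw [h2]
    apply TcZ_eq hS Z s d hid hD.hsZ hdZ
    · rw [hTzy s hD.hsZ, hD.hs]
    · intro k
      rw [heu, map_natCast, hTzy k.1 k.2.1]
    · intro z
      show eW (algebraMap R W (r z) * yy z ^ e) = _
      rw [map_mul, AlgHom.commutes, map_pow, hey]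
      unfold Tz
      rw [if_pos z.2]
    · rw [map_mul, hea, heb]; exact hDL
  have heY : ∀ i, eW (Y i) = y i := by
    intro i
    by_cases hi : i ∈ Z
    · have h1 := hYZ ⟨i, hi⟩
      simp only at h1
      rw [h1, hey]
    · rw [hYN i hi, heT, hTzy i hi]
  have hYs : Y s = 1 := by
    rw [hYN s hD.hsZ]
    exact TcZ_s Z s d hD.hsZ _ _ _ _
  have hTsum : ∑ i, T i = a' * b' := (hS Z s d hid hD.hsZ hdZ _ _ _ _).1
  -- the first relation
  let h : W := a' ^ nB * b' ^ nB
  let R1 : W := C π - X none * h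
  have hR1 : R1 = algebraMap R W π - a' ^ nA * b' ^ nB := by
    show C π - X none * (X none ^ nB * b' ^ nB) = _
    rw [hnA]
    show C π - X none * (X none ^ nB * b' ^ nB) = C π - X none ^ (nB + 1) * b' ^ nB
    ring
  have heR1 : eW R1 = 0 := by
    rw [hR1, map_sub, AlgHom.commutes, map_mul, map_pow, map_pow, hea, heb, ← hD.hπ, sub_self]
  -- the quotient by the first relation
  obtain ⟨B, iB1, iB2, mk, hmks, hmkk, hmk⟩ := exists_quot (R := R) (Ideal.span {R1} : Ideal W)
  have hmkR1 : algebraMap R B π = mk a' ^ nA * mk b' ^ nB := by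
    have h1 : mk R1 = 0 := (hmk R1).2 (Ideal.subset_span rfl)
    rw [hR1, map_sub, AlgHom.commutes, map_mul, map_pow, map_pow] at h1
    exact sub_eq_zero.1 h1
  obtain ⟨vB, μB, μB', hexp, hvB⟩ := hE p n m π ν hD.ram nA nB nX nY hD.kind hnX co g hD.coef
    s c β hsp Z hZc d hid hdZ (mk a') (mk b')
    (fun k => mk (u k)) (fun z => mk (w' z)) hmkR1
  obtain ⟨v, rfl⟩ := hmks vB
  choose μ hμ using fun k => hmks (μB k)
  choose μ' hμ' using fun z => hmks (μB' z)
  let νν : TT Z s d ⊕ ZT Z → W := fun t => t.elim μ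
    (fun z : ZT Z => algebraMap R W (r z.1) * yy z ^ (e - 1) * μ' z)
  let E : W := X none * v + ∑ k, X (some (some k)) * νν k
  have hE' : E = a' * v + (∑ k, u k * μ k + ∑ z, w' z * μ' z) := by
    show X none * v + ∑ k, X (some (some k)) * νν k = _
    rw [Fintype.sum_sum_type]
    congr 2
    apply Finset.sum_congr rfl
    intro z _
    show yy z * (algebraMap R W (r z) * yy z ^ (e - 1) * μ' z) =
      algebraMap R W (r z) * yy z ^ e * μ' z
    have h1 : yy z ^ e = yy z * yy z ^ (e - 1) := by
      rw [← pow_succ', Nat.sub_add_cancel he1]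
    rw [h1]
    ring
  have hmT : mk (aeval T g) = aeval (TcZ Z s d (fun i => (c i : B))
      (fun k => mk (u k)) (fun z => mk (w' z)) (mk a' * mk b')) g := by
    have h1 : mk (aeval T g) = (mk.comp (aeval T)) g := rfl
    have h2 : mk.comp (aeval T) = aeval (TcZ Z s d (fun i => (c i : B))
      (fun k => mk (u k)) (fun z => mk (w' z)) (mk a' * mk b')) := by
      apply MvPolynomial.algHom_ext
      intro i
      rw [AlgHom.comp_apply, aeval_X, aeval_X]
      have h4 : mk (T i) = TcZ Z s d (fun i => mk (c i : W)) (fun k => mk (u k))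
        (fun z => mk (w' z)) (mk (a' * b')) i := map_TcZ (mk : W →+* B) Z s d _ _ _ _ i
      rw [h4]
      simp only [map_mul, map_natCast]
    rw [h1, h2]
  have hmE : mk (aeval T g + algebraMap R W ν * a' ^ nX * b' ^ nY - E) = 0 := by
    have e1 : mk (algebraMap R W ν * a' ^ nX * b' ^ nY) =
        algebraMap R B ν * mk a' ^ nX * mk b' ^ nY := by
      rw [map_mul, map_mul, AlgHom.commutes, map_pow, map_pow]
    unfold TotR at hexp
    rw [map_sub, map_add, hmT, e1, hexp, sub_eq_zero, hE', map_add, map_add, map_sum, map_sum,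
      map_mul, ← add_assoc]
    congr 1
    · congr 1
      apply Finset.sum_congr rfl
      intro k _
      rw [map_mul, hμ]
    · apply Finset.sum_congr rfl
      intro z _
      rw [map_mul mk (w' z) (μ' z), hμ']
  obtain ⟨ρ, hr⟩ := Ideal.mem_span_singleton'.1 ((hmk _).1 hmE)
  have hE0 : eW E = 0 := by
    have h2 : E = aeval T g + algebraMap R W ν * a' ^ nX * b' ^ nY - ρ * R1 := by
      rw [hr]; ring
    rw [h2, map_sub, map_add, map_mul, map_mul, map_mul, heR1, mul_zero, sub_zero, map_pow,
      map_pow, hea, heb, AlgHom.commutes]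
    have h3 : eW (aeval T g) = aeval (Tz Z r e y) g := by
      have h4 : eW (aeval T g) = (eW.comp (aeval T)) g := rfl
      rw [h4]
      congr 1
      apply MvPolynomial.algHom_ext
      intro i
      rw [AlgHom.comp_apply, aeval_X, aeval_X, heT]
    rw [h3]
    exact hD.hG
  obtain ⟨A, iA1, iA2, pr, hprs, hprk, hpr⟩ := exists_quot (R := R) (Ideal.span {R1, E} : Ideal W)
  have hprR1 : pr R1 = 0 := (hpr R1).2 (Ideal.subset_span (by simp))
  have hprE : pr E = 0 := (hpr E).2 (Ideal.subset_span (by simp))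
  have hker : ∀ w, pr w = 0 → eW w = 0 := by
    intro w hw
    have h1 := (hpr w).1 hw
    obtain ⟨x, y, hxy⟩ := Ideal.mem_span_pair.1 h1
    rw [← hxy, map_add, map_mul, map_mul, heR1, hE0]
    simp
  -- the range
  have hrange : (Algebra.adjoin R ({a, b} ∪ Set.range y)) = eW.range := by
    show _ = (aeval zz).range
    rw [← Algebra.adjoin_range_eq_range_aeval]
    have hnat : ∀ (S : Subalgebra R F) (n : ℕ), (n : F) ∈ S := fun S n => natCast_mem S n
    have hzin : ∀ k, zz k ∈ Algebra.adjoin R (Set.range zz) :=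
      fun k => Algebra.subset_adjoin ⟨k, rfl⟩
    have hrest : ∀ k : TT Z s d, y k ∈ Algebra.adjoin R (Set.range zz) := by
      intro k
      have h1 : y k = zz (some (some (Sum.inl k))) + (c k : F) := by
        show y k = (y k - (c k : F)) + (c k : F)
        ring
      rw [h1]
      exact add_mem (hzin _) (hnat _ _)
    have hzt : ∀ z : ZT Z, y z ∈ Algebra.adjoin R (Set.range zz) := fun z =>
      hzin (some (some (Sum.inr z)))
    apply le_antisymm
    · apply Algebra.adjoin_le
      rintro w (hw | ⟨i, rfl⟩)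
      · rcases hw with rfl | rfl
        · exact hzin none
        · exact hzin (some none)
      · by_cases hi : i ∈ Z
        · exact hzt ⟨i, hi⟩
        · by_cases h1 : i = s
          · rw [h1, hD.hs]; exact one_mem _
          · by_cases h2 : i = d
            · have h3 := (hS (ι := ι) (B := F) Z s d hid hD.hsZ hdZ (fun _ => 0) (fun _ => 0)
                (fun _ => 0) 0).2 (Tz Z r e y)
              rw [hDL, hTzy s hD.hsZ, hTzy d hdZ, hD.hs] at h3
              have h5 : ∑ k : TT Z s d, Tz Z r e y k = ∑ k : TT Z s d, y k :=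
                Finset.sum_congr rfl fun k _ => hTzy k.1 k.2.1
              have h6 : ∑ z : ZT Z, Tz Z r e y z = ∑ z : ZT Z, algebraMap R F (r z) * y z ^ e :=
                Finset.sum_congr rfl fun z _ => by
                  unfold Tz
                  rw [if_pos z.2]
              rw [h5, h6] at h3
              have h4 : y i = zz none * zz (some none) - 1 - ∑ k : TT Z s d, y k -
                  ∑ z : ZT Z, algebraMap R F (r z) * y z ^ e := by
                show y i = a * b - 1 - ∑ k : TT Z s d, y k -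
                  ∑ z : ZT Z, algebraMap R F (r z) * y z ^ e
                rw [h2, h3]; ring
              rw [h4]
              exact sub_mem (sub_mem (sub_mem (mul_mem (hzin _) (hzin _)) (one_mem _))
                (sum_mem fun k _ => hrest k))
                (sum_mem fun z _ => mul_mem (Subalgebra.algebraMap_mem _ _) (pow_mem (hzt z) e))
            · exact hrest ⟨i, hi, h1, h2⟩
    · apply Algebra.adjoin_le
      rintro w ⟨o, rfl⟩
      rcases o with _ | (_ | (k | z))
      · exact Algebra.subset_adjoin (Or.inl (Or.inl rfl))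
      · exact Algebra.subset_adjoin (Or.inl (Or.inr rfl))
      · show y k - (c k : F) ∈ _
        exact sub_mem (Algebra.subset_adjoin (Or.inr ⟨k.1, rfl⟩)) (hnat _ _)
      · exact Algebra.subset_adjoin (Or.inr ⟨z.1, rfl⟩)
  have hlocOf' : IsLocOf 𝒪 (eW.range : Set F) := by
    rw [← hrange]; exact hlocOf
  have hW : ∀ w, eW w ∈ 𝒪 := fun w => hlocOf'.1 _ ⟨w, rfl⟩
  have hprp : pr (algebraMap R W π) = pr (a' ^ nA * b' ^ nB) := by
    rw [hR1, map_sub] at hprR1
    exact sub_eq_zero.1 hprR1
  have hprG : pr (aeval T g + algebraMap R W ν * a' ^ nX * b' ^ nY) = 0 := by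
    have h2 : aeval T g + algebraMap R W ν * a' ^ nX * b' ^ nY = E + ρ * R1 := by
      rw [hr]; ring
    rw [h2, map_add, map_mul, hprE, hprR1]
    simp
  have hsingT : ∀ k : TT Z s d, ¬ U 𝒪 (y k - (c k : F)) := fun k => hsing k.1 k.2.1
  have hyZU : ∀ z : ZT Z, ¬ U 𝒪 (y z) := fun z => hD.hyZ z.1 z.2
  -- `v` is a unit
  have hvU : U 𝒪 (eW v) := by
    let P : Ideal W := primeOf hD.loc (eW : W →+* F) hW
    have hPmem : ∀ w : W, w ∈ P ↔ ¬ U 𝒪 (eW w) := fun w =>
      mem_primeOf hD.loc (eW : W →+* F) hW w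
    have hle : Ideal.span ({a'} ∪ Set.range u ∪ Set.range w') ≤ P := by
      rw [Ideal.span_le]
      rintro w ((hw | ⟨k, rfl⟩) | ⟨z, rfl⟩)
      · rw [Set.mem_singleton_iff] at hw
        show w ∈ P
        rw [hPmem, hw, hea]; exact hD.haU
      · show u k ∈ P
        rw [hPmem, heu]; exact hsingT k
      · show algebraMap R W (r z) * yy z ^ e ∈ P
        refine P.mul_mem_left _ (Ideal.pow_mem_of_mem P ?_ e (by omega))
        rw [hPmem, hey]; exact hyZU z
    have hmap : Ideal.span ({mk a'} ∪ Set.range (fun k => mk (u k)) ∪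
        Set.range (fun z => mk (w' z))) =
        Ideal.map (mk : W →+* B) (Ideal.span ({a'} ∪ Set.range u ∪ Set.range w')) := by
      rw [Ideal.map_span, Set.image_union, Set.image_union, Set.image_singleton, ← Set.range_comp,
        ← Set.range_comp]
      rfl
    rw [hmap] at hvB
    obtain ⟨w, hw, hw2⟩ := (Ideal.mem_map_iff_of_surjective (mk : W →+* B) hmks).1 hvB
    have h1 : mk (v - v1 nX nY b' (algebraMap R W ν) - w) = 0 := by
      have h2 : mk (v1 nX nY b' (algebraMap R W ν)) = v1 nX nY (mk b') (algebraMap R B ν) := by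
        have := map_v1 (mk : W →+* B) nX nY b' (algebraMap R W ν)
        have h3 : mk (algebraMap R W ν) = algebraMap R B ν := mk.commutes ν
        rw [← h3]
        exact this
      rw [map_sub, map_sub, h2, sub_eq_zero]
      exact hw2.symm
    obtain ⟨r', hr'⟩ := Ideal.mem_span_singleton'.1 ((hmk _).1 h1)
    have h4 : eW v = v1 nX nY b (algebraMap R F ν) + eW w := by
      have h5 : v = v1 nX nY b' (algebraMap R W ν) + w + r' * R1 := by
        rw [hr']; ring
      have h6 : eW (v1 nX nY b' (algebraMap R W ν)) = v1 nX nY b (algebraMap R F ν) := by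
        have := map_v1 (eW : W →+* F) nX nY b' (algebraMap R W ν)
        have h3 : eW (algebraMap R W ν) = algebraMap R F ν := eW.commutes ν
        rw [← heb, ← h3]
        exact this
      conv_lhs => rw [h5]
      rw [map_add, map_add, map_mul, heR1, mul_zero, add_zero, h6]
    have h7 : v1 nX nY b (algebraMap R F ν) = eW v + eW (-w) := by
      rw [h4, map_neg]; ring
    have h8 : U 𝒪 (eW v + eW (-w)) := by rw [← h7]; exact hv0
    rcases hD.loc _ _ (hW v) (hW (-w)) h8 with h9 | h9
    · exact h9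
    · exact absurd h9 ((hPmem (-w)).1 (P.neg_mem (hle hw)))
  refine hP 𝒪 p e n m π ν 1 nA nB nX nY co r g Z y s a b hD pr hprs eW hker hW hlocOf' Y a' b'
    heY hea heb hYs (by rw [hTz, hTsum, pow_one]) hprp (by rw [hTz]; exact hprG) ?_ ?_
  · -- fractions
    obtain ⟨hFa, hFb, hFT⟩ := hFAB 𝒪 p e n m π ν 1 nA nB nX nY co r g Z y s a b hD pr eW hker
      Y a' b' heY hea heb hYs (by rw [hTz, hTsum, pow_one]) hprp
    obtain ⟨f1, f2, f3, f4, f5, f6, f7⟩ := FRC_ok pr eW hker (fun i : {i : ι // i ≠ s} => Y i)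
    apply f7 (Set.range X) MvPolynomial.adjoin_range_X
    rintro w ⟨o, rfl⟩
    rcases o with _ | (_ | (k | z))
    · exact hFa
    · exact hFb
    · have h1 : (X (some (some (Sum.inl k))) : W) = Y k.1 + algebraMap R W (-(c k.1 : R)) := by
        have h2 : Y k.1 = (c k.1 : W) + X (some (some (Sum.inl k))) := by
          rw [hYN k.1 k.2.1]
          exact TcZ_T Z s d _ _ _ _ k
        rw [h2, map_neg, map_natCast]; ring
      rw [h1]
      exact f3 _ _ (hFT _) (f1 _)
    · have h1 : (X (some (some (Sum.inr z))) : W) = Y z.1 := (hYZ z).symm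
      rw [h1]
      exact hFT _
  · intro q _ hq
    have h1 : pr (X none) ∈ q := by
      rw [hq]
      show ¬ U 𝒪 (eW a')
      rw [hea]; exact hD.haU
    have h2 : ∀ k : TT Z s d ⊕ ZT Z, pr (X (some (some k))) ∈ q := by
      rintro (k | z)
      · rw [hq]
        show ¬ U 𝒪 (eW (u k))
        rw [heu]; exact hsingT k
      · rw [hq]
        show ¬ U 𝒪 (eW (yy z))
        rw [hey]; exact hyZU z
    have h3 : pr v ∉ q := by
      rw [hq]
      exact not_not.2 hvU
    exact RL_ok HT_ok π hD.ram.irr (pr : W →+* A) hprs h v νν hprk q h1 h2 h3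

end Pool.Agent.H945R2.R
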