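import Pool.Agent.H945R2.R.Props2

/-! CLR: classification of the local subrings. -/

set_option autoImplicit false

open scoped Pointwise

namespace Pool.Agent.H945R2.R

open Pool.Agent.H918R2.Quad Pool.Agent.H945R2.D Pool.Agent.H945R2.S Pool.Agent.H945R2.E
  MvPolynomial

theorem CLR_ok : S_CLR := by
  intro R F _ _ _ 𝒪 _hloc hR p n m π ν hram L G hπ hL hLO hG hnU hrel hdich
  classical
  obtain ⟨_hirr, htwo, hnm, hν, hpν⟩ := hram
  obtain ⟨π', hπ'⟩ : ∃ π', π' = algebraMap R F π := ⟨_, rfl⟩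
  obtain ⟨ν', hν'⟩ : ∃ ν', ν' = algebraMap R F ν := ⟨_, rfl⟩
  have hπO : π' ∈ 𝒪 := by rw [hπ']; exact hR π
  have hrel' : ν' * L ^ p = -(π' ^ n * G) := by
    have h1 : (p : F) * ν' = π' ^ n := by
      rw [hπ', hν', ← map_pow, ← hpν, map_mul, map_natCast]
    rw [hrel, ← h1]
    ring
  rw [← hπ'] at hπ hnU hdich ⊢
  rw [← hν']
  have hν0 : ν' ≠ 0 := by
    rw [hν']
    exact (hν.map (algebraMap R F)).ne_zero
  have hνi : ν'⁻¹ ∈ 𝒪 := by
    obtain ⟨u, hu⟩ := hν
    have h1 : ν'⁻¹ = algebraMap R F (↑(u⁻¹) : R) := by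
      apply inv_eq_of_mul_eq_one_right
      rw [hν', ← hu, ← map_mul, Units.mul_inv, map_one]
    rw [h1]
    exact hR _
  -- the predicate whose largest witness is used
  let P : ℕ → Prop := fun j => π' / L ^ j ∈ 𝒪 ∧ ¬ U 𝒪 (π' / L ^ j)
  have hP0 : P 0 := by
    refine ⟨?_, ?_⟩
    · simpa using hπO
    · simpa using hnU
  by_cases hPm : P m
  · -- last kind
    have hLm : L ^ m ≠ 0 := pow_ne_zero _ hL
    have hLp : L ^ (n * m) ≠ 0 := pow_ne_zero _ hL
    have hπn : π' ^ n ≠ 0 := pow_ne_zero _ hπ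
    have hb : L ^ p / π' ^ n = -(ν'⁻¹ * G) := by
      rw [div_eq_iff hπn]
      have h1 : ν' * L ^ p = ν' * (-(ν'⁻¹ * G) * π' ^ n) := by
        rw [hrel']
        field_simp
      exact mul_left_cancel₀ hν0 h1
    have hab : L = (π' / L ^ m) ^ n * (L ^ p / π' ^ n) := by
      have h1 : L ^ p = L ^ (n * m) * L := by rw [← pow_succ, hnm]
      rw [div_pow, ← pow_mul, mul_comm m n, h1]
      field_simp
    refine ⟨n, p, m, 0, 1, π' / L ^ m, L ^ p / π' ^ n, ⟨hnm.symm, by omega, hnm.symm, by omega,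
      Or.inr ⟨rfl, rfl⟩⟩, hPm.1, ?_, hPm.2, hab, ?_, ?_⟩
    · rw [hb]
      exact 𝒪.neg_mem (𝒪.mul_mem hνi hG)
    · have h1 : (π' / L ^ m) ^ p * (L ^ p / π' ^ n) ^ m =
          π' / L ^ m * ((π' / L ^ m) ^ n * (L ^ p / π' ^ n)) ^ m := by
        have h2 : (π' / L ^ m) ^ p = (π' / L ^ m) ^ (n * m) * (π' / L ^ m) := by
          rw [← pow_succ, hnm]
        rw [h2, mul_pow, ← pow_mul]
        ring
      rw [h1, ← hab]
      field_simp
    · rw [hb, pow_zero, pow_one, mul_one]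
      field_simp
      ring
  · obtain ⟨j, hjm, hPj, hmax⟩ : ∃ j, j < m ∧ P j ∧ ¬ P (j + 1) := by
      by_contra hcon
      push Not at hcon
      have hall : ∀ j, j ≤ m → P j := by
        intro j
        induction j with
        | zero => intro _; exact hP0
        | succ j ih =>
          intro hj
          exact hcon j (by omega) (ih (by omega))
      exact hPm (hall m le_rfl)
    have hLj : L ^ j ≠ 0 := pow_ne_zero _ hL
    have hLj1 : L ^ (j + 1) ≠ 0 := pow_ne_zero _ hL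
    have ha0 : π' / L ^ j ≠ 0 := div_ne_zero hπ hLj
    have hb0 : L ^ (j + 1) / π' ≠ 0 := div_ne_zero hLj1 hπ
    have hab : L = π' / L ^ j * (L ^ (j + 1) / π') := by
      rw [pow_succ]
      field_simp
    have hpi : π' = (π' / L ^ j) ^ (j + 1) * (L ^ (j + 1) / π') ^ j := by
      have h1 : (π' / L ^ j) ^ (j + 1) * (L ^ (j + 1) / π') ^ j =
          π' / L ^ j * (π' / L ^ j * (L ^ (j + 1) / π')) ^ j := by
        rw [mul_pow, pow_succ]; ring
      rw [h1, ← hab]
      field_simp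
    have hle : n * (j + 1) ≤ n * m := Nat.mul_le_mul_left n (by omega)
    have hle' : n * (j + 1) = n * j + n := by ring
    have hGeq : G + ν' * (π' / L ^ j) ^ (p - n * (j + 1)) * (L ^ (j + 1) / π') ^ (p - n * j) =
        0 := by
      obtain ⟨A, hA⟩ : ∃ A, A = π' / L ^ j := ⟨_, rfl⟩
      obtain ⟨B, hB⟩ : ∃ B, B = L ^ (j + 1) / π' := ⟨_, rfl⟩
      rw [← hA, ← hB] at hab hpi ⊢
      have h2 : π' ^ n * (ν' * A ^ (p - n * (j + 1)) * B ^ (p - n * j)) = -(π' ^ n * G) := by
        rw [← hrel', hab, mul_pow]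
        have h3 : π' ^ n = A ^ (n * (j + 1)) * B ^ (n * j) := by
          have h4 := congrArg (fun z => z ^ n) hpi
          simp only [mul_pow, ← pow_mul] at h4
          rw [h4, mul_comm (j + 1) n, mul_comm j n]
        have h5 : A ^ p = A ^ (n * (j + 1)) * A ^ (p - n * (j + 1)) := by
          rw [← pow_add]; congr 1; omega
        have h6 : B ^ p = B ^ (n * j) * B ^ (p - n * j) := by
          rw [← pow_add]; congr 1; omega
        rw [h3, h5, h6]
        ring
      have h6 : π' ^ n * (G + ν' * A ^ (p - n * (j + 1)) * B ^ (p - n * j)) = 0 := by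
        rw [mul_add, h2]; ring
      exact (mul_eq_zero.1 h6).resolve_left (pow_ne_zero _ hπ)
    have hbO : L ^ (j + 1) / π' ∈ 𝒪 := by
      rcases hdich (j + 1) (by omega) (by omega) with h | h
      · have hU : U 𝒪 (π' / L ^ (j + 1)) := by
          by_contra hU
          exact hmax ⟨h, hU⟩
        have := hU.2.2
        rwa [inv_div] at this
      · exact h
    exact ⟨1, j + 1, j, p - n * (j + 1), p - n * j, π' / L ^ j, L ^ (j + 1) / π',
      ⟨by omega, by omega, by omega, le_rfl, Or.inl ⟨rfl, hjm⟩⟩, hPj.1, hbO, hPj.2,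
      by rw [pow_one]; exact hab, hpi, hGeq⟩

end Pool.Agent.H945R2.R
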