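import Pool.Agent.H945R2.R.Props2
import Pool.Agent.H945R2.S.DEGS

/-! DEGR: degrees of the factors, ramified case (helper531; adapted from `S/DEGS.lean`). -/

set_option autoImplicit false

open scoped Pointwise

namespace Pool.Agent.H945R2.R

open Pool.Agent.H918R2.Quad Pool.Agent.H945R2.D Pool.Agent.H945R2.S Pool.Agent.H945R2.E MvPolynomial

namespace DEGRaux

open Pool.Agent.H945R2.S.DEGSaux

variable {R F ι : Type} [CommRing R] [Field F] [Algebra R F]

theorem amul_mem {M : Submodule R F} (r : R) {y : F} (hy : y ∈ M) : algebraMap R F r * y ∈ M := by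
  rw [← Algebra.smul_def]
  exact Submodule.smul_mem _ _ hy

/-- The data of a base factor. -/
theorem base [Fintype ι] (p e n m : ℕ) (π ν : R) (hR : Ram p n m π ν) (hp : 1 ≤ p) (x : ι → F)
    (u : ι → R) (s : ι) (c : ι → ℕ) (B : Set F) (μ : F) (N : ℕ)
    (h : IsBaseR p e m (algebraMap R F π) x (fun i => algebraMap R F (u i) * x i ^ e) s c B μ N) :
    ∃ dB dμ K : ℕ, In R x B dB ∧
      (∀ y ∈ Set.range x ^ dB, algebraMap R F π ^ K * y ∈ Submodule.span R B) ∧
      μ ∈ Submodule.span R (Set.range x) ^ dμ ∧ dB = dμ + N ∧ e ≤ N := by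
  have hX : ∀ i, algebraMap R F (u i) * x i ^ e ∈ Submodule.span R (Set.range x) ^ e :=
    X_mem x u e
  have hsum : ∑ i, algebraMap R F (u i) * x i ^ e ∈ Submodule.span R (Set.range x) ^ e :=
    Submodule.sum_mem _ fun i _ => hX i
  have hdif : ∀ i, algebraMap R F (u i) * x i ^ e - (c i : F) * (algebraMap R F (u s) * x s ^ e) ∈
      Submodule.span R (Set.range x) ^ e := fun i =>
    Submodule.sub_mem _ (hX i) (natmul_mem _ (hX s))
  have hsp : ∀ k, (∑ i, algebraMap R F (u i) * x i ^ e) ^ k ∈
      Submodule.span R (Set.range x) ^ (e * k) := by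
    intro k
    rw [pow_mul]
    exact Submodule.pow_mem_pow _ hsum k
  have hXp : ∀ i k, (algebraMap R F (u i) * x i ^ e) ^ k ∈
      Submodule.span R (Set.range x) ^ (e * k) := by
    intro i k
    rw [pow_mul]
    exact Submodule.pow_mem_pow _ (hX i) k
  have hone : (1 : F) ∈ Submodule.span R (Set.range x) ^ 0 := by
    rw [pow_zero]; exact Submodule.one_le.mp le_rfl
  rcases h with ⟨j, hj1, rfl, rfl, rfl⟩ | ⟨rfl, rfl, rfl⟩
  · refine ⟨e * (2 * j + 1), e * j, 2, ?_, ?_, ?_, by ring, ?_⟩
    · rintro h (⟨y, hy, rfl⟩ | rfl | ⟨i, y, hy, rfl⟩)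
      · rw [← map_pow]
        exact amul_mem (π ^ 2) (In_rangepow x _ y hy)
      · exact hsp _
      · have h1 := Submodule.mul_mem_mul (Submodule.mul_mem_mul (hsp j) (hdif i))
          (In_rangepow (R := R) x _ y hy)
        rw [← pow_add, ← pow_add] at h1
        have h2 := amul_mem π h1
        have e1 : e * j + e + e * j = e * (2 * j + 1) := by ring
        rw [e1] at h2
        simpa only [mul_assoc] using h2
    · intro y hy
      exact Submodule.subset_span (Or.inl ⟨y, hy, rfl⟩)
    · exact amul_mem π (hsp j)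
    · nlinarith
  · have e1 : e * (p - 1) + e = e * p := by
      obtain ⟨q, rfl⟩ : ∃ q, p = q + 1 := ⟨p - 1, by omega⟩
      simp [Nat.mul_succ]
    refine ⟨e * p, 0, 2 * n, ?_, ?_, ?_, by omega, by nlinarith⟩
    · rintro h (⟨y, hy, rfl⟩ | ⟨y, hy, rfl⟩ | ⟨i, rfl⟩ | ⟨i, y, hy, rfl⟩)
      · exact natpow_mem p 2 (In_rangepow x _ y hy)
      · have h1 := Submodule.mul_mem_mul (In_rangepow (R := R) x _ y hy) hsum
        rw [← pow_add, e1] at h1
        have h2 := natmul_mem p h1
        have e2 : (p : F) * (y * ∑ i, algebraMap R F (u i) * x i ^ e) =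
            (p : F) * (∑ i, algebraMap R F (u i) * x i ^ e) * y := by ring
        rwa [e2] at h2
      · rw [← e1, pow_add]
        refine Submodule.mul_mem_mul (Submodule.add_mem _ ?_ ?_) (hX i)
        · exact natmul_mem p (hXp s _)
        · exact hsp _
      · have h1 := Submodule.mul_mem_mul (In_rangepow (R := R) x _ y hy) (hdif i)
        rw [← pow_add, e1] at h1
        have h2 := natmul_mem p h1
        have e2 : (p : F) * (y * (algebraMap R F (u i) * x i ^ e -
            (c i : F) * (algebraMap R F (u s) * x s ^ e))) =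
            (p : F) * (algebraMap R F (u i) * x i ^ e -
            (c i : F) * (algebraMap R F (u s) * x s ^ e)) * y := by ring
        rwa [e2] at h2
    · intro y hy
      have h1 : (p : F) ^ 2 * y ∈ Submodule.span R
          (Bl p e x (fun i => algebraMap R F (u i) * x i ^ e) s c) :=
        Submodule.subset_span (Or.inl ⟨y, hy, rfl⟩)
      have h2 := amul_mem (ν ^ 2) h1
      have h3 : algebraMap R F (ν ^ 2) * ((p : F) ^ 2 * y) = algebraMap R F π ^ (2 * n) * y := by
        have h4 : (p : F) * algebraMap R F ν = algebraMap R F π ^ n := by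
          have := congrArg (algebraMap R F) hR.rel
          rwa [map_mul, map_natCast, map_pow] at this
        rw [mul_comm 2 n, pow_mul, ← h4, map_pow]
        ring
      rwa [h3] at h2
    · have := natmul_mem p hone
      rwa [mul_one] at this

end DEGRaux

open Pool.Agent.H945R2.S.DEGSaux DEGRaux in
theorem DEGR_ok : S_DEGR := by
  intro R F ι _ _ _ _ _ p e h n m π ν hR hp he heh g x u S hS
  have he' : 2 * h ≤ e := by omega
  rcases hS with rfl | ⟨j, _, _, rfl⟩ | ⟨s, c, β, _, _, B, μ, N, hB, hS⟩
  · refine ⟨1, fun h hh => ?_, 0, fun y hy => ?_⟩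
    · rw [pow_one]
      exact Submodule.subset_span hh
    · rw [pow_one] at hy
      rw [pow_zero, one_mul]
      exact Submodule.subset_span hy
  · refine ⟨e * j, fun h hh => ?_, 1, fun y hy => ?_⟩
    · rw [← Submodule.span_pow]
      rcases hh with ⟨y, hy, rfl⟩ | rfl
      · exact amul_mem π (In_rangepow x _ y hy)
      · rw [pow_mul]
        exact Submodule.pow_mem_pow _ (Submodule.sum_mem _ fun i _ => X_mem x u e i) j
    · refine Submodule.subset_span (Or.inl ⟨y, hy, ?_⟩)
      rw [pow_one]
  · obtain ⟨dB, dμ, K, hIn, hp2, hμ, hd, hen⟩ := DEGRaux.base p e n m π ν hR hp x u s c B μ N hB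
    have hY : In R x (Yc x c) 1 := by
      rintro y ⟨i, _, rfl⟩
      exact In_range x _ ⟨i, rfl⟩
    have hV : In R x (Set.range x) 1 := In_range x
    have hdeg : ∀ {S : Set F} {d d' : ℕ}, In R x S d → d = d' → In R x S d' := by
      intro S d d' h1 h2
      rwa [← h2]
    rcases hS with ⟨k, hk1, hk2, rfl⟩ | ⟨he2, hh1, rfl⟩ | ⟨he1, hc, rfl⟩
    · refine ⟨dB, ?_, K, ?_⟩
      · rw [← Submodule.span_pow]
        refine In_union hIn (hdeg (In_mul (In_mul (In_sing hμ) (In_pow hY k))
          (In_pow hV (N - k))) ?_)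
        omega
      · intro y hy
        exact Submodule.span_mono Set.subset_union_left (hp2 y hy)
    · have hf : fc (fun i => algebraMap R F (u i) * x i ^ e) c ∈
          Submodule.span R (Set.range x) ^ e := by
        unfold fc
        refine Submodule.sum_mem _ fun i _ => ?_
        by_cases hc : c i = 0
        · rw [if_pos hc]; exact X_mem x u e i
        · rw [if_neg hc]; exact Submodule.zero_mem _
      have hμk : ∀ k, μ ^ k ∈ Submodule.span R (Set.range x) ^ (dμ * k) := by
        intro k
        rw [pow_mul]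
        exact Submodule.pow_mem_pow _ hμ k
      refine ⟨3 * dB, ?_, 3 * K, ?_⟩
      · rw [← Submodule.span_pow]
        unfold Cd
        refine In_union (In_union (In_union (In_union ?_ ?_) ?_) ?_) ?_
        · exact hdeg (In_pow hIn 3) (by ring)
        · refine hdeg (In_mul (In_mul (In_mul (In_pow hIn 2) (In_sing hμ)) hY)
            (In_pow hV (N - 1))) ?_
          omega
        · refine hdeg (In_mul (In_mul (In_mul hIn (In_sing (hμk 2))) (In_pow hY (h + 1)))
            (In_pow hV (2 * N - h - 1))) ?_
          omega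
        · refine hdeg (In_mul (In_mul (In_sing (hμk 3)) (In_pow hY (2 * h + 2)))
            (In_pow hV (3 * N - 2 * h - 2))) ?_
          omega
        · have h3 := Submodule.mul_mem_mul (hμk 3) hf
          rw [← pow_add] at h3
          refine hdeg (In_mul (In_sing h3) (In_pow hV (3 * N - 2 * h - 1))) ?_
          omega
      · intro y hy
        have hsub : Submodule.span R (B ^ 3) ≤ Submodule.span R
            (Cd B μ (fc (fun i => algebraMap R F (u i) * x i ^ e) c) (Set.range x) (Yc x c) N h) := by
          apply Submodule.span_mono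
          unfold Cd
          intro z hz
          exact Or.inl (Or.inl (Or.inl (Or.inl hz)))
        apply hsub
        have e3 : 3 * dB = dB + dB + dB := by ring
        rw [e3, pow_add, pow_add] at hy
        obtain ⟨_, ⟨y₁, hy₁, y₂, hy₂, rfl⟩, y₃, hy₃, rfl⟩ := hy
        rw [← Submodule.span_pow, pow_succ, pow_two]
        have h5 := Submodule.mul_mem_mul (Submodule.mul_mem_mul (hp2 y₁ hy₁) (hp2 y₂ hy₂))
          (hp2 y₃ hy₃)
        have e5 : algebraMap R F π ^ (3 * K) * ((fun x1 x2 => x1 * x2)
            ((fun x1 x2 => x1 * x2) y₁ y₂) y₃) =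
            algebraMap R F π ^ K * y₁ * (algebraMap R F π ^ K * y₂) *
              (algebraMap R F π ^ K * y₃) := by
          simp only
          have : 3 * K = K + K + K := by ring
          rw [this, pow_add, pow_add]
          ring
        rw [e5]
        exact h5
    · refine ⟨dB, ?_, K, hp2⟩
      rw [← Submodule.span_pow]
      exact hIn

end Pool.Agent.H945R2.R
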