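import Pool.Agent.H945R2.R.Props2
import Pool.Agent.H945R2.S.EXPLZ

/-! EXPLR: first order expansion of the third relation (helper154). Adapted from `S/EXPLZ.lean`. -/

set_option autoImplicit false

open scoped Pointwise

namespace Pool.Agent.H945R2.R

open Pool.Agent.H918R2.Quad Pool.Agent.H945R2.D Pool.Agent.H945R2.S Pool.Agent.H945R2.E
  MvPolynomial

open Pool.Agent.H945R2.S.EXPLZaux in
theorem EXPLR_ok (h : S_TAYZ1) (hS : S_SUMZ) : S_EXPLR := by
  intro R ι _ _ _ _ p n m π ν hram nA nB nX nY hkind hnX co g hco s c β hsp Z hZ d hd hdZ B _ _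
    a b u w hp
  have hsZ : s ∉ Z := by
    rw [hZ, hsp.one]
    exact one_ne_zero
  obtain ⟨P', hP'⟩ : ∃ P' : B, (p : B) = a ^ 2 * P' := by
    obtain ⟨ν', hν'⟩ := hram.unit.exists_right_inv
    have h1 : (p : R) = ν' * π ^ n := by
      rw [← hram.rel]
      linear_combination (-(p : R)) * hν'
    have h2 := congrArg (algebraMap R B) h1
    rw [map_natCast, map_mul, map_pow, hp, mul_pow, ← pow_mul, ← pow_mul] at h2
    have h3 : 2 ≤ nA * n := by
      have h4 : 1 ≤ nA := by
        have := hkind.a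
        omega
      have h5 := hram.two
      nlinarith
    obtain ⟨e, he⟩ := Nat.exists_eq_add_of_le h3
    refine ⟨algebraMap R B ν' * (a ^ e * b ^ (nB * n)), ?_⟩
    rw [h2, he, pow_add]
    ring
  have ha : a ∣ (p : B) := by
    rw [hP']
    exact ⟨a * P', by ring⟩
  obtain ⟨J, hJ⟩ : ∃ J : Ideal B, J = Ideal.span ({a} ∪ Set.range u ∪ Set.range w) := ⟨_, rfl⟩
  have haJ : a ∈ J := by
    rw [hJ]
    exact Ideal.subset_span (Or.inl (Or.inl rfl))
  have huJ : ∀ k, u k ∈ J := fun k => by
    rw [hJ]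
    exact Ideal.subset_span (Or.inl (Or.inr ⟨k, rfl⟩))
  have hwJ : ∀ k, w k ∈ J := fun k => by
    rw [hJ]
    exact Ideal.subset_span (Or.inr ⟨k, rfl⟩)
  obtain ⟨T, hTdef⟩ : ∃ T : ι → B, T = TcZ Z s d (fun i => (c i : B)) u w (a * b) := ⟨_, rfl⟩
  have hsum := (hS Z s d hd hsZ hdZ (fun i => (c i : B)) u w (a * b)).1
  rw [← hTdef] at hsum
  have hc0 : ∀ z : ZT Z, (c z : B) = 0 := fun z => by
    rw [(hZ z).1 z.2, Nat.cast_zero]
  have hη : ∀ i, T i - (c i : B) ∈ J := by
    intro i
    rw [hTdef]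
    unfold TcZ
    split_ifs with hz h h'
    · rw [(hZ i).1 hz, Nat.cast_zero, sub_zero]
      exact hwJ _
    · rw [h, hsp.one, Nat.cast_one, sub_self]
      exact J.zero_mem
    · have h2 := (hS Z s d hd hsZ hdZ (fun i => (c i : B)) u w (a * b)).2 (fun i => (c i : B))
      obtain ⟨σ, hσ⟩ := hsp.sum
      have h3 : (∑ i, (c i : B)) = (p : B) * (σ : B) := by
        have := congrArg (Nat.cast : ℕ → B) hσ
        push_cast at this
        exact this
      have h4 : ∑ k : TT Z s d, ((c k : B) + u k) = ∑ k : TT Z s d, (c k : B) + ∑ k, u k :=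
        Finset.sum_add_distrib
      have h41 : ∑ z : ZT Z, (c z : B) = 0 := Finset.sum_eq_zero fun z _ => hc0 z
      have h5 : a * b - 1 - ∑ k : TT Z s d, ((c k : B) + u k) - ∑ z, w z - (c i : B) =
          a * b - (p : B) * (σ : B) - ∑ k, u k - ∑ z, w z := by
        rw [h4, ← h3, h2, h', hsp.one, h41]
        push_cast
        ring
      rw [h5]
      refine J.sub_mem (J.sub_mem (J.sub_mem (J.mul_mem_right _ haJ) ?_)
        (J.sum_mem fun k _ => huJ k)) (J.sum_mem fun k _ => hwJ k)
      obtain ⟨e, he⟩ := ha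
      rw [he, mul_assoc]
      exact J.mul_mem_right _ haJ
    · have : (c i : B) + u ⟨i, hz, h, h'⟩ - (c i : B) = u ⟨i, hz, h, h'⟩ := by ring
      rw [this]
      exact huJ _
  have htay := h p co g hco s c β hsp J (fun i => T i - (c i : B)) hη
  have hTc : (fun i => (c i : B) + (T i - (c i : B))) = T := by
    funext i
    ring
  rw [hTc] at htay
  -- the sum over the indices with `c i = 0`
  have hzero : (∑ i, (if c i = 0 then T i - (c i : B) else 0)) = ∑ z, w z := by
    have h2 := (hS Z s d hd hsZ hdZ (fun i => (c i : B)) u w (a * b)).2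
      (fun i => if c i = 0 then T i - (c i : B) else 0)
    rw [h2]
    have e1 : (if c s = 0 then T s - (c s : B) else 0) = 0 :=
      if_neg fun h0 => hsZ ((hZ s).2 h0)
    have e2 : (if c d = 0 then T d - (c d : B) else 0) = 0 :=
      if_neg fun h0 => hdZ ((hZ d).2 h0)
    have e3 : (∑ k : TT Z s d, (if c k = 0 then T k - (c k : B) else 0)) = 0 :=
      Finset.sum_eq_zero fun k _ => if_neg fun h0 => k.2.1 ((hZ k).2 h0)
    have e4 : (∑ z : ZT Z, (if c z = 0 then T z - (c z : B) else 0)) = ∑ z, w z := by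
      refine Finset.sum_congr rfl fun z _ => ?_
      rw [if_pos ((hZ z).1 z.2), hc0 z, sub_zero, hTdef]
      unfold TcZ
      rw [dif_pos z.2]
    rw [e1, e2, e3, e4]
    ring
  have hsum2 : Finset.univ.sum T = a * b := hsum
  rw [hzero, hsum2, hJ] at htay
  obtain ⟨v, hv, μ, μ', hr⟩ := mem_form a (p : B) u w ha _ htay
  rw [← hJ] at hv
  obtain ⟨x, hx⟩ := Nat.exists_eq_add_of_le hnX
  refine ⟨a * P' * algebraMap R B β + b + algebraMap R B ν * a ^ x * b ^ nY + v, μ,
    fun z => μ' z - 1, ?_, ?_⟩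
  · unfold TotR
    rw [← hTdef]
    have h6 : aeval T g = (p : B) * algebraMap R B β + a * b - ∑ z, w z +
        (a * v + ∑ k, u k * μ k + ∑ z, w z * μ' z) := by
      rw [← hr]
      ring
    have h7 : a ^ nX = a ^ x * a := by
      rw [← pow_succ]
      congr 1
      omega
    have h8 : ∑ z, w z * (μ' z - 1) = ∑ z, w z * μ' z - ∑ z, w z := by
      rw [← Finset.sum_sub_distrib]
      exact Finset.sum_congr rfl fun z _ => by ring
    rw [h6, h7, h8]
    nth_rewrite 1 [hP']
    ring
  · rw [← hJ]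
    split_ifs with h0
    · have h9 : x = 0 := by omega
      rw [h9]
      have h8 : a * P' * algebraMap R B β + b + algebraMap R B ν * a ^ 0 * b ^ nY + v -
          (b + algebraMap R B ν * b ^ nY) = a * (P' * algebraMap R B β) + v := by
        ring
      rw [h8]
      exact J.add_mem (J.mul_mem_right _ haJ) hv
    · obtain ⟨x', hx'⟩ : ∃ x', x = x' + 1 := ⟨x - 1, by omega⟩
      rw [hx']
      have h8 : a * P' * algebraMap R B β + b + algebraMap R B ν * a ^ (x' + 1) * b ^ nY + v -
          (b + 0) = a * (P' * algebraMap R B β + algebraMap R B ν * a ^ x' * b ^ nY) + v := by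
        ring
      rw [h8]
      exact J.add_mem (J.mul_mem_right _ haJ) hv

end Pool.Agent.H945R2.R
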