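import Pool.Agent.H945R2.R.Props2
import Pool.Agent.H945R2.D.FINAL

/-! Final assembly: regular models of diagonal hypersurfaces over number fields which may be
ramified above the degree (MP_4d1008_ag). -/

set_option autoImplicit false

open AlgebraicGeometry CategoryTheory NumberField

namespace Pool.Agent.H945R2.R

open Pool.Agent.H918R2.Quad Pool.Agent.H945R2.D Pool.Agent.H945R2.S Pool.Agent.H945R2.E
  MvPolynomial

theorem final (hGLO : S_GLOR) (hFLD : S_FLDM) (hIRR : S_IRRM) {K : Type} [Field K] [NumberField K]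
    (m : ℕ) (hm3 : 3 ≤ m) (hsq : Squarefree m) (n : ℕ) (hn : 1 ≤ n) (a : Fin (n + 2) → 𝓞 K)
    (ha : ∀ i, Squarefree (Ideal.span {a i})) (hcop : ∀ i, IsCoprime (m : 𝓞 K) (a i))
    (hp : ∀ 𝔭 : Ideal (𝓞 K), 𝔭.IsPrime → ∀ p : ℕ, p.Prime → p ∣ m → (p : 𝓞 K) ∈ 𝔭 →
      (p : 𝓞 K) ∉ 𝔭 ^ 2 ∨ ∃ r : ℕ, 2 ≤ r ∧ r ∣ p - 1 ∧ (p : 𝓞 K) ∈ 𝔭 ^ r ∧
        (p : 𝓞 K) ∉ 𝔭 ^ (r + 1) ∧
        ∀ i, ∃ (z : ℤ) (y : 𝓞 K), a i - z * y ^ p ∈ 𝔭 ^ (2 * r))
    {F : Type} [Field F] (e : F ≃+* FractionRing (MvPolynomial (Fin (n + 1)) K ⧸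
      Ideal.span {(C (algebraMap (𝓞 K) K (a 0)) +
        ∑ i : Fin (n + 1), C (algebraMap (𝓞 K) K (a i.succ)) * X i ^ m :
          MvPolynomial (Fin (n + 1)) K)})) :
    ∃ (X' : Scheme.{0}) (_ : IsIntegral X') (g : X' ⟶ Spec (CommRingCat.of ℤ)),
      IsProper g ∧
      (∀ x : X',
        (((Module.finrank (IsLocalRing.ResidueField (X'.presheaf.stalk x))
            (IsLocalRing.CotangentSpace (X'.presheaf.stalk x)) : ℕ∞)) : WithBot ℕ∞)
          = ringKrullDim (X'.presheaf.stalk x)) ∧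
      Nonempty (X'.functionField ≃+* F) := by
  have hOK : Function.Injective (algebraMap (𝓞 K) K) := IsFractionRing.injective (𝓞 K) K
  have ha0 : ∀ i, a i ≠ 0 := by
    intro i h0
    have h1 := ha i
    rw [h0, Ideal.span_singleton_eq_bot.2 rfl] at h1
    exact not_squarefree_zero h1
  have haK : ∀ i, algebraMap (𝓞 K) K (a i) ≠ 0 := by
    intro i h0
    exact ha0 i (hOK (by rw [h0, map_zero]))
  obtain ⟨alg, x, b, hx0, hrel, hgen, hlin, htb⟩ := hFLD n m (by omega)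
    (fun i => algebraMap (𝓞 K) K (a i)) haK
    (hIRR n hn m (by omega) (fun i => algebraMap (𝓞 K) K (a i)) haK) e
  let _ : Algebra (𝓞 K) F := ((algebraMap K F).comp (algebraMap (𝓞 K) K)).toAlgebra
  have _ : IsScalarTower (𝓞 K) K F := IsScalarTower.of_algebraMap_eq fun _ => rfl
  have hOF : Function.Injective (algebraMap (𝓞 K) F) := by
    rw [IsScalarTower.algebraMap_eq (𝓞 K) K F]
    exact (algebraMap K F).injective.comp hOK
  refine model_of_hasModule hOF (hGLO (K := K) (fun 𝔭 _ h => Ideal.finiteQuotientOfFreeOfNeBot 𝔭 h)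
    m hm3 hsq a ⟨hp, fun 𝔭 h𝔭 i => not_mem_sq _ (ha i) 𝔭 h𝔭, ?_⟩ x hx0 ?_ hgen hlin b htb)
  · intro 𝔭 h𝔭 hm𝔭 i hi
    obtain ⟨u, v, huv⟩ := hcop i
    apply h𝔭.ne_top
    rw [Ideal.eq_top_iff_one, ← huv]
    exact 𝔭.add_mem (𝔭.mul_mem_left _ hm𝔭) (𝔭.mul_mem_left _ hi)
  · simpa only [← IsScalarTower.algebraMap_apply (𝓞 K) K F] using hrel

end Pool.Agent.H945R2.R
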