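import Pool.Agent.H945R2.R.Props2

/-! FINR: finitely many factors (helper520, adapted from helper642's S/FINS). -/

set_option autoImplicit false

open scoped Pointwise

namespace Pool.Agent.H945R2.R

open Pool.Agent.H918R2.Quad Pool.Agent.H945R2.D Pool.Agent.H945R2.S Pool.Agent.H945R2.E
  MvPolynomial

namespace FINRaux

/-- The finitely many base factors with their data. -/
theorem finite_base {F ι : Type} [Field F] [Fintype ι] (p e m : ℕ) (π : F) (x X : ι → F) (s : ι)
    (c : ι → ℕ) :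
    {t : Set F × F × ℕ | IsBaseR p e m π x X s c t.1 t.2.1 t.2.2}.Finite := by
  have h1 : {t : Set F × F × ℕ | IsBaseR p e m π x X s c t.1 t.2.1 t.2.2} ⊆
      ((fun j => (BR e π x X s c j, π * (∑ i, X i) ^ j, e * (j + 1))) '' (Set.Iio m)) ∪
        {(Bl p e x X s c, (p : F), e * p)} := by
    rintro ⟨B, μ, n⟩ h
    rcases h with ⟨j, hj1, h1, h2, h3⟩ | ⟨h1, h2, h3⟩
    · refine Or.inl ⟨j, hj1, ?_⟩
      simp only at h1 h2 h3
      rw [h1, h2, h3]
    · refine Or.inr ?_
      simp only at h1 h2 h3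
      rw [h1, h2, h3]
      exact Set.mem_singleton _
  exact Set.Finite.subset (((Set.finite_Iio m).image _).union
    (Set.finite_singleton _)) h1

end FINRaux

theorem FINR_ok : S_FINR := by
  intro R F ι _ _ _ _ _ _ p e h m π hp g x X
  have h1 : {S | IsFacR p e h m π g x X S} ⊆
      ({Set.range x} ∪ (fun j => IfR e (algebraMap R F π) x X j) '' (Set.Iic m)) ∪
      ⋃ s ∈ (Set.univ : Set ι), ⋃ c ∈ Set.pi Set.univ (fun _ : ι => Set.Iio p),
        ⋃ β ∈ {β : R | SpZ p g s c β},
        ⋃ t ∈ {t : Set F × F × ℕ | IsBaseR p e m (algebraMap R F π) x X s c t.1 t.2.1 t.2.2},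
          (((fun k => Nd t.1 t.2.1 (Set.range x) (Yc x c) t.2.2 k) '' (Set.Iic h) ∪
            {Cd t.1 t.2.1 (fc X c) (Set.range x) (Yc x c) t.2.2 h}) ∪ {t.1}) := by
    intro S hS
    rcases hS with hS | ⟨j, hj1, hj2, hS⟩ | ⟨s, c, β, hsp, hlt, B, μ, n, hB, hS⟩
    · exact Or.inl (Or.inl hS)
    · exact Or.inl (Or.inr ⟨j, hj2, hS.symm⟩)
    · refine Or.inr ?_
      simp only [Set.mem_iUnion]
      refine ⟨s, Set.mem_univ s, c, fun i _ => hsp.lt i, β, hsp, (B, μ, n), hB, ?_⟩
      rcases hS with ⟨k, hk1, hk2, hS⟩ | ⟨he, hh, hS⟩ | ⟨he, hc, hS⟩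
      · exact Or.inl (Or.inl ⟨k, hk2, hS.symm⟩)
      · exact Or.inl (Or.inr hS)
      · exact Or.inr hS
  refine Set.Finite.subset ?_ h1
  refine Set.Finite.union (Set.Finite.union (Set.finite_singleton _)
    ((Set.finite_Iic m).image _)) ?_
  refine Set.Finite.biUnion Set.finite_univ fun s _ => ?_
  refine Set.Finite.biUnion
    (Set.Finite.pi (t := fun _ : ι => Set.Iio p) fun _ => Set.finite_Iio p) fun c _ => ?_
  refine Set.Finite.biUnion ?_ fun β _ => ?_
  · apply Set.Subsingleton.finite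
    intro β hβ β' hβ'
    have h2 : (p : R) * β = (p : R) * β' := by
      rw [hβ.val, hβ'.val]
    exact mul_left_cancel₀ hp h2
  · refine Set.Finite.biUnion (FINRaux.finite_base p e m _ x X s c) fun t _ => ?_
    exact Set.Finite.union (Set.Finite.union ((Set.finite_Iic h).image _)
      (Set.finite_singleton _)) (Set.finite_singleton _)

end Pool.Agent.H945R2.R
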