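import Pool.Agent.H945R2.R.Props2

/-! # The global module, ramified primes allowed (task GLOR) -/

set_option autoImplicit false

open scoped Pointwise

namespace Pool.Agent.H945R2.R

open Pool.Agent.H918R2.Quad Pool.Agent.H945R2.D Pool.Agent.H945R2.S Pool.Agent.H945R2.E
  MvPolynomial

namespace GLORaux

section

variable {O K F : Type} [CommRing O] [IsDedekindDomain O] [Field K] [Algebra O K]
  [IsFractionRing O K] [Field F] [Algebra K F] [Algebra O F] [IsScalarTower O K F]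

theorem good' [CharZero O] (hG : S_GOODM) (hA : S_ARIR) (𝔭 : Ideal O) [𝔭.IsPrime] {n : ℕ}
    (m : ℕ) (hm : 3 ≤ m) (hsq : Squarefree m) (hm𝔭 : (m : O) ∉ 𝔭) (a : Fin (n + 2) → O)
    (ha : HypR m a) (hap : ∀ i, a i ∉ 𝔭)
    (x : Fin (n + 2) → F) (hx0 : x 0 = 1)
    (hrel : ∑ i, algebraMap O F (a i) * x i ^ m = 0)
    (hgen : IntermediateField.adjoin K (Set.range x) = ⊤)
    (b : Fin n → F) (htb : IsTranscendenceBasis K b) (D : ℕ) (hD : 1 ≤ D)
    (M : Submodule O F) (hM : M ≤ Submodule.span O (Set.range x ^ D))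
    (hM2 : ∀ y ∈ Submodule.span O (Set.range x ^ D), ∃ s, s ∉ 𝔭 ∧ s • y ∈ M) : RegAt 𝔭 M := by
  let R := Localization.subalgebra.ofField K 𝔭.primeCompl 𝔭.primeCompl_le_nonZeroDivisors
  have : IsLocalization.AtPrime R 𝔭 := Localization.subalgebra.isLocalization_ofField K _ _
  have : IsFractionRing R K := Localization.subalgebra.isFractionRing_ofField K _ _
  have : IsDedekindDomain R := IsLocalization.isDedekindDomain O
    𝔭.primeCompl_le_nonZeroDivisors R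
  have : IsScalarTower O R F := IsScalarTower.of_algebraMap_eq fun r => by
    rw [IsScalarTower.algebraMap_apply O K F]; rfl
  have : IsScalarTower R K F := IsScalarTower.of_algebraMap_eq fun r => rfl
  obtain ⟨h1, h2⟩ := (hA m hm hsq a ha 𝔭 (R := R)).2 hm𝔭
  have h3 : ∀ i, IsUnit (algebraMap O R (a i)) := fun i =>
    (h2 i).resolve_right fun h => hap i h.1
  exact hG (R := R) (K := K) 𝔭 (IsFractionRing.injective R K) m (by omega) h1 a (Or.inl h3) x hx0
    hrel hgen b htb D hD M hM hM2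

theorem bad' [CharZero O] [CharZero K] (hB : BadM) (hE : S_BADE) (hT : S_BADT) (hR : S_BADR)
    (hA : S_ARIR) (𝔭 : Ideal O)
    [𝔭.IsPrime] (h0 : 𝔭 ≠ ⊥) (hfin : Finite (O ⧸ 𝔭)) {n : ℕ} (m : ℕ) (hm : 3 ≤ m)
    (hsq : Squarefree m) (a : Fin (n + 2) → O) (ha : HypR m a)
    (x : Fin (n + 2) → F) (hx0 : x 0 = 1)
    (hrel : ∑ i, algebraMap O F (a i) * x i ^ m = 0)
    (hgen : IntermediateField.adjoin K (Set.range x) = ⊤)
    (hlin : ∀ e : ℕ, 1 ≤ e → e < m → LinearIndependent K (fun i => x i ^ e))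
    (b : Fin n → F) (htb : IsTranscendenceBasis K b) : LocMod 𝔭 x := by
  let R := Localization.subalgebra.ofField K 𝔭.primeCompl 𝔭.primeCompl_le_nonZeroDivisors
  have : IsLocalization.AtPrime R 𝔭 := Localization.subalgebra.isLocalization_ofField K _ _
  have : IsFractionRing R K := Localization.subalgebra.isFractionRing_ofField K _ _
  have hdvr : IsDiscreteValuationRing R :=
    IsLocalization.AtPrime.isDiscreteValuationRing_of_dedekind_domain O h0 R
  have : IsScalarTower O R F := IsScalarTower.of_algebraMap_eq fun r => by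
    rw [IsScalarTower.algebraMap_apply O K F]; rfl
  have : IsScalarTower R K F := IsScalarTower.of_algebraMap_eq fun r => rfl
  have hmax : 𝔭.IsMaximal := Ideal.IsPrime.isMaximal ‹_› h0
  have hfin' : Finite (IsLocalRing.ResidueField R) :=
    Finite.of_equiv _ (IsLocalization.AtPrime.equivQuotMaximalIdeal 𝔭 R).toEquiv
  have hAR := hA m hm hsq a ha 𝔭 (R := R)
  by_cases hm𝔭 : (m : O) ∈ 𝔭
  · obtain ⟨-, ⟨p, e, hp, hpe, hu, h2e, hcase⟩, h2⟩ := hAR.1 hm𝔭
    have he : 1 ≤ e := by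
      rcases Nat.eq_zero_or_pos e with h | h
      · rw [h, mul_zero] at hpe
        omega
      · exact h
    have hem : e < m := by
      rw [hpe]
      have := hp.two_le
      nlinarith
    have hlin' := hlin e he hem
    rw [hpe] at hrel
    rcases hcase with h1 | ⟨hp2, k, m', π, ν, hram, hz⟩
    · by_cases hp2 : p = 2
      · obtain ⟨he3, hodd⟩ := h2e hp2
        exact hE (R := R) (K := K) 𝔭 p e hp2 h1 he3 hodd hu a h2 x hx0 hrel hgen hlin' b htb
      · exact hB (R := R) (K := K) 𝔭 p e hp hp2 h1 he hu a h2 x hx0 hrel hgen hlin' b htb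
    · exact hR (R := R) (K := K) 𝔭 p e k m' π ν hram hp hp2 he hu a h2 hz x hx0 hrel hgen hlin'
        b htb
  · obtain ⟨h1, h2⟩ := hAR.2 hm𝔭
    exact hT (R := R) (K := K) 𝔭 m hm h1 a (fun i => (h2 i).imp_right fun h => h.2.2) x hx0 hrel
      hgen b htb

end

end GLORaux

/-- GLOR. -/
theorem GLOR_ok (hB : BadM) (hE : S_BADE) (hT : S_BADT) (hR : S_BADR) (hG : S_GOODM)
    (hA : S_ARIR) (hGL : S_GLOG) : S_GLOR := by
  intro O K F _ _ _ _ _ _ _ _ _ _ hfin k m hm hsq a ha x hx0 hrel hgen hlin b htb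
  classical
  have hO : CharZero O := ⟨fun i j h => Nat.cast_injective (R := K) (by
    simpa only [map_natCast] using congrArg (algebraMap O K) h)⟩
  have hc0 : (m : O) * ∏ i, a i ≠ 0 := by
    refine mul_ne_zero ?_ ?_
    · exact Nat.cast_ne_zero.2 (by omega)
    · rw [Finset.prod_ne_zero_iff]
      intro i _ h
      exact ha.2.1 ⊥ Ideal.isPrime_bot i (by rw [h]; exact Ideal.zero_mem _)
  have hDspan : Ideal.span {(m : O) * ∏ i, a i} ≠ ⊥ := by
    rw [Ne, Ideal.span_singleton_eq_bot]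
    exact hc0
  let S : Finset (Ideal O) :=
    (UniqueFactorizationMonoid.normalizedFactors (Ideal.span {(m : O) * ∏ i, a i})).toFinset
  have hS : ∀ 𝔭, 𝔭 ∈ S ↔ 𝔭.IsPrime ∧ (m : O) * ∏ i, a i ∈ 𝔭 := by
    intro 𝔭
    rw [Multiset.mem_toFinset, Ideal.mem_normalizedFactors_iff hDspan,
      Ideal.span_singleton_le_iff_mem]
  have hS0 : ∀ 𝔭 ∈ S, 𝔭 ≠ ⊥ := by
    intro 𝔭 h𝔭 h
    have h1 := ((hS 𝔭).1 h𝔭).2
    rw [h] at h1
    exact hc0 h1
  refine hGL (K := K) x hx0 hgen S (fun 𝔭 h𝔭 =>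
    ⟨Ideal.IsPrime.isMaximal ((hS 𝔭).1 h𝔭).1 (hS0 𝔭 h𝔭), hS0 𝔭 h𝔭⟩) ?_ ?_
  · intro 𝔭 h𝔭
    have hpp := ((hS 𝔭).1 h𝔭).1
    exact GLORaux.bad' hB hE hT hR hA 𝔭 (hS0 𝔭 h𝔭) (hfin 𝔭 hpp (hS0 𝔭 h𝔭)) m hm hsq a ha x hx0
      hrel hgen hlin b htb
  · intro 𝔭 hpp h𝔭 D hD M hM hM2
    have hprod : (m : O) * ∏ i, a i ∉ 𝔭 := fun h => h𝔭 ((hS 𝔭).2 ⟨hpp, h⟩)
    have hm𝔭 : (m : O) ∉ 𝔭 := fun h => hprod (Ideal.mul_mem_right _ _ h)
    have hap : ∀ i, a i ∉ 𝔭 := fun i h => hprod (Ideal.mul_mem_left _ _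
      (Ideal.mem_of_dvd 𝔭 (Finset.dvd_prod_of_mem a (Finset.mem_univ i)) h))
    exact GLORaux.good' (K := K) hG hA 𝔭 m hm hsq hm𝔭 a ha hap x hx0 hrel hgen b htb D hD M
      hM hM2

end Pool.Agent.H945R2.R
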