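import Pool.Agent.H945R2.R.Props2

set_option autoImplicit false

open scoped Pointwise

namespace Pool.Agent.H945R2.R

open Pool.Agent.H918R2.Quad Pool.Agent.H945R2.D Pool.Agent.H945R2.S Pool.Agent.H945R2.E MvPolynomial

theorem HGR_ok : S_HGR := by
  intro R ι _ _ _ p hp hp0 π hπ hπp co g hg hz c hc
  have := Fact.mk hp
  choose z hz1 hz2 using hz
  choose t ht using hz2
  have h1 : (p : R) * aeval (fun i => (c i : R)) g =
      ∑ i, co i * (c i : R) ^ p - (∑ i, (c i : R)) ^ p := by
    have h := congrArg (aeval (fun i => (c i : R))) hg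
    rw [map_mul, map_sub, map_pow, map_sum, map_sum] at h
    simpa only [map_mul, map_pow, aeval_C, aeval_X, Algebra.algebraMap_self, RingHom.id_apply,
      map_natCast] using h
  obtain ⟨M', hM'⟩ : (p : ℤ) ∣ ∑ i, z i * (c i : ℤ) ^ p - (∑ i, (c i : ℤ)) ^ p := by
    rw [← ZMod.intCast_zmod_eq_zero_iff_dvd]
    have hz' : ∀ i, ((z i : ℤ) : ZMod p) = 1 := by
      intro i
      have h := (ZMod.intCast_zmod_eq_zero_iff_dvd (z i - 1) p).2 (hz1 i)
      push_cast at h
      linear_combination h
    push_cast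
    simp only [ZMod.pow_card, hz', one_mul, sub_self]
  have h3 : (∑ i, (z i : R) * (c i : R) ^ p - (∑ i, (c i : R)) ^ p) = p * (M' : R) := by
    have h := congrArg (Int.cast : ℤ → R) hM'
    push_cast at h
    exact h
  have h4 : ∑ i, co i * (c i : R) ^ p =
      ∑ i, (z i : R) * (c i : R) ^ p + (p : R) ^ 2 * ∑ i, t i * (c i : R) ^ p := by
    rw [Finset.mul_sum, ← Finset.sum_add_distrib]
    refine Finset.sum_congr rfl fun i _ => ?_
    have h := ht i
    linear_combination (c i : R) ^ p * h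
  have h2 : aeval (fun i => (c i : R)) g = (M' : R) + p * ∑ i, t i * (c i : R) ^ p := by
    apply mul_left_cancel₀ hp0
    rw [h1]
    linear_combination h3 + h4
  have h5 : π ∣ (M' : R) := by
    have h6 : (M' : R) = aeval (fun i => (c i : R)) g - p * ∑ i, t i * (c i : R) ^ p := by
      rw [h2]
      ring
    rw [h6]
    exact dvd_sub hc (hπp.mul_right _)
  have h7 : (p : ℤ) ∣ M' := by
    by_contra h8
    have h9 : IsCoprime (p : ℤ) M' := by
      rw [Int.isCoprime_iff_gcd_eq_one]
      have hpr : Prime (p : ℤ) := Nat.prime_iff_prime_int.1 hp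
      exact Int.isCoprime_iff_gcd_eq_one.1 ((Prime.coprime_iff_not_dvd hpr).2 h8)
    obtain ⟨a, b, hab⟩ := h9
    apply hπ.1
    have h10 := congrArg (Int.cast : ℤ → R) hab
    push_cast at h10
    apply isUnit_of_dvd_one
    rw [← h10]
    exact dvd_add (hπp.mul_left _) (h5.mul_left _)
  rw [h2]
  obtain ⟨k, rfl⟩ := h7
  refine dvd_add ⟨(k : R), by push_cast; ring⟩ (dvd_mul_right _ _)

end Pool.Agent.H945R2.R
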