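import Pool.Agent.H945R2.R.Props2
import Pool.Agent.H945R2.S.QPRE

/-! QA1: the situation at a singular point of the first type. -/

set_option autoImplicit false

open scoped Pointwise

namespace Pool.Agent.H945R2.R

open Pool.Agent.H918R2.Quad Pool.Agent.H945R2.D Pool.Agent.H945R2.S Pool.Agent.H945R2.E
  MvPolynomial

namespace QA1aux

theorem F1_eq {R ι B : Type} [CommRing R] [Fintype ι] [DecidableEq ι] [CommRing B] [Algebra R B]
    (ν : R) (nX nY : ℕ) (g : MvPolynomial ι R) (c : ι → ℕ) (Z : Finset ι) (s d : ι)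
    (q : KT Z s d → B) (w : ZT Z → B) :
    aeval (Sum.elim q w) (F1 ν nX nY g c Z s d) =
      TotR ν nX nY g c Z s d (q none) (q (some none)) (fun k => q (some (some k))) w := by
  unfold F1 TotR
  rw [map_add, map_mul, map_mul, map_pow, map_pow, aeval_X, aeval_X, AlgHom.commutes,
    comp_aeval_apply]
  congr 3
  funext i
  have h := QPREaux.map_TcZ ((aeval (Sum.elim q w) : MvPolynomial (KT Z s d ⊕ ZT Z) R →ₐ[R] B) :
    MvPolynomial (KT Z s d ⊕ ZT Z) R →+* B) Z s d
    (fun i => ((c i : ℕ) : MvPolynomial (KT Z s d ⊕ ZT Z) R))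
    (fun k => X (Sum.inl (some (some k)))) (fun z => X (Sum.inr z))
    (X (Sum.inl none) * X (Sum.inl (some none))) i
  simp only [RingHom.coe_coe, map_natCast, aeval_X, Sum.elim_inl, Sum.elim_inr, map_mul] at h
  exact h

end QA1aux

open QA1aux QPREaux

theorem QA1_ok (hS : S_SUMZ) (hP : S_PRER) (hFAB : S_FABR) : S_QA1 := by
  intro R F ι _ _ _ _ _ _ _ 𝒪 p e h n m π ν j nX nY co r g Z y s d a b hD hX heh heZ hd hdZ c β
    hsp hcZ hyc hbU
  have hTzy : ∀ i, i ∉ Z → Tz Z r e y i = y i := fun i hi => by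
    unfold Tz
    rw [if_neg hi]
  have hL : ∑ i, Tz Z r e y i = a * b := by
    have := hD.hL
    rwa [pow_one] at this
  have hTc : TcZ Z s d (fun i => (c i : F)) (fun k => y k - (c k : F))
      (fun z : ZT Z => algebraMap R F (r z) * y z ^ e) (a * b) = Tz Z r e y := by
    funext i
    apply TcZ_eq hS Z s d hd hD.hsZ hdZ
    · rw [hTzy s hD.hsZ, hD.hs]
    · intro k
      rw [hTzy k.1 k.2.1]
    · intro z
      unfold Tz
      rw [if_pos z.2]
    · exact hL
  refine
    { loc := hD.loc
      hR := hD.hR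
      irr := hD.ram.irr
      heh := heh
      heZ := ?_
      heU := hD.heU
      hr := fun z => hD.hr z
      hk := by simp
      hq := ?_
      hy := fun z => ⟨hD.hy z, hD.hyZ z z.2⟩
      hu := U_one
      hq0 := hD.ha0
      hP := ?_
      hπ := ?_
      hE := ?_
      hT := ?_
      pre := ?_ }
  · rcases heZ with h1 | h1
    · exact Or.inl h1
    · right
      exact ⟨fun z => Finset.eq_empty_iff_forall_notMem.1 h1 z z.2⟩
  · intro k
    rcases k with _ | (_ | k)
    · exact ⟨hD.ha, hD.haU⟩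
    · exact ⟨hD.hb, hbU⟩
    · exact ⟨𝒪.sub_mem (hD.hy k) (natCast_mem 𝒪 _), hyc k.1 k.2.1⟩
  · have h1 : (Polynomial.X - Polynomial.C 1 : Polynomial R).derivative = 1 := by simp
    rw [h1, map_one]
    exact U_one
  · rw [mul_one]
    exact hD.hπ
  · simp
  · rw [F1_eq]
    unfold TotR
    show aeval (TcZ Z s d (fun i => (c i : F)) (fun k => y k - (c k : F))
      (fun z : ZT Z => algebraMap R F (r z) * y z ^ e) (a * b)) g +
      algebraMap R F ν * a ^ nX * b ^ nY = 0
    rw [hTc]
    exact hD.hG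
  · intro W A _ _ _ _ pr hprs eW hker hW hloc Yq Yy u' hYq hYy hu' hp hE hT hGen hreg
    have hu1 : pr u' = 1 := by
      have h1 : pr (Polynomial.aeval u' (Polynomial.X - Polynomial.C 1 : Polynomial R) +
          Yq (some none) * Polynomial.aeval u' (0 : Polynomial R)) = pr u' - 1 := by
        simp
      rw [h1] at hE
      exact sub_eq_zero.1 hE
    set a' : W := Yq none with ha'
    set b' : W := Yq (some none) with hb'
    set w' : ZT Z → W := fun z => algebraMap R W (r z) * Yy z ^ e with hw'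
    set T : ι → W := TcZ Z s d (fun i => (c i : W)) (fun k => Yq (some (some k))) w' (a' * b')
      with hTdef
    let Y : ι → W := fun i => if h : i ∈ Z then Yy ⟨i, h⟩ else T i
    have hYZ : ∀ z : ZT Z, Y z.1 = Yy z := by
      intro z
      show (if h : z.1 ∈ Z then Yy ⟨z.1, h⟩ else T z.1) = _
      rw [dif_pos z.2]
    have hYN : ∀ i, i ∉ Z → Y i = T i := by
      intro i hi
      show (if h : i ∈ Z then Yy ⟨i, h⟩ else T i) = _
      rw [dif_neg hi]
    have hTz : Tz Z r e Y = T := by
      funext i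
      unfold Tz
      split_ifs with hi
      · have h1 := hYZ ⟨i, hi⟩
        simp only at h1
        rw [h1]
        exact (TcZ_Z Z s d _ _ w' _ ⟨i, hi⟩).symm
      · exact hYN i hi
    have hea : eW a' = a := hYq none
    have heb : eW b' = b := hYq (some none)
    have hek : ∀ k : TT Z s d, eW (Yq (some (some k))) = y k - (c k : F) := fun k => hYq _
    have heT : ∀ i, eW (T i) = Tz Z r e y i := by
      intro i
      have h2 : eW (T i) = TcZ Z s d (fun i => eW (c i : W)) (fun k => eW (Yq (some (some k))))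
        (fun z => eW (w' z)) (eW (a' * b')) i := map_TcZ (eW : W →+* F) Z s d _ _ _ _ i
      rw [h2]
      apply TcZ_eq hS Z s d hd hD.hsZ hdZ
      · rw [hTzy s hD.hsZ, hD.hs]
      · intro k
        rw [hek, map_natCast, hTzy k.1 k.2.1]
      · intro z
        rw [hw', map_mul, AlgHom.commutes, map_pow, hYy]
        unfold Tz
        rw [if_pos z.2]
      · rw [map_mul, hea, heb]; exact hL
    have heY : ∀ i, eW (Y i) = y i := by
      intro i
      by_cases hi : i ∈ Z
      · have h1 := hYZ ⟨i, hi⟩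
        simp only at h1
        rw [h1, hYy]
      · rw [hYN i hi, heT, hTzy i hi]
    have hYs : Y s = 1 := by
      rw [hYN s hD.hsZ]
      exact TcZ_s Z s d hD.hsZ _ _ _ _
    have hsum : ∑ i, T i = a' * b' := (hS Z s d hd hD.hsZ hdZ _ _ _ _).1
    have hp' : pr (algebraMap R W π) = pr (a' ^ (j + 1) * b' ^ j) := by
      rw [hp, map_mul, hu1, mul_one]
    have hsum' : pr (∑ i, Tz Z r e Y i) = pr (a' ^ 1 * b') := by
      rw [hTz, hsum, pow_one]
    refine hP 𝒪 p e n m π ν 1 (j + 1) j nX nY co r g Z y s a b hD pr hprs eW hker hW hloc Y a' b'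
      heY hea heb hYs hsum' hp' ?_ ?_ hreg
    · rw [hTz]
      rw [F1_eq] at hT
      exact hT
    obtain ⟨hFa, hFb, hFY⟩ := hFAB 𝒪 p e n m π ν 1 (j + 1) j nX nY co r g Z y s a b hD pr eW hker
      Y a' b' heY hea heb hYs hsum' hp'
    obtain ⟨f1, f2, f3, f4, f5, f6, f7⟩ := FRC_ok pr eW hker (fun i : {i : ι // i ≠ s} => Y i)
    refine hGen _ f1 ?_ f3 f4 f5 f6
    rintro w ((⟨o, rfl⟩ | ⟨z, rfl⟩) | hw)
    · rcases o with _ | (_ | k)
      · exact hFa
      · exact hFb
      · have h1 : Yq (some (some k)) = Y k.1 + algebraMap R W (-(c k.1 : R)) := by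
          have h2 : Y k.1 = (c k.1 : W) + Yq (some (some k)) := by
            rw [hYN k.1 k.2.1]
            exact TcZ_T Z s d _ _ _ _ k
          rw [h2, map_neg, map_natCast]; ring
        rw [h1]
        exact f3 _ _ (hFY _) (f1 _)
    · rw [← hYZ z]
      exact hFY _
    · rw [Set.mem_singleton_iff] at hw
      rw [hw]
      have h1 := f1 1
      rw [map_one] at h1
      exact f5 1 u' (by rw [hu1, map_one]) h1

end Pool.Agent.H945R2.R
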