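import Pool.Agent.H945R2.R.Props2
import Pool.Agent.H945R2.S.QPRE

/-! QA2: the situation at a singular point, second type. -/

set_option autoImplicit false

open scoped Pointwise

namespace Pool.Agent.H945R2.R

open Pool.Agent.H918R2.Quad Pool.Agent.H945R2.D Pool.Agent.H945R2.S Pool.Agent.H945R2.E
  MvPolynomial

namespace QA2aux

open Pool.Agent.H945R2.S.QPREaux

/-- the exponents -/
theorem expo {p n m nA nB nX nY : ℕ} (h2 : 2 ≤ n) (hnm : n * m + 1 = p)
    (hk : KindR p n m 1 nA nB nX nY) (hX : nX = 1) :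
    1 ≤ m ∧ nA = m ∧ nB = m - 1 ∧ nY = n + 1 := by
  have h3 : n * nA = n * m := by
    have := hk.x
    omega
  have h4 : nA = m := Nat.eq_of_mul_eq_mul_left (by omega) h3
  have h5 : nA = nB + 1 := by
    have := hk.a
    omega
  have h6 : nB = m - 1 := by omega
  have h7 : n * m = n * nB + n := by
    rw [← h4, h5]
    ring
  have h8 := hk.y
  refine ⟨by omega, h4, h6, by omega⟩

/-- the value of the third relation -/
theorem F2_eval {R B ι : Type} [CommRing R] [CommRing B] [Algebra R B] [Fintype ι]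
    [DecidableEq ι] (g : MvPolynomial ι R) (c : ι → ℕ) (Z : Finset ι) (s d : ι)
    (q : KT Z s d → B) (w : ZT Z → B) :
    aeval (Sum.elim q w) (F2 g c Z s d) =
      aeval (TcZ Z s d (fun i => (c i : B)) (fun k => q (some (some k))) w (q none)) g +
        q none * (q (some none) - 1) := by
  unfold F2 TotL
  rw [map_add, map_mul, map_sub, map_one, aeval_X, aeval_X, Sum.elim_inl, Sum.elim_inl,
    MvPolynomial.comp_aeval_apply]
  congr 2
  congr 1
  funext i
  have h := map_TcZ ((aeval (Sum.elim q w) :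
      MvPolynomial (KT Z s d ⊕ ZT Z) R →ₐ[R] B) : MvPolynomial (KT Z s d ⊕ ZT Z) R →+* B) Z s d
    (fun i => (c i : MvPolynomial (KT Z s d ⊕ ZT Z) R))
    (fun k => X (Sum.inl (some (some k)))) (fun z => X (Sum.inr z)) (X (Sum.inl none)) i
  refine h.trans ?_
  simp

theorem unit_n {R : Type} [CommRing R] [IsDomain R] [IsDiscreteValuationRing R] {p n m : ℕ}
    {π ν : R} (h : Ram p n m π ν) : IsUnit (n : R) := by
  have hp : ¬ IsUnit (p : R) := by
    intro hp
    have h1 : IsUnit (π ^ n) := by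
      rw [← h.rel]
      exact hp.mul h.unit
    have h2 := h.two
    exact h.irr.not_isUnit ((isUnit_pow_iff (by omega)).1 h1)
  have h1 : IsUnit (1 - (p : R)) := IsLocalRing.isUnit_one_sub_self_of_mem_nonunits _ hp
  have h2 : (1 : R) - (p : R) = (n : R) * (-(m : R)) := by
    rw [← h.nm]
    push_cast
    ring
  rw [h2] at h1
  exact isUnit_of_mul_isUnit_left h1

theorem U_of_unit {R F : Type} [CommRing R] [Field F] [Algebra R F] {𝒪 : Subring F}
    (hR : ∀ r : R, algebraMap R F r ∈ 𝒪) {r : R} (hr : IsUnit r) : U 𝒪 (algebraMap R F r) := by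
  obtain ⟨u, rfl⟩ := hr
  have h1 : algebraMap R F (u : R) * algebraMap R F ((u⁻¹ : Rˣ) : R) = 1 := by
    rw [← map_mul]
    simp
  refine ⟨left_ne_zero_of_mul (by rw [h1]; exact one_ne_zero), hR _, ?_⟩
  rw [inv_eq_of_mul_eq_one_right h1]
  exact hR _

end QA2aux

open QA2aux Pool.Agent.H945R2.S.QPREaux

theorem QA2_ok (hS : S_SUMZ) (hP : S_PRER) (hFAB : S_FABR) : S_QA2 := by
  intro R F ι _ _ _ _ _ _ _ 𝒪 p e h n m π ν nA nB nX nY co r g Z y s d a b hD hX heh heZ hsd hdZ
    c β hSp hZ hcy hbU hγ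
  obtain ⟨hm1, hA, hB, hY⟩ := expo hD.ram.two hD.ram.nm hD.kind hX
  subst hX hA hB hY
  have hb0 := hD.hb0
  have hL : ∑ i, Tz Z r e y i = a * b := by
    have := hD.hL
    rwa [pow_one] at this
  have hTzy : ∀ i, i ∉ Z → Tz Z r e y i = y i := fun i hi => by
    unfold Tz
    rw [if_neg hi]
  refine
    { loc := hD.loc
      hR := hD.hR
      irr := hD.ram.irr
      heh := heh
      heZ := ?_
      heU := hD.heU
      hr := fun z => hD.hr z
      hk := by simp
      hq := ?_
      hy := fun z => ⟨hD.hy z, hD.hyZ z z.2⟩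
      hu := hbU.inv
      hq0 := mul_ne_zero hD.ha0 hD.hb0
      hP := ?_
      hπ := ?_
      hE := ?_
      hT := ?_
      pre := ?_ }
  · rcases heZ with h1 | h1
    · exact Or.inl h1
    · right
      have h2 : ∀ i, i ∉ Z := by
        intro i
        rw [h1]
        exact Finset.notMem_empty i
      exact ⟨fun z => h2 z.1 z.2⟩
  · intro k
    rcases k with _ | (_ | k)
    · exact ⟨𝒪.mul_mem hD.ha hD.hb, fun hU => hD.haU (hU.of_mul_left hD.ha hD.hb)⟩
    · exact ⟨𝒪.add_mem 𝒪.one_mem (𝒪.mul_mem (hD.hR _) (𝒪.pow_mem hD.hb _)), hγ⟩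
    · exact ⟨𝒪.sub_mem (hD.hy _) (natCast_mem 𝒪 _), hcy _ k.2.1⟩
  · have h1 : Polynomial.aeval b⁻¹ (Polynomial.derivative
        (Polynomial.X ^ n + Polynomial.C ν : Polynomial R)) =
        algebraMap R F (n : R) * b⁻¹ ^ (n - 1) := by
      rw [Polynomial.derivative_add, Polynomial.derivative_C, Polynomial.derivative_X_pow,
        add_zero]
      simp
    rw [h1]
    exact (U_of_unit hD.hR (unit_n hD.ram)).mul (hbU.inv.pow _)
  · have h1 := hD.hπ
    rw [h1]
    show a ^ nA * b ^ (nA - 1) = (a * b) ^ (nA - 1 + 1) * _ ^ 0 * b⁻¹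
    obtain ⟨k, rfl⟩ : ∃ k, nA = k + 1 := ⟨nA - 1, by omega⟩
    rw [Nat.add_sub_cancel, pow_zero, mul_one, mul_pow, pow_succ b k]
    field_simp
  · show Polynomial.aeval b⁻¹ (Polynomial.X ^ n + Polynomial.C ν : Polynomial R) +
      (1 + algebraMap R F ν * b ^ n) * Polynomial.aeval b⁻¹ (-Polynomial.X ^ n : Polynomial R) = 0
    simp only [map_add, map_neg, map_pow, Polynomial.aeval_X, Polynomial.aeval_C]
    have h1 : b ^ n * b⁻¹ ^ n = 1 := by rw [← mul_pow, mul_inv_cancel₀ hb0, one_pow]
    linear_combination (-algebraMap R F ν) * h1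
  · rw [F2_eval]
    have hT : TcZ Z s d (fun i => (c i : F))
        (fun k => (zq (a * b) (1 + algebraMap R F ν * b ^ n) y c : KT Z s d → F) (some (some k)))
        (fun z : ZT Z => algebraMap R F (r z) * y z ^ e)
        ((zq (a * b) (1 + algebraMap R F ν * b ^ n) y c : KT Z s d → F) none) = Tz Z r e y := by
      funext i
      apply TcZ_eq hS Z s d hsd hD.hsZ hdZ
      · rw [hTzy s hD.hsZ, hD.hs]
      · intro k
        rw [hTzy k.1 k.2.1]
        rfl
      · intro z
        unfold Tz
        rw [if_pos z.2]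
      · rw [hL]
        rfl
    rw [hT]
    have hG := hD.hG
    have h1 : (zq (a * b) (1 + algebraMap R F ν * b ^ n) y c : KT Z s d → F) none = a * b := rfl
    have h2 : (zq (a * b) (1 + algebraMap R F ν * b ^ n) y c : KT Z s d → F) (some none) =
      1 + algebraMap R F ν * b ^ n := rfl
    rw [h1, h2]
    linear_combination hG
  · intro W A _ _ _ _ pr hprs eW hker hW hloc Yq Yy u' hYq hYy hu' hπ' hE' hT' hGen hreg
    obtain ⟨νu, hνu⟩ := hD.ram.unit
    set νi : R := ((νu⁻¹ : Rˣ) : R) with hνi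
    have hνν : ν * νi = 1 := by
      rw [← hνu, hνi]
      simp
    set q0 : W := Yq none with hq0
    set q1 : W := Yq (some none) with hq1
    set a' : W := q0 * u' with ha'
    set b' : W := -(algebraMap R W νi) * u' ^ (n - 1) * (1 - q1) with hb'
    have hn1 : n - 1 + 1 = n := by
      have := hD.ram.two
      omega
    have hνW : pr (algebraMap R W ν) * pr (algebraMap R W νi) = 1 := by
      rw [← map_mul, ← map_mul, hνν, map_one, map_one]
    -- `u ^ n (1 - q1) = - ν`
    have k1 : pr u' ^ n * (1 - pr q1) = -pr (algebraMap R W ν) := by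
      have h1 := hE'
      simp only [map_add, map_neg, map_pow, Polynomial.aeval_X, Polynomial.aeval_C, map_mul] at h1
      linear_combination h1
    -- `u b = 1`
    have k2 : pr u' * pr b' = 1 := by
      have h1 : pr u' * pr b' = -pr (algebraMap R W νi) * (pr u' ^ (n - 1 + 1) * (1 - pr q1)) := by
        rw [hb']
        simp only [map_mul, map_neg, map_pow, map_sub, map_one]
        ring
      rw [h1, hn1, k1]
      linear_combination hνW
    have k3 : pr a' * pr b' = pr q0 := by
      rw [ha', map_mul]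
      linear_combination pr q0 * k2
    -- `ν b ^ n = q1 - 1`
    have k4 : pr (algebraMap R W ν) * pr b' ^ n = pr q1 - 1 := by
      have h1 : (pr u' * pr b') ^ n = 1 := by rw [k2, one_pow]
      rw [mul_pow] at h1
      linear_combination (pr b' ^ n) * k1 - (1 - pr q1) * h1
    have hdiff : ∀ w w', pr w = pr w' → eW w = eW w' := by
      intro w w' h
      have h1 : pr (w - w') = 0 := by rw [map_sub, h, sub_self]
      have h2 := hker _ h1
      rw [map_sub] at h2
      exact sub_eq_zero.mp h2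
    have hea : eW a' = a := by
      rw [ha', map_mul, hu', hYq]
      show a * b * b⁻¹ = a
      field_simp
    have heb : eW b' = b := by
      have h1 : eW (u' * b') = eW 1 := hdiff _ _ (by rw [map_mul, k2, map_one])
      rw [map_mul, hu', map_one] at h1
      field_simp at h1
      exact h1
    set w' : ZT Z → W := fun z => algebraMap R W (r z) * Yy z ^ e with hw'
    set T : ι → W := TcZ Z s d (fun i => (c i : W)) (fun k => Yq (some (some k))) w' q0
      with hTdef
    let Y : ι → W := fun i => if h : i ∈ Z then Yy ⟨i, h⟩ else T i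
    have hYZ : ∀ z : ZT Z, Y z.1 = Yy z := by
      intro z
      show (if h : z.1 ∈ Z then Yy ⟨z.1, h⟩ else T z.1) = _
      rw [dif_pos z.2]
    have hYN : ∀ i, i ∉ Z → Y i = T i := by
      intro i hi
      show (if h : i ∈ Z then Yy ⟨i, h⟩ else T i) = _
      rw [dif_neg hi]
    have hTz : Tz Z r e Y = T := by
      funext i
      unfold Tz
      split_ifs with hi
      · have h1 := hYZ ⟨i, hi⟩
        simp only at h1
        rw [h1]
        exact (TcZ_Z Z s d _ _ w' _ ⟨i, hi⟩).symm
      · exact hYN i hi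
    have hek : ∀ k : TT Z s d, eW (Yq (some (some k))) = y k - (c k : F) := fun k => hYq _
    have heT : ∀ i, eW (T i) = Tz Z r e y i := by
      intro i
      have h2 : eW (T i) = TcZ Z s d (fun i => eW (c i : W)) (fun k => eW (Yq (some (some k))))
        (fun z => eW (w' z)) (eW q0) i := map_TcZ (eW : W →+* F) Z s d _ _ _ _ i
      rw [h2]
      apply TcZ_eq hS Z s d hsd hD.hsZ hdZ
      · rw [hTzy s hD.hsZ, hD.hs]
      · intro k
        rw [hek, map_natCast, hTzy k.1 k.2.1]
      · intro z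
        rw [hw', map_mul, AlgHom.commutes, map_pow, hYy]
        unfold Tz
        rw [if_pos z.2]
      · rw [hL, hq0, hYq]
        rfl
    have heY : ∀ i, eW (Y i) = y i := by
      intro i
      by_cases hi : i ∈ Z
      · have h1 := hYZ ⟨i, hi⟩
        simp only at h1
        rw [h1, hYy]
      · rw [hYN i hi, heT, hTzy i hi]
    have hYs : Y s = 1 := by
      rw [hYN s hD.hsZ]
      exact TcZ_s Z s d hD.hsZ _ _ _ _
    have hsum : ∑ i, T i = q0 := (hS Z s d hsd hD.hsZ hdZ _ _ _ _).1
    have r1 : pr (∑ i, Tz Z r e Y i) = pr (a' ^ 1 * b') := by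
      rw [hTz, hsum, map_mul, pow_one, k3]
    have r2 : pr (algebraMap R W π) = pr (a' ^ nA * b' ^ (nA - 1)) := by
      rw [hπ']
      obtain ⟨k, rfl⟩ : ∃ k, nA = k + 1 := ⟨nA - 1, by omega⟩
      have h1 : (pr u' * pr b') ^ k = 1 := by rw [k2, one_pow]
      rw [mul_pow] at h1
      simp only [Nat.add_sub_cancel, map_mul, map_pow, ha', pow_zero, mul_one, mul_pow]
      linear_combination (-(pr q0 ^ (k + 1)) * pr u') * h1
    have r3 : pr (aeval (Tz Z r e Y) g + algebraMap R W ν * a' ^ 1 * b' ^ (n + 1)) = 0 := by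
      have h1 := hT'
      rw [F2_eval] at h1
      rw [hTz]
      simp only [map_add, map_mul, map_pow, map_sub, map_one, pow_one] at h1 ⊢
      linear_combination h1 + (pr a' * pr b') * k4 + (pr q1 - 1) * k3
    obtain ⟨hFa, hFb, hFY⟩ := hFAB 𝒪 p e n nA π ν 1 nA (nA - 1) 1 (n + 1) co r g Z y s a b hD pr eW
      hker Y a' b' heY hea heb hYs r1 r2
    refine hP 𝒪 p e n nA π ν 1 nA (nA - 1) 1 (n + 1) co r g Z y s a b hD pr hprs eW hker hW hloc Y
      a' b' heY hea heb hYs r1 r2 r3 ?_ hreg
    obtain ⟨f1, f2, f3, f4, f5, f6, f7⟩ := FRC_ok pr eW hker (fun i : {i : ι // i ≠ s} => Y i)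
    have fone : Frc pr eW (fun i : {i : ι // i ≠ s} => Y i) 1 := by
      have := f1 1
      rwa [map_one] at this
    have fpow : ∀ k : ℕ, Frc pr eW (fun i : {i : ι // i ≠ s} => Y i) (b' ^ k) := by
      intro k
      induction k with
      | zero => rw [pow_zero]; exact fone
      | succ k ih => rw [pow_succ]; exact f4 _ _ ih hFb
    refine hGen _ f1 ?_ f3 f4 f5 f6
    rintro w ((⟨o, rfl⟩ | ⟨z, rfl⟩) | hw)
    · rcases o with _ | (_ | k)
      · exact f5 (a' * b') _ (by rw [map_mul, k3]) (f4 _ _ hFa hFb)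
      · refine f5 (1 + algebraMap R W ν * b' ^ n) _ ?_ (f3 _ _ fone (f4 _ _ (f1 _) (fpow n)))
        rw [map_add, map_mul, map_pow, map_one, k4]
        ring
      · have h1 : Yq (some (some k)) = Y k.1 + algebraMap R W (-(c k.1 : R)) := by
          have h2 : Y k.1 = (c k.1 : W) + Yq (some (some k)) := by
            rw [hYN k.1 k.2.1]
            exact TcZ_T Z s d _ _ _ _ k
          rw [h2, map_neg, map_natCast]; ring
        rw [h1]
        exact f3 _ _ (hFY _) (f1 _)
    · rw [← hYZ z]
      exact hFY _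
    · rw [Set.mem_singleton_iff] at hw
      rw [hw]
      refine f6 b' u' (by rw [heb]; exact hb0) hFb (f5 1 _ ?_ fone)
      rw [map_mul, map_one, mul_comm, k2]

end Pool.Agent.H945R2.R
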