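import Pool.Agent.H945R2.R.Props2
import Pool.Agent.H945R2.S.QC1

/-! QR1: chart 1 of the resolution, ramified base fields. -/

set_option autoImplicit false

open scoped Pointwise

namespace Pool.Agent.H945R2.R

open Pool.Agent.H918R2.Quad Pool.Agent.H945R2.D Pool.Agent.H945R2.S Pool.Agent.H945R2.E
  MvPolynomial

namespace QR1aux

/-- The place of the coordinate `m` among the variables. -/
def nu {κ ζ : Type} [DecidableEq κ] (l : κ) (m : κ) :
    Option (({m : κ // m ≠ l} ⊕ ζ) ⊕ Unit) :=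
  if h : m = l then none else some (Sum.inl (Sum.inl ⟨m, h⟩))

theorem nu_inj {κ ζ : Type} [DecidableEq κ] (l : κ) :
    Function.Injective (nu (ζ := ζ) l) := by
  intro m m' h
  unfold nu at h
  split_ifs at h with h1 h2 h2
  · rw [h1, h2]
  · simpa using h

theorem nu_some {κ ζ : Type} [DecidableEq κ] (l : κ) (k : κ)
    (i : ({m : κ // m ≠ l} ⊕ ζ) ⊕ Unit)
    (h : nu l k = some i) : ∃ m, i = Sum.inl (Sum.inl m) := by
  unfold nu at h
  split_ifs at h with h1
  exact ⟨⟨k, h1⟩, (Option.some.inj h).symm⟩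

/-- The point of chart 1. -/
def pt {F κ ζ : Type} [Field F] (q : κ → F) (η : ζ → F) (l : κ) (b : F) :
    Option (({m : κ // m ≠ l} ⊕ ζ) ⊕ Unit) → F :=
  fun o => o.elim (q l) (fun i => Sum.elim
    (fun i => Sum.elim (fun m => q m.1 / q l) (fun z => η z / q l) i) (fun _ => b) i)

theorem eval_Yv {R F κ ζ : Type} [CommRing R] [DecidableEq κ] [Field F] [Algebra R F]
    (q : κ → F) (η : ζ → F) (l : κ) (b : F) (h0 : q l ≠ 0) (m : κ) :
    aeval (pt q η l b) (Yv (R := R) (nu (ζ := ζ) l) m) = q m / q l := by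
  unfold Yv nu
  split_ifs with h
  · rw [h, div_self h0]; simp
  · simp [pt]

theorem aeval_map {R B B' κ ζ : Type} [CommRing R] [CommRing B] [Algebra R B] [CommRing B']
    [Algebra R B'] (f : B →ₐ[R] B') (F₀ : MvPolynomial (κ ⊕ ζ) R) (Y : κ → B) (w : ζ → B) :
    f (aeval (Sum.elim Y w) F₀) = aeval (Sum.elim (fun k => f (Y k)) (fun z => f (w z))) F₀ := by
  rw [MvPolynomial.comp_aeval_apply]
  congr 1
  congr 1
  funext i
  rcases i with i | i <;> rfl

end QR1aux

open QR1aux

theorem QR1_ok (hB : S_BL4) : S_QR1 := by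
  intro R F κ ζ _ _ _ _ _ _ _ _ _ 𝒪 π e h r k₀ k₁ i₁ i₂ P H F₀ q y u Q hD hexpE l hC hlocOf
  obtain ⟨hQ, hQE⟩ := hexpE
  have hez : ∀ _ : ζ, 2 ≤ e := fun z => hD.heZ.resolve_right (fun h => h.elim z)
  let σ : Type := ({m : κ // m ≠ l} ⊕ ζ) ⊕ Unit
  let W : Type := MvPolynomial (Option σ) R
  let ν : κ → Option σ := nu l
  let ε : W := X none
  let Yq : κ → W := fun m => ε * Yv ν m
  let Yy : ζ → W := fun z => ε * X (some (Sum.inl (Sum.inr z)))
  let bb : W := X (some (Sum.inr ()))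
  let eW : W →ₐ[R] F := aeval (pt q y l u)
  have hνl : ν l = none := by
    show nu l l = none
    unfold nu; rw [dif_pos rfl]
  have hYvl : (Yv ν l : W) = 1 := by
    unfold Yv; rw [hνl]; rfl
  have heε : eW ε = q l := by
    show aeval (pt q y l u) (X none) = q l
    rw [aeval_X]; rfl
  have hebb : eW bb = u := by
    show aeval (pt q y l u) (X (some (Sum.inr ()))) = u
    rw [aeval_X]; rfl
  have heYv : ∀ m, eW (Yv ν m) = q m / q l := fun m => eval_Yv q y l u hC.ql m
  have heYq : ∀ m, eW (Yq m) = q m := by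
    intro m
    show eW (ε * Yv ν m) = q m
    rw [map_mul, heε, heYv, mul_div_cancel₀ _ hC.ql]
  have heXz : ∀ z : ζ, eW (X (some (Sum.inl (Sum.inr z)))) = y z / q l := by
    intro z
    show aeval (pt q y l u) (X (some (Sum.inl (Sum.inr z)))) = _
    rw [aeval_X]; rfl
  have heYy : ∀ z : ζ, eW (Yy z) = y z := by
    intro z
    show eW (ε * X (some (Sum.inl (Sum.inr z)))) = _
    rw [map_mul, heε, heXz, mul_div_cancel₀ _ hC.ql]
  let wW : ζ → W := fun z => algebraMap R W (r z) * Yy z ^ e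
  let Tot : W := aeval (Sum.elim Yq wW) F₀
  have heTot : eW Tot = 0 := by
    have h1 := aeval_map eW F₀ Yq wW
    have h3 : (fun k => eW (Yq k)) = q := funext fun k => heYq _
    have h4 : (fun z => eW (wW z)) = fun z : ζ => algebraMap R F (r z) * y z ^ e := by
      funext z
      show eW (algebraMap R W (r z) * Yy z ^ e) = _
      rw [map_mul, AlgHom.commutes, map_pow, heYy]
    show eW (aeval (Sum.elim Yq wW) F₀) = 0
    rw [h1, h3, h4]
    exact hD.hT
  -- the first relation
  let hh : W := ε ^ i₁ * Yv ν k₀ ^ (i₁ + 1) * Yq k₁ ^ i₂ * bb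
  let R1 : W := C π - X none * hh
  have hR1 : R1 = algebraMap R W π - Yq k₀ ^ (i₁ + 1) * Yq k₁ ^ i₂ * bb := by
    show C π - ε * (ε ^ i₁ * Yv ν k₀ ^ (i₁ + 1) * Yq k₁ ^ i₂ * bb) =
      algebraMap R W π - (ε * Yv ν k₀) ^ (i₁ + 1) * Yq k₁ ^ i₂ * bb
    rw [MvPolynomial.algebraMap_eq, mul_pow]
    ring
  have heR1 : eW R1 = 0 := by
    rw [hR1, map_sub, AlgHom.commutes, map_mul, map_mul, map_pow, map_pow, heYq, heYq, hebb,
      ← hD.hπ, sub_self]
  -- the second relation
  let E1 : W := Polynomial.aeval bb P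
  let h1' : W := Yv ν k₁ * Polynomial.aeval bb H
  let R2 : W := E1 + X none * h1'
  have hR2 : R2 = Polynomial.aeval bb P + Yq k₁ * Polynomial.aeval bb H := by
    show Polynomial.aeval bb P + ε * (Yv ν k₁ * Polynomial.aeval bb H) =
      Polynomial.aeval bb P + ε * Yv ν k₁ * Polynomial.aeval bb H
    ring
  have heR2 : eW R2 = 0 := by
    rw [hR2, map_add, map_mul, ← Polynomial.aeval_algHom_apply, ← Polynomial.aeval_algHom_apply,
      heYq, hebb]
    exact hD.hE
  -- the quotient by the first two relations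
  obtain ⟨B, iB1, iB2, mk, hmks, hmkk, hmk⟩ :=
    exists_quot (R := R) (Ideal.span {R1, R2} : Ideal W)
  have hmkR1 : algebraMap R B π = mk (Yq k₀) ^ (i₁ + 1) * mk (Yq k₁) ^ i₂ * mk bb := by
    have h1 : mk R1 = 0 := (hmk R1).2 (Ideal.subset_span (by simp))
    rw [hR1, map_sub, AlgHom.commutes, map_mul, map_mul, map_pow, map_pow] at h1
    exact sub_eq_zero.1 h1
  have hmkR2 : Polynomial.aeval (mk bb) P + mk (Yq k₁) * Polynomial.aeval (mk bb) H = 0 := by
    have h1 : mk R2 = 0 := (hmk R2).2 (Ideal.subset_span (by simp))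
    rw [hR2, map_add, map_mul, ← Polynomial.aeval_algHom_apply,
      ← Polynomial.aeval_algHom_apply] at h1
    exact h1
  have hexp := hQE (B := B) (fun k => mk (Yq k)) (mk bb) (fun z => mk (wW z)) hmkR1 hmkR2
  have hmTot : mk Tot = aeval (Sum.elim (fun k => mk (Yq k)) (fun z => mk (wW z))) F₀ :=
    aeval_map mk F₀ Yq wW
  have hmem : mk Tot - (∑ k, ∑ k', algebraMap R B (Q k k') * mk (Yq k) * mk (Yq k') -
      ∑ z, mk (wW z)) ∈ Ideal.span {mk ε ^ 3} := by
    rw [hmTot]
    refine (show _ ≤ Ideal.span {mk ε ^ 3} from ?_) hexp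
    have h1 : Ideal.span (Set.range (fun k => mk (Yq k))) ≤ Ideal.span {mk ε} := by
      rw [Ideal.span_le]
      rintro x ⟨k, rfl⟩
      exact Ideal.mem_span_singleton'.2 ⟨mk (Yv ν k), by
        show mk (Yv ν k) * mk ε = mk (ε * Yv ν k)
        rw [map_mul, mul_comm]⟩
    have h2 : Ideal.span (Set.range (fun z => mk (wW z))) ≤ Ideal.span {mk ε ^ 2} := by
      rw [Ideal.span_le]
      rintro x ⟨z, rfl⟩
      have he2 := hez z
      refine Ideal.mem_span_singleton'.2 ⟨mk (algebraMap R W (r z) *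
        (ε ^ (e - 2) * X (some (Sum.inl (Sum.inr z))) ^ e)), ?_⟩
      show mk (algebraMap R W (r z) * (ε ^ (e - 2) * X (some (Sum.inl (Sum.inr z))) ^ e)) *
        mk ε ^ 2 = mk (algebraMap R W (r z) * (ε * X (some (Sum.inl (Sum.inr z)))) ^ e)
      rw [← map_pow, ← map_mul]
      congr 1
      rw [mul_pow]
      have : ε ^ e = ε ^ (e - 2) * ε ^ 2 := by rw [← pow_add]; congr 1; omega
      rw [this]; ring
    refine sup_le (sup_le ?_ ?_) ?_
    · refine (Ideal.pow_right_mono h1 3).trans ?_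
      rw [Ideal.span_singleton_pow]
    · refine (Ideal.mul_mono h1 h2).trans ?_
      rw [Ideal.span_singleton_mul_span_singleton]
      apply Ideal.span_singleton_le_span_singleton.2
      exact ⟨1, by ring⟩
    · refine (Ideal.pow_right_mono h2 2).trans ?_
      rw [Ideal.span_singleton_pow]
      apply Ideal.span_singleton_le_span_singleton.2
      exact ⟨mk ε, by ring⟩
  obtain ⟨hBB, hhB⟩ := Ideal.mem_span_singleton'.1 hmem
  obtain ⟨h', hh'⟩ := hmks hBB
  let G0 : W := ∑ z : ζ, C (r z) * X (some (Sum.inl (Sum.inr z))) ^ e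
  let G : W := X none * h' - X none ^ (e - 2) * G0
  let E : W := ∑ k, ∑ l, C (Q k l) * Yv ν k * Yv ν l + G
  have hsumw : ∑ z, wW z = ε ^ 2 * (ε ^ (e - 2) * G0) := by
    show ∑ z : ζ, algebraMap R W (r z) * (ε * X (some (Sum.inl (Sum.inr z)))) ^ e =
      ε ^ 2 * (ε ^ (e - 2) *
        ∑ z : ζ, (C (r z) : W) * X (some (Sum.inl (Sum.inr z))) ^ e)
    rw [← mul_assoc, Finset.mul_sum]
    apply Finset.sum_congr rfl
    intro z _
    have he2 := hez z
    rw [mul_pow]
    have : ε ^ e = ε ^ 2 * ε ^ (e - 2) := by rw [← pow_add]; congr 1; omega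
    rw [this, MvPolynomial.algebraMap_eq]; ring
  have hsumq : ∑ k, ∑ k', algebraMap R W (Q k k') * Yq k * Yq k' =
      ε ^ 2 * ∑ k, ∑ k', C (Q k k') * Yv ν k * Yv ν k' := by
    rw [Finset.mul_sum]
    apply Finset.sum_congr rfl
    intro k _
    rw [Finset.mul_sum]
    apply Finset.sum_congr rfl
    intro k' _
    show algebraMap R W (Q k k') * (ε * Yv ν k) * (ε * Yv ν k') = _
    rw [MvPolynomial.algebraMap_eq]; ring
  have hmE : mk (Tot - ε ^ 2 * E) = 0 := by
    have h1 : ε ^ 2 * E = (∑ k, ∑ k', algebraMap R W (Q k k') * Yq k * Yq k' - ∑ z, wW z) +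
        h' * ε ^ 3 := by
      rw [hsumq, hsumw]
      show ε ^ 2 * (∑ k, ∑ l, C (Q k l) * Yv ν k * Yv ν l + (ε * h' - ε ^ (e - 2) * G0)) = _
      ring
    have h2 : mk (∑ k, ∑ k', algebraMap R W (Q k k') * Yq k * Yq k' - ∑ z, wW z) =
        (∑ k, ∑ k', algebraMap R B (Q k k') * mk (Yq k) * mk (Yq k') - ∑ z, mk (wW z)) := by
      rw [map_sub, map_sum, map_sum]
      congr 1
      apply Finset.sum_congr rfl
      intro k _
      rw [map_sum]
      apply Finset.sum_congr rfl
      intro k' _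
      rw [map_mul, map_mul, AlgHom.commutes]
    rw [h1, map_sub, map_add, h2, map_mul, map_pow, hh', hhB]
    ring
  obtain ⟨ρ, ρ', hρ⟩ := Ideal.mem_span_pair.1 ((hmk _).1 hmE)
  have hE0 : eW E = 0 := by
    have h1 : eW (ε ^ 2 * E) = 0 := by
      have h2 : ε ^ 2 * E = Tot - (ρ * R1 + ρ' * R2) := by
        rw [hρ]; ring
      rw [h2, map_sub, map_add, map_mul, map_mul, heR1, heR2, mul_zero, mul_zero, add_zero,
        sub_zero, heTot]
    rw [map_mul, map_pow, heε] at h1
    exact (mul_eq_zero.1 h1).resolve_left (pow_ne_zero 2 hC.ql)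
  obtain ⟨A, iA1, iA2, pr, hprs, hprk, hpr⟩ :=
    exists_quot (R := R) (Ideal.span {R1, R2, E} : Ideal W)
  have hprR1 : pr R1 = 0 := (hpr R1).2 (Ideal.subset_span (by simp))
  have hprR2 : pr R2 = 0 := (hpr R2).2 (Ideal.subset_span (by simp))
  have hprE : pr E = 0 := (hpr E).2 (Ideal.subset_span (by simp))
  have hker : ∀ w, pr w = 0 → eW w = 0 := by
    intro w hw
    have h1 := (hpr w).1 hw
    have h2 : (Ideal.span {R1, R2, E} : Ideal W) ≤ RingHom.ker (eW : W →+* F) := by
      rw [Ideal.span_le]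
      rintro x (rfl | rfl | rfl)
      · exact heR1
      · exact heR2
      · exact hE0
    exact h2 h1
  -- the range
  have hrange : Algebra.adjoin R (insert u (G1 q y l)) = eW.range := by
    show _ = (aeval (pt q y l u)).range
    rw [← Algebra.adjoin_range_eq_range_aeval]
    apply le_antisymm
    · apply Algebra.adjoin_le
      rintro x (hx | (hx | ⟨k, rfl⟩) | ⟨z, rfl⟩)
      · rw [hx]
        exact Algebra.subset_adjoin ⟨some (Sum.inr ()), rfl⟩
      · rw [Set.mem_singleton_iff] at hx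
        rw [hx]
        exact Algebra.subset_adjoin ⟨none, rfl⟩
      · by_cases hk : k = l
        · show q k / q l ∈ _
          rw [hk, div_self hC.ql]
          exact one_mem _
        · exact Algebra.subset_adjoin ⟨some (Sum.inl (Sum.inl ⟨k, hk⟩)), rfl⟩
      · exact Algebra.subset_adjoin ⟨some (Sum.inl (Sum.inr z)), rfl⟩
    · apply Algebra.adjoin_mono
      rintro x ⟨o, rfl⟩
      rcases o with _ | ((k | z) | u)
      · exact Or.inr (Or.inl (Or.inl rfl))
      · exact Or.inr (Or.inl (Or.inr ⟨k.1, rfl⟩))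
      · exact Or.inr (Or.inr ⟨z, rfl⟩)
      · exact Or.inl rfl
  have hlocOf' : IsLocOf 𝒪 (eW.range : Set F) := by
    rw [← hrange]; exact hlocOf
  have hW : ∀ w, eW w ∈ 𝒪 := fun w => hlocOf'.1 _ ⟨w, rfl⟩
  have hprp : pr (algebraMap R W π) = pr (Yq k₀ ^ (i₁ + 1) * Yq k₁ ^ i₂ * bb) := by
    rw [hR1, map_sub] at hprR1
    exact sub_eq_zero.1 hprR1
  have hprG : pr (Polynomial.aeval bb P + Yq k₁ * Polynomial.aeval bb H) = 0 := by
    rw [hR2] at hprR2
    exact hprR2
  have hprTot : pr Tot = 0 := by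
    have h2 : Tot = ε ^ 2 * E + (ρ * R1 + ρ' * R2) := by
      rw [hρ]; ring
    rw [h2, map_add, map_add, map_mul, map_mul, map_mul, hprE, hprR1, hprR2]
    simp
  refine hD.pre pr hprs eW hker hW hlocOf' Yq Yy bb heYq heYy hebb hprp hprG hprTot ?_ ?_
  · intro P hPr hPS hPa hPm hPe hPd w
    have hPε : P ε := by
      have h1 := hPS (Yq l) (Or.inl (Or.inl ⟨l, rfl⟩))
      have h2 : Yq l = ε := by
        show ε * Yv ν l = ε
        rw [hYvl, mul_one]
      rwa [h2] at h1
    have heε0 : eW ε ≠ 0 := by rw [heε]; exact hC.ql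
    have hPv : ∀ m, P (Yv ν m) := fun m =>
      hPd ε (Yv ν m) heε0 hPε (hPS _ (Or.inl (Or.inl ⟨m, rfl⟩)))
    have hPz : ∀ z : ζ, P (X (some (Sum.inl (Sum.inr z)))) := fun z =>
      hPd ε _ heε0 hPε (hPS _ (Or.inl (Or.inr ⟨z, rfl⟩)))
    have hPb : P bb := hPS _ (Or.inr rfl)
    have hPX : ∀ o, P (X o) := by
      intro o
      rcases o with _ | ((k | z) | u)
      · exact hPε
      · have h1 := hPv k.1
        have h2 : (Yv ν k.1 : W) = X (some (Sum.inl (Sum.inl k))) := by
          show (Yv (nu l) k.1 : W) = _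
          unfold Yv nu
          rw [dif_neg k.2]
          rfl
        rwa [h2] at h1
      · exact hPz z
      · exact hPb
    induction w using MvPolynomial.induction_on with
    | C r => exact hPr r
    | add p q hp hq => exact hPa _ _ hp hq
    | mul_X p n hp => exact hPm _ _ hp (hPX n)
  · intro 𝔮 _ h𝔮
    have h1 : pr (X none) ∈ 𝔮 := by
      rw [h𝔮]
      show ¬ U 𝒪 (eW ε)
      rw [heε]; exact (hD.hq l).2
    have hz : ∀ z : ζ, pr (X (some (Sum.inl (Sum.inr z)))) ∈ 𝔮 := by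
      intro z
      rw [h𝔮, heXz]
      exact hC.hyU z
    have hG0 : pr G0 ∈ 𝔮 := by
      show pr (∑ z : ζ, (C (r z) : W) * X (some (Sum.inl (Sum.inr z))) ^ e) ∈ 𝔮
      rw [map_sum]
      apply Ideal.sum_mem
      intro z _
      have he2 := hez z
      rw [map_mul, map_pow]
      exact Ideal.mul_mem_left _ _ (Ideal.pow_mem_of_mem _ (hz z) e (by omega))
    refine hB π hD.irr Q hQ ν (nu_inj l) (pr : W →+* A) hprs hh h1' E1 G hprk 𝔮 h1
      ?_ ?_ ⟨l, ?_⟩ (Sum.inr ()) ?_ ?_
    · show pr (X none * h' - X none ^ (e - 2) * G0) ∈ 𝔮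
      rw [map_sub, map_mul, map_mul]
      exact 𝔮.sub_mem (Ideal.mul_mem_right _ _ h1) (Ideal.mul_mem_left _ _ hG0)
    · intro k i hki
      obtain ⟨m, rfl⟩ := nu_some l k i hki
      have hd1 : pderiv (some (Sum.inl (Sum.inl m))) (X none : W) = 0 := pderiv_X_of_ne (by simp)
      have hd2 : pderiv (some (Sum.inl (Sum.inl m))) G0 = 0 := by
        show pderiv (some (Sum.inl (Sum.inl m)))
          (∑ z : ζ, (C (r z) : W) * X (some (Sum.inl (Sum.inr z))) ^ e) = 0
        rw [map_sum]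
        apply Finset.sum_eq_zero
        intro z _
        have h3 : pderiv (some (Sum.inl (Sum.inl m)))
            (X (some (Sum.inl (Sum.inr z))) : W) = 0 :=
          pderiv_X_of_ne (fun h => Sum.inr_ne_inl (Sum.inl_injective (Option.some_injective _ h)))
        rw [pderiv_C_mul, pderiv_pow, h3]
        simp
      have hd : pderiv (some (Sum.inl (Sum.inl m))) G =
          X none * pderiv (some (Sum.inl (Sum.inl m))) h' := by
        show pderiv (some (Sum.inl (Sum.inl m))) (X none * h' - X none ^ (e - 2) * G0) = _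
        rw [map_sub, pderiv_mul, pderiv_mul, pderiv_pow, hd1, hd2]
        simp
      show pr (pderiv (some (Sum.inl (Sum.inl m))) G) ∈ 𝔮
      rw [hd, map_mul]
      exact Ideal.mul_mem_right _ _ h1
    · show pr (Yv ν l) ∉ 𝔮
      rw [hYvl, map_one]
      exact fun h => (inferInstance : 𝔮.IsPrime).ne_top ((Ideal.eq_top_iff_one _).2 h)
    · show pr (pderiv (some (Sum.inr ())) E1) ∉ 𝔮
      have hd : pderiv (some (Sum.inr ())) E1 = Polynomial.aeval bb P.derivative := by
        show pderiv (some (Sum.inr ())) (Polynomial.aeval bb P) = _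
        have h3 : pderiv (some (Sum.inr ())) bb = 1 := pderiv_X_self _
        rw [Derivation.map_aeval, h3, smul_eq_mul, mul_one]
      rw [h𝔮, not_not, hd, ← Polynomial.aeval_algHom_apply, hebb]
      exact hD.hP
    · intro k i hki
      obtain ⟨m, rfl⟩ := nu_some l k i hki
      have hd : pderiv (some (Sum.inl (Sum.inl m))) E1 = 0 := by
        show pderiv (some (Sum.inl (Sum.inl m))) (Polynomial.aeval bb P) = _
        have h3 : pderiv (some (Sum.inl (Sum.inl m))) bb = 0 := pderiv_X_of_ne (by simp)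
        rw [Derivation.map_aeval, h3, smul_zero]
      show pr (pderiv (some (Sum.inl (Sum.inl m))) E1) ∈ 𝔮
      rw [hd, map_zero]
      exact 𝔮.zero_mem

end Pool.Agent.H945R2.R
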