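import Pool.Agent.H945R2.R.Props2

/-! QR3: chart 3 of the resolution, unit case, ramified base (helper193, after QE3 of helper818). -/

set_option autoImplicit false

open scoped Pointwise

namespace Pool.Agent.H945R2.R

open Pool.Agent.H918R2.Quad Pool.Agent.H945R2.D Pool.Agent.H945R2.S Pool.Agent.H945R2.E
  MvPolynomial

namespace QR3aux

/-- The place of the coordinate `m` among the variables. -/
def nu {κ ζ : Type} (z₀ : ζ) (m : κ) : Option ((κ ⊕ {z : ζ // z ≠ z₀}) ⊕ Unit) :=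
  some (Sum.inl (Sum.inl m))

theorem nu_inj {κ ζ : Type} (z₀ : ζ) : Function.Injective (nu (κ := κ) z₀) := by
  intro m m' h
  unfold nu at h
  simpa using h

theorem nu_some {κ ζ : Type} (z₀ : ζ) (k : κ) (i : (κ ⊕ {z : ζ // z ≠ z₀}) ⊕ Unit)
    (h : nu z₀ k = some i) : ∃ m, i = Sum.inl (Sum.inl m) :=
  ⟨k, (Option.some.inj h).symm⟩

/-- The point of chart 3. -/
def pt {F κ ζ : Type} [Field F] (q : κ → F) (η : ζ → F) (k : ℕ) (z₀ : ζ) (b : F) :
    Option ((κ ⊕ {z : ζ // z ≠ z₀}) ⊕ Unit) → F :=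
  fun o => o.elim (η z₀) (fun i => Sum.elim (fun i => Sum.elim (fun m => q m / η z₀ ^ k)
    (fun z => η z.1 / η z₀) i) (fun _ => b) i)

/-- The coordinates `y_z / y_{z₀}`. -/
noncomputable def Hz {R κ ζ : Type} [CommRing R] [DecidableEq ζ] (z₀ z : ζ) :
    MvPolynomial (Option ((κ ⊕ {z : ζ // z ≠ z₀}) ⊕ Unit)) R :=
  if h : z = z₀ then 1 else X (some (Sum.inl (Sum.inr ⟨z, h⟩)))

theorem eval_Hz {R F κ ζ : Type} [CommRing R] [DecidableEq ζ] [Field F] [Algebra R F]
    (q : κ → F) (η : ζ → F) (k : ℕ) (z₀ : ζ) (b : F) (h0 : η z₀ ≠ 0) (z : ζ) :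
    aeval (pt q η k z₀ b) (Hz (R := R) (κ := κ) z₀ z) = η z / η z₀ := by
  unfold Hz
  split_ifs with h
  · rw [h, div_self h0, map_one]
  · rw [aeval_X]
    rfl

theorem pderiv_Hz {R κ ζ : Type} [CommRing R] [DecidableEq ζ] (z₀ z : ζ) (m : κ) :
    pderiv (some (Sum.inl (Sum.inl m))) (Hz (R := R) (κ := κ) z₀ z) = 0 := by
  unfold Hz
  split_ifs with h
  · exact pderiv_one
  · exact pderiv_X_of_ne (by simp)

theorem pderiv_aeval {R σ : Type} [CommRing R] (i : σ) (t : MvPolynomial σ R)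
    (P : Polynomial R) :
    pderiv i (Polynomial.aeval t P) = Polynomial.aeval t P.derivative * pderiv i t := by
  induction P using Polynomial.induction_on' with
  | add p q hp hq => simp only [map_add, hp, hq, add_mul]
  | monomial n a =>
    rw [Polynomial.aeval_monomial, Polynomial.derivative_monomial, Polynomial.aeval_monomial,
      MvPolynomial.algebraMap_eq, pderiv_C_mul, pderiv_pow]
    simp only [map_mul, map_natCast]
    ring

end QR3aux

open QR3aux

theorem QR3_ok (hB : S_BL4) : S_QR3 := by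
  intro R F κ ζ _ _ _ _ _ _ _ _ _ 𝒪 π e h r k₀ k₁ i₁ i₂ P H F₀ q η u Q hA hexpA n z₀ hn1
    hnh hcase hC hunit hlocOf
  obtain ⟨hQ, hQE⟩ := hexpA
  have he2 : 2 * n + 1 ≤ e := by
    have h1 := hA.heh
    omega
  let σ : Type := (κ ⊕ {z : ζ // z ≠ z₀}) ⊕ Unit
  let W : Type := MvPolynomial (Option σ) R
  let ν : κ → Option σ := nu z₀
  let τ : W := X none
  let Hh : ζ → W := Hz z₀
  let Yq : κ → W := fun m => τ ^ n * Yv ν m
  let Yy : ζ → W := fun z => τ * Hh z
  let uu : W := X (some (Sum.inr ()))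
  let eW : W →ₐ[R] F := aeval (pt q η n z₀ u)
  have hτn0 : η z₀ ^ n ≠ 0 := pow_ne_zero n hC.yz
  have hHz0 : Hh z₀ = 1 := by
    show Hz z₀ z₀ = 1
    unfold Hz
    rw [dif_pos rfl]
  have heτ : eW τ = η z₀ := by
    show aeval (pt q η n z₀ u) (X none) = η z₀
    rw [aeval_X]; rfl
  have heuu : eW uu = u := by
    show aeval (pt q η n z₀ u) (X (some (Sum.inr ()))) = u
    rw [aeval_X]; rfl
  have heYv : ∀ m, eW (Yv ν m) = q m / η z₀ ^ n := by
    intro m
    show aeval (pt q η n z₀ u) (X (some (Sum.inl (Sum.inl m)))) = _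
    rw [aeval_X]; rfl
  have heYq : ∀ m, eW (Yq m) = q m := by
    intro m
    show eW (τ ^ n * Yv ν m) = q m
    rw [map_mul, map_pow, heτ, heYv, mul_div_cancel₀ _ hτn0]
  have heH : ∀ z : ζ, eW (Hh z) = η z / η z₀ := fun z => eval_Hz q η n z₀ u hC.yz z
  have heYy : ∀ z : ζ, eW (Yy z) = η z := by
    intro z
    show eW (τ * Hh z) = _
    rw [map_mul, heτ, heH, mul_div_cancel₀ _ hC.yz]
  let wW : ζ → W := fun z => algebraMap R W (r z) * Yy z ^ e
  let Tot : W := aeval (Sum.elim Yq wW) F₀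
  have hmapTot : ∀ {B : Type} [CommRing B] [Algebra R B] (f : W →ₐ[R] B),
      f Tot = aeval (Sum.elim (fun k => f (Yq k)) (fun z => f (wW z))) F₀ := by
    intro B _ _ f
    show f (aeval (Sum.elim Yq wW) F₀) = _
    rw [MvPolynomial.comp_aeval_apply]
    congr 1
    congr 1
    funext i
    rcases i with k | z <;> rfl
  have heTot : eW Tot = 0 := by
    rw [hmapTot eW]
    have h3 : (fun k => eW (Yq k)) = q := funext fun k => heYq _
    have h4 : (fun z => eW (wW z)) = fun z : ζ => algebraMap R F (r z) * η z ^ e := by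
      funext z
      show eW (algebraMap R W (r z) * Yy z ^ e) = _
      rw [map_mul, AlgHom.commutes, map_pow, heYy]
    rw [h3, h4]
    exact hA.hT
  have hτn : τ ^ n = τ * τ ^ (n - 1) := by
    rw [← pow_succ']; congr 1; omega
  -- the first relation
  let hh : W := τ ^ (n - 1) * Yv ν k₀ * Yq k₀ ^ i₁ * Yq k₁ ^ i₂ * uu
  let R1 : W := C π - X none * hh
  have hR1 : R1 = algebraMap R W π - Yq k₀ ^ (i₁ + 1) * Yq k₁ ^ i₂ * uu := by
    have h1 : Yq k₀ ^ (i₁ + 1) = τ * (τ ^ (n - 1) * Yv ν k₀ * Yq k₀ ^ i₁) := by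
      rw [pow_succ']
      show τ ^ n * Yv ν k₀ * Yq k₀ ^ i₁ = _
      rw [hτn]
      ring
    rw [h1, MvPolynomial.algebraMap_eq]
    show C π - τ * (τ ^ (n - 1) * Yv ν k₀ * Yq k₀ ^ i₁ * Yq k₁ ^ i₂ * uu) = _
    ring
  have heR1 : eW R1 = 0 := by
    rw [hR1, map_sub, AlgHom.commutes, map_mul, map_mul, map_pow, map_pow, heYq, heYq, heuu,
      hA.hπ, sub_self]
  -- the second relation
  let E1 : W := Polynomial.aeval uu P
  let h1' : W := τ ^ (n - 1) * Yv ν k₁ * Polynomial.aeval uu H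
  let R2 : W := E1 + X none * h1'
  have hR2 : R2 = Polynomial.aeval uu P + Yq k₁ * Polynomial.aeval uu H := by
    show Polynomial.aeval uu P + τ * (τ ^ (n - 1) * Yv ν k₁ * Polynomial.aeval uu H) =
      Polynomial.aeval uu P + τ ^ n * Yv ν k₁ * Polynomial.aeval uu H
    rw [hτn]
    ring
  have heR2 : eW R2 = 0 := by
    rw [hR2, map_add, map_mul, ← Polynomial.aeval_algHom_apply, ← Polynomial.aeval_algHom_apply,
      heYq, heuu]
    exact hA.hE
  -- the quotient by the first two relations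
  obtain ⟨B, iB1, iB2, mk, hmks, hmkk, hmk⟩ :=
    exists_quot (R := R) (Ideal.span {R1, R2} : Ideal W)
  have hmkR1 : algebraMap R B π = mk (Yq k₀) ^ (i₁ + 1) * mk (Yq k₁) ^ i₂ * mk uu := by
    have h1 : mk R1 = 0 := (hmk R1).2 (Ideal.subset_span (by simp))
    rw [hR1, map_sub, AlgHom.commutes, map_mul, map_mul, map_pow, map_pow] at h1
    exact sub_eq_zero.1 h1
  have hmkR2 : Polynomial.aeval (mk uu) P + mk (Yq k₁) * Polynomial.aeval (mk uu) H = 0 := by
    have h1 : mk R2 = 0 := (hmk R2).2 (Ideal.subset_span (by simp))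
    rw [hR2, map_add, map_mul, ← Polynomial.aeval_algHom_apply,
      ← Polynomial.aeval_algHom_apply] at h1
    exact h1
  have hexp := hQE (B := B) (fun k => mk (Yq k)) (mk uu) (fun z => mk (wW z)) hmkR1 hmkR2
  have hmTot : mk Tot = aeval (Sum.elim (fun k => mk (Yq k)) (fun z => mk (wW z))) F₀ :=
    hmapTot mk
  have hmem : mk Tot - (∑ k, ∑ k', algebraMap R B (Q k k') * mk (Yq k) * mk (Yq k') -
      ∑ z, mk (wW z)) ∈ Ideal.span {mk τ ^ (2 * n + 1)} := by
    rw [hmTot]
    refine (show _ ≤ Ideal.span {mk τ ^ (2 * n + 1)} from ?_) hexp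
    have h1 : Ideal.span (Set.range (fun k => mk (Yq k))) ≤ Ideal.span {mk τ ^ n} := by
      rw [Ideal.span_le]
      rintro x ⟨k, rfl⟩
      exact Ideal.mem_span_singleton'.2 ⟨mk (Yv ν k), by
        show mk (Yv ν k) * mk τ ^ n = mk (τ ^ n * Yv ν k)
        rw [map_mul, map_pow, mul_comm]⟩
    have h2 : Ideal.span (Set.range (fun z => mk (wW z))) ≤ Ideal.span {mk τ ^ e} := by
      rw [Ideal.span_le]
      rintro x ⟨z, rfl⟩
      refine Ideal.mem_span_singleton'.2 ⟨mk (algebraMap R W (r z) * Hh z ^ e), ?_⟩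
      show mk (algebraMap R W (r z) * Hh z ^ e) * mk τ ^ e =
        mk (algebraMap R W (r z) * (τ * Hh z) ^ e)
      rw [← map_pow, ← map_mul]
      congr 1
      rw [mul_pow]
      ring
    refine sup_le (sup_le ?_ ?_) ?_
    · refine (Ideal.pow_right_mono h1 3).trans ?_
      rw [Ideal.span_singleton_pow]
      apply Ideal.span_singleton_le_span_singleton.2
      rw [← pow_mul]
      exact pow_dvd_pow _ (by omega)
    · refine (Ideal.mul_mono h1 h2).trans ?_
      rw [Ideal.span_singleton_mul_span_singleton]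
      apply Ideal.span_singleton_le_span_singleton.2
      rw [← pow_add]
      exact pow_dvd_pow _ (by omega)
    · refine (Ideal.pow_right_mono h2 2).trans ?_
      rw [Ideal.span_singleton_pow]
      apply Ideal.span_singleton_le_span_singleton.2
      rw [← pow_mul]
      exact pow_dvd_pow _ (by omega)
  obtain ⟨hBB, hhB⟩ := Ideal.mem_span_singleton'.1 hmem
  obtain ⟨h', hh'⟩ := hmks hBB
  let G0 : W := ∑ z : ζ, C (r z) * Hh z ^ e
  let G : W := X none * h' - X none ^ (e - 2 * n) * G0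
  let E : W := ∑ k, ∑ l, C (Q k l) * Yv ν k * Yv ν l + G
  have hsumw : ∑ z, wW z = τ ^ (2 * n) * (τ ^ (e - 2 * n) * G0) := by
    show ∑ z : ζ, algebraMap R W (r z) * (τ * Hh z) ^ e = τ ^ (2 * n) * (τ ^ (e - 2 * n) *
      ∑ z : ζ, (C (r z) : W) * Hh z ^ e)
    rw [← mul_assoc, Finset.mul_sum]
    apply Finset.sum_congr rfl
    intro z _
    rw [mul_pow]
    have h1 : τ ^ e = τ ^ (2 * n) * τ ^ (e - 2 * n) := by rw [← pow_add]; congr 1; omega
    rw [h1, MvPolynomial.algebraMap_eq]; ring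
  have hsumq : ∑ k, ∑ k', algebraMap R W (Q k k') * Yq k * Yq k' =
      τ ^ (2 * n) * ∑ k, ∑ k', C (Q k k') * Yv ν k * Yv ν k' := by
    rw [Finset.mul_sum]
    apply Finset.sum_congr rfl
    intro k _
    rw [Finset.mul_sum]
    apply Finset.sum_congr rfl
    intro k' _
    show algebraMap R W (Q k k') * (τ ^ n * Yv ν k) * (τ ^ n * Yv ν k') = _
    have h1 : τ ^ (2 * n) = τ ^ n * τ ^ n := by rw [← pow_add]; congr 1; omega
    rw [h1, MvPolynomial.algebraMap_eq]; ring
  have hmE : mk (Tot - τ ^ (2 * n) * E) = 0 := by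
    have h1 : τ ^ (2 * n) * E =
        (∑ k, ∑ k', algebraMap R W (Q k k') * Yq k * Yq k' - ∑ z, wW z) +
        h' * τ ^ (2 * n + 1) := by
      rw [hsumq, hsumw]
      show τ ^ (2 * n) * (∑ k, ∑ l, C (Q k l) * Yv ν k * Yv ν l +
        (τ * h' - τ ^ (e - 2 * n) * G0)) = _
      rw [pow_succ τ (2 * n)]
      ring
    have h2 : mk (∑ k, ∑ k', algebraMap R W (Q k k') * Yq k * Yq k' - ∑ z, wW z) =
        (∑ k, ∑ k', algebraMap R B (Q k k') * mk (Yq k) * mk (Yq k') - ∑ z, mk (wW z)) := by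
      rw [map_sub, map_sum, map_sum]
      congr 1
      apply Finset.sum_congr rfl
      intro k _
      rw [map_sum]
      apply Finset.sum_congr rfl
      intro k' _
      rw [map_mul, map_mul, AlgHom.commutes]
    rw [h1, map_sub, map_add, h2, map_mul, map_pow, hh', hhB]
    ring
  obtain ⟨ρ, ρ', hρ⟩ := Ideal.mem_span_pair.1 ((hmk _).1 hmE)
  have hE0 : eW E = 0 := by
    have h1 : eW (τ ^ (2 * n) * E) = 0 := by
      have h2 : τ ^ (2 * n) * E = Tot - (ρ * R1 + ρ' * R2) := by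
        rw [hρ]; ring
      rw [h2, map_sub, map_add, map_mul, map_mul, heR1, heR2, mul_zero, mul_zero, add_zero,
        sub_zero, heTot]
    rw [map_mul, map_pow, heτ] at h1
    exact (mul_eq_zero.1 h1).resolve_left (pow_ne_zero _ hC.yz)
  obtain ⟨A, iA1, iA2, pr, hprs, hprk, hpr⟩ :=
    exists_quot (R := R) (Ideal.span {R1, R2, E} : Ideal W)
  have hprR1 : pr R1 = 0 := (hpr R1).2 (Ideal.subset_span (by simp))
  have hprR2 : pr R2 = 0 := (hpr R2).2 (Ideal.subset_span (by simp))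
  have hprE : pr E = 0 := (hpr E).2 (Ideal.subset_span (by simp))
  have hker : ∀ w, pr w = 0 → eW w = 0 := by
    intro w hw
    have h1 := (hpr w).1 hw
    have h2 : (Ideal.span {R1, R2, E} : Ideal W) ≤ RingHom.ker (eW : W →+* F) := by
      rw [Ideal.span_le]
      rintro x (rfl | rfl | rfl)
      · exact heR1
      · exact heR2
      · exact hE0
    exact h2 h1
  -- the range
  have hrange : Algebra.adjoin R (insert u (G3 q η n z₀)) = eW.range := by
    show _ = (aeval (pt q η n z₀ u)).range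
    rw [← Algebra.adjoin_range_eq_range_aeval]
    apply le_antisymm
    · apply Algebra.adjoin_le
      rintro x (hx | (hx | ⟨k, rfl⟩) | ⟨z, rfl⟩)
      · rw [hx]
        exact Algebra.subset_adjoin ⟨some (Sum.inr ()), rfl⟩
      · rw [Set.mem_singleton_iff] at hx
        rw [hx]
        exact Algebra.subset_adjoin ⟨none, rfl⟩
      · exact Algebra.subset_adjoin ⟨some (Sum.inl (Sum.inl k)), rfl⟩
      · by_cases hz : z = z₀
        · show η z / η z₀ ∈ _
          rw [hz, div_self hC.yz]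
          exact one_mem _
        · exact Algebra.subset_adjoin ⟨some (Sum.inl (Sum.inr ⟨z, hz⟩)), rfl⟩
    · apply Algebra.adjoin_mono
      rintro x ⟨o, rfl⟩
      rcases o with _ | ((k | z) | v)
      · exact Or.inr (Or.inl (Or.inl rfl))
      · exact Or.inr (Or.inl (Or.inr ⟨k, rfl⟩))
      · exact Or.inr (Or.inr ⟨z.1, rfl⟩)
      · exact Or.inl rfl
  have hlocOf' : IsLocOf 𝒪 (eW.range : Set F) := by
    rw [← hrange]; exact hlocOf
  have hW : ∀ w, eW w ∈ 𝒪 := fun w => hlocOf'.1 _ ⟨w, rfl⟩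
  have hprp : pr (algebraMap R W π) = pr (Yq k₀ ^ (i₁ + 1) * Yq k₁ ^ i₂ * uu) := by
    rw [hR1, map_sub] at hprR1
    exact sub_eq_zero.1 hprR1
  have hprG : pr (Polynomial.aeval uu P + Yq k₁ * Polynomial.aeval uu H) = 0 := by
    rw [← hR2]
    exact hprR2
  have hprTot : pr Tot = 0 := by
    have h2 : Tot = τ ^ (2 * n) * E + (ρ * R1 + ρ' * R2) := by
      rw [hρ]; ring
    rw [h2, map_add, map_add, map_mul, map_mul, map_mul, hprE, hprR1, hprR2]
    simp
  refine hA.pre pr hprs eW hker hW hlocOf' Yq Yy uu heYq heYy heuu hprp hprG hprTot ?_ ?_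
  · intro PP hPr hPS hPa hPm hPe hPd w
    have hPτ : PP τ := by
      have h1 := hPS (Yy z₀) (Or.inl (Or.inr ⟨z₀, rfl⟩))
      have h2 : Yy z₀ = τ := by
        show τ * Hh z₀ = τ
        rw [hHz0, mul_one]
      rwa [h2] at h1
    have heτ0 : eW τ ≠ 0 := by rw [heτ]; exact hC.yz
    have hP1 : PP 1 := by
      have h1 := hPr 1
      rwa [map_one] at h1
    have hPpow : ∀ i : ℕ, PP (τ ^ i) := by
      intro i
      induction i with
      | zero => rw [pow_zero]; exact hP1
      | succ i ih => rw [pow_succ]; exact hPm _ _ ih hPτ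
    have heτn0 : eW (τ ^ n) ≠ 0 := by
      rw [map_pow, heτ]; exact hτn0
    have hPv : ∀ m, PP (Yv ν m) := fun m => hPd (τ ^ n) (Yv ν m) heτn0 (hPpow n)
      (hPS _ (Or.inl (Or.inl ⟨m, rfl⟩)))
    have hPz : ∀ z : ζ, PP (Hh z) := fun z =>
      hPd τ _ heτ0 hPτ (hPS _ (Or.inl (Or.inr ⟨z, rfl⟩)))
    have hPb : PP uu := hPS _ (Or.inr rfl)
    have hPX : ∀ o, PP (X o) := by
      intro o
      rcases o with _ | ((k | z) | v)
      · exact hPτ
      · exact hPv k
      · have h1 := hPz z.1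
        have h2 : Hh z.1 = X (some (Sum.inl (Sum.inr z))) := by
          show Hz z₀ z.1 = _
          unfold Hz
          rw [dif_neg z.2]
        rwa [h2] at h1
      · exact hPb
    induction w using MvPolynomial.induction_on with
    | C r => exact hPr r
    | add p q hp hq => exact hPa _ _ hp hq
    | mul_X p n hp => exact hPm _ _ hp (hPX n)
  · intro 𝔮 _ h𝔮
    have h1 : pr (X none) ∈ 𝔮 := by
      rw [h𝔮]
      show ¬ U 𝒪 (eW τ)
      rw [heτ]
      exact (hA.hy z₀).2
    obtain ⟨m₀, hm₀⟩ := hunit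
    refine hB π hA.irr Q hQ ν (nu_inj z₀) (pr : W →+* A) hprs hh h1' E1 G hprk 𝔮 h1
      ?_ ?_ ⟨m₀, ?_⟩ (Sum.inr ()) ?_ ?_
    · show pr (X none * h' - X none ^ (e - 2 * n) * G0) ∈ 𝔮
      rw [map_sub, map_mul, map_mul, map_pow]
      exact 𝔮.sub_mem (Ideal.mul_mem_right _ _ h1)
        (Ideal.mul_mem_right _ _ (Ideal.pow_mem_of_mem _ h1 _ (by omega)))
    · intro k i hki
      obtain ⟨m, rfl⟩ := nu_some z₀ k i hki
      have hd1 : pderiv (some (Sum.inl (Sum.inl m))) (X none : W) = 0 := pderiv_X_of_ne (by simp)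
      have hd2 : pderiv (some (Sum.inl (Sum.inl m))) G0 = 0 := by
        show pderiv (some (Sum.inl (Sum.inl m))) (∑ z : ζ, (C (r z) : W) * Hh z ^ e) = 0
        rw [map_sum]
        apply Finset.sum_eq_zero
        intro z _
        have h3 : pderiv (some (Sum.inl (Sum.inl m))) (Hh z) = 0 := pderiv_Hz z₀ z m
        rw [pderiv_C_mul, pderiv_pow, h3]
        simp
      have hd : pderiv (some (Sum.inl (Sum.inl m))) G =
          X none * pderiv (some (Sum.inl (Sum.inl m))) h' := by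
        show pderiv (some (Sum.inl (Sum.inl m))) (X none * h' - X none ^ (e - 2 * n) * G0) = _
        rw [map_sub, pderiv_mul, pderiv_mul, pderiv_pow, hd1, hd2]
        simp
      show pr (pderiv (some (Sum.inl (Sum.inl m))) G) ∈ 𝔮
      rw [hd, map_mul]
      exact Ideal.mul_mem_right _ _ h1
    · intro hmem'
      have h2 : pr (Yv ν m₀) ∈ 𝔮 := hmem'
      rw [h𝔮, heYv] at h2
      exact h2 hm₀
    · show pr (pderiv (some (Sum.inr ())) E1) ∉ 𝔮
      have h3 : pderiv (some (Sum.inr ())) uu = 1 := pderiv_X_self _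
      have hd : pderiv (some (Sum.inr ())) E1 = Polynomial.aeval uu P.derivative := by
        show pderiv (some (Sum.inr ())) (Polynomial.aeval uu P) = _
        rw [pderiv_aeval, h3, mul_one]
      rw [hd, h𝔮, ← Polynomial.aeval_algHom_apply, heuu, not_not]
      exact hA.hP
    · intro k i hki
      obtain ⟨m, rfl⟩ := nu_some z₀ k i hki
      have h3 : pderiv (some (Sum.inl (Sum.inl m))) uu = 0 := pderiv_X_of_ne (by simp)
      have hd : pderiv (some (Sum.inl (Sum.inl m))) E1 = 0 := by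
        show pderiv (some (Sum.inl (Sum.inl m))) (Polynomial.aeval uu P) = _
        rw [pderiv_aeval, h3, mul_zero]
      show pr (pderiv (some (Sum.inl (Sum.inl m))) E1) ∈ 𝔮
      rw [hd, map_zero]
      exact 𝔮.zero_mem

end Pool.Agent.H945R2.R
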