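import Pool.Agent.H945R2.R.Props2
import Pool.Agent.H945R2.S.QC4

/-! QR4: chart 4 of the resolution, ramified base fields. -/

set_option autoImplicit false

open scoped Pointwise

namespace Pool.Agent.H945R2.R

open Pool.Agent.H918R2.Quad Pool.Agent.H945R2.D Pool.Agent.H945R2.S Pool.Agent.H945R2.E MvPolynomial

namespace QR4aux

/-- The point of chart 4. -/
def pt {F κ ζ ζ' : Type} [Field F] (q : κ → F) (η : ζ → F) (z₀ : ζ) (i : ζ' → ζ) (b : F) (l : κ) :
    Option ({m : κ // m ≠ l} ⊕ (ζ' ⊕ Unit)) → F :=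
  fun o => o.elim (q l) (fun k => Sum.elim (fun m => q m.1 / q l)
    (fun z => Sum.elim (fun z => η (i z) / η z₀) (fun _ => b) z) k)

theorem eval_Yv {R F κ ζ ζ' : Type} [CommRing R] [DecidableEq κ] [Field F] [Algebra R F]
    (q : κ → F) (η : ζ → F) (z₀ : ζ) (i : ζ' → ζ) (b : F) (l : κ) (h0 : q l ≠ 0) (m : κ) :
    aeval (pt q η z₀ i b l) (Yv (R := R) (QC4aux.nu (ζ := ζ' ⊕ Unit) l) m) = q m / q l := by
  unfold Yv QC4aux.nu
  split_ifs with h
  · rw [h, div_self h0]; simp
  · simp [pt]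

theorem F0_map {R B B' κ ζ : Type} [CommRing R] [CommRing B] [Algebra R B] [CommRing B']
    [Algebra R B'] (f : B →ₐ[R] B') (F₀ : MvPolynomial (κ ⊕ ζ) R) (Y : κ → B) (w : ζ → B) :
    f (aeval (Sum.elim Y w) F₀) =
      aeval (Sum.elim (fun k => f (Y k)) (fun z => f (w z))) F₀ := by
  have h1 : f (aeval (Sum.elim Y w) F₀) = (f.comp (aeval (Sum.elim Y w))) F₀ := rfl
  rw [h1]
  congr 1
  apply MvPolynomial.algHom_ext
  intro i
  rw [AlgHom.comp_apply, aeval_X, aeval_X]
  rcases i with i | i <;> rfl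

end QR4aux

open QR4aux

theorem QR4_ok (hB : S_BL5) : S_QR4 := by
  intro R F κ₀ ζ _ _ _ _ _ _ _ _ _ 𝒪 π e h r k₀ k₃ i₁ i₂ P₀ H₀ F₀ q η u Q hD hQE hh1 f hf z₀ k₁ he
    hC hnU hk0 hk1 hlocOf
  obtain ⟨hQ, hQE⟩ := hQE
  have hτ0 : η z₀ ≠ 0 := hC.yz
  let κ : Type := Option (Option κ₀)
  let ζ' : Type := {z : ζ // z ≠ z₀}
  let σ : Type := {m : κ // m ≠ k₁} ⊕ (ζ' ⊕ Unit)
  let W : Type := MvPolynomial (Option σ) R
  let qs : κ → F := zst q η f h e z₀
  let ν : κ → Option σ := QC4aux.nu k₁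
  let ε : W := X none
  let bW : W := X (some (Sum.inr (Sum.inr ())))
  let τ : W := ε * Yv ν none
  let H : ζ → W := fun z => if hz : z = z₀ then 1 else X (some (Sum.inr (Sum.inl ⟨z, hz⟩)))
  let Yq : κ₀ → W := fun m => τ ^ h * (ε * Yv ν (some (some m)))
  let Yy : ζ → W := fun z => τ * H z
  let eW : W →ₐ[R] F := aeval (pt qs η z₀ (fun z : ζ' => z.1) u k₁)
  have hνl : ν k₁ = none := by
    show QC4aux.nu k₁ k₁ = none
    unfold QC4aux.nu; rw [dif_pos rfl]
  have hYvl : (Yv ν k₁ : W) = 1 := by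
    unfold Yv; rw [hνl]; rfl
  have heε : eW ε = qs k₁ := by
    show aeval (pt qs η z₀ (fun z : ζ' => z.1) u k₁) (X none) = qs k₁
    rw [aeval_X]; rfl
  have heb : eW bW = u := by
    show aeval (pt qs η z₀ (fun z : ζ' => z.1) u k₁) (X (some (Sum.inr (Sum.inr ())))) = u
    rw [aeval_X]; rfl
  have heYv : ∀ m, eW (Yv ν m) = qs m / qs k₁ := fun m => eval_Yv qs η z₀ _ u k₁ hk0 m
  have heεY : ∀ m, eW (ε * Yv ν m) = qs m := by
    intro m
    rw [map_mul, heε, heYv, mul_div_cancel₀ _ hk0]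
  have heτ : eW τ = η z₀ := heεY none
  have heH : ∀ z, eW (H z) = η z / η z₀ := by
    intro z
    show aeval (pt qs η z₀ (fun z : ζ' => z.1) u k₁)
      (if hz : z = z₀ then 1 else X (some (Sum.inr (Sum.inl ⟨z, hz⟩)))) = _
    split_ifs with hz
    · rw [map_one, hz, div_self hτ0]
    · rw [aeval_X]; rfl
  have hHz0 : H z₀ = 1 := by
    show (if hz : z₀ = z₀ then 1 else X (some (Sum.inr (Sum.inl ⟨z₀, hz⟩)))) = (1 : W)
    rw [dif_pos rfl]
  have hHz : ∀ z : ζ', H z.1 = X (some (Sum.inr (Sum.inl z))) := by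
    intro z
    show (if hz : z.1 = z₀ then (1 : W) else X (some (Sum.inr (Sum.inl (⟨z.1, hz⟩ : ζ'))))) =
      X (some (Sum.inr (Sum.inl z)))
    rw [dif_neg z.2]
  have heYq : ∀ m, eW (Yq m) = q m := by
    intro m
    show eW (τ ^ h * (ε * Yv ν (some (some m)))) = q m
    rw [map_mul, map_pow, heτ, heεY]
    show η z₀ ^ h * (q m / η z₀ ^ h) = q m
    rw [mul_div_cancel₀ _ (pow_ne_zero _ hτ0)]
  have heYy : ∀ z : ζ, eW (Yy z) = η z := by
    intro z
    show eW (τ * H z) = _
    rw [map_mul, heτ, heH, mul_div_cancel₀ _ hτ0]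
  let wW : ζ → W := fun z => algebraMap R W (r z) * Yy z ^ e
  let Tot : W := aeval (Sum.elim Yq wW) F₀
  have heTot : eW Tot = 0 := by
    have h1 := F0_map eW F₀ Yq wW
    have h3 : (fun k => eW (Yq k)) = q := funext fun k => heYq _
    have h4 : (fun z => eW (wW z)) = fun z : ζ => algebraMap R F (r z) * η z ^ e := by
      funext z
      show eW (algebraMap R W (r z) * Yy z ^ e) = _
      rw [map_mul, AlgHom.commutes, map_pow, heYy]
    show eW (aeval (Sum.elim Yq wW) F₀) = 0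
    rw [h1, h3, h4]
    exact hD.hT
  -- the first relation
  let hh : W := τ ^ h * Yv ν (some (some k₀)) * Yq k₀ ^ i₁ * Yq k₃ ^ i₂ * bW
  let R1 : W := C π - X none * hh
  have hR1 : R1 = algebraMap R W π - Yq k₀ ^ (i₁ + 1) * Yq k₃ ^ i₂ * bW := by
    have h1 : Yq k₀ = τ ^ h * (ε * Yv ν (some (some k₀))) := rfl
    show C π - ε * (τ ^ h * Yv ν (some (some k₀)) * Yq k₀ ^ i₁ * Yq k₃ ^ i₂ * bW) = _
    rw [MvPolynomial.algebraMap_eq, pow_succ, h1]
    ring
  have heR1 : eW R1 = 0 := by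
    rw [hR1, map_sub, AlgHom.commutes, map_mul, map_mul, map_pow, map_pow, heYq, heYq, heb,
      ← hD.hπ, sub_self]
  -- the relation of `u`
  let E₁ : W := Polynomial.aeval bW P₀
  let h₁ : W := τ ^ h * Yv ν (some (some k₃)) * Polynomial.aeval bW H₀
  let RG : W := E₁ + X none * h₁
  have hRG : RG = Polynomial.aeval bW P₀ + Yq k₃ * Polynomial.aeval bW H₀ := by
    show Polynomial.aeval bW P₀ + ε * (τ ^ h * Yv ν (some (some k₃)) * Polynomial.aeval bW H₀) =
      Polynomial.aeval bW P₀ + τ ^ h * (ε * Yv ν (some (some k₃))) * Polynomial.aeval bW H₀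
    ring
  have heRG : eW RG = 0 := by
    rw [hRG, map_add, map_mul, heYq, ← Polynomial.aeval_algHom_apply,
      ← Polynomial.aeval_algHom_apply, heb]
    exact hD.hE
  -- the second relation
  let E₂ : W := ∑ z : ζ, C (r z) * H z ^ e
  let h₂ : W := - Yv ν (some none)
  let R2 : W := E₂ + X none * h₂
  have hR2 : R2 = E₂ - ε * Yv ν (some none) := by
    show E₂ + ε * (- Yv ν (some none)) = _
    ring
  have heE2 : eW E₂ = f / η z₀ ^ e := by
    show eW (∑ z : ζ, C (r z) * H z ^ e) = _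
    rw [map_sum, hf]
    unfold fY
    rw [Finset.sum_div]
    apply Finset.sum_congr rfl
    intro z _
    rw [map_mul, map_pow, heH, div_pow, ← MvPolynomial.algebraMap_eq, AlgHom.commutes]
    ring
  have heR2 : eW R2 = 0 := by
    rw [hR2, map_sub, heE2, heεY]
    show f / η z₀ ^ e - f / η z₀ ^ e = 0
    rw [sub_self]
  -- the quotient by the first relations
  obtain ⟨B, iB1, iB2, mk, hmks, hmkk, hmk⟩ :=
    exists_quot (R := R) (Ideal.span {R1, RG, R2} : Ideal W)
  have hmkR1 : algebraMap R B π = mk (Yq k₀) ^ (i₁ + 1) * mk (Yq k₃) ^ i₂ * mk bW := by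
    have h1 : mk R1 = 0 := (hmk R1).2 (Ideal.subset_span (by simp))
    rw [hR1, map_sub, AlgHom.commutes, map_mul, map_mul, map_pow, map_pow] at h1
    exact sub_eq_zero.1 h1
  have hmkRG : Polynomial.aeval (mk bW) P₀ + mk (Yq k₃) * Polynomial.aeval (mk bW) H₀ = 0 := by
    have h1 : mk RG = 0 := (hmk RG).2 (Ideal.subset_span (by simp))
    rw [hRG, map_add, map_mul, ← Polynomial.aeval_algHom_apply,
      ← Polynomial.aeval_algHom_apply] at h1
    exact h1
  have hmkR2 : mk E₂ = mk (ε * Yv ν (some none)) := by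
    have h1 : mk R2 = 0 := (hmk R2).2 (Ideal.subset_span (by simp))
    rw [hR2, map_sub] at h1
    exact sub_eq_zero.1 h1
  have hexp := hQE (B := B) (fun k => mk (Yq k)) (mk bW) (fun z => mk (wW z)) hmkR1 hmkRG
  have hmTot : mk Tot = aeval (Sum.elim (fun k => mk (Yq k)) (fun z => mk (wW z))) F₀ :=
    F0_map mk F₀ Yq wW
  have hmem : mk Tot - (∑ k, ∑ k', algebraMap R B (Q k k') * mk (Yq k) * mk (Yq k') -
      ∑ z, mk (wW z)) ∈ Ideal.span {mk τ ^ (2 * h) * mk ε ^ 3} := by
    rw [hmTot]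
    have h1 := QC4aux.rem_mem (mk ε) (mk (Yv ν none))
      (fun m : κ₀ => mk (Yv ν (some (some m))))
      (fun k => mk (Yq k)) (fun z => mk (wW z)) h hh1
      (fun m => by
        show mk (τ ^ h * (ε * Yv ν (some (some m)))) = _
        rw [map_mul, map_pow, map_mul, map_mul])
      (fun z : ζ => mk (C (r z) * H z ^ e))
      (fun z => by
        show mk (algebraMap R W (r z) * (τ * H z) ^ e) = (mk ε * mk (Yv ν none)) ^ (2 * h + 1) *
          mk (C (r z) * H z ^ e)
        rw [← map_mul, ← map_pow, ← map_mul, MvPolynomial.algebraMap_eq, ← he]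
        congr 1
        show _ = τ ^ e * _
        ring) hexp
    rw [← map_mul] at h1
    exact h1
  obtain ⟨hBB, hhB⟩ := Ideal.mem_span_singleton'.1 hmem
  obtain ⟨h', hh'⟩ := hmks hBB
  let G : W := X none * h'
  let E : W := ∑ k, ∑ l, C (QC4aux.Qs Q k l) * Yv ν k * Yv ν l + G
  have hsumw : mk (∑ z, wW z) = mk (τ ^ (2 * h) * ε ^ 2 * (Yv ν none * Yv ν (some none))) := by
    have h1 : ∑ z, wW z = τ ^ (2 * h) * τ * E₂ := by
      show ∑ z : ζ, algebraMap R W (r z) * (τ * H z) ^ e = τ ^ (2 * h) * τ *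
        ∑ z : ζ, (C (r z) : W) * H z ^ e
      rw [Finset.mul_sum]
      apply Finset.sum_congr rfl
      intro z _
      rw [mul_pow, he, MvPolynomial.algebraMap_eq]; ring
    rw [h1, map_mul, hmkR2, ← map_mul]
    congr 1
    show _ = τ ^ (2 * h) * ε ^ 2 * (Yv ν none * Yv ν (some none))
    show τ ^ (2 * h) * (ε * Yv ν none) * (ε * Yv ν (some none)) = _
    ring
  have hsumq : ∑ k, ∑ k', algebraMap R W (Q k k') * Yq k * Yq k' =
      τ ^ (2 * h) * ε ^ 2 * ∑ k, ∑ k', C (Q k k') * Yv ν (some (some k)) *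
        Yv ν (some (some k')) := by
    rw [Finset.mul_sum]
    apply Finset.sum_congr rfl
    intro k _
    rw [Finset.mul_sum]
    apply Finset.sum_congr rfl
    intro k' _
    show algebraMap R W (Q k k') * (τ ^ h * (ε * Yv ν (some (some k)))) *
      (τ ^ h * (ε * Yv ν (some (some k')))) = _
    rw [MvPolynomial.algebraMap_eq]; ring
  have hQs : ∑ k, ∑ l, (C (QC4aux.Qs Q k l) : W) * Yv ν k * Yv ν l =
      ∑ k, ∑ k', C (Q k k') * Yv ν (some (some k)) * Yv ν (some (some k')) -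
        Yv ν none * Yv ν (some none) :=
    QC4aux.sum_Qs (C : R →+* W) Q (fun k => (Yv ν k : W))
  have hmE : mk (Tot - τ ^ (2 * h) * ε ^ 2 * E) = 0 := by
    have h1 : τ ^ (2 * h) * ε ^ 2 * E = (∑ k, ∑ k', algebraMap R W (Q k k') * Yq k * Yq k' -
        τ ^ (2 * h) * ε ^ 2 * (Yv ν none * Yv ν (some none))) +
        h' * (τ ^ (2 * h) * ε ^ 3) := by
      rw [hsumq]
      show τ ^ (2 * h) * ε ^ 2 * (∑ k, ∑ l, C (QC4aux.Qs Q k l) * Yv ν k * Yv ν l + ε * h') = _
      rw [hQs]
      ring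
    have h2 : mk (∑ k, ∑ k', algebraMap R W (Q k k') * Yq k * Yq k' -
        τ ^ (2 * h) * ε ^ 2 * (Yv ν none * Yv ν (some none))) =
        (∑ k, ∑ k', algebraMap R B (Q k k') * mk (Yq k) * mk (Yq k') - ∑ z, mk (wW z)) := by
      rw [map_sub, ← hsumw, map_sum, map_sum]
      congr 1
      apply Finset.sum_congr rfl
      intro k _
      rw [map_sum]
      apply Finset.sum_congr rfl
      intro k' _
      rw [map_mul, map_mul, AlgHom.commutes]
    rw [h1, map_sub, map_add, h2, map_mul, map_mul, map_pow, map_pow, hh', hhB]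
    ring
  obtain ⟨ρ, ρG, ρ', hρ⟩ : ∃ ρ ρG ρ' : W,
      ρ * R1 + ρG * RG + ρ' * R2 = Tot - τ ^ (2 * h) * ε ^ 2 * E := by
    have h1 := (hmk _).1 hmE
    rw [Ideal.mem_span_insert] at h1
    obtain ⟨ρ, z, hz, h2⟩ := h1
    obtain ⟨ρG, ρ', h3⟩ := Ideal.mem_span_pair.1 hz
    exact ⟨ρ, ρG, ρ', by rw [h2, ← h3]; ring⟩
  have hTotE : Tot = τ ^ (2 * h) * ε ^ 2 * E + (ρ * R1 + ρG * RG + ρ' * R2) := by
    rw [hρ]; ring
  have hE0 : eW E = 0 := by
    have h1 : eW (τ ^ (2 * h) * ε ^ 2 * E) = 0 := by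
      have h2 : τ ^ (2 * h) * ε ^ 2 * E = Tot - (ρ * R1 + ρG * RG + ρ' * R2) := by
        rw [hTotE]; ring
      rw [h2, map_sub, map_add, map_add, map_mul, map_mul, map_mul, heR1, heRG, heR2, heTot]
      simp
    rw [map_mul, map_mul, map_pow, map_pow, heε, heτ] at h1
    exact (mul_eq_zero.1 h1).resolve_left (mul_ne_zero (pow_ne_zero _ hτ0) (pow_ne_zero 2 hk0))
  obtain ⟨A', iA1, iA2, pr, hprs, hprk, hpr⟩ :=
    exists_quot (R := R) (Ideal.span {R1, RG, R2, E} : Ideal W)
  have hprR1 : pr R1 = 0 := (hpr R1).2 (Ideal.subset_span (by simp))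
  have hprRG : pr RG = 0 := (hpr RG).2 (Ideal.subset_span (by simp))
  have hprR2 : pr R2 = 0 := (hpr R2).2 (Ideal.subset_span (by simp))
  have hprE : pr E = 0 := (hpr E).2 (Ideal.subset_span (by simp))
  have hker : ∀ w, pr w = 0 → eW w = 0 := by
    intro w hw
    have h1 := (hpr w).1 hw
    have h2 : (Ideal.span {R1, RG, R2, E} : Ideal W) ≤ RingHom.ker (eW : W →+* F) := by
      rw [Ideal.span_le]
      rintro x hx
      rw [Set.mem_insert_iff, Set.mem_insert_iff, Set.mem_insert_iff,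
        Set.mem_singleton_iff] at hx
      rw [SetLike.mem_coe, RingHom.mem_ker]
      rcases hx with rfl | rfl | rfl | rfl
      · exact heR1
      · exact heRG
      · exact heR2
      · exact hE0
    exact (RingHom.mem_ker).1 (h2 h1)
  -- the range
  have hrange : Algebra.adjoin R (insert u (G4 q η f h e z₀ k₁)) = eW.range := by
    show _ = (aeval (pt qs η z₀ (fun z : ζ' => z.1) u k₁)).range
    rw [← Algebra.adjoin_range_eq_range_aeval]
    apply le_antisymm
    · apply Algebra.adjoin_le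
      rintro x (hx | ((hx | ⟨k, rfl⟩) | ⟨z, rfl⟩))
      · rw [hx]
        exact Algebra.subset_adjoin ⟨some (Sum.inr (Sum.inr ())), rfl⟩
      · rw [Set.mem_singleton_iff] at hx
        rw [hx]
        exact Algebra.subset_adjoin ⟨none, rfl⟩
      · by_cases hk : k = k₁
        · show qs k / qs k₁ ∈ _
          rw [hk, div_self hk0]
          exact one_mem _
        · exact Algebra.subset_adjoin ⟨some (Sum.inl ⟨k, hk⟩), rfl⟩
      · by_cases hz : z = z₀
        · show η z / η z₀ ∈ _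
          rw [hz, div_self hτ0]
          exact one_mem _
        · exact Algebra.subset_adjoin ⟨some (Sum.inr (Sum.inl ⟨z, hz⟩)), rfl⟩
    · apply Algebra.adjoin_mono
      rintro x ⟨o, rfl⟩
      rcases o with _ | (k | (z | u))
      · exact Or.inr (Or.inl (Or.inl rfl))
      · exact Or.inr (Or.inl (Or.inr ⟨k.1, rfl⟩))
      · exact Or.inr (Or.inr ⟨z.1, rfl⟩)
      · exact Or.inl rfl
  have hlocOf' : IsLocOf 𝒪 (eW.range : Set F) := by
    rw [← hrange]; exact hlocOf
  have hW : ∀ w, eW w ∈ 𝒪 := fun w => hlocOf'.1 _ ⟨w, rfl⟩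
  have hprp : pr (algebraMap R W π) = pr (Yq k₀ ^ (i₁ + 1) * Yq k₃ ^ i₂ * bW) := by
    rw [hR1, map_sub] at hprR1
    exact sub_eq_zero.1 hprR1
  have hprG : pr (Polynomial.aeval bW P₀ + Yq k₃ * Polynomial.aeval bW H₀) = 0 := by
    rw [hRG] at hprRG
    exact hprRG
  have hprφ : pr E₂ = pr (ε * Yv ν (some none)) := by
    rw [hR2, map_sub] at hprR2
    exact sub_eq_zero.1 hprR2
  have hprTot : pr Tot = 0 := by
    rw [hTotE]
    simp only [map_add, map_mul, hprE, hprR1, hprRG, hprR2, mul_zero, add_zero]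
  refine hD.pre pr hprs eW hker hW hlocOf' Yq Yy bW heYq heYy heb hprp hprG hprTot ?_ ?_
  · intro P hPr hPS hPa hPm hPe hPd w
    have heε0 : eW ε ≠ 0 := by rw [heε]; exact hk0
    have heτ0 : eW τ ≠ 0 := by rw [heτ]; exact hτ0
    have hPτ : P τ := by
      have h1 := hPS (Yy z₀) (Or.inl (Or.inr ⟨z₀, rfl⟩))
      have h2 : Yy z₀ = τ := by
        show τ * H z₀ = τ
        rw [hHz0, mul_one]
      rwa [h2] at h1
    have hPb : P bW := hPS bW (Or.inr rfl)
    have hPH : ∀ z, P (H z) := fun z =>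
      hPd τ (H z) heτ0 hPτ (hPS _ (Or.inl (Or.inr ⟨z, rfl⟩)))
    have hP1 : P 1 := by
      have := hPr 1
      rwa [map_one] at this
    have hPpow : ∀ (x : W), P x → ∀ n : ℕ, P (x ^ n) := by
      intro x hx n
      induction n with
      | zero => rw [pow_zero]; exact hP1
      | succ n ih => rw [pow_succ]; exact hPm _ _ ih hx
    have hP0 : P 0 := by
      have := hPr 0
      rwa [map_zero] at this
    have hPE : P E₂ := by
      show P (∑ z : ζ, C (r z) * H z ^ e)
      refine Finset.sum_induction _ P hPa hP0 fun z _ => ?_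
      refine hPm _ _ ?_ (hPpow _ (hPH z) e)
      exact hPr (r z)
    have hPk : ∀ k : κ, P (ε * Yv ν k) := by
      intro k
      match k with
      | none => exact hPτ
      | some none => exact hPe _ _ hprφ hPE
      | some (some m) =>
        refine hPd (τ ^ h) _ ?_ (hPpow _ hPτ h) (hPS _ (Or.inl (Or.inl ⟨m, rfl⟩)))
        rw [map_pow]
        exact pow_ne_zero _ heτ0
    have hPε : P ε := by
      have h1 := hPk k₁
      rwa [hYvl, mul_one] at h1
    have hPv : ∀ m, P (Yv ν m) := fun m => hPd ε (Yv ν m) heε0 hPε (hPk m)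
    have hPX : ∀ o, P (X o) := by
      intro o
      rcases o with _ | (k | (z | u))
      · exact hPε
      · have h1 := hPv k.1
        have h2 : (Yv ν k.1 : W) = X (some (Sum.inl k)) := by
          show (Yv (QC4aux.nu k₁) k.1 : W) = _
          unfold Yv QC4aux.nu
          rw [dif_neg k.2]
          rfl
        rwa [h2] at h1
      · rw [← hHz z]
        exact hPH z.1
      · exact hPb
    induction w using MvPolynomial.induction_on with
    | C r => exact hPr r
    | add p q hp hq => exact hPa _ _ hp hq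
    | mul_X p n hp => exact hPm _ _ hp (hPX n)
  · intro 𝔮 _ h𝔮
    have h1 : pr (X none) ∈ 𝔮 := by
      rw [h𝔮]
      show ¬ U 𝒪 (eW ε)
      rw [heε]; exact hnU k₁
    have hne1 : (1 : A') ∉ 𝔮 := fun h =>
      (inferInstance : 𝔮.IsPrime).ne_top ((Ideal.eq_top_iff_one _).2 h)
    have hunit : ∀ u : R, IsUnit u → ∀ x : W, pr (C u * x) ∈ 𝔮 → pr x ∈ 𝔮 := by
      intro u hu x hx
      obtain ⟨u', rfl⟩ := hu
      have h2 : x = C ((u'⁻¹ : Rˣ) : R) * (C (u' : R) * x) := by
        rw [← mul_assoc, ← C_mul, Units.inv_mul, C_1, one_mul]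
      rw [h2, map_mul]
      exact 𝔮.mul_mem_left _ hx
    have hprE1 : pr E₂ ∈ 𝔮 := by
      rw [hprφ, map_mul]
      exact 𝔮.mul_mem_right _ h1
    -- derivatives of `E₂`
    have hdH1 : ∀ (z : ζ'), pderiv (some (Sum.inr (Sum.inl z))) (H z.1) = 1 := by
      intro z
      rw [hHz]
      exact pderiv_X_self _
    have hdH0 : ∀ (z z' : ζ'), z' ≠ z → pderiv (some (Sum.inr (Sum.inl z))) (H z'.1) = 0 := by
      intro z z' hzz
      rw [hHz]
      exact pderiv_X_of_ne fun h2 => hzz (by simpa using h2)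
    have hdE : ∀ z : ζ', pderiv (some (Sum.inr (Sum.inl z))) E₂ =
        C ((e : R) * r z.1) * H z.1 ^ (e - 1) := by
      intro z
      show pderiv (some (Sum.inr (Sum.inl z))) (∑ z : ζ, C (r z) * H z ^ e) = _
      rw [map_sum, Finset.sum_eq_single z.1]
      · rw [pderiv_C_mul, pderiv_pow, hdH1 z, C_mul, map_natCast]
        ring
      · intro z' _ hz'
        rw [pderiv_C_mul, pderiv_pow]
        by_cases hz0 : z' = z₀
        · rw [hz0, hHz0]
          simp
        · have := hdH0 z ⟨z', hz0⟩ (by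
            rintro rfl
            exact hz' rfl)
          rw [this]
          simp
      · intro h2
        exact absurd (Finset.mem_univ _) h2
    have hex : ∃ z₁ : ζ', pr (pderiv (some (Sum.inr (Sum.inl z₁))) E₂) ∉ 𝔮 := by
      by_contra hcon
      push Not at hcon
      have hHq : ∀ z : ζ', pr (H z.1) ∈ 𝔮 := by
        intro z
        have h2 := hcon z
        rw [hdE] at h2
        have h3 := hunit _ (hD.heU.mul (hD.hr z.1)) _ h2
        rw [map_pow] at h3
        exact (inferInstance : 𝔮.IsPrime).mem_of_pow_mem _ h3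
      have h2 : pr E₂ - pr (C (r z₀)) ∈ 𝔮 := by
        have h3 : E₂ - C (r z₀) = ∑ z ∈ Finset.univ.erase z₀, C (r z) * H z ^ e := by
          show ∑ z : ζ, C (r z) * H z ^ e - C (r z₀) = _
          rw [← Finset.add_sum_erase _ _ (Finset.mem_univ z₀), hHz0, one_pow, mul_one]
          ring
        rw [← map_sub, h3, map_sum]
        apply Ideal.sum_mem
        intro z hz
        have hz' : z ≠ z₀ := Finset.ne_of_mem_erase hz
        rw [map_mul, map_pow]
        exact Ideal.mul_mem_left _ _ (Ideal.pow_mem_of_mem _ (hHq ⟨z, hz'⟩) e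
          (by omega))
      have h3 : pr (C (r z₀)) ∈ 𝔮 := by
        have := 𝔮.sub_mem hprE1 h2
        rwa [sub_sub_cancel] at this
      have h4 := hunit _ (hD.hr z₀) 1 (by rwa [mul_one])
      rw [map_one] at h4
      exact hne1 h4
    obtain ⟨z₁, hz₁⟩ := hex
    -- derivatives of `E₁`
    have hdEb : pderiv (some (Sum.inr (Sum.inr ()))) E₁ =
        Polynomial.aeval bW (Polynomial.derivative P₀) := by
      have h2 : pderiv (some (Sum.inr (Sum.inr ()))) bW = 1 := pderiv_X_self _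
      show pderiv (some (Sum.inr (Sum.inr ()))) (Polynomial.aeval bW P₀) = _
      rw [Derivation.map_aeval, h2, smul_eq_mul, mul_one]
    have hdE0 : ∀ i : σ, i ≠ Sum.inr (Sum.inr ()) → pderiv (some i) E₁ = 0 := by
      intro i hi
      have h2 : pderiv (some i) bW = 0 :=
        pderiv_X_of_ne fun h2 => hi (Option.some.inj h2).symm
      show pderiv (some i) (Polynomial.aeval bW P₀) = _
      rw [Derivation.map_aeval, h2, smul_zero]
    have hdEbq : pr (pderiv (some (Sum.inr (Sum.inr ()))) E₁) ∉ 𝔮 := by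
      intro h2
      rw [hdEb] at h2
      rw [h𝔮] at h2
      apply h2
      rw [← Polynomial.aeval_algHom_apply, heb]
      exact hD.hP
    refine hB π hD.irr (QC4aux.Qs Q) (QC4aux.Qs_rad _ Q hQ) ν (QC4aux.nu_inj k₁)
      (pr : W →+* A') hprs hh h₁ E₁ h₂ E₂
      G hprk 𝔮 h1 ?_ ?_ ⟨k₁, ?_⟩ (Sum.inr (Sum.inr ())) (Sum.inr (Sum.inl z₁)) hdEbq hz₁ ?_ ?_ ?_
    · show pr (X none * h') ∈ 𝔮
      rw [map_mul]
      exact Ideal.mul_mem_right _ _ h1
    · intro k i hki
      obtain ⟨m, rfl⟩ := QC4aux.nu_some k₁ k i hki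
      have hd1 : pderiv (some (Sum.inl m)) (X none : W) = 0 := pderiv_X_of_ne (by simp)
      have hd : pderiv (some (Sum.inl m)) G = X none * pderiv (some (Sum.inl m)) h' := by
        show pderiv (some (Sum.inl m)) (X none * h') = _
        rw [pderiv_mul, hd1]
        simp
      show pr (pderiv (some (Sum.inl m)) G) ∈ 𝔮
      rw [hd, map_mul]
      exact Ideal.mul_mem_right _ _ h1
    · show pr (Yv ν k₁) ∉ 𝔮
      rw [hYvl, map_one]
      exact hne1
    · show pr (pderiv (some (Sum.inr (Sum.inl z₁))) E₁) ∈ 𝔮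
      rw [hdE0 _ (by intro h2; cases h2), map_zero]
      exact 𝔮.zero_mem
    · intro k i hki
      obtain ⟨m, rfl⟩ := QC4aux.nu_some k₁ k i hki
      show pr (pderiv (some (Sum.inl m)) E₁) ∈ 𝔮
      rw [hdE0 _ (by intro h2; cases h2), map_zero]
      exact 𝔮.zero_mem
    · intro k i hki
      obtain ⟨m, rfl⟩ := QC4aux.nu_some k₁ k i hki
      have hd2 : pderiv (some (Sum.inl m)) E₂ = 0 := by
        show pderiv (some (Sum.inl m)) (∑ z : ζ, C (r z) * H z ^ e) = 0
        rw [map_sum]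
        apply Finset.sum_eq_zero
        intro z _
        have h3 : pderiv (some (Sum.inl m)) (H z) = 0 := by
          by_cases hz0 : z = z₀
          · rw [hz0, hHz0]
            simp
          · have := hHz ⟨z, hz0⟩
            simp only at this
            rw [this]
            exact pderiv_X_of_ne (by simp)
        rw [pderiv_C_mul, pderiv_pow, h3]
        simp
      show pr (pderiv (some (Sum.inl m)) E₂) ∈ 𝔮
      rw [hd2, map_zero]
      exact 𝔮.zero_mem

end Pool.Agent.H945R2.R
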