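import Pool.Agent.H945R2.R.Props2
import Pool.Agent.H945R2.S.QC5

/-! QR5: chart 5 at a singular point, `f` a unit (helper158, adaptation of E/QE5 by helper20 and
S/QC5 by helper485). -/

set_option autoImplicit false

open scoped Pointwise

namespace Pool.Agent.H945R2.R

open Pool.Agent.H918R2.Quad Pool.Agent.H945R2.D Pool.Agent.H945R2.S Pool.Agent.H945R2.E MvPolynomial
open Pool.Agent.H945R2.S.QC5aux

theorem QR5_ok (hB : S_RLW2) : S_QR5 := by
  intro R F κ ζ _ _ _ _ _ _ _ _ _ 𝒪 π e h r k₀ k₁ i₁ i₂ P Hp F₀ q y u Q hQ hExp hh1 f hf z₀ he hC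
    hnU hfU hloc
  obtain ⟨hQrad, hexp⟩ := hExp
  have hτ0 : y z₀ ≠ 0 := hC.yz
  have hτU : ¬ U 𝒪 (y z₀) := (hQ.hy z₀).2
  -- the polynomial ring
  let σ : Type := κ ⊕ ({z : ζ // z ≠ z₀} ⊕ Unit)
  let W : Type := MvPolynomial (Option σ) R
  let τ : W := X none
  let uW : W := X (some (Sum.inr (Sum.inr ())))
  let x : κ → W := fun m => X (some (Sum.inl m))
  let H : ζ → W := fun z => if hz : z = z₀ then 1 else X (some (Sum.inr (Sum.inl ⟨z, hz⟩)))
  let Yq : κ → W := fun m => τ ^ h * x m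
  let Yy : ζ → W := fun z => τ * H z
  let pt : Option σ → F := fun o => o.elim (y z₀) (fun k => Sum.elim (fun m => q m / y z₀ ^ h)
    (Sum.elim (fun z => y z.1 / y z₀) (fun _ => u)) k)
  let eW : W →ₐ[R] F := aeval pt
  have heτ : eW τ = y z₀ := by
    show aeval pt (X none) = y z₀
    rw [aeval_X]; rfl
  have heu : eW uW = u := by
    show aeval pt (X (some (Sum.inr (Sum.inr ())))) = u
    rw [aeval_X]; rfl
  have hex : ∀ m, eW (x m) = q m / y z₀ ^ h := by
    intro m
    show aeval pt (X (some (Sum.inl m))) = _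
    rw [aeval_X]; rfl
  have heH : ∀ z, eW (H z) = y z / y z₀ := by
    intro z
    show aeval pt (if hz : z = z₀ then 1 else X (some (Sum.inr (Sum.inl ⟨z, hz⟩)))) = _
    split_ifs with hz
    · rw [map_one, hz, div_self hτ0]
    · rw [aeval_X]; rfl
  have hHz0 : H z₀ = 1 := by
    show (if hz : z₀ = z₀ then 1 else X (some (Sum.inr (Sum.inl ⟨z₀, hz⟩)))) = (1 : W)
    rw [dif_pos rfl]
  have heYq : ∀ m, eW (Yq m) = q m := by
    intro m
    show eW (τ ^ h * x m) = q m
    rw [map_mul, map_pow, heτ, hex, mul_div_cancel₀ _ (pow_ne_zero _ hτ0)]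
  have heYy : ∀ z, eW (Yy z) = y z := by
    intro z
    show eW (τ * H z) = y z
    rw [map_mul, heτ, heH, mul_div_cancel₀ _ hτ0]
  -- the first relation
  let hh : W := τ ^ (h - 1) * x k₀ * (Yq k₀ ^ i₁ * Yq k₁ ^ i₂ * uW)
  let R1 : W := C π - X none * hh
  have hττ : τ * τ ^ (h - 1) = τ ^ h := by
    rw [← pow_succ', Nat.sub_add_cancel hh1]
  have hR1 : R1 = algebraMap R W π - Yq k₀ ^ (i₁ + 1) * Yq k₁ ^ i₂ * uW := by
    show algebraMap R W π - τ * (τ ^ (h - 1) * x k₀ * (Yq k₀ ^ i₁ * Yq k₁ ^ i₂ * uW)) = _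
    have h2 : Yq k₀ ^ (i₁ + 1) = τ ^ h * x k₀ * Yq k₀ ^ i₁ := by
      rw [pow_succ']
    rw [h2, ← hττ]; ring
  have heR1 : eW R1 = 0 := by
    rw [hR1, map_sub, map_mul, map_mul, map_pow, map_pow, heYq, heYq, heu, AlgHom.commutes, hQ.hπ,
      sub_self]
  -- the second relation
  let E1 : W := Polynomial.aeval uW P
  let h1 : W := τ ^ (h - 1) * x k₁ * Polynomial.aeval uW Hp
  let R2 : W := E1 + X none * h1
  have hR2 : R2 = Polynomial.aeval uW P + Yq k₁ * Polynomial.aeval uW Hp := by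
    show Polynomial.aeval uW P + τ * (τ ^ (h - 1) * x k₁ * Polynomial.aeval uW Hp) =
      Polynomial.aeval uW P + τ ^ h * x k₁ * Polynomial.aeval uW Hp
    rw [← hττ]; ring
  have heaP : ∀ p : Polynomial R, eW (Polynomial.aeval uW p) = Polynomial.aeval u p := by
    intro p
    rw [← Polynomial.aeval_algHom_apply, heu]
  have heR2 : eW R2 = 0 := by
    rw [hR2, map_add, map_mul, heaP, heaP, heYq, hQ.hE]
  let Tot : W := aeval (Sum.elim Yq (fun z => algebraMap R W (r z) * Yy z ^ e)) F₀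
  have hmapTot : ∀ {B : Type} [CommRing B] [Algebra R B] (φ : W →ₐ[R] B), φ Tot =
      aeval (Sum.elim (fun k => φ (Yq k)) (fun z => algebraMap R B (r z) * φ (Yy z) ^ e)) F₀ := by
    intro B _ _ φ
    show φ (aeval (Sum.elim Yq (fun z => algebraMap R W (r z) * Yy z ^ e)) F₀) = _
    rw [comp_aeval_apply]
    have h2 : (fun i => φ (Sum.elim Yq (fun z => algebraMap R W (r z) * Yy z ^ e) i)) =
        Sum.elim (fun k => φ (Yq k)) (fun z => algebraMap R B (r z) * φ (Yy z) ^ e) := by
      funext i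
      rcases i with i | i
      · rfl
      · simp only [Sum.elim_inr, map_mul, map_pow, AlgHom.commutes]
    rw [h2]
  have heTot : eW Tot = 0 := by
    rw [hmapTot]
    simp only [heYq, heYy]
    exact hQ.hT
  -- the quotient by the first two relations
  obtain ⟨B, iB1, iB2, mk, hmks, hmkk, hmk⟩ :=
    exists_quot (R := R) (Ideal.span {R1, R2} : Ideal W)
  have hmkR1 : algebraMap R B π = mk (Yq k₀) ^ (i₁ + 1) * mk (Yq k₁) ^ i₂ * mk uW := by
    have h1 : mk R1 = 0 := (hmk R1).2 (Ideal.subset_span (by simp))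
    rw [hR1, map_sub, map_mul, map_mul, map_pow, map_pow, AlgHom.commutes] at h1
    exact sub_eq_zero.1 h1
  have hmkR2 : Polynomial.aeval (mk uW) P + mk (Yq k₁) * Polynomial.aeval (mk uW) Hp = 0 := by
    have h1 : mk R2 = 0 := (hmk R2).2 (Ideal.subset_span (by simp))
    rw [hR2, map_add, map_mul, ← Polynomial.aeval_algHom_apply, ← Polynomial.aeval_algHom_apply]
      at h1
    exact h1
  have hexpB := hexp (B := B) (fun m => mk (Yq m)) (mk uW)
    (fun z : ζ => algebraMap R B (r z) * mk (Yy z) ^ e) hmkR1 hmkR2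
  obtain ⟨μB, νB, hTotB⟩ := expand_tot (ζ := ζ) (mk τ) (fun m => mk (x m)) (fun m => mk (Yq m))
    (fun z : ζ => algebraMap R B (r z) * mk (Yy z) ^ e) h hh1
    (fun m => by
      show mk (τ ^ h * x m) = _
      rw [map_mul, map_pow])
    (fun z : ζ => algebraMap R B (r z) * mk (H z) ^ e)
    (fun z => by
      show algebraMap R B (r z) * mk (τ * H z) ^ e = _
      rw [map_mul, mul_pow, he]; ring)
    (fun k k' => algebraMap R B (Q k k')) _ hexpB
  choose μ hμ using fun k => hmks (μB k)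
  obtain ⟨ν, hν⟩ := hmks νB
  let v : W := -(∑ z : ζ, algebraMap R W (r z) * H z ^ e) + τ * ν
  let E : W := X none * v + ∑ k, X (some (Sum.inl k)) * μ k
  have hmTot : mk Tot = mk (τ ^ (2 * h) * E) := by
    rw [hmapTot, hTotB]
    show _ = mk (τ ^ (2 * h) * (τ * (-(∑ z : ζ, algebraMap R W (r z) * H z ^ e) + τ * ν) +
      ∑ k, x k * μ k))
    rw [map_mul, map_pow, map_add, map_mul, map_add, map_neg, map_sum, map_sum, map_mul, hν]
    congr 2
    · congr 2
      congr 1
      apply Finset.sum_congr rfl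
      intro z _
      rw [map_mul, map_pow, AlgHom.commutes]
    · apply Finset.sum_congr rfl
      intro k _
      rw [map_mul, hμ]
  have hmE : mk (Tot - τ ^ (2 * h) * E) = 0 := by
    rw [map_sub, hmTot, sub_self]
  obtain ⟨r₁, r₂, hr'⟩ := Ideal.mem_span_pair.1 ((hmk _).1 hmE)
  have hTotE : Tot = τ ^ (2 * h) * E + (r₁ * R1 + r₂ * R2) := by
    rw [hr']; ring
  have hE0 : eW E = 0 := by
    have h1 : eW (τ ^ (2 * h) * E) = 0 := by
      have h2 : τ ^ (2 * h) * E = Tot - (r₁ * R1 + r₂ * R2) := by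
        rw [hTotE]; ring
      rw [h2, map_sub, map_add, map_mul, map_mul, heR1, heR2, heTot]
      simp
    rw [map_mul, map_pow, heτ] at h1
    exact (mul_eq_zero.1 h1).resolve_left (pow_ne_zero _ hτ0)
  obtain ⟨A, iA1, iA2, pr, hprs, hprk, hpr⟩ :=
    exists_quot (R := R) (Ideal.span {R1, R2, E} : Ideal W)
  have hprR1 : pr R1 = 0 := (hpr R1).2 (Ideal.subset_span (by simp))
  have hprR2 : pr R2 = 0 := (hpr R2).2 (Ideal.subset_span (by simp))
  have hprE : pr E = 0 := (hpr E).2 (Ideal.subset_span (by simp))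
  have hker : ∀ w, pr w = 0 → eW w = 0 := by
    intro w hw
    have h1 := (hpr w).1 hw
    have h2 : (Ideal.span {R1, R2, E} : Ideal W) ≤ RingHom.ker (eW : W →+* F) := by
      rw [Ideal.span_le]
      intro z hz
      simp only [Set.mem_insert_iff, Set.mem_singleton_iff] at hz
      rcases hz with rfl | rfl | rfl
      · exact heR1
      · exact heR2
      · exact hE0
    exact h2 h1
  -- the range
  have hrange : (Algebra.adjoin R (insert u (G3 q y h z₀))) = eW.range := by
    show _ = (aeval pt).range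
    rw [← Algebra.adjoin_range_eq_range_aeval]
    apply le_antisymm
    · apply Algebra.adjoin_le
      rintro w (rfl | (rfl | ⟨m, rfl⟩) | ⟨z, rfl⟩)
      · exact Algebra.subset_adjoin ⟨some (Sum.inr (Sum.inr ())), rfl⟩
      · exact Algebra.subset_adjoin ⟨none, rfl⟩
      · exact Algebra.subset_adjoin ⟨some (Sum.inl m), rfl⟩
      · by_cases hz : z = z₀
        · show y z / y z₀ ∈ _
          rw [hz, div_self hτ0]
          exact one_mem _
        · exact Algebra.subset_adjoin ⟨some (Sum.inr (Sum.inl ⟨z, hz⟩)), rfl⟩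
    · apply Algebra.adjoin_mono
      rintro w ⟨o, rfl⟩
      rcases o with _ | (m | (z | u'))
      · exact Or.inr (Or.inl (Or.inl rfl))
      · exact Or.inr (Or.inl (Or.inr ⟨m, rfl⟩))
      · exact Or.inr (Or.inr ⟨z.1, rfl⟩)
      · exact Or.inl rfl
  have hlocOf' : IsLocOf 𝒪 (eW.range : Set F) := by
    rw [← hrange]; exact hloc
  have hW : ∀ w, eW w ∈ 𝒪 := fun w => hlocOf'.1 _ ⟨w, rfl⟩
  have hprp : pr (algebraMap R W π) = pr (Yq k₀ ^ (i₁ + 1) * Yq k₁ ^ i₂ * uW) := by
    rw [hR1, map_sub] at hprR1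
    exact sub_eq_zero.1 hprR1
  have hprG : pr (Polynomial.aeval uW P + Yq k₁ * Polynomial.aeval uW Hp) = 0 := by
    rw [← hR2]; exact hprR2
  have hprTot : pr Tot = 0 := by
    have h2 : pr (τ ^ (2 * h) * E) = 0 := by
      rw [map_mul, hprE, mul_zero]
    have h3 : pr (r₁ * R1 + r₂ * R2) = 0 := by
      rw [map_add, map_mul, map_mul, hprR1, hprR2]
      simp
    rw [hTotE, map_add, h2, h3, add_zero]
  refine hQ.pre pr hprs eW hker hW hlocOf' Yq Yy uW heYq heYy heu hprp hprG hprTot ?_ ?_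
  · -- generation
    intro P' hPR hPS hPa hPm hPe hPd w
    have g0 : P' τ := by
      have h1 := hPS (Yy z₀) (Or.inl (Or.inr ⟨z₀, rfl⟩))
      have h2 : Yy z₀ = τ := by
        show τ * H z₀ = τ
        rw [hHz0, mul_one]
      rwa [h2] at h1
    have gb : P' uW := hPS uW (Or.inr rfl)
    have gpow : ∀ n : ℕ, P' (τ ^ n) := by
      intro n
      induction n with
      | zero =>
        have := hPR 1
        rwa [map_one] at this
      | succ n ih =>
        rw [pow_succ]
        exact hPm _ _ ih g0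
    have g1 : ∀ m, P' (x m) := by
      intro m
      refine hPd (τ ^ h) (x m) ?_ (gpow h) (hPS _ (Or.inl (Or.inl ⟨m, rfl⟩)))
      rw [map_pow, heτ]
      exact pow_ne_zero _ hτ0
    have g2 : ∀ z, P' (H z) := by
      intro z
      refine hPd τ (H z) ?_ g0 (hPS _ (Or.inl (Or.inr ⟨z, rfl⟩)))
      rw [heτ]; exact hτ0
    induction w using MvPolynomial.induction_on with
    | C a => exact hPR a
    | add p q hp hq => exact hPa _ _ hp hq
    | mul_X p n hp =>
      refine hPm _ _ hp ?_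
      rcases n with _ | (m | (z | u'))
      · exact g0
      · exact g1 m
      · have h1 := g2 z.1
        have h2 : H z.1 = X (some (Sum.inr (Sum.inl z))) := by
          show (if hz : z.1 = z₀ then (1 : W) else X (some (Sum.inr (Sum.inl (⟨z.1, hz⟩ :
            {z : ζ // z ≠ z₀}))))) = X (some (Sum.inr (Sum.inl z)))
          rw [dif_neg z.2]
        rwa [h2] at h1
      · exact gb
  · intro 𝔮 _ h𝔮
    have h1' : pr (X none) ∈ 𝔮 := by
      rw [h𝔮]
      show ¬ U 𝒪 (eW τ)
      rw [heτ]; exact hτU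
    refine hB π hQ.irr (pr : W →+* A) hprs hh v h1 E1 μ hprk 𝔮 h1' ?_ ?_ (Sum.inr ()) ?_
    · intro k
      show pr (x k) ∈ 𝔮
      rw [h𝔮, hex]
      exact hnU k
    · intro hv
      have h2 : pr (∑ z : ζ, algebraMap R W (r z) * H z ^ e) ∈ 𝔮 := by
        have h3 : ∑ z : ζ, algebraMap R W (r z) * H z ^ e = τ * ν - v := by
          show _ = τ * ν - (-(∑ z : ζ, algebraMap R W (r z) * H z ^ e) + τ * ν)
          ring
        rw [h3, map_sub, map_mul]
        exact 𝔮.sub_mem (𝔮.mul_mem_right _ h1') hv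
      rw [h𝔮] at h2
      apply h2
      have h4 : eW (∑ z : ζ, algebraMap R W (r z) * H z ^ e) = f / y z₀ ^ e := by
        rw [map_sum, hf]
        unfold fY
        rw [Finset.sum_div]
        apply Finset.sum_congr rfl
        intro z _
        rw [map_mul, map_pow, AlgHom.commutes, heH, div_pow]
        ring
      rw [h4]
      exact hfU
    · intro hv
      have h6 : pderiv (R := R) (some (Sum.inr (Sum.inr ()))) uW = (1 : W) := by
        show pderiv (R := R) (some (Sum.inr (Sum.inr ())))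
          (X (some (Sum.inr (Sum.inr ())))) = (1 : W)
        rw [pderiv_X_self]
      have h5 : pderiv (some (Sum.inr (Sum.inr ()))) E1 =
          Polynomial.aeval uW (Polynomial.derivative P) := by
        show pderiv (some (Sum.inr (Sum.inr ()))) (Polynomial.aeval uW P) = _
        rw [Derivation.map_aeval, h6, smul_eq_mul, mul_one]
      have h7 : pr (Polynomial.aeval uW (Polynomial.derivative P)) ∈ 𝔮 := by
        rw [← h5]; exact hv
      rw [h𝔮, heaP] at h7
      exact h7 hQ.hP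

end Pool.Agent.H945R2.R
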