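import Pool.Agent.H945R2.R.Props2
import Pool.Agent.H945R2.E.BL5

/-! QR6: chart 3 of the resolution, `e = 2 h`, at a ramified prime (helper15, after QC6 of helper
team and QE3, BL5). -/

set_option autoImplicit false

open scoped Pointwise

namespace Pool.Agent.H945R2.R

open Pool.Agent.H918R2.Quad Pool.Agent.H945R2.D Pool.Agent.H945R2.S Pool.Agent.H945R2.E
  MvPolynomial

namespace QR6aux

/-- The variables. -/
abbrev Vr (κ : Type) {ζ : Type} (z₀ : ζ) : Type := Option ((κ ⊕ {z : ζ // z ≠ z₀}) ⊕ Unit)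

section poly

variable {R κ ζ : Type} [CommRing R] [Fintype κ] (z₀ : ζ)

/-- the quadratic form. -/
noncomputable def Qf (Q : κ → κ → R) : MvPolynomial (Vr κ z₀) R :=
  ∑ k, ∑ l, C (Q k l) * X (some (Sum.inl (Sum.inl k))) * X (some (Sum.inl (Sum.inl l)))

theorem euler1 (k : κ) : ∑ m : κ, (X (some (Sum.inl (Sum.inl m))) : MvPolynomial (Vr κ z₀) R) *
    pderiv (some (Sum.inl (Sum.inl m))) (X (some (Sum.inl (Sum.inl k)))) =
      X (some (Sum.inl (Sum.inl k))) := by
  classical
  rw [Finset.sum_eq_single k]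
  · rw [pderiv_X_self, mul_one]
  · intro m _ hm
    rw [pderiv_X_of_ne, mul_zero]
    intro h
    apply hm
    injection h with h
    injection h with h
    injection h with h
    exact h.symm
  · intro h
    exact absurd (Finset.mem_univ _) h

theorem euler (Q : κ → κ → R) :
    ∑ m : κ, (X (some (Sum.inl (Sum.inl m))) : MvPolynomial (Vr κ z₀) R) *
      pderiv (some (Sum.inl (Sum.inl m))) (Qf z₀ Q) = 2 * Qf z₀ Q := by
  have h1 : ∀ m : κ, (X (some (Sum.inl (Sum.inl m))) : MvPolynomial (Vr κ z₀) R) *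
      pderiv (some (Sum.inl (Sum.inl m))) (Qf z₀ Q) = ∑ k, ∑ l, (C (Q k l) *
        ((X (some (Sum.inl (Sum.inl m))) * pderiv (some (Sum.inl (Sum.inl m)))
          (X (some (Sum.inl (Sum.inl k))))) *
          X (some (Sum.inl (Sum.inl l)))) + C (Q k l) * (X (some (Sum.inl (Sum.inl k))) *
          (X (some (Sum.inl (Sum.inl m))) * pderiv (some (Sum.inl (Sum.inl m)))
            (X (some (Sum.inl (Sum.inl l))))))) := by
    intro m
    unfold Qf
    rw [map_sum, Finset.mul_sum]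
    apply Finset.sum_congr rfl
    intro k _
    rw [map_sum, Finset.mul_sum]
    apply Finset.sum_congr rfl
    intro l _
    rw [mul_assoc, pderiv_C_mul, pderiv_mul]
    ring
  simp only [h1]
  rw [Finset.sum_comm]
  unfold Qf
  rw [Finset.mul_sum]
  apply Finset.sum_congr rfl
  intro k _
  rw [Finset.sum_comm, Finset.mul_sum]
  apply Finset.sum_congr rfl
  intro l _
  rw [Finset.sum_add_distrib, ← Finset.mul_sum, ← Finset.mul_sum, ← Finset.sum_mul,
    ← Finset.mul_sum, euler1, euler1]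
  ring

theorem Qf_zero (Q : κ → κ → R) (i : Vr κ z₀)
    (hi : ∀ m : κ, i ≠ some (Sum.inl (Sum.inl m))) : pderiv i (Qf z₀ Q) = 0 := by
  unfold Qf
  rw [map_sum]
  apply Finset.sum_eq_zero
  intro k _
  rw [map_sum]
  apply Finset.sum_eq_zero
  intro l _
  rw [mul_assoc, pderiv_C_mul, pderiv_mul, pderiv_X_of_ne (fun h => hi _ h.symm),
    pderiv_X_of_ne (fun h => hi _ h.symm)]
  simp

end poly

section hpart

variable {R κ ζ : Type} [CommRing R] [DecidableEq ζ]

/-- the coordinates of the chart. -/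
noncomputable def Hc (R κ : Type) [CommRing R] (z₀ z : ζ) : MvPolynomial (Vr κ z₀) R :=
  if h : z = z₀ then 1 else X (some (Sum.inl (Sum.inr ⟨z, h⟩)))

theorem Hc_self (z₀ : ζ) : Hc R κ z₀ z₀ = 1 := by
  unfold Hc
  rw [dif_pos rfl]

theorem Hc_ne (z₀ z : ζ) (h : z ≠ z₀) : Hc R κ z₀ z = X (some (Sum.inl (Sum.inr ⟨z, h⟩))) := by
  unfold Hc
  rw [dif_neg h]

theorem pderiv_Hc_zero (z₀ z : ζ) (i : Vr κ z₀)
    (hi : ∀ w : {z : ζ // z ≠ z₀}, i ≠ some (Sum.inl (Sum.inr w))) :
    pderiv i (Hc R κ z₀ z) = 0 := by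
  unfold Hc
  split_ifs
  · simp
  · rw [pderiv_X_of_ne (fun h => hi _ h.symm)]

theorem pderiv_Hc_inr (z₀ z : ζ) (w : {z : ζ // z ≠ z₀}) (hw : z ≠ w.1) :
    pderiv (some (Sum.inl (Sum.inr w))) (Hc R κ z₀ z) = 0 := by
  unfold Hc
  split_ifs with h
  · simp
  · rw [pderiv_X_of_ne]
    intro h1
    injection h1 with h1
    injection h1 with h1
    injection h1 with h1
    apply hw
    rw [← h1]

variable [Fintype ζ]

/-- the form `∑ r_z H_z ^ e`. -/
noncomputable def Hf (κ : Type) (r : ζ → R) (e : ℕ) (z₀ : ζ) : MvPolynomial (Vr κ z₀) R :=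
  ∑ z, C (r z) * Hc R κ z₀ z ^ e

theorem Hf_zero (r : ζ → R) (e : ℕ) (z₀ : ζ) (i : Vr κ z₀)
    (hi : ∀ w : {z : ζ // z ≠ z₀}, i ≠ some (Sum.inl (Sum.inr w))) :
    pderiv i (Hf κ r e z₀) = 0 := by
  unfold Hf
  rw [map_sum]
  apply Finset.sum_eq_zero
  intro z _
  rw [pderiv_C_mul, pderiv_pow, pderiv_Hc_zero z₀ z i hi]
  simp

theorem Hf_inr (r : ζ → R) (e : ℕ) (z₀ : ζ) (w : {z : ζ // z ≠ z₀}) :
    pderiv (some (Sum.inl (Sum.inr w))) (Hf κ r e z₀) =
      C (r w.1) * ((e : MvPolynomial (Vr κ z₀) R) *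
        X (some (Sum.inl (Sum.inr w))) ^ (e - 1)) := by
  unfold Hf
  rw [map_sum, Finset.sum_eq_single w.1]
  · rw [pderiv_C_mul, pderiv_pow, Hc_ne z₀ w.1 w.2, pderiv_X_self, mul_one]
  · intro z _ hz
    rw [pderiv_C_mul, pderiv_pow, pderiv_Hc_inr z₀ z w hz]
    simp
  · intro h
    exact absurd (Finset.mem_univ _) h

end hpart

theorem pderiv_Xn {R σ : Type} [CommRing R] (i : σ) (h' : MvPolynomial (Option σ) R) :
    pderiv (some i) (X none * h') = X none * pderiv (some i) h' := by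
  rw [pderiv_mul, pderiv_X_of_ne (by simp)]
  simp

/-- the Jacobian argument for the third relation. -/
theorem jac {R κ ζ : Type} [CommRing R] [Fintype κ] [Fintype ζ] [DecidableEq ζ]
    (Q : κ → κ → R) (r : ζ → R) (e : ℕ) (z₀ : ζ) (he : 2 ≤ e) (heU : IsUnit (e : R))
    (hr : ∀ z, IsUnit (r z)) (h2U : IsUnit (2 : R))
    (𝔓 : Ideal (MvPolynomial (Vr κ z₀) R)) [hqp : 𝔓.IsPrime]
    (h' c₃ : MvPolynomial (Vr κ z₀) R) (hX : X none ∈ 𝔓)
    (hE : Qf z₀ Q - Hf κ r e z₀ + X none * h' ∈ 𝔓)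
    (hd1 : ∀ w : {z : ζ // z ≠ z₀}, c₃ * pderiv (some (Sum.inl (Sum.inr w)))
      (Hf κ r e z₀) ∈ 𝔓)
    (hd2 : ∀ m : κ, c₃ * pderiv (some (Sum.inl (Sum.inl m))) (Qf z₀ Q) ∈ 𝔓) : c₃ ∈ 𝔓 := by
  by_contra hc
  have hXm : ∀ w, X none * w ∈ 𝔓 := fun w => 𝔓.mul_mem_right _ hX
  have hC : ∀ u : R, IsUnit u → ∀ x, C u * x ∈ 𝔓 → x ∈ 𝔓 := by
    intro u hu x hx
    have h1 : IsUnit (C u : MvPolynomial (Vr κ z₀) R) := hu.map C
    exact (hqp.mem_or_mem hx).resolve_left (fun h => hqp.ne_top (𝔓.eq_top_of_isUnit_mem h h1))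
  -- the coordinates `H_z`
  have hH : ∀ w : {z : ζ // z ≠ z₀}, X (some (Sum.inl (Sum.inr w))) ∈ 𝔓 := by
    intro w
    have h3 := (hqp.mem_or_mem (hd1 w)).resolve_left hc
    rw [Hf_inr] at h3
    have h4 := hC _ (hr w.1) _ h3
    have h5 : ((e : MvPolynomial (Vr κ z₀) R)) = C (e : R) := by simp
    rw [h5] at h4
    have h6 := hC _ heU _ h4
    exact hqp.mem_of_pow_mem _ h6
  -- the value of `f(H)`
  have hHf : Hf κ r e z₀ - C (r z₀) ∈ 𝔓 := by
    unfold Hf
    rw [← Finset.add_sum_erase _ _ (Finset.mem_univ z₀), Hc_self, one_pow, mul_one,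
      add_sub_cancel_left]
    apply Ideal.sum_mem
    intro z hz
    have hz' : z ≠ z₀ := (Finset.mem_erase.1 hz).1
    rw [Hc_ne z₀ z hz']
    apply 𝔓.mul_mem_left
    exact 𝔓.pow_mem_of_mem (hH _) e (by omega)
  -- the quadratic form
  have hQ1 : Qf z₀ Q - C (r z₀) ∈ 𝔓 := by
    have h3 := (Ideal.add_mem_iff_left 𝔓 (hXm h')).1 hE
    have h4 := 𝔓.add_mem h3 hHf
    have h5 : Qf z₀ Q - Hf κ r e z₀ + (Hf κ r e z₀ - C (r z₀)) =
      Qf z₀ Q - C (r z₀) := by ring
    rwa [h5] at h4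
  have hQ2 : 2 * Qf z₀ Q ∈ 𝔓 := by
    rw [← euler]
    apply Ideal.sum_mem
    intro m _
    apply 𝔓.mul_mem_left
    exact (hqp.mem_or_mem (hd2 m)).resolve_left hc
  have h7 : C (2 : R) * C (r z₀) ∈ 𝔓 := by
    have h8 : C (2 : R) * C (r z₀) = 2 * Qf z₀ Q - 2 * (Qf z₀ Q - C (r z₀)) := by
      rw [map_ofNat]; ring
    rw [h8]
    exact 𝔓.sub_mem hQ2 (𝔓.mul_mem_left _ hQ1)
  have h9 := hC _ h2U _ h7
  exact hqp.ne_top (𝔓.eq_top_of_isUnit_mem h9 ((hr z₀).map C))

/-- The derivative of a combination of three elements of an ideal. -/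
theorem deriv_comb3 {S W : Type} [CommRing S] [CommRing W] [Algebra S W] (D : Derivation S W W)
    (P : Ideal W) {c₀ c₁ c₂ a₀ a₁ a₂ : W} (h0 : a₀ ∈ P) (h1 : a₁ ∈ P) (h2 : a₂ ∈ P)
    (hx : c₀ * a₀ + c₁ * a₁ + c₂ * a₂ ∈ P ^ 2) :
    c₀ * D a₀ + c₁ * D a₁ + c₂ * D a₂ ∈ P := by
  have h := BL5aux.deriv_comb D P (c₃ := 0) (a₃ := 0) h0 h1 h2 P.zero_mem
    (by rw [mul_zero, add_zero]; exact hx)
  rwa [zero_mul, add_zero] at h

end QR6aux

open QR6aux

theorem QR6_ok (hREG : S_REGQ) (hPIN : S_PIN) : S_QR6 := by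
  intro R F κ ζ _ _ _ _ _ _ _ _ _ 𝒪 π e h r k₀ k₁ i₁ i₂ P Hp F₀ q y u Q hD hexp hh z₀ he2 hC3 hloc
  have hτ0 : y z₀ ≠ 0 := hC3.yz
  have hτU : ¬ U 𝒪 (y z₀) := (hD.hy z₀).2
  -- the polynomial ring
  let W : Type := MvPolynomial (Vr κ z₀) R
  let τ : W := X none
  let qs : κ → W := fun m => X (some (Sum.inl (Sum.inl m)))
  let H : ζ → W := fun z => Hc R κ z₀ z
  let uu : W := X (some (Sum.inr ()))
  let Yq : κ → W := fun m => τ ^ h * qs m
  let Yy : ζ → W := fun z => τ * H z
  let pt : Vr κ z₀ → F := fun o => o.elim (y z₀)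
    (Sum.elim (Sum.elim (fun m => q m / y z₀ ^ h) (fun z => y z.1 / y z₀)) (fun _ => u))
  let eW : W →ₐ[R] F := aeval pt
  have heτ : eW τ = y z₀ := by
    show aeval pt (X none) = y z₀
    rw [aeval_X]; rfl
  have heu : eW uu = u := by
    show aeval pt (X (some (Sum.inr ()))) = u
    rw [aeval_X]; rfl
  have heqs : ∀ m, eW (qs m) = q m / y z₀ ^ h := by
    intro m
    show aeval pt (X (some (Sum.inl (Sum.inl m)))) = _
    rw [aeval_X]; rfl
  have heH : ∀ z, eW (H z) = y z / y z₀ := by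
    intro z
    show aeval pt (Hc R κ z₀ z) = _
    by_cases hz : z = z₀
    · subst hz
      rw [Hc_self, map_one, div_self hτ0]
    · rw [Hc_ne z₀ z hz, aeval_X]; rfl
  have heYq : ∀ m, eW (Yq m) = q m := by
    intro m
    show eW (τ ^ h * qs m) = q m
    rw [map_mul, map_pow, heτ, heqs, mul_div_cancel₀ _ (pow_ne_zero h hτ0)]
  have heYy : ∀ z, eW (Yy z) = y z := by
    intro z
    show eW (τ * H z) = y z
    rw [map_mul, heτ, heH, mul_div_cancel₀ _ hτ0]
  have hτh : (X none : W) * τ ^ (h - 1) = τ ^ h := by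
    show τ * τ ^ (h - 1) = τ ^ h
    rw [← pow_succ', Nat.sub_add_cancel hh]
  -- the first relation
  let hh1 : W := τ ^ (h - 1) * qs k₀ * (Yq k₀ ^ i₁ * Yq k₁ ^ i₂ * uu)
  let R1 : W := C π - X none * hh1
  have hR1 : R1 = algebraMap R W π - Yq k₀ ^ (i₁ + 1) * Yq k₁ ^ i₂ * uu := by
    show C π - X none * (τ ^ (h - 1) * qs k₀ * (Yq k₀ ^ i₁ * Yq k₁ ^ i₂ * uu)) = _
    have h2 : Yq k₀ ^ (i₁ + 1) = (X none * τ ^ (h - 1)) * qs k₀ * Yq k₀ ^ i₁ := by
      rw [hτh, pow_succ, mul_comm]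
    rw [h2, MvPolynomial.algebraMap_eq]; ring
  have heR1 : eW R1 = 0 := by
    rw [hR1, map_sub, map_mul, map_mul, map_pow, map_pow, heYq, heYq, heu,
      AlgHom.commutes, ← hD.hπ, sub_self]
  -- the second relation
  let hh2 : W := τ ^ (h - 1) * qs k₁ * Polynomial.aeval uu Hp
  let R2 : W := Polynomial.aeval uu P + X none * hh2
  have hR2 : R2 = Polynomial.aeval uu P + Yq k₁ * Polynomial.aeval uu Hp := by
    show Polynomial.aeval uu P + X none * (τ ^ (h - 1) * qs k₁ * Polynomial.aeval uu Hp) =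
      Polynomial.aeval uu P + τ ^ h * qs k₁ * Polynomial.aeval uu Hp
    rw [← hτh]; ring
  have heR2 : eW R2 = 0 := by
    rw [hR2, map_add, map_mul, heYq, ← Polynomial.aeval_algHom_apply,
      ← Polynomial.aeval_algHom_apply, heu]
    exact hD.hE
  -- the third relation
  let w : ζ → W := fun z => algebraMap R W (r z) * Yy z ^ e
  let Tot : W := aeval (Sum.elim Yq w) F₀
  have heTot : eW Tot = 0 := by
    show eW (aeval (Sum.elim Yq w) F₀) = 0
    rw [MvPolynomial.comp_aeval_apply]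
    have h2 : (fun i => eW (Sum.elim Yq w i)) =
        Sum.elim q (fun z => algebraMap R F (r z) * y z ^ e) := by
      funext i
      rcases i with m | z
      · exact heYq m
      · show eW (algebraMap R W (r z) * Yy z ^ e) = _
        rw [map_mul, map_pow, heYy, AlgHom.commutes]
        rfl
    rw [h2]
    exact hD.hT
  -- the quotient by the first two relations
  obtain ⟨B, iB1, iB2, mk, hmks, hmkk, hmk⟩ :=
    exists_quot (R := R) (Ideal.span {R1, R2} : Ideal W)
  have hmkC : ∀ u : R, mk (C u) = algebraMap R B u := fun u => mk.commutes u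
  have hmkR1 : algebraMap R B π = mk (Yq k₀) ^ (i₁ + 1) * mk (Yq k₁) ^ i₂ * mk uu := by
    have h1 : mk R1 = 0 := (hmk R1).2 (Ideal.subset_span (by simp))
    rw [hR1, map_sub, map_mul, map_mul, map_pow, map_pow, AlgHom.commutes] at h1
    exact sub_eq_zero.1 h1
  have hmkR2 : Polynomial.aeval (mk uu) P + mk (Yq k₁) * Polynomial.aeval (mk uu) Hp = 0 := by
    have h1 : mk R2 = 0 := (hmk R2).2 (Ideal.subset_span (by simp))
    rw [hR2, map_add, map_mul, ← Polynomial.aeval_algHom_apply,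
      ← Polynomial.aeval_algHom_apply] at h1
    exact h1
  have hB := hexp.2 (B := B) (fun k => mk (Yq k)) (mk uu) (fun z => mk (w z)) hmkR1 hmkR2
  have hmkTot : mk Tot = aeval (Sum.elim (fun k => mk (Yq k)) (fun z => mk (w z))) F₀ := by
    show mk (aeval (Sum.elim Yq w) F₀) = _
    rw [MvPolynomial.comp_aeval_apply]
    congr 2
    funext i
    rcases i with m | z
    · rfl
    · rfl
  rw [← hmkTot] at hB
  have hu : Ideal.span (Set.range (fun k => mk (Yq k))) ≤ Ideal.span {mk τ ^ h} := by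
    rw [Ideal.span_le]
    rintro x ⟨k, rfl⟩
    apply Ideal.mem_span_singleton.2
    show mk τ ^ h ∣ mk (τ ^ h * qs k)
    rw [map_mul, map_pow]
    exact dvd_mul_right _ _
  have ht : Ideal.span (Set.range (fun z => mk (w z))) ≤ Ideal.span {mk τ ^ (2 * h)} := by
    rw [Ideal.span_le]
    rintro x ⟨z, rfl⟩
    apply Ideal.mem_span_singleton.2
    show mk τ ^ (2 * h) ∣ mk (algebraMap R W (r z) * (τ * H z) ^ e)
    rw [map_mul, map_pow, map_mul, mul_pow, he2]
    exact (dvd_mul_right _ _).mul_left _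
  have hdv : mk τ ^ (2 * h + 1) ∣ mk Tot - (∑ k, ∑ k', algebraMap R B (Q k k') * mk (Yq k) *
      mk (Yq k') - ∑ z, mk (w z)) := by
    rw [← Ideal.mem_span_singleton]
    refine (sup_le (sup_le ?_ ?_) ?_ : _ ≤ Ideal.span {mk τ ^ (2 * h + 1)}) hB
    · refine (Ideal.pow_right_mono hu 3).trans ?_
      rw [Ideal.span_singleton_pow, Ideal.span_singleton_le_span_singleton, ← pow_mul]
      exact pow_dvd_pow _ (by omega)
    · refine (Ideal.mul_mono hu ht).trans ?_
      rw [Ideal.span_singleton_mul_span_singleton, Ideal.span_singleton_le_span_singleton,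
        ← pow_add]
      exact pow_dvd_pow _ (by omega)
    · refine (Ideal.pow_right_mono ht 2).trans ?_
      rw [Ideal.span_singleton_pow, Ideal.span_singleton_le_span_singleton, ← pow_mul]
      exact pow_dvd_pow _ (by omega)
  obtain ⟨hB', hB'2⟩ := hdv
  obtain ⟨h', hh'⟩ := hmks hB'
  let E : W := Qf z₀ Q - Hf κ r e z₀ + X none * h'
  have hmE : mk (Tot - τ ^ (2 * h) * E) = 0 := by
    have e1 : mk (Qf z₀ Q) =
        ∑ k, ∑ k', algebraMap R B (Q k k') * mk (qs k) * mk (qs k') := by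
      unfold Qf
      rw [map_sum]
      apply Finset.sum_congr rfl
      intro k _
      rw [map_sum]
      apply Finset.sum_congr rfl
      intro l _
      rw [map_mul, map_mul, hmkC]
    have e2 : mk (Hf κ r e z₀) =
        ∑ z : ζ, algebraMap R B (r z) * mk (H z) ^ e := by
      unfold Hf
      rw [map_sum]
      apply Finset.sum_congr rfl
      intro z _
      rw [map_mul, map_pow, hmkC]
    have e3 : ∑ k, ∑ k', algebraMap R B (Q k k') * mk (Yq k) * mk (Yq k') =
        mk τ ^ (2 * h) * ∑ k, ∑ k', algebraMap R B (Q k k') * mk (qs k) * mk (qs k') := by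
      rw [Finset.mul_sum]
      apply Finset.sum_congr rfl
      intro k _
      rw [Finset.mul_sum]
      apply Finset.sum_congr rfl
      intro l _
      show algebraMap R B (Q k l) * mk (τ ^ h * qs k) * mk (τ ^ h * qs l) = _
      rw [map_mul, map_mul, map_pow]
      ring
    have e4 : ∑ z, mk (w z) = mk τ ^ (2 * h) * ∑ z : ζ, algebraMap R B (r z) * mk (H z) ^ e := by
      rw [Finset.mul_sum]
      apply Finset.sum_congr rfl
      intro z _
      show mk (algebraMap R W (r z) * (τ * H z) ^ e) = _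
      rw [map_mul, map_pow, map_mul, mul_pow, AlgHom.commutes, he2]
      ring
    have e5 : mk Tot = mk τ ^ (2 * h + 1) * hB' + (∑ k, ∑ k', algebraMap R B (Q k k') *
        mk (Yq k) * mk (Yq k') - ∑ z, mk (w z)) := by
      rw [← hB'2]; ring
    rw [map_sub, e5, map_mul, map_pow]
    show _ - mk τ ^ (2 * h) * mk (Qf z₀ Q - Hf κ r e z₀ + X none * h') = 0
    rw [map_add, map_sub, map_mul, hh', e1, e2, e3, e4]
    show _ - mk τ ^ (2 * h) * (_ - _ + mk τ * hB') = 0
    ring
  obtain ⟨ρ, ρ', hρ⟩ := Ideal.mem_span_pair.1 ((hmk _).1 hmE)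
  have hTE : Tot = τ ^ (2 * h) * E + (ρ * R1 + ρ' * R2) := by
    rw [hρ]; ring
  have hE0 : eW E = 0 := by
    have h1 : eW (τ ^ (2 * h) * E) = 0 := by
      have h2 : τ ^ (2 * h) * E = Tot - (ρ * R1 + ρ' * R2) := by
        rw [hTE]; ring
      rw [h2, map_sub, map_add, map_mul, map_mul, heTot, heR1, heR2]; ring
    rw [map_mul, map_pow, heτ] at h1
    exact (mul_eq_zero.1 h1).resolve_left (pow_ne_zero _ hτ0)
  obtain ⟨A, iA1, iA2, pr, hprs, hprk, hpr⟩ :=
    exists_quot (R := R) (Ideal.span {R1, R2, E} : Ideal W)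
  have hprR1 : pr R1 = 0 := (hpr R1).2 (Ideal.subset_span (by simp))
  have hprR2 : pr R2 = 0 := (hpr R2).2 (Ideal.subset_span (by simp))
  have hprE : pr E = 0 := (hpr E).2 (Ideal.subset_span (by simp))
  have hker : ∀ w, pr w = 0 → eW w = 0 := by
    intro w hw
    have h1 := (hpr w).1 hw
    have h2 : (Ideal.span {R1, R2, E} : Ideal W) ≤ RingHom.ker (eW : W →+* F) := by
      rw [Ideal.span_le]
      rintro x (rfl | rfl | rfl)
      · exact heR1
      · exact heR2
      · exact hE0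
    exact h2 h1
  -- the range
  have hrange : Algebra.adjoin R (insert u (G3 q y h z₀)) = eW.range := by
    show _ = (aeval pt).range
    rw [← Algebra.adjoin_range_eq_range_aeval]
    apply le_antisymm
    · apply Algebra.adjoin_le
      rintro x (hx | (hx | ⟨m, rfl⟩) | ⟨z, rfl⟩)
      · rw [hx]
        exact Algebra.subset_adjoin ⟨some (Sum.inr ()), rfl⟩
      · rw [Set.mem_singleton_iff] at hx
        rw [hx]
        exact Algebra.subset_adjoin ⟨none, rfl⟩
      · exact Algebra.subset_adjoin ⟨some (Sum.inl (Sum.inl m)), rfl⟩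
      · by_cases hz : z = z₀
        · show y z / y z₀ ∈ _
          rw [hz, div_self hτ0]
          exact one_mem _
        · exact Algebra.subset_adjoin ⟨some (Sum.inl (Sum.inr ⟨z, hz⟩)), rfl⟩
    · apply Algebra.adjoin_mono
      rintro x ⟨o, rfl⟩
      rcases o with _ | ((m | z) | v)
      · exact Or.inr (Or.inl (Or.inl rfl))
      · exact Or.inr (Or.inl (Or.inr ⟨m, rfl⟩))
      · exact Or.inr (Or.inr ⟨z.1, rfl⟩)
      · exact Or.inl rfl
  have hloc' : IsLocOf 𝒪 (eW.range : Set F) := by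
    rw [← hrange]; exact hloc
  have hW : ∀ w, eW w ∈ 𝒪 := fun w => hloc'.1 _ ⟨w, rfl⟩
  have hprp : pr (algebraMap R W π) = pr (Yq k₀ ^ (i₁ + 1) * Yq k₁ ^ i₂ * uu) := by
    rw [hR1, map_sub] at hprR1
    exact sub_eq_zero.1 hprR1
  have hprH : pr (Polynomial.aeval uu P + Yq k₁ * Polynomial.aeval uu Hp) = 0 := by
    rw [← hR2]; exact hprR2
  have hprT : pr (aeval (Sum.elim Yq (fun z => algebraMap R W (r z) * Yy z ^ e)) F₀) = 0 := by
    show pr Tot = 0
    rw [hTE, map_add, map_add, map_mul, map_mul, map_mul, hprE, hprR1, hprR2]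
    simp
  refine hD.pre pr hprs eW hker hW hloc' Yq Yy uu heYq heYy heu hprp hprH hprT ?_ ?_
  · -- generators
    intro P P1 P2 P3 P4 P5 P6
    have gpow : ∀ w : W, P w → ∀ n : ℕ, P (w ^ n) := by
      intro w hw n
      induction n with
      | zero =>
        rw [pow_zero]
        have := P1 1
        rwa [map_one] at this
      | succ n ih =>
        rw [pow_succ]
        exact P4 _ _ ih hw
    have gτ : P τ := by
      have h1 : P (Yy z₀) := P2 _ (Or.inl (Or.inr ⟨z₀, rfl⟩))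
      have h2 : Yy z₀ = τ := by
        show τ * Hc R κ z₀ z₀ = τ
        rw [Hc_self, mul_one]
      rwa [h2] at h1
    have gq : ∀ m, P (qs m) := by
      intro m
      refine P6 (τ ^ h) (qs m) ?_ (gpow _ gτ _) (P2 _ (Or.inl (Or.inl ⟨m, rfl⟩)))
      rw [map_pow, heτ]
      exact pow_ne_zero _ hτ0
    have gH : ∀ z, P (H z) := by
      intro z
      refine P6 τ (H z) ?_ gτ (P2 _ (Or.inl (Or.inr ⟨z, rfl⟩)))
      rw [heτ]
      exact hτ0
    have gu : P uu := P2 _ (Or.inr rfl)
    intro w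
    induction w using MvPolynomial.induction_on with
    | C u => exact P1 u
    | add w w' h1 h2 => exact P3 _ _ h1 h2
    | mul_X w o h1 =>
      refine P4 _ _ h1 ?_
      rcases o with _ | ((m | z) | v)
      · exact gτ
      · exact gq m
      · have h2 := gH z.1
        have h3 : H z.1 = X (some (Sum.inl (Sum.inr z))) := Hc_ne z₀ z.1 z.2
        rwa [h3] at h2
      · exact gu
  · intro q' hq'p hq'
    have h1 : pr (X none) ∈ q' := by
      rw [hq']
      show ¬ U 𝒪 (eW τ)
      rw [heτ]; exact hτU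
    have h2U : IsUnit (2 : R) := by
      have h3 : (e : R) = 2 * (h : R) := by rw [he2]; push_cast; ring
      have h4 := hD.heU
      rw [h3] at h4
      exact isUnit_of_mul_isUnit_left h4
    have he2' : 2 ≤ e := by omega
    set 𝔓 : Ideal W := q'.comap (pr : W →+* A) with h𝔓
    have h𝔓p : 𝔓.IsPrime := Ideal.comap_isPrime (pr : W →+* A) q'
    have hXP : (X none : W) ∈ 𝔓 := h1
    have mem0 : ∀ {x : W}, pr x = 0 → x ∈ 𝔓 := by
      intro x hx
      show pr x ∈ q'
      rw [hx]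
      exact q'.zero_mem
    have a0 : R1 ∈ 𝔓 := mem0 hprR1
    have a1 : R2 ∈ 𝔓 := mem0 hprR2
    have a2 : E ∈ 𝔓 := mem0 hprE
    have hPu : Polynomial.aeval uu P.derivative ∉ 𝔓 := by
      intro h3
      have h4 : pr (Polynomial.aeval uu P.derivative) ∈ q' := h3
      rw [hq', ← Polynomial.aeval_algHom_apply, heu] at h4
      exact h4 hD.hP
    refine hREG (pr : W →+* A) hprs 3 ![R1, R2, E] ?_ q' ?_
    · rw [hprk]
      congr 1
      ext x
      simp only [Set.mem_insert_iff, Set.mem_singleton_iff, Set.mem_range]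
      constructor
      · rintro (rfl | rfl | rfl)
        · exact ⟨0, rfl⟩
        · exact ⟨1, rfl⟩
        · exact ⟨2, rfl⟩
      · rintro ⟨j, rfl⟩
        fin_cases j <;> simp
    · intro c hc
      simp only [Fin.sum_univ_three, Matrix.cons_val_zero, Matrix.cons_val_one, Matrix.cons_val]
        at hc
      have d0 : ∀ j, pderiv (some j) R1 ∈ 𝔓 := by
        intro j
        show pderiv (some j) (C π - X none * hh1) ∈ 𝔓
        rw [map_sub, pderiv_C, pderiv_Xn, zero_sub]
        exact 𝔓.neg_mem (𝔓.mul_mem_right _ hXP)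
      have du : pderiv (some (Sum.inr ())) uu = 1 := pderiv_X_self _
      have du0 : ∀ j, j ≠ Sum.inr () → pderiv (some j) uu = 0 := fun j hj =>
        pderiv_X_of_ne (fun h3 => hj (Option.some.inj h3).symm)
      have d1 : ∀ j, pderiv (some j) R2 =
          Polynomial.aeval uu P.derivative * pderiv (some j) uu + X none * pderiv (some j) hh2 := by
        intro j
        show pderiv (some j) (Polynomial.aeval uu P + X none * hh2) = _
        rw [map_add, pderiv_Xn, Derivation.map_aeval, smul_eq_mul]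
      have d2 : ∀ j, pderiv (some j) E = pderiv (some j) (Qf z₀ Q) -
          pderiv (some j) (Hf κ r e z₀) + X none * pderiv (some j) h' := by
        intro j
        show pderiv (some j) (Qf z₀ Q - Hf κ r e z₀ + X none * h') = _
        rw [map_add, map_sub, pderiv_Xn]
      have comb : ∀ j, c 1 * (Polynomial.aeval uu P.derivative * pderiv (some j) uu) +
          c 2 * (pderiv (some j) (Qf z₀ Q) - pderiv (some j) (Hf κ r e z₀)) ∈ 𝔓 := by
        intro j
        have h4 := deriv_comb3 (pderiv (some j)) 𝔓 a0 a1 a2 hc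
        rw [d1, d2] at h4
        have e5 : c 1 * (Polynomial.aeval uu P.derivative * pderiv (some j) uu) +
          c 2 * (pderiv (some j) (Qf z₀ Q) - pderiv (some j) (Hf κ r e z₀)) =
            (c 0 * pderiv (some j) R1 + c 1 * (Polynomial.aeval uu P.derivative *
              pderiv (some j) uu + X none * pderiv (some j) hh2) +
              c 2 * (pderiv (some j) (Qf z₀ Q) - pderiv (some j) (Hf κ r e z₀) +
                X none * pderiv (some j) h')) -
            (c 0 * pderiv (some j) R1 + X none * (c 1 * pderiv (some j) hh2 +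
              c 2 * pderiv (some j) h')) := by ring
        rw [e5]
        exact 𝔓.sub_mem h4 (𝔓.add_mem (𝔓.mul_mem_left _ (d0 j)) (𝔓.mul_mem_right _ hXP))
      have hc1 : c 1 ∈ 𝔓 := by
        have h4 := comb (Sum.inr ())
        rw [du, Qf_zero z₀ Q _ (by intro m hm; simp at hm),
          Hf_zero r e z₀ _ (by intro m hm; simp at hm), sub_zero, mul_zero, add_zero,
          mul_one] at h4
        exact (h𝔓p.mem_or_mem h4).resolve_right hPu
      have hc2 : c 2 ∈ 𝔓 := by
        refine jac Q r e z₀ he2' hD.heU hD.hr h2U 𝔓 h' (c 2) hXP a2 ?_ ?_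
        · intro v
          have h4 := comb (Sum.inl (Sum.inr v))
          rw [du0 _ (by simp), Qf_zero z₀ Q _ (by intro m hm; simp at hm), mul_zero, mul_zero,
            zero_add, zero_sub, mul_neg] at h4
          exact neg_mem_iff.1 h4
        · intro m
          have h4 := comb (Sum.inl (Sum.inl m))
          rw [du0 _ (by simp), Hf_zero r e z₀ _ (by intro m hm; simp at hm), mul_zero, mul_zero,
            zero_add, sub_zero] at h4
          exact h4
      have hsq : ∀ {x y : W}, x ∈ 𝔓 → y ∈ 𝔓 → x * y ∈ 𝔓 ^ 2 := by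
        intro x y hx hy
        rw [pow_two]
        exact Ideal.mul_mem_mul hx hy
      have hc0' : c 0 * R1 ∈ 𝔓 ^ 2 := by
        have e5 : c 0 * R1 = (c 0 * R1 + c 1 * R2 + c 2 * E) - (c 1 * R2 + c 2 * E) := by
          ring
        rw [e5]
        exact Ideal.sub_mem _ hc (Ideal.add_mem _ (hsq hc1 a1) (hsq hc2 a2))
      have hc0h : c 0 * hh1 ∈ 𝔓 := by
        have h4 := BL5aux.deriv_sq (pderiv none) 𝔓 hc0'
        have h5 : pderiv none R1 = -(hh1 + X none * pderiv none hh1) := by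
          show pderiv none (C π - X none * hh1) = _
          rw [map_sub, pderiv_C, pderiv_mul, pderiv_X_self]
          ring
        rw [Derivation.leibniz, h5, smul_eq_mul, smul_eq_mul] at h4
        have e5 : c 0 * hh1 = R1 * pderiv none (c 0) - X none * (c 0 * pderiv none hh1) -
            (c 0 * -(hh1 + X none * pderiv none hh1) + R1 * pderiv none (c 0)) := by
          ring
        rw [e5]
        exact 𝔓.sub_mem (𝔓.sub_mem (𝔓.mul_mem_right _ a0) (𝔓.mul_mem_right _ hXP)) h4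
      have hc0 : c 0 ∈ 𝔓 := by
        refine hPIN π hD.irr 𝔓 ?_ (c 0) ?_
        · have e5 : (C π : W) = R1 + X none * hh1 := by
            show (C π : W) = (C π - X none * hh1) + X none * hh1
            ring
          rw [e5]
          exact 𝔓.add_mem a0 (𝔓.mul_mem_right _ hXP)
        · have e5 : c 0 * C π = c 0 * R1 + X none * (c 0 * hh1) := by
            show c 0 * C π = c 0 * (C π - X none * hh1) + X none * (c 0 * hh1)
            ring
          rw [e5]
          exact Ideal.add_mem _ hc0' (hsq hXP hc0h)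
      intro i
      fin_cases i
      · exact hc0
      · exact hc1
      · exact hc2

end Pool.Agent.H945R2.R
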