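import Pool.Agent.H945R2.R.Props2
import Pool.Agent.H945R2.S.EXPZJ

/-! QX1: second order expansion, first type (MP_4d1008_ag). -/

set_option autoImplicit false

open scoped Pointwise

namespace Pool.Agent.H945R2.R

open Pool.Agent.H918R2.Quad Pool.Agent.H945R2.D Pool.Agent.H945R2.S Pool.Agent.H945R2.E
  MvPolynomial

namespace QX1aux

open Pool.Agent.H945R2.S.EXPZJaux

theorem TotR_map {R B B' ι : Type} [CommRing R] [CommRing B] [Algebra R B] [CommRing B']
    [Algebra R B'] [Fintype ι] [DecidableEq ι] (f : B →ₐ[R] B') (ν : R) (nX nY : ℕ)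
    (g : MvPolynomial ι R) (c : ι → ℕ) (Z : Finset ι) (s d : ι) (a b : B) (v : TT Z s d → B)
    (w : ZT Z → B) :
    f (TotR ν nX nY g c Z s d a b v w) =
      TotR ν nX nY g c Z s d (f a) (f b) (fun k => f (v k)) (fun z => f (w z)) := by
  unfold TotR
  rw [map_add, map_mul, map_mul, map_pow, map_pow, AlgHom.commutes]
  congr 1
  have h1 : f (aeval (TcZ Z s d (fun i => (c i : B)) v w (a * b)) g) =
    (f.comp (aeval (TcZ Z s d (fun i => (c i : B)) v w (a * b)))) g := rfl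
  rw [h1]
  congr 1
  apply MvPolynomial.algHom_ext
  intro i
  rw [AlgHom.comp_apply, aeval_X, aeval_X]
  unfold TcZ
  split_ifs
  · rfl
  · simp
  · simp
  · simp

theorem F1_aeval {R B ι : Type} [CommRing R] [CommRing B] [Algebra R B] [Fintype ι]
    [DecidableEq ι] (ν : R) (nX nY : ℕ) (g : MvPolynomial ι R) (c : ι → ℕ) (Z : Finset ι)
    (s d : ι) (Y : KT Z s d → B) (w : ZT Z → B) :
    aeval (Sum.elim Y w) (F1 ν nX nY g c Z s d) =
      TotR ν nX nY g c Z s d (Y none) (Y (some none)) (fun k => Y (some (some k))) w := by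
  unfold F1
  rw [TotR_map]
  simp only [aeval_X, Sum.elim_inl, Sum.elim_inr]

/-- the expansion -/
theorem expand (hT : S_TAYZ2) (hS : S_SUMZ) {R ι : Type} [CommRing R] [IsDomain R] [Fintype ι]
    [DecidableEq ι] (p : ℕ) (ν : R) (nX nY : ℕ) (hXY : 3 ≤ nX + nY)
    (co : ι → R) (g : MvPolynomial ι R) (hco : Coef p co g) (s : ι)
    (c : ι → ℕ) (β : R) (hsp : SpZ p g s c β) (Z : Finset ι) (hZ : ∀ i, i ∈ Z ↔ c i = 0) (d : ι)
    (hd : s ≠ d) (hdZ : d ∉ Z) (lα : R)
    {B : Type} [CommRing B] [Algebra R B] (Y : KT Z s d → B) (w : ZT Z → B)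
    (hp2 : (p : B) ∈ Ideal.span (Set.range Y) ^ 2)
    (hpβ : (p : B) * algebraMap R B β - algebraMap R B lα * Y none ^ 2 ∈
      Ideal.span (Set.range Y) ^ 3) :
    TotR ν nX nY g c Z s d (Y none) (Y (some none)) (fun k => Y (some (some k))) w -
        (PhiZ p co c Z s d 1 lα (fun _ => 0) Y - ∑ z, w z) ∈
      Ideal.span (Set.range Y) ^ 3 ⊔ Ideal.span (Set.range Y) * Ideal.span (Set.range w) ⊔
        Ideal.span (Set.range w) ^ 2 := by
  classical
  have hκ : ∀ i, ∃ κ : R, (c i ≠ 0 → co i * (c i : R) ^ (p - 1) = 1 + p * κ) ∧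
      (c i = 0 → κ = 0) := by
    intro i
    by_cases h : c i = 0
    · exact ⟨0, fun h' => absurd h h', fun _ => rfl⟩
    · obtain ⟨κ, hκ⟩ := Pool.Agent.H945R2.D.EXPJaux.kap p hco.prime (co i) (hco.one i) (c i)
        (by omega) (hsp.lt i)
      exact ⟨κ, fun _ => hκ, fun h' => absurd h' h⟩
  choose κ hκ1 hκ2 using hκ
  obtain ⟨σ, hσ⟩ := hsp.sum
  have hsZ : s ∉ Z := fun h => by
    have h1 := (hZ s).1 h
    rw [hsp.one] at h1
    omega
  obtain ⟨a, ha⟩ : ∃ a : B, a = Y none := ⟨_, rfl⟩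
  obtain ⟨b, hb⟩ : ∃ b : B, b = Y (some none) := ⟨_, rfl⟩
  obtain ⟨v, hv⟩ : ∃ v : TT Z s d → B, v = fun k => Y (some (some k)) := ⟨_, rfl⟩
  obtain ⟨u, hu⟩ : ∃ u : Ideal B, u = Ideal.span (Set.range Y) := ⟨_, rfl⟩
  obtain ⟨t, ht⟩ : ∃ t : Ideal B, t = Ideal.span (Set.range w) := ⟨_, rfl⟩
  have hau : a ∈ u := by rw [hu, ha]; exact Ideal.subset_span ⟨_, rfl⟩
  have hbu : b ∈ u := by rw [hu, hb]; exact Ideal.subset_span ⟨_, rfl⟩
  have hvu : ∀ k, v k ∈ u := fun k => by rw [hu, hv]; exact Ideal.subset_span ⟨_, rfl⟩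
  have hwt : ∀ z, w z ∈ t := fun z => by rw [ht]; exact Ideal.subset_span ⟨_, rfl⟩
  rw [← hu] at hp2 hpβ
  rw [← ha] at hpβ
  -- the values
  obtain ⟨T, hTd⟩ : ∃ T : ι → B, T = TcZ Z s d (fun i => (c i : B)) v w (a * b) := ⟨_, rfl⟩
  have Ts : T s = 1 := by
    rw [hTd]
    unfold TcZ
    rw [dif_neg hsZ, dif_pos rfl]
  have Tk : ∀ k : TT Z s d, T k = (c k : B) + v k := by
    intro k
    rw [hTd]
    unfold TcZ
    rw [dif_neg k.2.1, dif_neg k.2.2.1, dif_neg k.2.2.2]
  have Tzz : ∀ z : ZT Z, T z = w z := by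
    intro z
    rw [hTd]
    unfold TcZ
    rw [dif_pos z.2]
  obtain ⟨S, hSd⟩ : ∃ S : B, S = ∑ k, v k := ⟨_, rfl⟩
  obtain ⟨W, hWd⟩ : ∃ W : B, W = ∑ z, w z := ⟨_, rfl⟩
  have hSu : S ∈ u := by rw [hSd]; exact Ideal.sum_mem _ (fun k _ => hvu k)
  have hWt : W ∈ t := by rw [hWd]; exact Ideal.sum_mem _ (fun k _ => hwt k)
  have hsum := fun (f : ι → B) => (hS (B := B) Z s d hd hsZ hdZ (fun i => (c i : B)) v w (a * b)).2 f
  have hsumT : ∑ i, T i = a * b := by
    rw [hTd]
    exact (hS (B := B) Z s d hd hsZ hdZ (fun i => (c i : B)) v w (a * b)).1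
  have hcz : ∀ z : ZT Z, (c z : B) = 0 := fun z => by rw [(hZ z).1 z.2, Nat.cast_zero]
  have hcsum : (1 : B) + c d + ∑ k : TT Z s d, (c k : B) = p * σ := by
    have h1 := hsum (fun i => (c i : B))
    simp only [hcz, Finset.sum_const_zero, add_zero, hsp.one, Nat.cast_one] at h1
    rw [← h1, ← Nat.cast_sum, hσ]
    push_cast
    ring
  have hTsum : (1 : B) + T d + (∑ k : TT Z s d, (c k : B) + S) + W = a * b := by
    have h1 := hsum T
    rw [hsumT, Ts] at h1
    simp only [Tk, Tzz, Finset.sum_add_distrib] at h1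
    rw [← hSd, ← hWd] at h1
    rw [h1]
  obtain ⟨η, hη⟩ : ∃ η : ι → B, η = fun i => T i - (c i : B) := ⟨_, rfl⟩
  have ηs : η s = 0 := by rw [hη]; simp only; rw [Ts, hsp.one, Nat.cast_one, sub_self]
  have ηk : ∀ k : TT Z s d, η k = v k := fun k => by rw [hη]; simp only; rw [Tk]; ring
  have ηz : ∀ z : ZT Z, η z = w z := fun z => by rw [hη]; simp only; rw [Tzz, hcz, sub_zero]
  obtain ⟨δ, hδ⟩ : ∃ δ : B, δ = a * b - p * σ - W := ⟨_, rfl⟩
  have ηd : η d = δ - S := by
    rw [hη, hδ]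
    simp only
    linear_combination hTsum - hcsum
  have hp1 : (p : B) ∈ u := by
    have := Ideal.pow_le_pow_right (I := u) (by norm_num : 1 ≤ 2) hp2
    rwa [pow_one] at this
  have hab2 : a * b ∈ u ^ 2 := by
    rw [pow_two]
    exact Ideal.mul_mem_mul hau hbu
  have hδm : δ ∈ u ^ 2 ⊔ t := by
    rw [hδ]
    exact Ideal.sub_mem _ (Ideal.mem_sup_left (Ideal.sub_mem _ hab2
      (Ideal.mul_mem_right _ _ hp2))) (Ideal.mem_sup_right hWt)
  have hu2 : u ^ 2 ⊔ t ≤ u ⊔ t := by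
    apply sup_le_sup_right
    exact Ideal.pow_le_self (by norm_num)
  have hδm' : δ ∈ u ⊔ t := hu2 hδm
  have hηm : ∀ i, η i ∈ u ⊔ t := by
    intro i
    by_cases hiZ : i ∈ Z
    · have : η i = w ⟨i, hiZ⟩ := ηz ⟨i, hiZ⟩
      rw [this]
      exact Ideal.mem_sup_right (hwt _)
    · by_cases h1 : i = s
      · rw [h1, ηs]
        exact Ideal.zero_mem _
      · by_cases h2 : i = d
        · rw [h2, ηd]
          exact Ideal.sub_mem _ hδm' (Ideal.mem_sup_left hSu)
        · have : η i = v ⟨i, hiZ, h1, h2⟩ := ηk ⟨i, hiZ, h1, h2⟩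
          rw [this]
          exact Ideal.mem_sup_left (hvu _)
  have hmain := hT p co g hco s c β hsp κ hκ1 hκ2 u t η hp1 hηm
  have hTη : (fun i => (c i : B) + η i) = T := by
    funext i
    rw [hη]
    simp
  have hfc : ∑ i, (if c i = 0 then η i else 0) = W := by
    have h1 := hsum (fun i => if c i = 0 then η i else 0)
    rw [h1]
    have h2 : ¬ c s = 0 := fun h => hsZ ((hZ s).2 h)
    have h3 : ¬ c d = 0 := fun h => hdZ ((hZ d).2 h)
    have h4 : ∀ k : TT Z s d, (if c k = 0 then η k else 0) = 0 :=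
      fun k => if_neg (fun h => k.2.1 ((hZ _).2 h))
    have h5 : ∀ z : ZT Z, (if c z = 0 then η z else 0) = w z := fun z => by
      rw [if_pos ((hZ z).1 z.2), ηz]
    simp only [h4, h5, if_neg h2, if_neg h3, Finset.sum_const_zero, zero_add]
    exact hWd.symm
  have hp2' : p - 2 ≠ 0 := by
    have := hco.prime.two_le
    have := hco.odd
    omega
  have hsq : ∑ i, algebraMap R B (co i) * (c i : B) ^ (p - 2) * η i ^ 2 =
      ∑ k : TT Z s d, algebraMap R B (co k) * (c k : B) ^ (p - 2) * v k ^ 2 +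
        algebraMap R B (co d) * (c d : B) ^ (p - 2) * (δ - S) ^ 2 := by
    rw [hsum (fun i => algebraMap R B (co i) * (c i : B) ^ (p - 2) * η i ^ 2)]
    simp only [ηs, ηd, ηk, hcz, zero_pow hp2', mul_zero, zero_mul, Finset.sum_const_zero, add_zero,
      zero_pow two_ne_zero]
    ring
  rw [hTη] at hmain
  have hsumT' : Finset.univ.sum T = a * b := hsumT
  rw [hsumT', hfc, hsq] at hmain
  -- conclusion
  have hΦ : PhiZ p co c Z s d 1 lα (fun _ => 0) Y = a * b + algebraMap R B lα * a ^ 2 +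
      ((p - 1) / 2 : ℕ) *
      (∑ k : TT Z s d, algebraMap R B (co k) * (c k : B) ^ (p - 2) * v k ^ 2 +
        algebraMap R B (co d) * (c d : B) ^ (p - 2) * S ^ 2) := by
    unfold PhiZ
    rw [ha, hb, hSd, hv]
    simp only [map_one, map_zero, one_mul, zero_mul, add_zero, Finset.sum_const_zero]
    ring
  have hTot : TotR ν nX nY g c Z s d (Y none) (Y (some none)) (fun k => Y (some (some k))) w =
      aeval T g + algebraMap R B ν * (a ^ nX * b ^ nY) := by
    unfold TotR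
    rw [hTd, ha, hb, hv, mul_assoc]
  rw [hTot, hΦ, ← hWd, ← hu, ← ht]
  have hkey : aeval T g + algebraMap R B ν * (a ^ nX * b ^ nY) -
      (a * b + algebraMap R B lα * a ^ 2 + ((p - 1) / 2 : ℕ) *
      (∑ k : TT Z s d, algebraMap R B (co k) * (c k : B) ^ (p - 2) * v k ^ 2 +
        algebraMap R B (co d) * (c d : B) ^ (p - 2) * S ^ 2) - W) =
      (aeval T g - (p * algebraMap R B β + a * b - W + ((p - 1) / 2 : ℕ) *
        (∑ k : TT Z s d, algebraMap R B (co k) * (c k : B) ^ (p - 2) * v k ^ 2 +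
        algebraMap R B (co d) * (c d : B) ^ (p - 2) * (δ - S) ^ 2) +
        p * ∑ i, algebraMap R B (κ i) * η i)) +
      (p * algebraMap R B β - algebraMap R B lα * a ^ 2) +
      p * ∑ i, algebraMap R B (κ i) * η i +
      algebraMap R B ν * (a ^ nX * b ^ nY) +
      ((p - 1) / 2 : ℕ) * (algebraMap R B (co d) * (c d : B) ^ (p - 2)) * (δ * (δ - 2 * S)) := by
    ring
  rw [hkey]
  refine Ideal.add_mem _ (Ideal.add_mem _ (Ideal.add_mem _ (Ideal.add_mem _ hmain ?_) ?_) ?_) ?_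
  · exact u3 hpβ
  · exact prod_mem (Ideal.mem_sup_left hp2)
      (Ideal.sum_mem _ fun i _ => Ideal.mul_mem_left _ _ (hηm i))
  · exact Ideal.mul_mem_left _ _ (u3 (mono_mem hau hbu _ _ hXY))
  · refine Ideal.mul_mem_left _ _ (prod_mem hδm ?_)
    exact Ideal.sub_mem _ hδm' (Ideal.mul_mem_left _ _ (Ideal.mem_sup_left hSu))

end QX1aux

open QX1aux in
theorem QX1_ok (hT : S_TAYZ2) (hS : S_SUMZ) (hN : S_NDZ) : S_QX1 := by
  intro R ι _ _ _ _ p n m π ν hram j nX nY hkind hnX co g hco s c β hsp Z hZ d hd hdZ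
  obtain ⟨ν', hν'⟩ := hram.unit.exists_right_inv
  have hpR : (p : R) = ν' * π ^ n := by
    have h := hram.rel
    calc (p : R) = (p : R) * (ν * ν') := by rw [hν', mul_one]
      _ = ν' * π ^ n := by rw [← h]; ring
  have hn2 := hram.two
  have hx : p = n * (j + 1) + nX := by
    have := hkind.x
    rw [one_mul] at this
    exact this
  have hy : p = n * j + nY := hkind.y
  have hXY : 3 ≤ nX + nY := by
    have h1 : n * (j + 1) = n * j + n := by ring
    omega
  obtain ⟨Q, hQ, hQe⟩ := hN p co g hco s c β hsp Z hZ d hd hdZ 1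
    (if n = 2 ∧ j = 0 then ν' * β else 0) (fun _ => 0) isUnit_one
  refine ⟨Q, ?_, ?_⟩
  · intro C _ f 𝔔 _ hπ v h1 h2
    refine hQ C f 𝔔 ?_ v h1 h2
    rw [hpR, map_mul, map_pow]
    exact 𝔔.mul_mem_left _ (𝔔.pow_mem_of_mem hπ n (by omega))
  · intro B _ _ Y u w hπ hu
    have hu1 : u = 1 := by
      simp only [map_sub, Polynomial.aeval_X, map_one, map_zero, mul_zero, add_zero] at hu
      exact sub_eq_zero.1 hu
    rw [hu1, mul_one] at hπ
    have hY : ∀ k, Y k ∈ Ideal.span (Set.range Y) := fun k => Ideal.subset_span ⟨k, rfl⟩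
    have hpB : (p : B) = algebraMap R B ν' *
        (Y none ^ (n * (j + 1)) * Y (some none) ^ (n * j)) := by
      have h := congrArg (algebraMap R B) hpR
      rw [map_natCast, map_mul, map_pow, hπ] at h
      rw [h, mul_pow, ← pow_mul, ← pow_mul, mul_comm (j + 1) n, mul_comm j n]
    have hmono : ∀ M N K : ℕ, K ≤ M + N → Y none ^ M * Y (some none) ^ N ∈
        Ideal.span (Set.range Y) ^ K := by
      intro M N K hK
      have h1 : Y none ^ M * Y (some none) ^ N ∈ Ideal.span (Set.range Y) ^ (M + N) := by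
        rw [pow_add]
        exact Ideal.mul_mem_mul (Ideal.pow_mem_pow (hY _) M) (Ideal.pow_mem_pow (hY _) N)
      exact Ideal.pow_le_pow_right hK h1
    have hnj : n * (j + 1) = n * j + n := by ring
    rw [F1_aeval, ← hQe Y]
    refine expand hT hS p ν nX nY hXY co g hco s c β hsp Z hZ d hd hdZ _ Y w ?_ ?_
    · rw [hpB]
      exact Ideal.mul_mem_left _ _ (hmono _ _ _ (by omega))
    · by_cases h : n = 2 ∧ j = 0
      · rw [if_pos h, hpB, h.1, h.2]
        have h0 : algebraMap R B ν' * (Y none ^ (2 * (0 + 1)) * Y (some none) ^ (2 * 0)) *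
            algebraMap R B β - algebraMap R B (ν' * β) * Y none ^ 2 = 0 := by
          rw [map_mul]
          ring
        rw [h0]
        exact Ideal.zero_mem _
      · rw [if_neg h, map_zero, zero_mul, sub_zero, hpB]
        refine Ideal.mul_mem_right _ _ (Ideal.mul_mem_left _ _ (hmono _ _ _ ?_))
        rcases Nat.eq_zero_or_pos j with h0 | h0
        · subst h0
          have : n ≠ 2 := fun h' => h ⟨h', rfl⟩
          omega
        · have : n * 1 ≤ n * j := Nat.mul_le_mul_left n h0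
          omega

end Pool.Agent.H945R2.R
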