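import Pool.Agent.H945R2.R.Props2
import Pool.Agent.H945R2.S.EXPZB

/-! QX2: second order expansion at the singular points of the second type (helper903, adapted
from S/EXPZB.lean by helper847). -/

set_option autoImplicit false

open scoped Pointwise

namespace Pool.Agent.H945R2.R

open Pool.Agent.H918R2.Quad Pool.Agent.H945R2.D Pool.Agent.H945R2.S Pool.Agent.H945R2.E
  MvPolynomial

namespace QX2aux

theorem rad {R κ : Type} [CommRing R] [Fintype κ] {p n m : ℕ} {π ν : R} (hr : Ram p n m π ν)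
    {Q : κ → κ → R} (hQ : RadI (p : R) Q) : RadI π Q := by
  intro C _ f P _ hπ v h1 h2
  refine hQ C f P ?_ v h1 h2
  have e : f (p : R) * f ν = f π ^ n := by rw [← map_mul, hr.rel, map_pow]
  have e2 : f (p : R) * f ν ∈ P := by
    rw [e]
    have hn : n ≠ 0 := by have := hr.two; omega
    exact Ideal.pow_mem_of_mem P hπ n (Nat.pos_of_ne_zero hn)
  exact (Ideal.mul_unit_mem_iff_mem P (hr.unit.map f)).1 e2

theorem tcz_map {R ι B B' : Type} [CommRing R] [DecidableEq ι] [Fintype ι] [CommRing B]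
    [CommRing B'] [Algebra R B] [Algebra R B'] (φ : B →ₐ[R] B') (Z : Finset ι) (s d : ι)
    (c : ι → ℕ) (v : TT Z s d → B) (w : ZT Z → B) (l : B) (i : ι) :
    φ (TcZ Z s d (fun i => (c i : B)) v w l i) =
      TcZ Z s d (fun i => (c i : B')) (fun k => φ (v k)) (fun z => φ (w z)) (φ l) i := by
  unfold TcZ
  split_ifs
  · rfl
  · exact map_one φ
  · simp only [map_sub, map_one, map_sum, map_add, map_natCast]
  · simp only [map_add, map_natCast]

theorem f2_eval {R ι B : Type} [CommRing R] [DecidableEq ι] [Fintype ι] [CommRing B]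
    [Algebra R B] (g : MvPolynomial ι R) (c : ι → ℕ) (Z : Finset ι) (s d : ι)
    (Y : KT Z s d → B) (w : ZT Z → B) :
    aeval (Sum.elim Y w) (F2 g c Z s d) =
      TotL g c Z s d (Y none) (Y (some none)) (fun k => Y (some (some k))) w := by
  unfold F2 TotL
  rw [map_add, map_mul, map_sub, map_one, aeval_X, aeval_X, Sum.elim_inl, Sum.elim_inl]
  congr 1
  rw [← AlgHom.comp_apply, MvPolynomial.comp_aeval]
  congr 2
  funext i
  rw [tcz_map]
  simp only [aeval_X, Sum.elim_inl, Sum.elim_inr]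

end QX2aux

open EXPZBaux QX2aux in
theorem QX2_ok (hT : S_TAYZ2) (hS : S_SUMZ) (hN : S_NDZ) : S_QX2 := by
  intro R ι _ _ _ _ p n m π ν hr co g hc s c β hsp Z hZ d hsd hd
  obtain ⟨κ, hκ, hκ0⟩ := exists_kappas p co g hc s c β hsp
  obtain ⟨σ, hσ⟩ := hsp.sum
  have hs : s ∉ Z := by
    rw [hZ s, hsp.one]
    omega
  have hp3 : 3 ≤ p := by
    have := hc.prime.two_le
    have := hc.odd
    omega
  have hm1 : 1 ≤ m := by
    rcases Nat.eq_zero_or_pos m with h | h
    · have := hr.nm
      rw [h, Nat.mul_zero] at this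
      omega
    · exact h
  obtain ⟨ν', hν'⟩ : ∃ ν' : R, ν * ν' = 1 := hr.unit.exists_right_inv
  obtain ⟨Q, hQ, hQe⟩ := hN p co g hc s c β hsp Z hZ d hsd hd 1
    (((p - 1) / 2 : ℕ) * (co d * (c d : R) ^ (p - 2)) + (if p = 3 then - β else 0))
    (fun k => -(2 * ((p - 1) / 2 : ℕ) * (co d * (c d : R) ^ (p - 2)))) isUnit_one
  refine ⟨Q, rad hr hQ, ?_⟩
  intro B _ _ Y x w hπ hx
  rw [← hQe Y, f2_eval]
  have hx' : x ^ n + algebraMap R B ν = Y (some none) * x ^ n := by
    simp only [map_add, map_neg, map_pow, Polynomial.aeval_X, Polynomial.aeval_C] at hx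
    linear_combination hx
  have hpB : (p : B) = Y none ^ (p - 1) * (x ^ n * algebraMap R B ν') := by
    have e1 : (p : B) * algebraMap R B ν = (Y none ^ (m - 1 + 1) * Y (some none) ^ 0 * x) ^ n := by
      rw [← hπ, ← map_natCast (algebraMap R B), ← map_mul, hr.rel, map_pow]
    have e2 : algebraMap R B ν * algebraMap R B ν' = 1 := by rw [← map_mul, hν', map_one]
    have e3 : (m - 1 + 1) * n = p - 1 := by
      have := hr.nm
      rw [Nat.sub_add_cancel hm1, Nat.mul_comm]
      omega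
    rw [pow_zero, mul_one, mul_pow, ← pow_mul, e3] at e1
    linear_combination (-(p : B)) * e2 + algebraMap R B ν' * e1
  set u : Ideal B := Ideal.span (Set.range Y) with hu
  set t : Ideal B := Ideal.span (Set.range w) with ht
  set A : Ideal B := u ^ 3 ⊔ u * t ⊔ t ^ 2 with hA
  have hYu : ∀ k, Y k ∈ u := fun k => Ideal.subset_span ⟨k, rfl⟩
  have hwt : ∀ z, w z ∈ t := fun z => Ideal.subset_span ⟨z, rfl⟩
  have hu3 : u ^ 3 ≤ A := le_sup_of_le_left le_sup_left
  have hut : u * t ≤ A := le_sup_of_le_left le_sup_right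
  have ht2 : t ^ 2 ≤ A := le_sup_right
  have hWt : ∑ z, w z ∈ t := t.sum_mem fun z _ => hwt z
  have hSu : ∑ k : TT Z s d, Y (some (some k)) ∈ u := u.sum_mem fun k _ => hYu _
  have hp2 : (p : B) ∈ u ^ 2 := by
    rw [hpB]
    have e1 : p - 1 = 2 + (p - 3) := by omega
    rw [e1, pow_add]
    exact Ideal.mul_mem_right _ _ (Ideal.mul_mem_right _ _ (Ideal.pow_mem_pow (hYu _) 2))
  have hpu : (p : B) ∈ u := Ideal.pow_le_self (two_ne_zero) hp2
  set ηd : B := Y none - (p : B) * σ - ∑ k : TT Z s d, Y (some (some k)) -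
    ∑ z, w z with hηd
  have hηdm : ηd ∈ u ⊔ t := by
    rw [hηd]
    refine Ideal.sub_mem _ (Ideal.sub_mem _ (Ideal.sub_mem _ ?_ ?_) ?_) ?_
    · exact Ideal.mem_sup_left (hYu _)
    · exact Ideal.mem_sup_left (u.mul_mem_right _ hpu)
    · exact Ideal.mem_sup_left hSu
    · exact Ideal.mem_sup_right hWt
  set η : ι → B := eta Z s d (fun k => Y (some (some k))) w ηd with hη
  have hηm : ∀ i, η i ∈ u ⊔ t := by
    intro i
    rw [hη]
    unfold eta
    split_ifs
    · exact Ideal.mem_sup_right (hwt _)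
    · exact Ideal.zero_mem _
    · exact hηdm
    · exact Ideal.mem_sup_left (hYu _)
  have h1 := TcZ_eq hS Z s d hsd p c σ hsp.one hσ hZ hd (Y none)
    (fun k => Y (some (some k))) w
  have h2 := hT p co g hc s c β hsp κ hκ hκ0 u t η hpu hηm
  have h3 := hS Z s d hsd hs hd (fun i => (c i : B)) (fun k => Y (some (some k))) w
    (Y none)
  have h4 : ∑ i, ((c i : B) + η i) = Y none := by
    have := h3.1
    rw [h1] at this
    exact this
  have ηs : η s = 0 := by
    rw [hη]
    unfold eta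
    rw [dif_neg hs, dif_pos rfl]
  have ηd' : η d = ηd := by
    rw [hη]
    unfold eta
    rw [dif_neg hd, dif_neg hsd.symm, dif_pos rfl]
  have ηk : ∀ k : TT Z s d, η k = Y (some (some k)) := by
    intro k
    rw [hη]
    unfold eta
    rw [dif_neg k.2.1, dif_neg k.2.2.1, dif_neg k.2.2.2]
  have ηz : ∀ z : ZT Z, η z = w z := by
    intro z
    rw [hη]
    unfold eta
    rw [dif_pos z.2]
  have h5 : ∑ i, (if c i = 0 then η i else 0) = ∑ z, w z := by
    rw [h3.2 (fun i => if c i = 0 then η i else 0)]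
    have e1 : ¬ c s = 0 := by rw [hsp.one]; omega
    have e2 : ¬ c d = 0 := fun h => hd ((hZ d).2 h)
    have e3 : ∑ k : TT Z s d, (if c k = 0 then η k else 0) = 0 :=
      Finset.sum_eq_zero fun k _ => if_neg fun h => k.2.1 ((hZ k).2 h)
    have e4 : ∑ z : ZT Z, (if c z = 0 then η z else 0) = ∑ z, w z :=
      Finset.sum_congr rfl fun z _ => by rw [if_pos ((hZ z).1 z.2), ηz]
    rw [if_neg e1, if_neg e2, e3, e4]
    ring
  have h6 : ∑ i, algebraMap R B (co i) * (c i : B) ^ (p - 2) * η i ^ 2 =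
      algebraMap R B (co d) * (c d : B) ^ (p - 2) * ηd ^ 2 +
      ∑ k : TT Z s d, algebraMap R B (co k) * (c k : B) ^ (p - 2) * Y (some (some k)) ^ 2 := by
    rw [h3.2 (fun i => algebraMap R B (co i) * (c i : B) ^ (p - 2) * η i ^ 2)]
    have e4 : ∑ z : ZT Z, algebraMap R B (co z) * (c z : B) ^ (p - 2) * η z ^ 2 = 0 := by
      refine Finset.sum_eq_zero fun z _ => ?_
      have : p - 2 ≠ 0 := by omega
      rw [(hZ z).1 z.2, Nat.cast_zero, zero_pow this]
      ring
    have e3 : ∑ k : TT Z s d, algebraMap R B (co k) * (c k : B) ^ (p - 2) * η k ^ 2 =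
        ∑ k : TT Z s d, algebraMap R B (co k) * (c k : B) ^ (p - 2) * Y (some (some k)) ^ 2 :=
      Finset.sum_congr rfl fun k _ => by rw [ηk]
    rw [e4, e3, ηs, ηd']
    ring
  -- the terms in `A`
  have t1 : (p : B) * ∑ i, algebraMap R B (κ i) * η i ∈ A := by
    have hm : ∑ i, algebraMap R B (κ i) * η i ∈ u ⊔ t :=
      Ideal.sum_mem _ fun i _ => Ideal.mul_mem_left _ _ (hηm i)
    have := Ideal.mul_mem_mul hp2 hm
    rw [Ideal.mul_sup] at this
    refine (sup_le ?_ ?_ : u ^ 2 * u ⊔ u ^ 2 * t ≤ A) this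
    · rw [← pow_succ]
      exact hu3
    · rw [pow_two, mul_assoc, mul_comm u t, ← mul_assoc]
      exact (mul_le_left' _ _).trans hut
  have hP : Y none - ∑ k : TT Z s d, Y (some (some k)) ∈ u := u.sub_mem (hYu _) hSu
  have hpσ : (p : B) * σ ∈ u ^ 2 := Ideal.mul_mem_right _ _ hp2
  have hpσ1 : (p : B) * σ ∈ u := Ideal.mul_mem_right _ _ hpu
  have t3 : ((p : B) * σ) ^ 2 ∈ A := by
    refine hu3 ?_
    rw [pow_two, pow_succ u]
    exact Ideal.mul_mem_mul hpσ hpσ1
  have t4 : (∑ z, w z) ^ 2 ∈ A := ht2 (Ideal.pow_mem_pow hWt 2)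
  have t5 : (Y none - ∑ k : TT Z s d, Y (some (some k))) * ((p : B) * σ) ∈ A := by
    refine hu3 ?_
    rw [pow_succ' u]
    exact Ideal.mul_mem_mul hP hpσ
  have t6 : (Y none - ∑ k : TT Z s d, Y (some (some k))) * (∑ z, w z) ∈ A :=
    hut (Ideal.mul_mem_mul hP hWt)
  have t7 : ((p : B) * σ) * (∑ z, w z) ∈ A :=
    hut (Ideal.mul_mem_mul hpσ1 hWt)
  have t8 : (p : B) * algebraMap R B β -
      Y none * (algebraMap R B (if p = 3 then - β else 0) * Y none) ∈ A := by
    by_cases h : p = 3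
    · have hnm := hr.nm
      have hn2 := hr.two
      have hn : n = 2 := by
        have h9 : n * m = 2 := by omega
        have h10 : n ∣ 2 := ⟨m, h9.symm⟩
        have := Nat.le_of_dvd (by norm_num) h10
        omega
      have e2 : algebraMap R B ν * algebraMap R B ν' = 1 := by rw [← map_mul, hν', map_one]
      have e3 : (p : B) + Y none ^ 2 = Y none ^ 2 * Y (some none) *
          (x ^ n * algebraMap R B ν') := by
        have e4 : p - 1 = 2 := by omega
        rw [hpB, e4]
        linear_combination (Y none ^ 2 * algebraMap R B ν') * hx' - Y none ^ 2 * e2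
      rw [if_pos h, map_neg]
      have e5 : (p : B) * algebraMap R B β - Y none * (-algebraMap R B β * Y none) =
          (Y none ^ 2 * Y (some none)) * (x ^ n * algebraMap R B ν' * algebraMap R B β) := by
        linear_combination (algebraMap R B β) * e3
      rw [e5]
      refine A.mul_mem_right _ (hu3 ?_)
      rw [pow_succ u]
      exact Ideal.mul_mem_mul (Ideal.pow_mem_pow (hYu _) 2) (hYu _)
    · rw [if_neg h, map_zero]
      have e1 : p - 1 = 3 + (p - 4) := by
        have : p ≠ 3 := h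
        omega
      have e5 : (p : B) * algebraMap R B β - Y none * (0 * Y none) =
          Y none ^ 3 * (Y none ^ (p - 4) * (x ^ n * algebraMap R B ν') * algebraMap R B β) := by
        rw [hpB, e1, pow_add]
        ring
      rw [e5]
      exact A.mul_mem_right _ (hu3 (Ideal.pow_mem_pow (hYu _) 3))
  rw [h4, h5, h6] at h2
  unfold TotL
  rw [h1]
  unfold PhiZ
  simp only [map_add, map_mul, map_pow, map_natCast, map_ofNat, map_neg, map_one]
  rw [← Finset.mul_sum]
  have key := A.add_mem (A.add_mem (A.add_mem h2 t1) t8)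
    (A.mul_mem_left ((((p - 1) / 2 : ℕ) : B) * (algebraMap R B (co d) * (c d : B) ^ (p - 2)))
      (A.add_mem (A.sub_mem (A.sub_mem (A.add_mem t3 t4) (A.mul_mem_left 2 t5))
        (A.mul_mem_left 2 t6)) (A.mul_mem_left 2 t7)))
  convert key using 1
  rw [hηd]
  ring

end Pool.Agent.H945R2.R
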