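import Pool.Agent.H945R2.R.Props2
import Pool.Agent.H945R2.S.SCZ

/-! # SCR: homogeneity of the factors -/

set_option autoImplicit false

open scoped Pointwise

namespace Pool.Agent.H945R2.R

open Pool.Agent.H918R2.Quad Pool.Agent.H945R2.D Pool.Agent.H945R2.S Pool.Agent.H945R2.E
  MvPolynomial

namespace SCRaux

open Pool.Agent.H945R2.S.SCZaux

section sets

variable {F : Type} [Field F] {ι : Type} [Fintype ι]

theorem IfR_eq (e : ℕ) (π : F) (x X : ι → F) (j : ℕ) :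
    IfR e π x X j = {π} * Set.range x ^ (e * j) ∪ {(∑ i, X i) ^ j} := by
  ext h
  simp only [IfR, Set.mem_ofPred_eq, Set.mem_union, Set.singleton_mul, Set.mem_image,
    Set.mem_singleton_iff]
  constructor
  · rintro (⟨y, hy, rfl⟩ | rfl)
    · exact Or.inl ⟨y, hy, rfl⟩
    · exact Or.inr rfl
  · rintro (⟨y, hy, rfl⟩ | rfl)
    · exact Or.inl ⟨y, hy, rfl⟩
    · exact Or.inr rfl

theorem BR_eq (e : ℕ) (π : F) (x X : ι → F) (s : ι) (c : ι → ℕ) (j : ℕ) :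
    BR e π x X s c j = {π ^ 2} * Set.range x ^ (e * (2 * j + 1)) ∪
      ({(∑ i, X i) ^ (2 * j + 1)} ∪ ({π * (∑ i, X i) ^ j} *
        Set.range (fun i => X i - (c i : F) * X s)) * Set.range x ^ (e * j)) := by
  ext h
  simp only [BR, Set.mem_ofPred_eq, Set.mem_union, Set.singleton_mul, Set.mem_image,
    Set.mem_singleton_iff, Set.mem_range, Set.mem_mul]
  constructor
  · rintro (⟨y, hy, rfl⟩ | rfl | ⟨i, y, hy, rfl⟩)
    · exact Or.inl ⟨y, hy, rfl⟩
    · exact Or.inr (Or.inl rfl)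
    · exact Or.inr (Or.inr ⟨_, ⟨_, ⟨i, rfl⟩, rfl⟩, y, hy, rfl⟩)
  · rintro (⟨y, hy, rfl⟩ | rfl | ⟨_, ⟨_, ⟨i, rfl⟩, rfl⟩, y, hy, rfl⟩)
    · exact Or.inl ⟨y, hy, rfl⟩
    · exact Or.inr (Or.inl rfl)
    · exact Or.inr (Or.inr ⟨i, y, hy, rfl⟩)

end sets

section main

variable {R F ι : Type} [CommRing R] [Field F] [Algebra R F] [Fintype ι]

theorem IfR_sim (e : ℕ) (π : F) (ξ t : ι → F) (lam Lam : F) (ν : Rˣ)
    (hL : Lam = lam ^ e * algebraMap R F ν) (j : ℕ) :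
    SimF R (lam ^ (e * j)) (IfR e π (fun i => lam * ξ i) (fun i => Lam * t i) j)
      (IfR e π ξ t j) := by
  rw [IfR_eq, IfR_eq]
  refine SimF.union ?_ ?_
  · exact ((SimF.same π).mul ((range_sim ξ lam).pow (e * j))).congr (one_mul _)
  · refine SimF.single (ν ^ j) ?_
    rw [sum_smul, hL, mul_pow, mul_pow, Units.val_pow_eq_pow_val, map_pow, ← pow_mul]

theorem BR_sim (e : ℕ) (π : F) (ξ t : ι → F) (lam Lam : F) (ν : Rˣ)
    (hL : Lam = lam ^ e * algebraMap R F ν) (s : ι) (c : ι → ℕ) (j : ℕ) :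
    SimF R (lam ^ (e * (2 * j + 1))) (BR e π (fun i => lam * ξ i) (fun i => Lam * t i) s c j)
      (BR e π ξ t s c j) := by
  rw [BR_eq, BR_eq]
  refine SimF.union ?_ (SimF.union ?_ ?_)
  · exact ((SimF.same (π ^ 2)).mul ((range_sim ξ lam).pow _)).congr (one_mul _)
  · refine SimF.single (ν ^ (2 * j + 1)) ?_
    rw [sum_smul, hL, mul_pow, mul_pow, Units.val_pow_eq_pow_val, map_pow, ← pow_mul]
  · have h1 : SimF R (lam ^ (e * j)) {π * (∑ i, Lam * t i) ^ j}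
        {π * (∑ i, t i) ^ j} := by
      refine SimF.single (ν ^ j) ?_
      rw [sum_smul, hL, mul_pow, mul_pow, Units.val_pow_eq_pow_val, map_pow, ← pow_mul]
      ring
    have h2 : SimF R (lam ^ e) (Set.range (fun i => Lam * t i - (c i : F) * (Lam * t s)))
        (Set.range (fun i => t i - (c i : F) * t s)) := by
      refine SimF.range ν fun i => ?_
      rw [hL]
      ring
    refine ((h1.mul h2).mul ((range_sim ξ lam).pow (e * j))).congr ?_
    rw [← pow_add, ← pow_add]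
    congr 1
    ring

theorem base_sim (p e m : ℕ) (hp : 1 ≤ p) (π : F) (ξ t : ι → F) (lam Lam : F) (ν : Rˣ)
    (hL : Lam = lam ^ e * algebraMap R F ν) (s : ι) (c : ι → ℕ) (B : Set F) (μ : F) (N : ℕ)
    (h : IsBaseR p e m π (fun i => lam * ξ i) (fun i => Lam * t i) s c B μ N) :
    ∃ (B' : Set F) (μ' : F) (D : ℕ), IsBaseR p e m π ξ t s c B' μ' N ∧
      SimF R (lam ^ (N + D)) B B' ∧ (∃ κ : Rˣ, μ = lam ^ D * algebraMap R F κ * μ') ∧ e ≤ N := by
  rcases h with ⟨j, hj, rfl, rfl, rfl⟩ | ⟨rfl, rfl, rfl⟩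
  · refine ⟨_, _, e * j, Or.inl ⟨j, hj, rfl, rfl, rfl⟩,
      (BR_sim e π ξ t lam Lam ν hL s c j).congr ?_, ⟨ν ^ j, ?_⟩, ?_⟩
    · congr 1
      ring
    · rw [sum_smul, hL, mul_pow, mul_pow, Units.val_pow_eq_pow_val, map_pow, ← pow_mul]
      ring
    · nlinarith
  · refine ⟨_, _, 0, Or.inr ⟨rfl, rfl, rfl⟩,
      (Bl_sim p e hp ξ t lam Lam ν hL s c), ⟨1, by simp⟩, ?_⟩
    nlinarith

theorem fwd [LinearOrder ι] (p e h m : ℕ) (π : R) (hp : 1 ≤ p)
    (he : e = 2 * h ∨ e = 2 * h + 1)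
    (g : MvPolynomial ι R) (ξ t : ι → F) (lam Lam : F) (ν : Rˣ) (hlam : lam ≠ 0)
    (hL : Lam = lam ^ e * algebraMap R F ν) (Φ : Set F)
    (hΦ : IsFacR p e h m π g (fun i => lam * ξ i) (fun i => Lam * t i) Φ) :
    ∃ Φ', IsFacR p e h m π g ξ t Φ' ∧ Sim R Φ Φ' := by
  have out : ∀ {μ : F} {Φ'}, μ ≠ 0 → SimF R μ Φ Φ' → Sim R Φ Φ' := fun hμ hs => ⟨_, hμ, hs.1, hs.2⟩
  rcases hΦ with rfl | ⟨j, hj1, hj2, rfl⟩ | ⟨s, c, β, hsp, hlt, B, μ, n, hB, hk⟩
  · exact ⟨_, Or.inl rfl, out hlam (range_sim ξ lam)⟩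
  · exact ⟨_, Or.inr (Or.inl ⟨j, hj1, hj2, rfl⟩), out (pow_ne_zero _ hlam)
      (IfR_sim e _ ξ t lam Lam ν hL j)⟩
  · obtain ⟨B', μ', D, hB', hBB, ⟨κ, hκ⟩, hen⟩ := base_sim p e m hp _ ξ t lam Lam ν hL s c B μ n hB
    have hV : SimF R lam (Set.range (fun i => lam * ξ i)) (Set.range ξ) := range_sim ξ lam
    have hY : SimF R lam (Yc (fun i => lam * ξ i) c) (Yc ξ c) := Yc_sim ξ lam c
    have hμ : ∀ m : ℕ, SimF R (lam ^ (D * m)) {μ ^ m} {μ' ^ m} := by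
      intro m
      refine SimF.single (κ ^ m) ?_
      rw [hκ, mul_pow, mul_pow, Units.val_pow_eq_pow_val, map_pow, ← pow_mul]
    rcases hk with ⟨k, hk1, hk2, rfl⟩ | ⟨he', hh1, rfl⟩ | ⟨he1, hc, rfl⟩
    · refine ⟨_, Or.inr (Or.inr ⟨s, c, β, hsp, hlt, B', μ', n, hB', Or.inl ⟨k, hk1, hk2, rfl⟩⟩),
        out (pow_ne_zero (n + D) hlam) ?_⟩
      unfold Nd
      refine hBB.union ?_
      have h1 := hμ 1
      rw [pow_one, pow_one, mul_one] at h1
      refine ((h1.mul (hY.pow k)).mul (hV.pow (n - k))).congr ?_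
      rw [← pow_add, ← pow_add]
      congr 1
      omega
    · refine ⟨_, Or.inr (Or.inr ⟨s, c, β, hsp, hlt, B', μ', n, hB',
        Or.inr (Or.inl ⟨he', hh1, rfl⟩)⟩), out (pow_ne_zero (3 * (n + D)) hlam) ?_⟩
      unfold Cd
      refine SimF.union (SimF.union (SimF.union (SimF.union ?_ ?_) ?_) ?_) ?_
      · refine (hBB.pow 3).congr ?_
        rw [← pow_mul]
        congr 1
        ring
      · have h1 := hμ 1
        rw [pow_one, pow_one, mul_one] at h1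
        refine ((((hBB.pow 2).mul h1).mul hY).mul (hV.pow (n - 1))).congr ?_
        rw [← pow_mul, ← pow_add, ← pow_succ, ← pow_add]
        congr 1
        omega
      · refine (((hBB.mul (hμ 2)).mul (hY.pow (h + 1))).mul (hV.pow (2 * n - h - 1))).congr ?_
        rw [← pow_add, ← pow_add, ← pow_add]
        congr 1
        omega
      · refine (((hμ 3).mul (hY.pow (2 * h + 2))).mul (hV.pow (3 * n - 2 * h - 2))).congr ?_
        rw [← pow_add, ← pow_add]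
        congr 1
        omega
      · have h1 : SimF R (lam ^ (D * 3 + e)) {μ ^ 3 * fc (fun i => Lam * t i) c}
            {μ' ^ 3 * fc t c} := by
          refine SimF.single (κ ^ 3 * ν) ?_
          rw [fc_eq, hκ, hL]
          simp only [Units.val_mul, Units.val_pow_eq_pow_val, map_mul, map_pow, pow_add, pow_mul]
          ring
        refine (h1.mul (hV.pow (3 * n - 2 * h - 1))).congr ?_
        rw [← pow_add]
        congr 1
        omega
    · exact ⟨B', Or.inr (Or.inr ⟨s, c, β, hsp, hlt, B', μ', n, hB',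
        Or.inr (Or.inr ⟨he1, hc, rfl⟩)⟩), out (pow_ne_zero (n + D) hlam) hBB⟩

end main

end SCRaux

open SCRaux in
theorem SCR_ok : S_SCR := by
  intro R F ι _ _ _ _ _ p e h m π hp _ he g ξ t lam Lam ν hlam hL
  refine ⟨fun Φ hΦ => fwd p e h m π hp he g ξ t lam Lam ν hlam hL Φ hΦ, fun Φ' hΦ' => ?_⟩
  have hν : algebraMap R F (ν⁻¹ : Rˣ) * algebraMap R F ν = 1 := by
    rw [← map_mul, Units.inv_mul, map_one]
  have hν0 : algebraMap R F (ν : R) ≠ 0 := right_ne_zero_of_mul_eq_one hν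
  have hLam : Lam ≠ 0 := by
    rw [hL]
    exact mul_ne_zero (pow_ne_zero _ hlam) hν0
  have hL' : Lam⁻¹ = lam⁻¹ ^ e * algebraMap R F (ν⁻¹ : Rˣ) := by
    rw [hL, mul_inv, inv_pow]
    congr 1
    exact (eq_inv_of_mul_eq_one_left hν).symm
  have e1 : (fun i => lam⁻¹ * (lam * ξ i)) = ξ := by
    funext i
    rw [← mul_assoc, inv_mul_cancel₀ hlam, one_mul]
  have e2 : (fun i => Lam⁻¹ * (Lam * t i)) = t := by
    funext i
    rw [← mul_assoc, inv_mul_cancel₀ hLam, one_mul]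
  obtain ⟨Φ, hΦ, hs⟩ := fwd p e h m π hp he g (fun i => lam * ξ i) (fun i => Lam * t i) lam⁻¹
    Lam⁻¹ ν⁻¹ (inv_ne_zero hlam) hL' Φ' (by rw [e1, e2]; exact hΦ')
  exact ⟨Φ, hΦ, Pool.Agent.H945R2.S.SCZaux.sim_symm hs⟩

end Pool.Agent.H945R2.R
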