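import Pool.Agent.H945R2.R.Props2

/-! TBR: the table for the base factor `B_j` (helper553, adapted from S/TBJ.lean). -/

set_option autoImplicit false

open scoped Pointwise

namespace Pool.Agent.H945R2.R

open Pool.Agent.H918R2.Quad Pool.Agent.H945R2.D Pool.Agent.H945R2.S Pool.Agent.H945R2.E
  MvPolynomial

namespace TBRaux

theorem pow_mem_W {R F ι : Type} [CommRing R] [Field F] [Algebra R F]
    (𝒲 : Subalgebra R F) (t : ι → F) (ht : ∀ i, t i ∈ 𝒲) (n : ℕ) :
    ∀ y ∈ Set.range t ^ n, y ∈ 𝒲 := by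
  induction n with
  | zero =>
    intro y hy
    rw [pow_zero, Set.mem_one] at hy
    rw [hy]
    exact 𝒲.one_mem
  | succ n ih =>
    intro y hy
    rw [pow_succ, Set.mem_mul] at hy
    obtain ⟨y1, h1, y2, ⟨i, rfl⟩, rfl⟩ := hy
    exact 𝒲.mul_mem (ih y1 h1) (ht i)

theorem one_mem_pow {F ι : Type} [Field F] (t : ι → F) (s : ι) (hs : t s = 1) (n : ℕ) :
    (1 : F) ∈ Set.range t ^ n := by
  have : (1 : F) ^ n ∈ Set.range t ^ n := Set.pow_mem_pow ⟨s, hs⟩
  rwa [one_pow] at this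

end TBRaux

open TBRaux in
theorem TBR_ok : S_TBR := by
  intro R F ι _ _ _ _ 𝒲 𝒪 p e n m π ν nL nA nB nX nY x t s a b hc s' c j' hj' hcase
  obtain ⟨loc, hW, hram, hkind, hx, hxs, ht', hs, ha, hb, ha0, hb0, haU, hL, hp⟩ := hc
  have ht : ∀ i, t i ∈ 𝒲 := by
    intro i
    obtain ⟨ρ, hρ, h⟩ := ht' i
    rw [h]
    exact 𝒲.mul_mem hρ (𝒲.pow_mem (hx i) _)
  have hz : ∀ i, t i - (c i : F) * t s' ∈ 𝒲 := fun i =>
    𝒲.sub_mem (ht i) (𝒲.mul_mem (𝒲.natCast_mem (c i)) (ht s'))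
  have hy := pow_mem_W 𝒲 x hx
  have h1 := one_mem_pow x s hxs
  have hnA := hkind.a
  unfold BR
  rcases hkind.cases with ⟨hnL, hnB⟩ | ⟨hnL, hnB⟩
  · obtain ⟨j, hj⟩ : ∃ j, j = nB := ⟨_, rfl⟩
    rw [hnL, ← hj, one_mul] at hnA
    rw [hnL, pow_one] at hL
    rw [hnA, ← hj] at hp
    rw [← hj] at hcase
    rcases lt_trichotomy j' j with hlt | heq | hgt
    · obtain ⟨k, rfl⟩ : ∃ k, j = j' + 1 + k := ⟨j - (j' + 1), by omega⟩
      have hm : (a * b) ^ (2 * j' + 1) ≠ 0 := pow_ne_zero _ (mul_ne_zero ha0 hb0)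
      refine ⟨(a * b) ^ (2 * j' + 1), hm, ?_, ?_, ?_⟩
      · rintro h (⟨y, hyy, rfl⟩ | rfl | ⟨i, y, hyy, rfl⟩)
        · have e : (algebraMap R F π) ^ 2 * y / (a * b) ^ (2 * j' + 1)
              = a ^ (2 * k + 3) * b ^ (2 * k + 1) * y := by
            rw [div_eq_iff hm, hp]; ring
          rw [e]
          exact 𝒲.mul_mem (𝒲.mul_mem (𝒲.pow_mem ha _) (𝒲.pow_mem hb _)) (hy _ y hyy)
        · rw [hL, div_self hm]; exact 𝒲.one_mem
        · have e : (algebraMap R F π) * (∑ i, t i) ^ j' * (t i - (c i : F) * t s') * y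
              / (a * b) ^ (2 * j' + 1)
              = a ^ (k + 1) * b ^ k * (t i - (c i : F) * t s') * y := by
            rw [div_eq_iff hm, hp, hL]; ring
          rw [e]
          exact 𝒲.mul_mem (𝒲.mul_mem (𝒲.mul_mem (𝒲.pow_mem ha _) (𝒲.pow_mem hb _)) (hz i))
            (hy _ y hyy)
      · refine ⟨(∑ i, t i) ^ (2 * j' + 1), Or.inr (Or.inl rfl), ?_⟩
        rw [hL, div_self hm]
        exact U_one
      · have e : (algebraMap R F π) * (∑ i, t i) ^ j' / (a * b) ^ (2 * j' + 1)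
            = a ^ (k + 1) * b ^ k := by
          rw [div_eq_iff hm, hp, hL]; ring
        rw [e]
        exact 𝒲.mul_mem (𝒲.pow_mem ha _) (𝒲.pow_mem hb _)
    · subst heq
      have hm : a ^ (2 * j' + 1) * b ^ (2 * j') ≠ 0 :=
        mul_ne_zero (pow_ne_zero _ ha0) (pow_ne_zero _ hb0)
      have e2 : (∑ i, t i) ^ (2 * j' + 1) / (a ^ (2 * j' + 1) * b ^ (2 * j')) = b := by
        rw [div_eq_iff hm, hL]; ring
      have e3 : ∀ i, ∀ y : F, (algebraMap R F π) * (∑ i, t i) ^ j' *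
          (t i - (c i : F) * t s') * y
          / (a ^ (2 * j' + 1) * b ^ (2 * j')) = (t i - (c i : F) * t s') * y := by
        intro i y
        rw [div_eq_iff hm, hp, hL]; ring
      refine ⟨a ^ (2 * j' + 1) * b ^ (2 * j'), hm, ?_, ?_, ?_⟩
      · rintro h (⟨y, hyy, rfl⟩ | rfl | ⟨i, y, hyy, rfl⟩)
        · have e : (algebraMap R F π) ^ 2 * y / (a ^ (2 * j' + 1) * b ^ (2 * j')) = a * y := by
            rw [div_eq_iff hm, hp]; ring
          rw [e]
          exact 𝒲.mul_mem ha (hy _ y hyy)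
        · rw [e2]; exact hb
        · rw [e3]
          exact 𝒲.mul_mem (hz i) (hy _ y hyy)
      · rcases hcase with h | h | ⟨i, h⟩
        · exact absurd rfl h
        · exact ⟨(∑ i, t i) ^ (2 * j' + 1), Or.inr (Or.inl rfl), by rw [e2]; exact h⟩
        · refine ⟨(algebraMap R F π) * (∑ i, t i) ^ j' * (t i - (c i : F) * t s') * 1,
            Or.inr (Or.inr ⟨i, 1, h1 _, rfl⟩), ?_⟩
          rw [e3, mul_one]
          exact h
      · have e : (algebraMap R F π) * (∑ i, t i) ^ j' / (a ^ (2 * j' + 1) * b ^ (2 * j'))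
            = 1 := by
          rw [div_eq_iff hm, hp, hL]; ring
        rw [e]
        exact 𝒲.one_mem
    · obtain ⟨k, rfl⟩ : ∃ k, j' = j + 1 + k := ⟨j' - (j + 1), by omega⟩
      have hp0 : (algebraMap R F π) ≠ 0 := by
        rw [hp]; exact mul_ne_zero (pow_ne_zero _ ha0) (pow_ne_zero _ hb0)
      have hm : (algebraMap R F π) ^ 2 ≠ 0 := pow_ne_zero _ hp0
      refine ⟨(algebraMap R F π) ^ 2, hm, ?_, ?_, ?_⟩
      · rintro h (⟨y, hyy, rfl⟩ | rfl | ⟨i, y, hyy, rfl⟩)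
        · rw [mul_div_cancel_left₀ _ hm]
          exact hy _ y hyy
        · have e : (∑ i, t i) ^ (2 * (j + 1 + k) + 1) / (algebraMap R F π) ^ 2
              = a ^ (2 * k + 1) * b ^ (2 * k + 3) := by
            rw [div_eq_iff hm, hp, hL]; ring
          rw [e]
          exact 𝒲.mul_mem (𝒲.pow_mem ha _) (𝒲.pow_mem hb _)
        · have e : (algebraMap R F π) * (∑ i, t i) ^ (j + 1 + k) * (t i - (c i : F) * t s') * y
              / (algebraMap R F π) ^ 2
              = a ^ k * b ^ (k + 1) * (t i - (c i : F) * t s') * y := by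
            rw [div_eq_iff hm, hp, hL]; ring
          rw [e]
          exact 𝒲.mul_mem (𝒲.mul_mem (𝒲.mul_mem (𝒲.pow_mem ha _) (𝒲.pow_mem hb _)) (hz i))
            (hy _ y hyy)
      · refine ⟨(algebraMap R F π) ^ 2 * 1, Or.inl ⟨1, h1 _, rfl⟩, ?_⟩
        rw [mul_one, div_self hm]
        exact U_one
      · have e : (algebraMap R F π) * (∑ i, t i) ^ (j + 1 + k) / (algebraMap R F π) ^ 2
            = a ^ k * b ^ (k + 1) := by
          rw [div_eq_iff hm, hp, hL]; ring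
        rw [e]
        exact 𝒲.mul_mem (𝒲.pow_mem ha _) (𝒲.pow_mem hb _)
  · obtain ⟨k, hk⟩ : ∃ k, m = j' + 1 + k := ⟨m - (j' + 1), by omega⟩
    rw [hnL, hnB, hk] at hnA
    rw [hnL] at hL
    rw [hnA, hnB, hk] at hp
    have hm : (a ^ n * b) ^ (2 * j' + 1) ≠ 0 :=
      pow_ne_zero _ (mul_ne_zero (pow_ne_zero _ ha0) hb0)
    refine ⟨(a ^ n * b) ^ (2 * j' + 1), hm, ?_, ?_, ?_⟩
    · rintro h (⟨y, hyy, rfl⟩ | rfl | ⟨i, y, hyy, rfl⟩)
      · have e : (algebraMap R F π) ^ 2 * y / (a ^ n * b) ^ (2 * j' + 1)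
            = a ^ (n * (2 * k + 1) + 2) * b ^ (2 * k + 1) * y := by
          rw [div_eq_iff hm, hp, mul_pow (a ^ n), ← pow_mul a, mul_pow (a ^ _), ← pow_mul a,
            ← pow_mul b]
          have e1 : a ^ ((n * (j' + 1 + k) + 1) * 2) =
              a ^ (n * (2 * k + 1) + 2) * a ^ (n * (2 * j' + 1)) := by
            rw [← pow_add]; congr 1; ring
          have e2 : b ^ ((j' + 1 + k) * 2) = b ^ (2 * k + 1) * b ^ (2 * j' + 1) := by
            rw [← pow_add]; congr 1; ring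
          rw [e1, e2]
          ring
        rw [e]
        exact 𝒲.mul_mem (𝒲.mul_mem (𝒲.pow_mem ha _) (𝒲.pow_mem hb _)) (hy _ y hyy)
      · rw [hL, div_self hm]; exact 𝒲.one_mem
      · have e : (algebraMap R F π) * (∑ i, t i) ^ j' * (t i - (c i : F) * t s') * y
            / (a ^ n * b) ^ (2 * j' + 1)
            = a ^ (n * k + 1) * b ^ k * (t i - (c i : F) * t s') * y := by
          rw [div_eq_iff hm, hp, hL]
          have e1 : a ^ (n * (j' + 1 + k) + 1) * b ^ (j' + 1 + k) * (a ^ n * b) ^ j' =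
              a ^ (n * k + 1) * b ^ k * (a ^ n * b) ^ (2 * j' + 1) := by
            rw [mul_pow, mul_pow, ← pow_mul, ← pow_mul]
            have e2 : a ^ (n * (j' + 1 + k) + 1) * a ^ (n * j') =
                a ^ (n * k + 1) * a ^ (n * (2 * j' + 1)) := by
              rw [← pow_add, ← pow_add]; congr 1; ring
            have e3 : b ^ (j' + 1 + k) * b ^ j' = b ^ k * b ^ (2 * j' + 1) := by
              rw [← pow_add, ← pow_add]; congr 1; ring
            calc _ = (a ^ (n * (j' + 1 + k) + 1) * a ^ (n * j')) *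
                  (b ^ (j' + 1 + k) * b ^ j') := by ring
              _ = _ := by rw [e2, e3]; ring
          rw [e1]
          ring
        rw [e]
        exact 𝒲.mul_mem (𝒲.mul_mem (𝒲.mul_mem (𝒲.pow_mem ha _) (𝒲.pow_mem hb _)) (hz i))
          (hy _ y hyy)
    · refine ⟨(∑ i, t i) ^ (2 * j' + 1), Or.inr (Or.inl rfl), ?_⟩
      rw [hL, div_self hm]
      exact U_one
    · have e : (algebraMap R F π) * (∑ i, t i) ^ j' / (a ^ n * b) ^ (2 * j' + 1)
          = a ^ (n * k + 1) * b ^ k := by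
        rw [div_eq_iff hm, hp, hL]
        rw [mul_pow, mul_pow, ← pow_mul, ← pow_mul]
        have e2 : a ^ (n * (j' + 1 + k) + 1) * a ^ (n * j') =
            a ^ (n * k + 1) * a ^ (n * (2 * j' + 1)) := by
          rw [← pow_add, ← pow_add]; congr 1; ring
        have e3 : b ^ (j' + 1 + k) * b ^ j' = b ^ k * b ^ (2 * j' + 1) := by
          rw [← pow_add, ← pow_add]; congr 1; ring
        calc _ = (a ^ (n * (j' + 1 + k) + 1) * a ^ (n * j')) *
              (b ^ (j' + 1 + k) * b ^ j') := by ring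
          _ = _ := by rw [e2, e3]; ring
      rw [e]
      exact 𝒲.mul_mem (𝒲.pow_mem ha _) (𝒲.pow_mem hb _)

end Pool.Agent.H945R2.R
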