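import Pool.Agent.H945R2.R.Props
import Pool.Agent.H945R2.S.TIZ

/-! Task TIR (helper413), adapted from S.TIZ. -/

set_option autoImplicit false

open scoped Pointwise

namespace Pool.Agent.H945R2.R

open Pool.Agent.H918R2.Quad Pool.Agent.H945R2.D Pool.Agent.H945R2.S Pool.Agent.H945R2.E
  MvPolynomial

theorem TIR_ok : S_TIR := by
  intro R F ι _ _ _ _ 𝒲 𝒪 p e n m π ν nL nA nB nX nY x t s a b hC
  constructor
  · refine ⟨1, one_ne_zero, ?_, ?_⟩
    · rintro h ⟨i, rfl⟩
      rw [div_one]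
      exact hC.hx i
    · refine ⟨x s, ⟨s, rfl⟩, ?_⟩
      rw [hC.hxs, div_one]
      exact U_one
  · intro j' hj'
    have hab : a ^ nL * b ≠ 0 := mul_ne_zero (pow_ne_zero _ hC.ha0) hC.hb0
    -- dividing by `L ^ j'`
    have key : j' ≤ nB → Prin 𝒲 𝒪 (IfR e (algebraMap R F π) x t j') := by
      intro hle
      refine ⟨(a ^ nL * b) ^ j', pow_ne_zero _ hab, ?_, ?_⟩
      · rintro h (⟨y, hy, rfl⟩ | rfl)
        · obtain ⟨k, hk⟩ : ∃ k, nB = j' + k := ⟨nB - j', by omega⟩
          have e : algebraMap R F π * y / (a ^ nL * b) ^ j' =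
              a ^ (nL * k + 1) * b ^ k * y := by
            rw [div_eq_iff (pow_ne_zero _ hab), hC.hπ, hC.kind.a, hk]
            ring
          rw [e]
          exact 𝒲.mul_mem (𝒲.mul_mem (𝒲.pow_mem hC.ha _) (𝒲.pow_mem hC.hb k))
            (TIZaux.pow_mem 𝒲 x hC.hx _ y hy)
        · rw [hC.hL, div_self (pow_ne_zero _ hab)]
          exact 𝒲.one_mem
      · refine ⟨(∑ i, t i) ^ j', Or.inr rfl, ?_⟩
        rw [hC.hL, div_self (pow_ne_zero _ hab)]
        exact U_one
    rcases hC.kind.cases with ⟨h1, _⟩ | ⟨_, h2⟩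
    · rcases Nat.lt_or_ge nB j' with hlt | hle
      · have hp0 : algebraMap R F π ≠ 0 := by
          rw [hC.hπ]
          exact mul_ne_zero (pow_ne_zero _ hC.ha0) (pow_ne_zero _ hC.hb0)
        have hA : nA = nB + 1 := by rw [hC.kind.a, h1, one_mul]
        refine ⟨algebraMap R F π, hp0, ?_, ?_⟩
        · rintro h (⟨y, hy, rfl⟩ | rfl)
          · rw [mul_div_cancel_left₀ _ hp0]
            exact TIZaux.pow_mem 𝒲 x hC.hx (e * j') y hy
          · obtain ⟨k, rfl⟩ : ∃ k, j' = nB + 1 + k := ⟨j' - (nB + 1), by omega⟩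
            have e : (∑ i, t i) ^ (nB + 1 + k) / algebraMap R F π = a ^ k * b ^ (k + 1) := by
              rw [hC.hL, div_eq_iff hp0, hC.hπ, hA, h1]
              ring
            rw [e]
            exact 𝒲.mul_mem (𝒲.pow_mem hC.ha k) (𝒲.pow_mem hC.hb (k + 1))
        · refine ⟨algebraMap R F π * 1, Or.inl ⟨1, TIZaux.one_mem x s hC.hxs (e * j'), rfl⟩, ?_⟩
          rw [mul_div_cancel_left₀ _ hp0]
          exact U_one
      · exact key hle
    · exact key (by omega)

end Pool.Agent.H945R2.R
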