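import Pool.Agent.H945R2.R.Props2

/-! Task XBR: exceptional table for `BR` (MP_4d1008_ag). -/

set_option autoImplicit false

open scoped Pointwise

namespace Pool.Agent.H945R2.R

open Pool.Agent.H918R2.Quad Pool.Agent.H945R2.D Pool.Agent.H945R2.S Pool.Agent.H945R2.E
  MvPolynomial

namespace XBRaux

variable {R F ι : Type} [CommRing R] [Field F] [Algebra R F] [Fintype ι] [DecidableEq ι]
  {𝒲 : Subalgebra R F} {𝒪 : Subring F} {p e n m : ℕ} {π ν : R} {j nX nY : ℕ} {x t : ι → F}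
  {s d : ι} {a b : F}

omit [Fintype ι] [DecidableEq ι] in
theorem mul_mem' {S : Submodule 𝒲 F} {w g : F} (hw : w ∈ 𝒲) (hg : g ∈ S) : w * g ∈ S :=
  S.smul_mem ⟨w, hw⟩ hg

omit [Fintype ι] [DecidableEq ι] in
theorem range_pow_mem (hx : ∀ i, x i ∈ 𝒲) (N : ℕ) :
    ∀ y ∈ Set.range x ^ N, y ∈ 𝒲 := by
  induction N with
  | zero =>
    intro y hy
    rw [pow_zero, Set.mem_one] at hy
    rw [hy]; exact 𝒲.one_mem
  | succ N ih =>
    intro y hy
    rw [pow_succ, Set.mem_mul] at hy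
    obtain ⟨u, hu, v, ⟨i, rfl⟩, rfl⟩ := hy
    exact 𝒲.mul_mem (ih u hu) (hx i)

omit [Fintype ι] [DecidableEq ι] in
theorem one_mem_pow (hxs : x s = 1) (N : ℕ) : (1 : F) ∈ Set.range x ^ N := by
  induction N with
  | zero => rw [pow_zero]; exact Set.mem_one.2 rfl
  | succ N ih =>
    rw [pow_succ, Set.mem_mul]
    exact ⟨1, ih, 1, ⟨s, hxs⟩, one_mul 1⟩

omit [DecidableEq ι] in
/-- `p` is divisible by `a` -/
theorem p_mem (hC : CtxR 𝒲 𝒪 p e n m π ν 1 (j + 1) j nX nY x t s a b) :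
    ∃ w ∈ 𝒲, (p : F) = w * a := by
  obtain ⟨ν', hν'⟩ := hC.ram.unit.exists_right_inv
  have h1 : (p : F) = algebraMap R F ν' * (a ^ (j + 1) * b ^ j) ^ n := by
    have h2 := congrArg (algebraMap R F) hC.ram.rel
    have h3 := congrArg (algebraMap R F) hν'
    rw [map_mul, map_one] at h3
    rw [map_mul, map_natCast, map_pow, hC.hπ] at h2
    rw [← h2]
    linear_combination (-(p : F)) * h3
  obtain ⟨k, hk⟩ : ∃ k, n = k + 1 := ⟨n - 1, by have := hC.ram.two; omega⟩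
  refine ⟨algebraMap R F ν' * (a ^ (j + 1) * b ^ j) ^ k * (a ^ j * b ^ j), ?_, ?_⟩
  · exact 𝒲.mul_mem (𝒲.mul_mem (𝒲.algebraMap_mem ν') (𝒲.pow_mem (𝒲.mul_mem
      (𝒲.pow_mem hC.ha _) (𝒲.pow_mem hC.hb _)) _)) (𝒲.mul_mem
      (𝒲.pow_mem hC.ha _) (𝒲.pow_mem hC.hb _))
  · rw [h1, hk]
    ring

/-- the module generated by the coordinates -/
abbrev Sp (𝒲 : Subalgebra R F) (e : ℕ) (x t : ι → F) (s d : ι) (a B : F) (c : ι → ℕ)
    (Z : Finset ι) : Submodule 𝒲 F :=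
  Submodule.span 𝒲 (Set.range (zq a B t c : KT Z s d → F) ∪ Yc x c ^ e)

omit [Fintype ι] [DecidableEq ι] in
theorem in_a (B : F) (c : ι → ℕ) (Z : Finset ι) : a ∈ Sp 𝒲 e x t s d a B c Z :=
  Submodule.subset_span (Or.inl ⟨none, rfl⟩)

omit [Fintype ι] [DecidableEq ι] in
theorem in_b (B : F) (c : ι → ℕ) (Z : Finset ι) : B ∈ Sp 𝒲 e x t s d a B c Z :=
  Submodule.subset_span (Or.inl ⟨some none, rfl⟩)

omit [Fintype ι] [DecidableEq ι] in
theorem in_t (ht : ∀ i, ∃ ρ ∈ 𝒲, t i = ρ * x i ^ e) (B : F) (c : ι → ℕ) (Z : Finset ι) (i : ι)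
    (hi : c i = 0) : t i ∈ Sp 𝒲 e x t s d a B c Z := by
  obtain ⟨ρ, hρ, h⟩ := ht i
  rw [h]
  refine mul_mem' hρ (Submodule.subset_span (Or.inr ?_))
  exact Set.pow_mem_pow ⟨i, hi, rfl⟩

/-- the differences `t_i - c_i t_s` are in the module -/
theorem lin (hS : S_SUMZ) (hC : CtxR 𝒲 𝒪 p e n m π ν 1 (j + 1) j nX nY x t s a b) (hd : s ≠ d)
    (c : ι → ℕ) (hc : p ∣ ∑ i, c i) (hc0 : c s = 1) (Z : Finset ι) (hZ : ∀ i, i ∈ Z ↔ c i = 0)
    (hdZ : d ∉ Z) (B : F) (i : ι) : t i - (c i : F) * t s ∈ Sp 𝒲 e x t s d a B c Z := by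
  have hk : ∀ k : TT Z s d, t k - (c k : F) ∈ Sp 𝒲 e x t s d a B c Z := fun k =>
    Submodule.subset_span (Or.inl ⟨some (some k), rfl⟩)
  by_cases hiZ : i ∈ Z
  · have hci := (hZ i).1 hiZ
    rw [hci, Nat.cast_zero, zero_mul, sub_zero]
    exact in_t hC.ht B c Z i hci
  · by_cases h1 : i = s
    · subst h1
      rw [hc0, Nat.cast_one, one_mul, sub_self]
      exact Submodule.zero_mem _
    · by_cases h2 : i = d
      · subst h2
        obtain ⟨σ, hσ⟩ := hc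
        obtain ⟨w, hw, hpw⟩ := p_mem hC
        have hsZ : s ∉ Z := fun h => by
          have := (hZ s).1 h
          omega
        have e1 := (hS (B := F) Z s i hd hsZ hdZ (fun _ => 0) (fun _ => 0) (fun _ => 0) 0).2 t
        have e2 := (hS (B := F) Z s i hd hsZ hdZ (fun _ => 0) (fun _ => 0) (fun _ => 0) 0).2
          (fun i => (c i : F))
        have e3 : (∑ i, (c i : F)) = w * a * (σ : F) := by
          rw [← hpw]
          have := congrArg (fun n : ℕ => (n : F)) hσ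
          push_cast at this
          exact this
        have e4 : ∑ z : ZT Z, (c z : F) = 0 :=
          Finset.sum_eq_zero (fun z _ => by rw [(hZ z).1 z.2, Nat.cast_zero])
        rw [hC.hL, hC.hs] at e1
        rw [e3, e4] at e2
        simp only [hc0, Nat.cast_one] at e2
        have e5 : t i - (c i : F) * t s = (b - w * (σ : F)) * a -
            ∑ k : TT Z s i, (t k - (c k : F)) - ∑ z : ZT Z, t z := by
          rw [hC.hs, Finset.sum_sub_distrib]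
          linear_combination (-1 : F) * e1 + e2
        rw [e5]
        refine Submodule.sub_mem _ (Submodule.sub_mem _ (mul_mem' ?_ (in_a B c Z)) ?_) ?_
        · exact 𝒲.sub_mem hC.hb (𝒲.mul_mem hw (natCast_mem 𝒲 σ))
        · exact Submodule.sum_mem _ (fun k _ => hk k)
        · exact Submodule.sum_mem _ (fun z _ => in_t hC.ht B c Z z ((hZ z).1 z.2))
      · rw [hC.hs, mul_one]
        exact hk ⟨i, hiZ, h1, h2⟩

end XBRaux

open XBRaux

theorem XBR_ok (hS : S_SUMZ) : S_XBR := by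
  intro R F ι _ _ _ _ _ 𝒲 𝒪 p e n m π ν j nX nY x t s d a b hC _ hd c hc hc0 Z hZ hdZ
  have hp := hC.hπ
  refine ⟨?_, ?_⟩
  · rintro h (⟨y, hy, rfl⟩ | rfl | ⟨i, y, hy, rfl⟩)
    · refine ⟨y * a, XBRaux.mul_mem' (XBRaux.range_pow_mem hC.hx _ y hy) (XBRaux.in_a b c Z), ?_⟩
      rw [hp, hC.hL]; ring
    · refine ⟨b, XBRaux.in_b b c Z, ?_⟩
      rw [hp, hC.hL]; ring
    · refine ⟨y * (t i - (c i : F) * t s), XBRaux.mul_mem' (XBRaux.range_pow_mem hC.hx _ y hy)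
        (XBRaux.lin hS hC hd c hc hc0 Z hZ hdZ b i), ?_⟩
      ring
  · rintro _ ⟨_ | _ | k, rfl⟩
    · refine ⟨(algebraMap R F π) ^ 2 * 1, Or.inl ⟨1, XBRaux.one_mem_pow hC.hxs _, rfl⟩, 1,
        𝒪.one_mem, ?_⟩
      simp only [zq, Option.elim]
      rw [hp, hC.hL]; ring
    · refine ⟨(∑ i, t i) ^ (2 * j + 1), Or.inr (Or.inl rfl), 1, 𝒪.one_mem, ?_⟩
      simp only [zq, Option.elim]
      rw [hp, hC.hL]; ring
    · refine ⟨algebraMap R F π * (∑ i, t i) ^ j * (t k - (c k : F) * t s) * 1,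
        Or.inr (Or.inr ⟨k, 1, XBRaux.one_mem_pow hC.hxs _, rfl⟩), 1, 𝒪.one_mem, ?_⟩
      simp only [zq, Option.elim]
      rw [hC.hs]; ring

end Pool.Agent.H945R2.R
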