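import Pool.Agent.H945R2.R.Props2

/-! Task XLR: exceptional table for `Bl`, ramified base fields (MP_4d1008_ag). -/

set_option autoImplicit false

open scoped Pointwise

namespace Pool.Agent.H945R2.R

open Pool.Agent.H918R2.Quad Pool.Agent.H945R2.D Pool.Agent.H945R2.S Pool.Agent.H945R2.E
  MvPolynomial

namespace XLRaux

variable {R F ι : Type} [CommRing R] [Field F] [Algebra R F] [Fintype ι] [DecidableEq ι]
  {𝒲 : Subalgebra R F} {𝒪 : Subring F} {p e n m : ℕ} {π ν : R} {nL nA nB nX nY : ℕ}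
  {x t : ι → F} {s d : ι} {a b : F}

omit [Fintype ι] [DecidableEq ι] in
theorem mul_mem' {S : Submodule 𝒲 F} {w g : F} (hw : w ∈ 𝒲) (hg : g ∈ S) : w * g ∈ S :=
  S.smul_mem ⟨w, hw⟩ hg

omit [DecidableEq ι] in
theorem range_pow_mem (hC : CtxR 𝒲 𝒪 p e n m π ν nL nA nB nX nY x t s a b) (k : ℕ) :
    ∀ y ∈ Set.range x ^ k, y ∈ 𝒲 := by
  induction k with
  | zero =>
    intro y hy
    rw [pow_zero, Set.mem_one] at hy
    rw [hy]; exact 𝒲.one_mem
  | succ n ih =>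
    intro y hy
    rw [pow_succ, Set.mem_mul] at hy
    obtain ⟨u, hu, v, ⟨i, rfl⟩, rfl⟩ := hy
    exact 𝒲.mul_mem (ih u hu) (hC.hx i)

omit [DecidableEq ι] in
theorem one_mem_pow (hC : CtxR 𝒲 𝒪 p e n m π ν nL nA nB nX nY x t s a b) (k : ℕ) :
    (1 : F) ∈ Set.range x ^ k := by
  induction k with
  | zero => rw [pow_zero]; exact Set.mem_one.2 rfl
  | succ n ih =>
    rw [pow_succ, Set.mem_mul]
    exact ⟨1, ih, 1, ⟨s, hC.hxs⟩, one_mul 1⟩

omit [DecidableEq ι] in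
theorem ht_mem (hC : CtxR 𝒲 𝒪 p e n m π ν nL nA nB nX nY x t s a b) (i : ι) : t i ∈ 𝒲 := by
  obtain ⟨ρ, hρ, h⟩ := hC.ht i
  rw [h]
  exact 𝒲.mul_mem hρ (𝒲.pow_mem (hC.hx i) _)

/-- the module generated by the coordinates -/
abbrev Sp (𝒲 : Subalgebra R F) (e : ℕ) (x t : ι → F) (s d : ι) (A B : F) (c : ι → ℕ)
    (Z : Finset ι) : Submodule 𝒲 F :=
  Submodule.span 𝒲 (Set.range (zq A B t c : KT Z s d → F) ∪ Yc x c ^ e)

omit [Fintype ι] [DecidableEq ι] in
theorem in_a (A B : F) (c : ι → ℕ) (Z : Finset ι) : A ∈ Sp 𝒲 e x t s d A B c Z :=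
  Submodule.subset_span (Or.inl ⟨none, rfl⟩)

omit [Fintype ι] [DecidableEq ι] in
theorem in_b (A B : F) (c : ι → ℕ) (Z : Finset ι) : B ∈ Sp 𝒲 e x t s d A B c Z :=
  Submodule.subset_span (Or.inl ⟨some none, rfl⟩)

omit [DecidableEq ι] in
theorem in_t (hC : CtxR 𝒲 𝒪 p e n m π ν nL nA nB nX nY x t s a b) (A B : F) (c : ι → ℕ)
    (Z : Finset ι) (i : ι) (hi : c i = 0) : t i ∈ Sp 𝒲 e x t s d A B c Z := by
  obtain ⟨ρ, hρ, h⟩ := hC.ht i
  rw [h]
  refine mul_mem' hρ (Submodule.subset_span (Or.inr ?_))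
  exact Set.pow_mem_pow ⟨i, hi, rfl⟩

/-- the differences `t_i - c_i t_s` are in the module -/
theorem lin (hS : S_SUMZ) (hC : CtxR 𝒲 𝒪 p e n m π ν nL nA nB nX nY x t s a b) (hd : s ≠ d)
    (c : ι → ℕ) (hc : p ∣ ∑ i, c i) (hc0 : c s = 1) (Z : Finset ι) (hZ : ∀ i, i ∈ Z ↔ c i = 0)
    (hdZ : d ∉ Z) (A B : F) (hL : ∑ i, t i = A) (hp : (p : F) ∈ Sp 𝒲 e x t s d A B c Z) (i : ι) :
    t i - (c i : F) * t s ∈ Sp 𝒲 e x t s d A B c Z := by
  have hk : ∀ k : TT Z s d, t k - (c k : F) ∈ Sp 𝒲 e x t s d A B c Z := fun k =>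
    Submodule.subset_span (Or.inl ⟨some (some k), rfl⟩)
  by_cases hiZ : i ∈ Z
  · have hci := (hZ i).1 hiZ
    rw [hci, Nat.cast_zero, zero_mul, sub_zero]
    exact in_t hC A B c Z i hci
  · by_cases h1 : i = s
    · subst h1
      rw [hc0, Nat.cast_one, one_mul, sub_self]
      exact Submodule.zero_mem _
    · by_cases h2 : i = d
      · subst h2
        obtain ⟨σ, hσ⟩ := hc
        have hsZ : s ∉ Z := fun h => by
          have := (hZ s).1 h
          omega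
        have e1 := (hS (B := F) Z s i hd hsZ hdZ (fun _ => 0) (fun _ => 0) (fun _ => 0) 0).2 t
        have e2 := (hS (B := F) Z s i hd hsZ hdZ (fun _ => 0) (fun _ => 0) (fun _ => 0) 0).2
          (fun i => (c i : F))
        have e3 : (∑ i, (c i : F)) = (p : F) * (σ : F) := by
          have := congrArg (fun n : ℕ => (n : F)) hσ
          push_cast at this
          exact this
        have e4 : ∑ z : ZT Z, (c z : F) = 0 :=
          Finset.sum_eq_zero (fun z _ => by rw [(hZ z).1 z.2, Nat.cast_zero])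
        rw [hL, hC.hs] at e1
        rw [e3, e4] at e2
        simp only [hc0, Nat.cast_one] at e2
        have e5 : t i - (c i : F) * t s = A - (σ : F) * (p : F) -
            ∑ k : TT Z s i, (t k - (c k : F)) - ∑ z : ZT Z, t z := by
          rw [hC.hs, Finset.sum_sub_distrib]
          linear_combination (-1 : F) * e1 + e2
        rw [e5]
        refine Submodule.sub_mem _ (Submodule.sub_mem _ (Submodule.sub_mem _ (in_a A B c Z)
          (mul_mem' (natCast_mem 𝒲 σ) hp)) ?_) ?_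
        · exact Submodule.sum_mem _ (fun k _ => hk k)
        · exact Submodule.sum_mem _ (fun z _ => in_t hC A B c Z z ((hZ z).1 z.2))
      · rw [hC.hs, mul_one]
        exact hk ⟨i, hiZ, h1, h2⟩

end XLRaux

open XLRaux

theorem XLR_ok (hS : S_SUMZ) : S_XLR := by
  intro R F ι _ _ _ _ _ 𝒲 𝒪 p e n m π ν nA nB nX nY x t s d a b hC hnX _ _ hd c hc hc0 Z hZ hdZ
  -- exponents
  have k1 := hC.kind.a
  have k2 := hC.kind.x
  have k3 := hC.ram.two
  rw [one_mul] at k1 k2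
  rw [hnX] at k2
  obtain ⟨N, hN⟩ : ∃ N, n * nA = N + 1 := by
    refine ⟨n * nA - 1, ?_⟩
    have : 1 ≤ n * nA := Nat.mul_pos (by omega) (by omega)
    omega
  have hpN : p - 1 = N + 1 := by omega
  have hL : ∑ i, t i = a * b := by rw [hC.hL, pow_one]
  obtain ⟨γ, hγ⟩ : ∃ γ : F, γ = 1 + algebraMap R F ν * b ^ n := ⟨_, rfl⟩
  rw [← hγ]
  have hrel : (p : F) * algebraMap R F ν = (a ^ nA * b ^ nB) ^ n := by
    have h := congrArg (algebraMap R F) hC.ram.rel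
    rw [map_mul, map_natCast, map_pow, hC.hπ] at h
    exact h
  have hpγ : (p : F) * γ = (p : F) + (a * b) ^ (N + 1) := by
    rw [hγ, mul_add, mul_one, ← mul_assoc, hrel, ← hN, k1]
    ring
  have hpS : (p : F) ∈ Sp 𝒲 e x t s d (a * b) γ c Z := by
    have e1 : (p : F) = (p : F) * γ - (a * b) ^ N * (a * b) := by
      rw [hpγ, pow_succ]
      ring
    rw [e1]
    refine Submodule.sub_mem _ (mul_mem' (natCast_mem 𝒲 p) (in_b _ _ c Z)) (mul_mem' ?_
      (in_a _ _ c Z))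
    exact 𝒲.pow_mem (𝒲.mul_mem hC.ha hC.hb) _
  have hlin := lin hS hC hd c hc hc0 Z hZ hdZ (a * b) γ hL hpS
  refine ⟨?_, ?_⟩
  · rintro h (⟨y, hy, rfl⟩ | ⟨y, hy, rfl⟩ | ⟨i, rfl⟩ | ⟨i, y, hy, rfl⟩)
    · refine ⟨y * (p : F), mul_mem' (range_pow_mem hC _ y hy) hpS, ?_⟩
      ring
    · refine ⟨y * (a * b), mul_mem' (range_pow_mem hC _ y hy) (in_a _ _ c Z), ?_⟩
      rw [hL]; ring
    · refine ⟨t i * γ, mul_mem' (ht_mem hC i) (in_b _ _ c Z), ?_⟩
      rw [hC.hs, one_pow, hL, hpN]; linear_combination (-(t i)) * hpγ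
    · refine ⟨y * (t i - (c i : F) * t s), mul_mem' (range_pow_mem hC _ y hy) (hlin i), ?_⟩
      ring
  · rintro _ ⟨_ | _ | k, rfl⟩
    · refine ⟨(p : F) * (∑ i, t i) * 1, Or.inr (Or.inl ⟨1, one_mem_pow hC _, rfl⟩), 1,
        𝒪.one_mem, ?_⟩
      simp only [zq, Option.elim]
      rw [hL]; ring
    · refine ⟨((p : F) * t s ^ (p - 1) + (∑ i, t i) ^ (p - 1)) * t s,
        Or.inr (Or.inr (Or.inl ⟨s, rfl⟩)), 1, 𝒪.one_mem, ?_⟩
      simp only [zq, Option.elim]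
      rw [hC.hs, one_pow, hL, hpN]; linear_combination (1) * hpγ
    · refine ⟨(p : F) * (t k - (c k : F) * t s) * 1,
        Or.inr (Or.inr (Or.inr ⟨k, 1, one_mem_pow hC _, rfl⟩)), 1, 𝒪.one_mem, ?_⟩
      simp only [zq, Option.elim]
      rw [hC.hs]; ring

end Pool.Agent.H945R2.R
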