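import Pool.Agent.H945R2.E.All
import Pool.Agent.H945R2.R.ARIR
import Pool.Agent.H945R2.R.BADR
import Pool.Agent.H945R2.R.CH1R
import Pool.Agent.H945R2.R.CH2R
import Pool.Agent.H945R2.R.CLR
import Pool.Agent.H945R2.R.DEGR
import Pool.Agent.H945R2.R.EXPLR
import Pool.Agent.H945R2.R.FABR
import Pool.Agent.H945R2.R.FINAL
import Pool.Agent.H945R2.R.FINR
import Pool.Agent.H945R2.R.GLOR
import Pool.Agent.H945R2.R.HGR
import Pool.Agent.H945R2.R.LOCR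
import Pool.Agent.H945R2.R.PRER
import Pool.Agent.H945R2.R.QA1
import Pool.Agent.H945R2.R.QA2
import Pool.Agent.H945R2.R.QR1
import Pool.Agent.H945R2.R.QR2
import Pool.Agent.H945R2.R.QR3
import Pool.Agent.H945R2.R.QR4
import Pool.Agent.H945R2.R.QR5
import Pool.Agent.H945R2.R.QR6
import Pool.Agent.H945R2.R.QX1
import Pool.Agent.H945R2.R.QX2
import Pool.Agent.H945R2.R.SCR
import Pool.Agent.H945R2.R.TBR
import Pool.Agent.H945R2.R.TIR
import Pool.Agent.H945R2.R.TLR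
import Pool.Agent.H945R2.R.XBR
import Pool.Agent.H945R2.R.XLR

/-! Regular models of diagonal hypersurfaces, ramified base fields: everything together. -/

set_option autoImplicit false

namespace Pool.Agent.H945R2.R

open Pool.Agent.H945R2.D Pool.Agent.H945R2.S Pool.Agent.H945R2.E

theorem locr' : S_LOCR :=
  LOCR_ok CLR_ok MAS_ok PRA_ok SIM_ok SCR_ok BLS1_ok BLS2_ok EN_ok EC_ok QS_ok
    PT1_ok PT2_ok PT3_ok PT4_ok TIR_ok TBR_ok TLR_ok DER_ok (XBR_ok SUMZ_ok) (XLR_ok SUMZ_ok)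
    SUMZ_ok ET_ok INDZ_ok (QX1_ok tayz2' SUMZ_ok NDZ_ok) (QX2_ok tayz2' SUMZ_ok NDZ_ok)
    (QA1_ok SUMZ_ok PRER_ok FABR_ok) (QA2_ok SUMZ_ok PRER_ok FABR_ok)
    (CH1R_ok SUMZ_ok PRER_ok FABR_ok)
    (CH2R_ok (EXPLR_ok tayz1' SUMZ_ok) SUMZ_ok PRER_ok FABR_ok)
    (QR1_ok bl4') (QR2_ok bl4') (QR3_ok bl4') (QR4_ok bl5') (QR5_ok rlw2')
    (QR6_ok REGQ_ok PIN_ok)

theorem badr' : S_BADR := BADR_ok locr' DEGR_ok FAMW_ok FINR_ok HGR_ok

theorem glor' : S_GLOR :=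
  GLOR_ok (badM bad' (BADS_ok locs' DEGS_ok FINS_ok)) bade' badt' badr' (GOODM_ok GD1M_ok GD2M_ok)
    ARIR_ok GLOG_ok

end Pool.Agent.H945R2.R
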