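import Pool.Agent.H945R2.E.PropsT

/-! Definitions: base fields ramified over `p` with index dividing `p - 1` (MP_4d1008_ag). -/

set_option autoImplicit false

open scoped Pointwise

namespace Pool.Agent.H945R2.R

open Pool.Agent.H918R2.Quad Pool.Agent.H945R2.D Pool.Agent.H945R2.S Pool.Agent.H945R2.E
  MvPolynomial

/-- The ramification: `p ν = π ^ n`, `ν` a unit, `n m = p - 1`, `n ≥ 2`. -/
structure Ram {R : Type} [CommRing R] (p n m : ℕ) (π ν : R) : Prop where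
  irr : Irreducible π
  two : 2 ≤ n
  nm : n * m + 1 = p
  unit : IsUnit ν
  rel : (p : R) * ν = π ^ n

/-- The exponents of a chart: `L = a ^ nL b`, `π = a ^ nA b ^ nB`, `g + ν a ^ nX b ^ nY = 0`. -/
structure KindR (p n m nL nA nB nX nY : ℕ) : Prop where
  a : nA = nL * nB + 1
  x : nL * p = n * nA + nX
  y : p = n * nB + nY
  pos : 1 ≤ nL
  cases : (nL = 1 ∧ nB < m) ∨ (nL = n ∧ nB = m)

/-- The data of a chart. -/
structure DataR {R F ι : Type} [CommRing R] [Field F] [Algebra R F] [Fintype ι] [DecidableEq ι]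
    (𝒪 : Subring F) (p e n m : ℕ) (π ν : R) (nL nA nB nX nY : ℕ) (co r : ι → R)
    (g : MvPolynomial ι R) (Z : Finset ι) (y : ι → F) (s : ι) (a b : F) : Prop where
  loc : IsLoc 𝒪
  hR : ∀ r : R, algebraMap R F r ∈ 𝒪
  coef : Coef p co g
  ram : Ram p n m π ν
  kind : KindR p n m nL nA nB nX nY
  he : 1 ≤ e
  heU : IsUnit (e : R)
  hr : ∀ i, IsUnit (r i)
  hsZ : s ∉ Z
  hs : y s = 1
  hy : ∀ i, y i ∈ 𝒪
  hyZ : ∀ i ∈ Z, ¬ U 𝒪 (y i)
  ha : a ∈ 𝒪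
  hb : b ∈ 𝒪
  ha0 : a ≠ 0
  hb0 : b ≠ 0
  haU : ¬ U 𝒪 a
  hL : ∑ i, Tz Z r e y i = a ^ nL * b
  hπ : algebraMap R F π = a ^ nA * b ^ nB
  hG : aeval (Tz Z r e y) g + algebraMap R F ν * a ^ nX * b ^ nY = 0
  hind : ∃ j₀ : {i : ι // i ≠ s},
    AlgebraicIndependent R (fun i : {i : {i : ι // i ≠ s} // i ≠ j₀} => y i)

section factors

variable {F : Type} [Field F] {ι : Type} [Fintype ι]

/-- The factor `(π, L ^ j)`. -/
def IfR (e : ℕ) (π : F) (x X : ι → F) (j : ℕ) : Set F :=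
  {h | (∃ y ∈ Set.range x ^ (e * j), h = π * y) ∨ h = (∑ i, X i) ^ j}

/-- The base factor of kind `j`. -/
def BR (e : ℕ) (π : F) (x X : ι → F) (s : ι) (c : ι → ℕ) (j : ℕ) : Set F :=
  {h | (∃ y ∈ Set.range x ^ (e * (2 * j + 1)), h = π ^ 2 * y) ∨
    h = (∑ i, X i) ^ (2 * j + 1) ∨
    ∃ i, ∃ y ∈ Set.range x ^ (e * j),
      h = π * (∑ i, X i) ^ j * (X i - (c i : F) * X s) * y}

/-- The base factors: `N` is the degree of `B` minus the degree of `μ`. -/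
def IsBaseR (p e m : ℕ) (π : F) (x X : ι → F) (s : ι) (c : ι → ℕ) (B : Set F) (μ : F) (N : ℕ) :
    Prop :=
  (∃ j, j < m ∧ B = BR e π x X s c j ∧ μ = π * (∑ i, X i) ^ j ∧ N = e * (j + 1)) ∨
  (B = Bl p e x X s c ∧ μ = (p : F) ∧ N = e * p)

/-- The factors (`e = 2 h` or `e = 2 h + 1`). -/
def IsFacR {R : Type} [CommRing R] [Algebra R F] [LinearOrder ι] (p e h m : ℕ) (π : R)
    (g : MvPolynomial ι R) (x X : ι → F) (Φ : Set F) : Prop :=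
  Φ = Set.range x ∨ (∃ j, 1 ≤ j ∧ j ≤ m ∧ Φ = IfR e (algebraMap R F π) x X j) ∨
    ∃ (s : ι) (c : ι → ℕ) (β : R), SpZ p g s c β ∧ (∀ i, i < s → c i = 0) ∧
      ∃ (B : Set F) (μ : F) (N : ℕ), IsBaseR p e m (algebraMap R F π) x X s c B μ N ∧
        ((∃ k, 1 ≤ k ∧ k ≤ h ∧ Φ = Nd B μ (Set.range x) (Yc x c) N k) ∨
          (e = 2 * h + 1 ∧ 1 ≤ h ∧ Φ = Cd B μ (fc X c) (Set.range x) (Yc x c) N h) ∨
          (e = 1 ∧ (∀ i, c i ≠ 0) ∧ Φ = B))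

end factors

/-- The third relation in a chart with `nL = 1`. -/
noncomputable def TotR {R B ι : Type} [CommRing R] [CommRing B] [Algebra R B] [Fintype ι]
    [DecidableEq ι] (ν : R) (nX nY : ℕ) (g : MvPolynomial ι R) (c : ι → ℕ) (Z : Finset ι)
    (s d : ι) (a b : B) (v : TT Z s d → B) (w : ZT Z → B) : B :=
  aeval (TcZ Z s d (fun i => (c i : B)) v w (a * b)) g + algebraMap R B ν * a ^ nX * b ^ nY

/-- The third relation at a point with `b` a unit: `L = a b`, `γ = 1 + ν b ^ n`. -/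
noncomputable def TotL {R B ι : Type} [CommRing R] [CommRing B] [Algebra R B] [Fintype ι]
    [DecidableEq ι] (g : MvPolynomial ι R) (c : ι → ℕ) (Z : Finset ι) (s d : ι) (L γ : B)
    (v : TT Z s d → B) (w : ZT Z → B) : B :=
  aeval (TcZ Z s d (fun i => (c i : B)) v w L) g + L * (γ - 1)

/-- The third relation as a polynomial, first type. -/
noncomputable def F1 {R ι : Type} [CommRing R] [Fintype ι] [DecidableEq ι] (ν : R) (nX nY : ℕ)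
    (g : MvPolynomial ι R) (c : ι → ℕ) (Z : Finset ι) (s d : ι) :
    MvPolynomial (KT Z s d ⊕ ZT Z) R :=
  TotR ν nX nY g c Z s d (X (Sum.inl none)) (X (Sum.inl (some none)))
    (fun k => X (Sum.inl (some (some k)))) (fun z => X (Sum.inr z))

/-- The third relation as a polynomial, second type. -/
noncomputable def F2 {R ι : Type} [CommRing R] [Fintype ι] [DecidableEq ι]
    (g : MvPolynomial ι R) (c : ι → ℕ) (Z : Finset ι) (s d : ι) :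
    MvPolynomial (KT Z s d ⊕ ZT Z) R :=
  TotL g c Z s d (X (Sum.inl none)) (X (Sum.inl (some none)))
    (fun k => X (Sum.inl (some (some k)))) (fun z => X (Sum.inr z))

/-- The second order expansion of the equation `F₀(q, w) = 0`; `u` satisfies
`P(u) + q_{k₁} H(u) = 0` and `π = q_{k₀} ^ (i₁ + 1) q_{k₁} ^ i₂ u`. -/
def ExpA {R κ ζ : Type} [CommRing R] [Fintype κ] [Fintype ζ] (k₀ k₁ : κ) (π : R) (i₁ i₂ : ℕ)
    (P H : Polynomial R) (F₀ : MvPolynomial (κ ⊕ ζ) R) (Q : κ → κ → R) : Prop :=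
  RadI π Q ∧ ∀ {B : Type} [CommRing B] [Algebra R B] (Y : κ → B) (u : B) (w : ζ → B),
    algebraMap R B π = Y k₀ ^ (i₁ + 1) * Y k₁ ^ i₂ * u →
    Polynomial.aeval u P + Y k₁ * Polynomial.aeval u H = 0 →
    aeval (Sum.elim Y w) F₀ - (∑ k, ∑ k', algebraMap R B (Q k k') * Y k * Y k' - ∑ z, w z) ∈
      Ideal.span (Set.range Y) ^ 3 ⊔ Ideal.span (Set.range Y) * Ideal.span (Set.range w) ⊔
        Ideal.span (Set.range w) ^ 2

/-- The situation at a singular point. -/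
structure QA {R F κ ζ : Type} [CommRing R] [Field F] [Algebra R F] [Fintype κ] [Fintype ζ]
    (𝒪 : Subring F) (π : R) (e h : ℕ) (r : ζ → R) (k₀ k₁ : κ) (i₁ i₂ : ℕ) (P H : Polynomial R)
    (F₀ : MvPolynomial (κ ⊕ ζ) R) (q : κ → F) (y : ζ → F) (u : F) : Prop where
  loc : IsLoc 𝒪
  hR : ∀ r : R, algebraMap R F r ∈ 𝒪
  irr : Irreducible π
  heh : e = 2 * h ∨ e = 2 * h + 1
  heZ : 2 ≤ e ∨ IsEmpty ζ
  heU : IsUnit (e : R)
  hr : ∀ z, IsUnit (r z)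
  hk : k₀ ≠ k₁
  hq : ∀ k, q k ∈ 𝒪 ∧ ¬ U 𝒪 (q k)
  hy : ∀ z, y z ∈ 𝒪 ∧ ¬ U 𝒪 (y z)
  hu : U 𝒪 u
  hq0 : q k₀ ≠ 0
  hP : U 𝒪 (Polynomial.aeval u P.derivative)
  hπ : algebraMap R F π = q k₀ ^ (i₁ + 1) * q k₁ ^ i₂ * u
  hE : Polynomial.aeval u P + q k₁ * Polynomial.aeval u H = 0
  hT : aeval (Sum.elim q (fun z => algebraMap R F (r z) * y z ^ e)) F₀ = 0
  pre : ∀ {W A : Type} [CommRing W] [Algebra R W] [CommRing A] [Algebra R A] (pr : W →ₐ[R] A),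
    Function.Surjective pr → ∀ eW : W →ₐ[R] F, (∀ w, pr w = 0 → eW w = 0) →
    (∀ w, eW w ∈ 𝒪) → IsLocOf 𝒪 (eW.range : Set F) → ∀ (Yq : κ → W) (Yy : ζ → W) (u' : W),
    (∀ k, eW (Yq k) = q k) → (∀ z, eW (Yy z) = y z) → eW u' = u →
    pr (algebraMap R W π) = pr (Yq k₀ ^ (i₁ + 1) * Yq k₁ ^ i₂ * u') →
    pr (Polynomial.aeval u' P + Yq k₁ * Polynomial.aeval u' H) = 0 →
    pr (aeval (Sum.elim Yq (fun z => algebraMap R W (r z) * Yy z ^ e)) F₀) = 0 →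
    Gen pr eW (Set.range Yq ∪ Set.range Yy ∪ {u'}) →
    (∀ (q : Ideal A) [q.IsPrime], (∀ w, pr w ∈ q ↔ ¬ U 𝒪 (eW w)) →
      IsRegularLocalRing (Localization.AtPrime q)) → IsRegularLocalRing 𝒪

/-- The situation in the tables. -/
structure CtxR {R F ι : Type} [CommRing R] [Field F] [Algebra R F] [Fintype ι]
    (𝒲 : Subalgebra R F) (𝒪 : Subring F) (p e n m : ℕ) (π ν : R) (nL nA nB nX nY : ℕ)
    (x t : ι → F) (s : ι) (a b : F) : Prop where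
  loc : IsLoc 𝒪
  hW : ∀ w ∈ 𝒲, w ∈ 𝒪
  ram : Ram p n m π ν
  kind : KindR p n m nL nA nB nX nY
  hx : ∀ i, x i ∈ 𝒲
  hxs : x s = 1
  ht : ∀ i, ∃ ρ ∈ 𝒲, t i = ρ * x i ^ e
  hs : t s = 1
  ha : a ∈ 𝒲
  hb : b ∈ 𝒲
  ha0 : a ≠ 0
  hb0 : b ≠ 0
  haU : ¬ U 𝒪 a
  hL : ∑ i, t i = a ^ nL * b
  hπ : algebraMap R F π = a ^ nA * b ^ nB

end Pool.Agent.H945R2.R
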