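import Pool.Agent.H945R2.R.Defs

/-! Statements of the tasks, part 1 (MP_4d1008_ag): base fields ramified over `p` with index
dividing `p - 1`. -/

set_option autoImplicit false

open scoped Pointwise

namespace Pool.Agent.H945R2.R

open Pool.Agent.H918R2.Quad Pool.Agent.H945R2.D Pool.Agent.H945R2.S Pool.Agent.H945R2.E
  MvPolynomial

/-- CLR. Classification of the local subrings. -/
def S_CLR : Prop := ∀ {R F : Type} [CommRing R] [Field F] [Algebra R F] (𝒪 : Subring F),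
  IsLoc 𝒪 → (∀ r : R, algebraMap R F r ∈ 𝒪) → ∀ (p n m : ℕ) (π ν : R), Ram p n m π ν →
  ∀ L G : F, algebraMap R F π ≠ 0 → L ≠ 0 → L ∈ 𝒪 → G ∈ 𝒪 → ¬ U 𝒪 (algebraMap R F π) →
  L ^ p = -((p : F) * G) →
  (∀ j, 1 ≤ j → j ≤ m → algebraMap R F π / L ^ j ∈ 𝒪 ∨ L ^ j / algebraMap R F π ∈ 𝒪) →
  ∃ (nL nA nB nX nY : ℕ) (a b : F), KindR p n m nL nA nB nX nY ∧ a ∈ 𝒪 ∧ b ∈ 𝒪 ∧ ¬ U 𝒪 a ∧
    L = a ^ nL * b ∧ algebraMap R F π = a ^ nA * b ^ nB ∧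
    G + algebraMap R F ν * a ^ nX * b ^ nY = 0

/-! ### Expansions -/

/-- EXPLR. First order expansion of the third relation. -/
def S_EXPLR : Prop := ∀ {R ι : Type} [CommRing R] [IsDomain R] [Fintype ι] [DecidableEq ι]
  (p n m : ℕ) (π ν : R), Ram p n m π ν → ∀ (nA nB nX nY : ℕ), KindR p n m 1 nA nB nX nY →
  1 ≤ nX → ∀ (co : ι → R) (g : MvPolynomial ι R), Coef p co g → ∀ (s : ι) (c : ι → ℕ) (β : R),
  SpZ p g s c β → ∀ Z : Finset ι, (∀ i, i ∈ Z ↔ c i = 0) → ∀ d : ι, s ≠ d → d ∉ Z →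
  ∀ {B : Type} [CommRing B] [Algebra R B] (a b : B) (v : TT Z s d → B) (w : ZT Z → B),
  algebraMap R B π = a ^ nA * b ^ nB → ∃ (v₁ : B) (μ : TT Z s d → B) (μ' : ZT Z → B),
    TotR ν nX nY g c Z s d a b v w = a * v₁ + ∑ k, v k * μ k + ∑ z, w z * μ' z ∧
    v₁ - (b + if nX = 1 then algebraMap R B ν * b ^ nY else 0) ∈
      Ideal.span ({a} ∪ Set.range v ∪ Set.range w)

/-- QX1. Second order expansion, first type. -/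
def S_QX1 : Prop := ∀ {R ι : Type} [CommRing R] [IsDomain R] [Fintype ι] [DecidableEq ι]
  (p n m : ℕ) (π ν : R), Ram p n m π ν → ∀ (j nX nY : ℕ), KindR p n m 1 (j + 1) j nX nY →
  1 ≤ nX → ∀ (co : ι → R) (g : MvPolynomial ι R), Coef p co g → ∀ (s : ι) (c : ι → ℕ) (β : R),
  SpZ p g s c β → ∀ Z : Finset ι, (∀ i, i ∈ Z ↔ c i = 0) → ∀ d : ι, s ≠ d → d ∉ Z →
  ∃ Q : KT Z s d → KT Z s d → R, ExpA none (some none) π j j (Polynomial.X - Polynomial.C 1) 0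
    (F1 ν nX nY g c Z s d) Q

/-- QX2. Second order expansion, second type. -/
def S_QX2 : Prop := ∀ {R ι : Type} [CommRing R] [IsDomain R] [Fintype ι] [DecidableEq ι]
  (p n m : ℕ) (π ν : R), Ram p n m π ν → ∀ (co : ι → R) (g : MvPolynomial ι R), Coef p co g →
  ∀ (s : ι) (c : ι → ℕ) (β : R), SpZ p g s c β → ∀ Z : Finset ι, (∀ i, i ∈ Z ↔ c i = 0) →
  ∀ d : ι, s ≠ d → d ∉ Z →
  ∃ Q : KT Z s d → KT Z s d → R, ExpA none (some none) π (m - 1) 0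
    (Polynomial.X ^ n + Polynomial.C ν) (-Polynomial.X ^ n) (F2 g c Z s d) Q

/-! ### Tables -/

/-- TIR. -/
def S_TIR : Prop := ∀ {R F ι : Type} [CommRing R] [Field F] [Algebra R F] [Fintype ι]
  (𝒲 : Subalgebra R F) (𝒪 : Subring F) (p e n m : ℕ) (π ν : R) (nL nA nB nX nY : ℕ)
  (x t : ι → F) (s : ι) (a b : F), CtxR 𝒲 𝒪 p e n m π ν nL nA nB nX nY x t s a b →
  Prin 𝒲 𝒪 (Set.range x) ∧ ∀ j, j ≤ m → Prin 𝒲 𝒪 (IfR e (algebraMap R F π) x t j)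

/-- TBR. -/
def S_TBR : Prop := ∀ {R F ι : Type} [CommRing R] [Field F] [Algebra R F] [Fintype ι]
  (𝒲 : Subalgebra R F) (𝒪 : Subring F) (p e n m : ℕ) (π ν : R) (nL nA nB nX nY : ℕ)
  (x t : ι → F) (s : ι) (a b : F), CtxR 𝒲 𝒪 p e n m π ν nL nA nB nX nY x t s a b →
  ∀ (s' : ι) (c : ι → ℕ) (j : ℕ), j < m →
  (j ≠ nB ∨ U 𝒪 b ∨ ∃ i, U 𝒪 (t i - (c i : F) * t s')) →
  PrinB 𝒲 𝒪 (BR e (algebraMap R F π) x t s' c j) (algebraMap R F π * (∑ i, t i) ^ j)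

/-- TLR. -/
def S_TLR : Prop := ∀ {R F ι : Type} [CommRing R] [Field F] [Algebra R F] [Fintype ι]
  (𝒲 : Subalgebra R F) (𝒪 : Subring F) (p e n m : ℕ) (π ν : R) (nL nA nB nX nY : ℕ)
  (x t : ι → F) (s : ι) (a b : F), CtxR 𝒲 𝒪 p e n m π ν nL nA nB nX nY x t s a b →
  p.Prime → ∀ (s' : ι) (c : ι → ℕ),
  (nX ≠ 1 ∨ U 𝒪 (t s' ^ (p - 1) + algebraMap R F ν * b ^ n) ∨
    ∃ i, U 𝒪 (t i - (c i : F) * t s')) →
  PrinB 𝒲 𝒪 (Bl p e x t s' c) (p : F)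

/-- XBR. -/
def S_XBR : Prop := ∀ {R F ι : Type} [CommRing R] [Field F] [Algebra R F] [Fintype ι]
  [DecidableEq ι] (𝒲 : Subalgebra R F) (𝒪 : Subring F) (p e n m : ℕ) (π ν : R)
  (j nX nY : ℕ) (x t : ι → F) (s d : ι) (a b : F),
  CtxR 𝒲 𝒪 p e n m π ν 1 (j + 1) j nX nY x t s a b → j < m → s ≠ d → ∀ c : ι → ℕ,
  p ∣ ∑ i, c i → c s = 1 → ∀ Z : Finset ι, (∀ i, i ∈ Z ↔ c i = 0) → d ∉ Z →
  ExcB 𝒲 𝒪 (BR e (algebraMap R F π) x t s c j) (algebraMap R F π * (∑ i, t i) ^ j)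
    (Set.range (zq a b t c : KT Z s d → F)) (Yc x c) e

/-- XLR. -/
def S_XLR : Prop := ∀ {R F ι : Type} [CommRing R] [Field F] [Algebra R F] [Fintype ι]
  [DecidableEq ι] (𝒲 : Subalgebra R F) (𝒪 : Subring F) (p e n m : ℕ) (π ν : R)
  (nA nB nX nY : ℕ) (x t : ι → F) (s d : ι) (a b : F),
  CtxR 𝒲 𝒪 p e n m π ν 1 nA nB nX nY x t s a b → nX = 1 → p.Prime → U 𝒪 b → s ≠ d →
  ∀ c : ι → ℕ, p ∣ ∑ i, c i → c s = 1 → ∀ Z : Finset ι, (∀ i, i ∈ Z ↔ c i = 0) → d ∉ Z →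
  ExcB 𝒲 𝒪 (Bl p e x t s c) (p : F)
    (Set.range (zq (a * b) (1 + algebraMap R F ν * b ^ n) t c : KT Z s d → F)) (Yc x c) e

/-- SCR. Homogeneity of the factors. -/
def S_SCR : Prop := ∀ {R F ι : Type} [CommRing R] [Field F] [Algebra R F] [Fintype ι]
  [LinearOrder ι] (p e h m : ℕ) (π : R), 1 ≤ p → 1 ≤ e → (e = 2 * h ∨ e = 2 * h + 1) →
  ∀ (g : MvPolynomial ι R) (ξ t : ι → F) (lam Lam : F) (ν : Rˣ), lam ≠ 0 →
  Lam = lam ^ e * algebraMap R F ν →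
  (∀ Φ, IsFacR p e h m π g (fun i => lam * ξ i) (fun i => Lam * t i) Φ →
    ∃ Φ', IsFacR p e h m π g ξ t Φ' ∧ Sim R Φ Φ') ∧
  ∀ Φ', IsFacR p e h m π g ξ t Φ' →
    ∃ Φ, IsFacR p e h m π g (fun i => lam * ξ i) (fun i => Lam * t i) Φ ∧ Sim R Φ Φ'

/-! ### Presentations -/

/-- PRER. -/
def S_PRER : Prop := ∀ {R F ι W A : Type} [CommRing R] [IsDomain R] [IsDiscreteValuationRing R]
  [Field F] [Algebra R F] [Fintype ι] [DecidableEq ι] [CommRing W] [Algebra R W] [CommRing A]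
  [Algebra R A] (𝒪 : Subring F) (p e n m : ℕ) (π ν : R) (nL nA nB nX nY : ℕ) (co r : ι → R)
  (g : MvPolynomial ι R) (Z : Finset ι) (y : ι → F) (s : ι) (a b : F),
  DataR 𝒪 p e n m π ν nL nA nB nX nY co r g Z y s a b →
  ∀ (pr : W →ₐ[R] A), Function.Surjective pr →
  ∀ eW : W →ₐ[R] F, (∀ w, pr w = 0 → eW w = 0) → (∀ w, eW w ∈ 𝒪) →
  IsLocOf 𝒪 (eW.range : Set F) → ∀ (Y : ι → W) (a' b' : W), (∀ i, eW (Y i) = y i) → eW a' = a →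
  eW b' = b → Y s = 1 → pr (∑ i, Tz Z r e Y i) = pr (a' ^ nL * b') →
  pr (algebraMap R W π) = pr (a' ^ nA * b' ^ nB) →
  pr (aeval (Tz Z r e Y) g + algebraMap R W ν * a' ^ nX * b' ^ nY) = 0 →
  (∀ w, Frc pr eW (fun i : {i : ι // i ≠ s} => Y i) w) →
  (∀ (q : Ideal A) [q.IsPrime], (∀ w, pr w ∈ q ↔ ¬ U 𝒪 (eW w)) →
    IsRegularLocalRing (Localization.AtPrime q)) → IsRegularLocalRing 𝒪

/-- FABR. -/
def S_FABR : Prop := ∀ {R F ι W A : Type} [CommRing R] [IsDomain R]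
  [Field F] [Algebra R F] [Fintype ι] [DecidableEq ι] [CommRing W] [Algebra R W] [CommRing A]
  [Algebra R A] (𝒪 : Subring F) (p e n m : ℕ) (π ν : R) (nL nA nB nX nY : ℕ) (co r : ι → R)
  (g : MvPolynomial ι R) (Z : Finset ι) (y : ι → F) (s : ι) (a b : F),
  DataR 𝒪 p e n m π ν nL nA nB nX nY co r g Z y s a b →
  ∀ (pr : W →ₐ[R] A) (eW : W →ₐ[R] F),
  (∀ w, pr w = 0 → eW w = 0) → ∀ (Y : ι → W) (a' b' : W), (∀ i, eW (Y i) = y i) → eW a' = a →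
  eW b' = b → Y s = 1 → pr (∑ i, Tz Z r e Y i) = pr (a' ^ nL * b') →
  pr (algebraMap R W π) = pr (a' ^ nA * b' ^ nB) →
  Frc pr eW (fun i : {i : ι // i ≠ s} => Y i) a' ∧ Frc pr eW (fun i : {i : ι // i ≠ s} => Y i) b' ∧
    ∀ i, Frc pr eW (fun i : {i : ι // i ≠ s} => Y i) (Y i)

/-- CH1R. Regularity at the points which are regular on the fibre, in the last chart, and for
`e = 1` at the points with a coordinate which is not a unit. -/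
def S_CH1R : Prop := ∀ {R F ι : Type} [CommRing R] [IsDomain R] [IsDiscreteValuationRing R]
  [Field F] [Algebra R F] [Fintype ι] [DecidableEq ι] (𝒪 : Subring F) (p e n m : ℕ) (π ν : R)
  (nL nA nB nX nY : ℕ) (co r : ι → R) (g : MvPolynomial ι R) (Z : Finset ι) (y : ι → F)
  (s d : ι) (a b : F), DataR 𝒪 p e n m π ν nL nA nB nX nY co r g Z y s a b → s ≠ d → d ∉ Z →
  IsLocOf 𝒪 (Algebra.adjoin R ({a, b} ∪ Set.range y) : Set F) →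
  (nX = 0 ∨ (∃ i, i ∉ Z ∧ i ≠ s ∧ i ≠ d ∧ U 𝒪 (y i ^ (p - 1) - y d ^ (p - 1))) ∨
    (e = 1 ∧ Z.Nonempty ∧ U 𝒪 (y d))) →
  IsRegularLocalRing 𝒪

/-- CH2R. Regularity at the regular points over a special point. -/
def S_CH2R : Prop := ∀ {R F ι : Type} [CommRing R] [IsDomain R] [IsDiscreteValuationRing R]
  [Field F] [Algebra R F] [Fintype ι] [DecidableEq ι] (𝒪 : Subring F) (p e n m : ℕ) (π ν : R)
  (nA nB nX nY : ℕ) (co r : ι → R) (g : MvPolynomial ι R) (Z : Finset ι) (y : ι → F)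
  (s d : ι) (a b : F), DataR 𝒪 p e n m π ν 1 nA nB nX nY co r g Z y s a b → 1 ≤ nX →
  s ≠ d → d ∉ Z → ∀ (c : ι → ℕ) (β : R), SpZ p g s c β → (∀ i, i ∈ Z ↔ c i = 0) →
  IsLocOf 𝒪 (Algebra.adjoin R ({a, b} ∪ Set.range y) : Set F) →
  (∀ i, i ∉ Z → ¬ U 𝒪 (y i - (c i : F))) →
  U 𝒪 (b + if nX = 1 then algebraMap R F ν * b ^ nY else 0) →
  IsRegularLocalRing 𝒪

/-- QA1. The situation at a singular point of the first type. -/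
def S_QA1 : Prop := ∀ {R F ι : Type} [CommRing R] [IsDomain R] [IsDiscreteValuationRing R]
  [Field F] [Algebra R F] [Fintype ι] [DecidableEq ι] (𝒪 : Subring F) (p e h n m : ℕ) (π ν : R)
  (j nX nY : ℕ) (co r : ι → R) (g : MvPolynomial ι R) (Z : Finset ι) (y : ι → F)
  (s d : ι) (a b : F), DataR 𝒪 p e n m π ν 1 (j + 1) j nX nY co r g Z y s a b → 1 ≤ nX →
  (e = 2 * h ∨ e = 2 * h + 1) → (2 ≤ e ∨ Z = ∅) →
  s ≠ d → d ∉ Z → ∀ (c : ι → ℕ) (β : R), SpZ p g s c β → (∀ i, i ∈ Z ↔ c i = 0) →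
  (∀ i, i ∉ Z → ¬ U 𝒪 (y i - (c i : F))) → ¬ U 𝒪 b →
  QA 𝒪 π e h (fun z : ZT Z => r z) none (some none) j j (Polynomial.X - Polynomial.C 1) 0
    (F1 ν nX nY g c Z s d) (zq a b y c : KT Z s d → F) (fun z : ZT Z => y z) 1

/-- QA2. The situation at a singular point of the second type. -/
def S_QA2 : Prop := ∀ {R F ι : Type} [CommRing R] [IsDomain R] [IsDiscreteValuationRing R]
  [Field F] [Algebra R F] [Fintype ι] [DecidableEq ι] (𝒪 : Subring F) (p e h n m : ℕ) (π ν : R)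
  (nA nB nX nY : ℕ) (co r : ι → R) (g : MvPolynomial ι R) (Z : Finset ι) (y : ι → F)
  (s d : ι) (a b : F), DataR 𝒪 p e n m π ν 1 nA nB nX nY co r g Z y s a b → nX = 1 →
  (e = 2 * h ∨ e = 2 * h + 1) → (2 ≤ e ∨ Z = ∅) →
  s ≠ d → d ∉ Z → ∀ (c : ι → ℕ) (β : R), SpZ p g s c β → (∀ i, i ∈ Z ↔ c i = 0) →
  (∀ i, i ∉ Z → ¬ U 𝒪 (y i - (c i : F))) → U 𝒪 b → ¬ U 𝒪 (1 + algebraMap R F ν * b ^ n) →
  QA 𝒪 π e h (fun z : ZT Z => r z) none (some none) (m - 1) 0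
    (Polynomial.X ^ n + Polynomial.C ν) (-Polynomial.X ^ n) (F2 g c Z s d)
    (zq (a * b) (1 + algebraMap R F ν * b ^ n) y c : KT Z s d → F) (fun z : ZT Z => y z) b⁻¹

/-! ### The charts at a singular point -/

section charts

/-- QR1. -/
def S_QR1 : Prop := ∀ {R F κ ζ : Type} [CommRing R] [IsDomain R] [IsDiscreteValuationRing R]
  [Field F] [Algebra R F] [Fintype κ] [DecidableEq κ] [Fintype ζ] [DecidableEq ζ]
  (𝒪 : Subring F) (π : R) (e h : ℕ) (r : ζ → R) (k₀ k₁ : κ) (i₁ i₂ : ℕ) (P H : Polynomial R)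
  (F₀ : MvPolynomial (κ ⊕ ζ) R) (q : κ → F) (y : ζ → F) (u : F) (Q : κ → κ → R),
  QA 𝒪 π e h r k₀ k₁ i₁ i₂ P H F₀ q y u → ExpA k₀ k₁ π i₁ i₂ P H F₀ Q →
  ∀ l, C1 𝒪 q y l → IsLocOf 𝒪 (Algebra.adjoin R (insert u (G1 q y l)) : Set F) →
  IsRegularLocalRing 𝒪

/-- QR2. -/
def S_QR2 : Prop := ∀ {R F κ ζ : Type} [CommRing R] [IsDomain R] [IsDiscreteValuationRing R]
  [Field F] [Algebra R F] [Fintype κ] [DecidableEq κ] [Fintype ζ] [DecidableEq ζ]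
  (𝒪 : Subring F) (π : R) (e h : ℕ) (r : ζ → R) (k₀ k₁ : κ) (i₁ i₂ : ℕ) (P H : Polynomial R)
  (F₀ : MvPolynomial (κ ⊕ ζ) R) (q : κ → F) (y : ζ → F) (u : F) (Q : κ → κ → R),
  QA 𝒪 π e h r k₀ k₁ i₁ i₂ P H F₀ q y u → ExpA k₀ k₁ π i₁ i₂ P H F₀ Q →
  ∀ k z₀ l, 1 ≤ k → k < h → C2 𝒪 q y k z₀ l →
  IsLocOf 𝒪 (Algebra.adjoin R (insert u (G2 q y k z₀ l)) : Set F) → IsRegularLocalRing 𝒪

/-- QR3. -/
def S_QR3 : Prop := ∀ {R F κ ζ : Type} [CommRing R] [IsDomain R] [IsDiscreteValuationRing R]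
  [Field F] [Algebra R F] [Fintype κ] [DecidableEq κ] [Fintype ζ] [DecidableEq ζ]
  (𝒪 : Subring F) (π : R) (e h : ℕ) (r : ζ → R) (k₀ k₁ : κ) (i₁ i₂ : ℕ) (P H : Polynomial R)
  (F₀ : MvPolynomial (κ ⊕ ζ) R) (q : κ → F) (y : ζ → F) (u : F) (Q : κ → κ → R),
  QA 𝒪 π e h r k₀ k₁ i₁ i₂ P H F₀ q y u → ExpA k₀ k₁ π i₁ i₂ P H F₀ Q →
  ∀ k z₀, 1 ≤ k → k ≤ h → (k < h ∨ e = 2 * h + 1) → C3 𝒪 q y k z₀ →
  (∃ m, U 𝒪 (q m / y z₀ ^ k)) →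
  IsLocOf 𝒪 (Algebra.adjoin R (insert u (G3 q y k z₀)) : Set F) → IsRegularLocalRing 𝒪

/-- QR4. -/
def S_QR4 : Prop := ∀ {R F κ ζ : Type} [CommRing R] [IsDomain R] [IsDiscreteValuationRing R]
  [Field F] [Algebra R F] [Fintype κ] [DecidableEq κ] [Fintype ζ] [DecidableEq ζ]
  (𝒪 : Subring F) (π : R) (e h : ℕ) (r : ζ → R) (k₀ k₁ : κ) (i₁ i₂ : ℕ) (P H : Polynomial R)
  (F₀ : MvPolynomial (κ ⊕ ζ) R) (q : κ → F) (y : ζ → F) (u : F) (Q : κ → κ → R),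
  QA 𝒪 π e h r k₀ k₁ i₁ i₂ P H F₀ q y u → ExpA k₀ k₁ π i₁ i₂ P H F₀ Q → 1 ≤ h →
  ∀ f : F, f = fY y r e → ∀ z₀ k₂, e = 2 * h + 1 → C3 𝒪 q y h z₀ →
  (∀ k, ¬ U 𝒪 (zst q y f h e z₀ k)) → zst q y f h e z₀ k₂ ≠ 0 →
  (∀ k, zst q y f h e z₀ k / zst q y f h e z₀ k₂ ∈ 𝒪) →
  IsLocOf 𝒪 (Algebra.adjoin R (insert u (G4 q y f h e z₀ k₂)) : Set F) → IsRegularLocalRing 𝒪

/-- QR5. -/
def S_QR5 : Prop := ∀ {R F κ ζ : Type} [CommRing R] [IsDomain R] [IsDiscreteValuationRing R]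
  [Field F] [Algebra R F] [Fintype κ] [DecidableEq κ] [Fintype ζ] [DecidableEq ζ]
  (𝒪 : Subring F) (π : R) (e h : ℕ) (r : ζ → R) (k₀ k₁ : κ) (i₁ i₂ : ℕ) (P H : Polynomial R)
  (F₀ : MvPolynomial (κ ⊕ ζ) R) (q : κ → F) (y : ζ → F) (u : F) (Q : κ → κ → R),
  QA 𝒪 π e h r k₀ k₁ i₁ i₂ P H F₀ q y u → ExpA k₀ k₁ π i₁ i₂ P H F₀ Q → 1 ≤ h →
  ∀ f : F, f = fY y r e → ∀ z₀, e = 2 * h + 1 → C3 𝒪 q y h z₀ →
  (∀ m, ¬ U 𝒪 (q m / y z₀ ^ h)) → U 𝒪 (f / y z₀ ^ e) →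
  IsLocOf 𝒪 (Algebra.adjoin R (insert u (G3 q y h z₀)) : Set F) → IsRegularLocalRing 𝒪

/-- QR6. -/
def S_QR6 : Prop := ∀ {R F κ ζ : Type} [CommRing R] [IsDomain R] [IsDiscreteValuationRing R]
  [Field F] [Algebra R F] [Fintype κ] [DecidableEq κ] [Fintype ζ] [DecidableEq ζ]
  (𝒪 : Subring F) (π : R) (e h : ℕ) (r : ζ → R) (k₀ k₁ : κ) (i₁ i₂ : ℕ) (P H : Polynomial R)
  (F₀ : MvPolynomial (κ ⊕ ζ) R) (q : κ → F) (y : ζ → F) (u : F) (Q : κ → κ → R),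
  QA 𝒪 π e h r k₀ k₁ i₁ i₂ P H F₀ q y u → ExpA k₀ k₁ π i₁ i₂ P H F₀ Q → 1 ≤ h →
  ∀ z₀, e = 2 * h → C3 𝒪 q y h z₀ →
  IsLocOf 𝒪 (Algebra.adjoin R (insert u (G3 q y h z₀)) : Set F) → IsRegularLocalRing 𝒪

end charts

/-! ### The family of factors -/

/-- DEGR. -/
def S_DEGR : Prop := ∀ {R F ι : Type} [CommRing R] [Field F] [Algebra R F] [Fintype ι]
  [LinearOrder ι] (p e h n m : ℕ) (π ν : R), Ram p n m π ν → 1 ≤ p → 1 ≤ e →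
  (e = 2 * h ∨ e = 2 * h + 1) → ∀ (g : MvPolynomial ι R) (x : ι → F) (u : ι → R) (S : Set F),
  IsFacR p e h m π g x (fun i => algebraMap R F (u i) * x i ^ e) S → ∃ d, HasDegW π x S d

/-- FINR. -/
def S_FINR : Prop := ∀ {R F ι : Type} [CommRing R] [IsDomain R] [Field F] [Algebra R F] [Fintype ι]
  [LinearOrder ι] (p e h m : ℕ) (π : R), (p : R) ≠ 0 → ∀ (g : MvPolynomial ι R) (x X : ι → F),
  {S | IsFacR p e h m π g x X S}.Finite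

end Pool.Agent.H945R2.R
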