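import Pool.Agent.H945R2.R.Props

/-! Statements of the tasks, part 2 (MP_4d1008_ag): local theorem, local arithmetic, gluing. -/

set_option autoImplicit false

open scoped Pointwise

namespace Pool.Agent.H945R2.R

open Pool.Agent.H918R2.Quad Pool.Agent.H945R2.D Pool.Agent.H945R2.S Pool.Agent.H945R2.E
  MvPolynomial

/-- The local situation. -/
structure LocR {R F ι : Type} [CommRing R] [Field F] [Algebra R F] [Fintype ι]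
    (𝒪 : Subring F) (p e h n m : ℕ) (π ν : R) (co u : ι → R) (g : MvPolynomial ι R)
    (x : ι → F) : Prop where
  loc : IsLoc 𝒪
  hR : ∀ r : R, algebraMap R F r ∈ 𝒪
  coef : Coef p co g
  ram : Ram p n m π ν
  πU : ¬ U 𝒪 (algebraMap R F π)
  π0 : algebraMap R F π ≠ 0
  he : 1 ≤ e
  heh : e = 2 * h ∨ e = 2 * h + 1
  heU : IsUnit (e : R)
  hu : ∀ i, IsUnit (u i)
  rel : ∑ i, algebraMap R F (co i) * (algebraMap R F (u i) * x i ^ e) ^ p = 0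
  sum : ∑ i, algebraMap R F (u i) * x i ^ e ≠ 0
  hind : ∀ s, x s ≠ 0 → ∃ j₀ : {i : ι // i ≠ s},
    AlgebraicIndependent R (fun i : {i : {i : ι // i ≠ s} // i ≠ j₀} => x i / x s)
  hg : ∀ c : ι → ℕ, π ∣ aeval (fun i => (c i : R)) g → (p : R) ∣ aeval (fun i => (c i : R)) g

/-- LOCR. -/
def S_LOCR : Prop := ∀ {R F ι κ : Type} [CommRing R] [IsDomain R] [IsDiscreteValuationRing R]
  [Field F] [Algebra R F] [Fintype ι] [LinearOrder ι] [Fintype κ] (𝒪 : Subring F)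
  (p e h n m : ℕ) (π ν : R) (co u : ι → R) (g : MvPolynomial ι R) (x : ι → F),
  LocR 𝒪 p e h n m π ν co u g x → ∀ Φ : κ → Set F,
  Set.range Φ = {S | IsFacR p e h m π g x (fun i => algebraMap R F (u i) * x i ^ e) S} →
  ∀ f : F, f ≠ 0 → f ∈ Submodule.span R (∏ k, Φ k) → (∀ h ∈ ∏ k, Φ k, h / f ∈ 𝒪) →
  IsLocOf 𝒪 (chart R (Submodule.span R (∏ k, Φ k)) f) → IsRegularLocalRing 𝒪

/-- BADR. The local modules at the ramified primes. -/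
def S_BADR : Prop := ∀ {O R K F : Type} [CommRing O] [IsDomain O] [CommRing R] [IsDomain R]
  [Field K] [Field F] [Algebra O R] [Algebra R K] [Algebra O F] [Algebra R F] [Algebra K F]
  [IsScalarTower O R F] [IsScalarTower R K F] (𝔭 : Ideal O) [𝔭.IsPrime]
  [IsLocalization.AtPrime R 𝔭] [IsDiscreteValuationRing R]
  [Finite (IsLocalRing.ResidueField R)] [CharZero K] [IsFractionRing R K] {k : ℕ}
  (p e n m : ℕ) (π ν : R), Ram p n m π ν → p.Prime → p ≠ 2 → 1 ≤ e → IsUnit (e : R) →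
  ∀ a : Fin (k + 2) → O, (∀ i, IsUnit (algebraMap O R (a i))) →
  (∀ i, ∃ (z : ℤ) (y : R), (p : R) ^ 2 ∣ algebraMap O R (a i) - z * y ^ p) →
  ∀ x : Fin (k + 2) → F, x 0 = 1 → ∑ i, algebraMap O F (a i) * x i ^ (p * e) = 0 →
  IntermediateField.adjoin K (Set.range x) = ⊤ → LinearIndependent K (fun i => x i ^ e) →
  ∀ b : Fin k → F, IsTranscendenceBasis K b → LocMod 𝔭 x

/-- HGR. Integrality of the values of `g`. -/
def S_HGR : Prop := ∀ {R ι : Type} [CommRing R] [IsDomain R] [Fintype ι] (p : ℕ), p.Prime →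
  (p : R) ≠ 0 → ∀ π : R, Irreducible π → π ∣ (p : R) → ∀ (co : ι → R) (g : MvPolynomial ι R),
  GRel p co g → (∀ i, ∃ z : ℤ, (p : ℤ) ∣ z - 1 ∧ (p : R) ^ 2 ∣ co i - z) →
  ∀ c : ι → ℕ, π ∣ aeval (fun i => (c i : R)) g → (p : R) ∣ aeval (fun i => (c i : R)) g

/-- The arithmetic hypotheses. -/
def HypR {O ι : Type} [CommRing O] (m : ℕ) (a : ι → O) : Prop :=
  (∀ 𝔭 : Ideal O, 𝔭.IsPrime → ∀ p : ℕ, p.Prime → p ∣ m → (p : O) ∈ 𝔭 →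
    (p : O) ∉ 𝔭 ^ 2 ∨ ∃ n : ℕ, 2 ≤ n ∧ n ∣ p - 1 ∧ (p : O) ∈ 𝔭 ^ n ∧ (p : O) ∉ 𝔭 ^ (n + 1) ∧
      ∀ i, ∃ (z : ℤ) (y : O), a i - z * y ^ p ∈ 𝔭 ^ (2 * n)) ∧
  (∀ 𝔭 : Ideal O, 𝔭.IsPrime → ∀ i, a i ∉ 𝔭 ^ 2) ∧
  ∀ 𝔭 : Ideal O, 𝔭.IsPrime → (m : O) ∈ 𝔭 → ∀ i, a i ∉ 𝔭

/-- ARIR. Local arithmetic. -/
def S_ARIR : Prop := ∀ {O : Type} [CommRing O] [IsDedekindDomain O] [CharZero O] {ι : Type}
  [Fintype ι] (m : ℕ), 3 ≤ m → Squarefree m → ∀ a : ι → O, HypR m a →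
  ∀ (𝔭 : Ideal O) [𝔭.IsPrime] {R : Type} [CommRing R] [IsDomain R] [Algebra O R]
    [IsLocalization.AtPrime R 𝔭],
  ((m : O) ∈ 𝔭 → 𝔭 ≠ ⊥ ∧ (∃ p e : ℕ, p.Prime ∧ m = p * e ∧ IsUnit (e : R) ∧
    (p = 2 → 3 ≤ e ∧ Odd e) ∧ (Irreducible (p : R) ∨ (p ≠ 2 ∧ ∃ (n m' : ℕ) (π ν : R),
      Ram p n m' π ν ∧
      ∀ i, ∃ (z : ℤ) (y : R), (p : R) ^ 2 ∣ algebraMap O R (a i) - z * y ^ p))) ∧
    ∀ i, IsUnit (algebraMap O R (a i))) ∧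
  ((m : O) ∉ 𝔭 → IsUnit (m : R) ∧ ∀ i, IsUnit (algebraMap O R (a i)) ∨
    (a i ∈ 𝔭 ∧ 𝔭 ≠ ⊥ ∧ Irreducible (algebraMap O R (a i))))

/-- GLOR. The global module. -/
def S_GLOR : Prop := ∀ {O K F : Type} [CommRing O] [IsDedekindDomain O] [Field K] [Algebra O K]
  [IsFractionRing O K] [Field F] [Algebra K F] [Algebra O F] [IsScalarTower O K F] [CharZero K],
  (∀ 𝔭 : Ideal O, 𝔭.IsPrime → 𝔭 ≠ ⊥ → Finite (O ⧸ 𝔭)) → ∀ {k : ℕ} (m : ℕ), 3 ≤ m →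
  Squarefree m → ∀ a : Fin (k + 2) → O, HypR m a →
  ∀ x : Fin (k + 2) → F, x 0 = 1 → ∑ i, algebraMap O F (a i) * x i ^ m = 0 →
  IntermediateField.adjoin K (Set.range x) = ⊤ →
  (∀ e : ℕ, 1 ≤ e → e < m → LinearIndependent K (fun i => x i ^ e)) →
  ∀ b : Fin k → F, IsTranscendenceBasis K b → HasModule O F

end Pool.Agent.H945R2.R
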