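import Pool.Agent.H945R2.R.Props
import Pool.Agent.H945R2.S.TBL

/-! Task TLR (helper413), adapted from S.TBL. -/

set_option autoImplicit false

open scoped Pointwise

namespace Pool.Agent.H945R2.R

open Pool.Agent.H918R2.Quad Pool.Agent.H945R2.D Pool.Agent.H945R2.S Pool.Agent.H945R2.E
  MvPolynomial

open TBLaux in
theorem TLR_ok : S_TLR := by
  intro R F ι _ _ _ _ 𝒲 𝒪 p e n m π ν nL nA nB nX nY x t s a b H hpr i₀ c hc
  obtain ⟨loc, hW, ram, kind, hx, hxs, ht', hs, ha, hb, ha0, hb0, haU, hL, hπ⟩ := H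
  have ht : ∀ i, t i ∈ 𝒲 := by
    intro i
    obtain ⟨ρ, hρ, h⟩ := ht' i
    rw [h]
    exact 𝒲.mul_mem hρ (𝒲.pow_mem (hx i) _)
  have hpW : (p : F) ∈ 𝒲 := by
    have := natCast_mem 𝒲 p
    exact this
  have hcW : ∀ i, (c i : F) ∈ 𝒲 := fun i => natCast_mem 𝒲 (c i)
  -- the unit
  obtain ⟨μ, hμ⟩ := ram.unit.exists_right_inv
  have hμ' : algebraMap R F ν * algebraMap R F μ = 1 := by
    rw [← map_mul, hμ, map_one]
  have hνW : algebraMap R F ν ∈ 𝒲 := 𝒲.algebraMap_mem ν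
  have hμW : algebraMap R F μ ∈ 𝒲 := 𝒲.algebraMap_mem μ
  have hrel : (p : F) * algebraMap R F ν = (a ^ nA * b ^ nB) ^ n := by
    rw [← hπ, ← map_pow, ← ram.rel, map_mul, map_natCast]
  have hp : (p : F) = algebraMap R F μ * (a ^ nA * b ^ nB) ^ n := by
    rw [← hrel]
    linear_combination (-(p : F)) * hμ'
  have hμ0 : algebraMap R F μ ≠ 0 := by
    intro h
    rw [h, mul_zero] at hμ'
    exact zero_ne_one hμ'
  have hp0 : (p : F) ≠ 0 := by
    rw [hp]
    exact mul_ne_zero hμ0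
      (pow_ne_zero _ (mul_ne_zero (pow_ne_zero _ ha0) (pow_ne_zero _ hb0)))
  have hd : ∀ i, t i - (c i : F) * t i₀ ∈ 𝒲 := fun i =>
    𝒲.sub_mem (ht i) (𝒲.mul_mem (hcW i) (ht i₀))
  have hn2 := ram.two
  have hnm := ram.nm
  rcases kind.cases with ⟨hk1, hk2⟩ | ⟨hk1, hk2⟩
  · -- `m = p`
    have hA : nA = nB + 1 := by rw [kind.a, hk1, one_mul]
    obtain ⟨k, hk⟩ : ∃ k, m = nB + 1 + k := ⟨m - (nB + 1), by omega⟩
    rw [hk1, pow_one] at hL
    have hLp : (a * b) ^ (p - 1) =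
        (p : F) * (algebraMap R F ν * (a ^ (n * k) * b ^ (n * (k + 1)))) := by
      have e0 : p - 1 = n * (nB + 1) + n * k := by
        rw [← hnm, hk]
        ring_nf
        omega
      rw [hp, e0, hA]
      have e1 : (a * b) ^ (n * (nB + 1) + n * k) =
          (a ^ (nB + 1) * b ^ nB) ^ n * (a ^ (n * k) * b ^ (n * (k + 1))) := by
        rw [mul_pow, mul_pow, ← pow_mul, ← pow_mul]
        have f1 : a ^ (n * (nB + 1) + n * k) = a ^ ((nB + 1) * n) * a ^ (n * k) := by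
          rw [← pow_add]; congr 1; ring
        have f2 : b ^ (n * (nB + 1) + n * k) = b ^ (nB * n) * b ^ (n * (k + 1)) := by
          rw [← pow_add]; congr 1; ring
        rw [f1, f2]
        ring
      rw [e1]
      linear_combination
        (-((a ^ (nB + 1) * b ^ nB) ^ n * (a ^ (n * k) * b ^ (n * (k + 1))))) * hμ'
    have e3 : ∀ i, ((p : F) * t i₀ ^ (p - 1) + (a * b) ^ (p - 1)) * t i / (p : F) =
        (t i₀ ^ (p - 1) + algebraMap R F ν * (a ^ (n * k) * b ^ (n * (k + 1)))) * t i := by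
      intro i
      rw [hLp, div_eq_iff hp0]
      ring
    have e4 : ∀ x y : F, (p : F) * x * y / (p : F) = x * y := by
      intro x y
      rw [div_eq_iff hp0]
      ring
    refine ⟨(p : F), hp0, ?_, ?_, ?_⟩
    · rintro h (⟨y, hy, rfl⟩ | ⟨y, hy, rfl⟩ | ⟨i, rfl⟩ | ⟨i, y, hy, rfl⟩)
      · have : (p : F) ^ 2 * y / (p : F) = (p : F) * y := by
          rw [div_eq_iff hp0]
          ring
        rw [this]
        exact 𝒲.mul_mem hpW (mem_pow hx _ y hy)
      · rw [hL, e4]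
        exact 𝒲.mul_mem (𝒲.mul_mem ha hb) (mem_pow hx _ y hy)
      · rw [hL, e3]
        exact 𝒲.mul_mem (𝒲.add_mem (𝒲.pow_mem (ht i₀) _) (𝒲.mul_mem hνW
          (𝒲.mul_mem (𝒲.pow_mem ha _) (𝒲.pow_mem hb _)))) (ht i)
      · rw [e4]
        exact 𝒲.mul_mem (hd i) (mem_pow hx _ y hy)
    · have key : (∃ i, U 𝒪 (t i - (c i : F) * t i₀)) → ∃ h ∈ Bl p e x t i₀ c, U 𝒪 (h / (p : F)) := by
        rintro ⟨i, hi⟩
        refine ⟨(p : F) * (t i - (c i : F) * t i₀) * 1,
          Or.inr (Or.inr (Or.inr ⟨i, 1, one_mem hxs _, rfl⟩)), ?_⟩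
        rw [e4, mul_one]
        exact hi
      have key2 : U 𝒪 (t i₀ ^ (p - 1) + algebraMap R F ν * (a ^ (n * k) * b ^ (n * (k + 1)))) →
          ∃ h ∈ Bl p e x t i₀ c, U 𝒪 (h / (p : F)) := by
        intro hu
        refine ⟨((p : F) * t i₀ ^ (p - 1) + (∑ i, t i) ^ (p - 1)) * t s,
          Or.inr (Or.inr (Or.inl ⟨s, rfl⟩)), ?_⟩
        rw [hL, e3, hs, mul_one]
        exact hu
      rcases Nat.eq_zero_or_pos k with hk0 | hk0
      · have hX : nX = 1 := by
          have h1 := kind.x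
          rw [hk1, hA, one_mul, ← hnm, hk, hk0, add_zero] at h1
          omega
        rcases hc with h | h | h
        · exact absurd hX h
        · apply key2
          rw [hk0, mul_zero, pow_zero, one_mul, zero_add, mul_one]
          exact h
        · exact key h
      · by_cases hex : ∃ i, U 𝒪 (t i - (c i : F) * t i₀)
        · exact key hex
        · push Not at hex
          have h1 := loc (t s - (c s : F) * t i₀) ((c s : F) * t i₀) (hW _ (hd s))
            (hW _ (𝒲.mul_mem (hcW s) (ht i₀))) (by rw [sub_add_cancel, hs]; exact U_one)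
          have h2 : U 𝒪 (t i₀) :=
            (h1.resolve_left (hex s)).of_mul_right (hW _ (hcW s)) (hW _ (ht i₀))
          apply key2
          obtain ⟨l, hl⟩ : ∃ l, n * k = l + 1 :=
            ⟨n * k - 1, by have := Nat.mul_pos (by omega : 0 < n) hk0; omega⟩
          have e5 : algebraMap R F ν * (a ^ (n * k) * b ^ (n * (k + 1))) =
              a * (algebraMap R F ν * (a ^ l * b ^ (n * (k + 1)))) := by
            rw [hl, pow_succ]
            ring
          rw [e5]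
          exact U_add loc (h2.pow _) (hW _ ha)
            (hW _ (𝒲.mul_mem hνW (𝒲.mul_mem (𝒲.pow_mem ha _) (𝒲.pow_mem hb _)))) haU
    · rw [div_self hp0]
      exact 𝒲.one_mem
  · -- `m = L ^ (p - 1)`
    have hA : nA = p := by rw [kind.a, hk1, hk2, hnm]
    rw [hk1] at hL
    have hm0 : (a ^ n * b) ^ (p - 1) ≠ 0 := pow_ne_zero _ (mul_ne_zero (pow_ne_zero _ ha0) hb0)
    obtain ⟨l, hl⟩ : ∃ l, n = l + 1 := ⟨n - 1, by omega⟩
    set A : F := algebraMap R F μ * a ^ n with hAd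
    have hAW : A ∈ 𝒲 := 𝒲.mul_mem hμW (𝒲.pow_mem ha _)
    have hpm : (p : F) = A * (a ^ n * b) ^ (p - 1) := by
      have e0 : p - 1 = n * m := by omega
      have e1 : (a ^ p * b ^ m) ^ n = a ^ n * (a ^ n * b) ^ (n * m) := by
        rw [mul_pow, mul_pow, ← pow_mul, ← pow_mul, ← pow_mul]
        have f1 : a ^ (p * n) = a ^ n * a ^ (n * (n * m)) := by
          rw [← pow_add, ← hnm]; congr 1; ring
        have f2 : b ^ (m * n) = b ^ (n * m) := by congr 1; ring
        rw [f1, f2]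
        ring
      rw [hp, hA, hk2, e1, e0, hAd]
      ring
    have e4 : ∀ x y : F, (p : F) * x * y / (a ^ n * b) ^ (p - 1) = A * x * y := by
      intro x y
      rw [div_eq_iff hm0]
      nth_rewrite 1 [hpm]
      ring
    refine ⟨(a ^ n * b) ^ (p - 1), hm0, ?_, ?_, ?_⟩
    · rintro h (⟨y, hy, rfl⟩ | ⟨y, hy, rfl⟩ | ⟨i, rfl⟩ | ⟨i, y, hy, rfl⟩)
      · have : (p : F) ^ 2 * y / (a ^ n * b) ^ (p - 1) = A * (p : F) * y := by
          rw [pow_two, e4]
        rw [this]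
        exact 𝒲.mul_mem (𝒲.mul_mem hAW hpW) (mem_pow hx _ y hy)
      · rw [hL, e4]
        exact 𝒲.mul_mem (𝒲.mul_mem hAW (𝒲.mul_mem (𝒲.pow_mem ha _) hb)) (mem_pow hx _ y hy)
      · have : ((p : F) * t i₀ ^ (p - 1) + (∑ i, t i) ^ (p - 1)) * t i / (a ^ n * b) ^ (p - 1) =
            (1 + A * t i₀ ^ (p - 1)) * t i := by
          rw [hL, div_eq_iff hm0]
          nth_rewrite 1 [hpm]
          ring
        rw [this]
        exact 𝒲.mul_mem (𝒲.add_mem 𝒲.one_mem (𝒲.mul_mem hAW (𝒲.pow_mem (ht i₀) _))) (ht i)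
      · rw [e4]
        exact 𝒲.mul_mem (𝒲.mul_mem hAW (hd i)) (mem_pow hx _ y hy)
    · refine ⟨((p : F) * t i₀ ^ (p - 1) + (∑ i, t i) ^ (p - 1)) * t s,
          Or.inr (Or.inr (Or.inl ⟨s, rfl⟩)), ?_⟩
      have : ((p : F) * t i₀ ^ (p - 1) + (∑ i, t i) ^ (p - 1)) * t s / (a ^ n * b) ^ (p - 1) =
            1 + a * (algebraMap R F μ * a ^ l * t i₀ ^ (p - 1)) := by
        rw [hL, hs, div_eq_iff hm0]
        nth_rewrite 1 [hpm]
        have e5 : A = a * (algebraMap R F μ * a ^ l) := by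
          rw [hAd, hl, pow_succ]
          ring
        rw [e5]
        ring
      rw [this]
      exact U_add loc U_one (hW _ ha)
        (hW _ (𝒲.mul_mem (𝒲.mul_mem hμW (𝒲.pow_mem ha _)) (𝒲.pow_mem (ht i₀) _))) haU
    · have : (p : F) / (a ^ n * b) ^ (p - 1) = A := by
        rw [div_eq_iff hm0]
        exact hpm
      rw [this]
      exact hAW

end Pool.Agent.H945R2.R
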